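import Pool.Agent.HexObs.WDefs

/-!
The corner inequality: arcs over a line of slope -60 degrees against walks that reach it.
-/

set_option autoImplicit false

namespace HexObs

open Complex Finset ENNReal Filter Topology

namespace CB

/-! ### geometry of the feet -/

lemma ip_hz_self (d0 : Pt) : ip (hz d0) d0 = 0 := by
  simp only [hz, rotR, ip, Prod.fst_add, Prod.snd_add]
  ring

lemma ip_hz_R {d0 : Pt} (h0 : d0 ∈ dirs) : ip (hz d0) (rotR d0) = 3 := by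
  revert d0
  decide

lemma ip_hz_L {d0 : Pt} (h0 : d0 ∈ dirs) : ip (hz d0) (rotL d0) = -3 := by
  revert d0
  decide

lemma cross_hz {d0 : Pt} (h0 : d0 ∈ dirs) : cross d0 (hz d0) = -2 := by
  revert d0
  decide

lemma cl_hz (d0 : Pt) : cl (hz d0) = 0 := by
  have h3 : (3 : ZMod 3) = 0 := three_eq
  simp only [hz, rotR, cl, Prod.fst_add, Prod.snd_add]
  push_cast
  linear_combination ((d0.1 : ZMod 3) + (d0.2 : ZMod 3)) * h3

lemma cross_smul (d0 : Pt) (k : ℤ) (p : Pt) : cross d0 (k • p) = k * cross d0 p := by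
  simp only [cross, Prod.smul_fst, Prod.smul_snd, smul_eq_mul]
  ring

lemma foot_zero (c d0 : Pt) : foot c d0 0 = c := by
  unfold foot
  rw [zero_smul, add_zero]

lemma foot_add (c d0 : Pt) (j k : ℤ) : foot c d0 (j + k) = foot c d0 j + k • hz d0 := by
  unfold foot
  rw [add_smul, add_assoc]

lemma foot_sub_foot (c d0 : Pt) (j k : ℤ) : foot c d0 j - foot c d0 k = (j - k) • hz d0 := by
  unfold foot
  rw [sub_smul]
  abel

lemma ip_foot_self (c d0 : Pt) (k : ℤ) (v : Pt) : ip (v - foot c d0 k) d0 = ip (v - c) d0 := by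
  have e : v - foot c d0 k = (v - c) - k • hz d0 := by
    unfold foot
    abel
  rw [e, ip_sub_left, ip_smul_left, ip_hz_self]
  ring

lemma ip_foot_R {d0 : Pt} (h0 : d0 ∈ dirs) (c : Pt) (k : ℤ) (v : Pt) :
    ip (v - foot c d0 k) (rotR d0) = ip (v - c) (rotR d0) - 3 * k := by
  have e : v - foot c d0 k = (v - c) - k • hz d0 := by
    unfold foot
    abel
  rw [e, ip_sub_left, ip_smul_left, ip_hz_R h0]
  ring

lemma ip_foot_L {d0 : Pt} (h0 : d0 ∈ dirs) (c : Pt) (k : ℤ) (v : Pt) :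
    ip (v - foot c d0 k) (rotL d0) = ip (v - c) (rotL d0) + 3 * k := by
  have e : v - foot c d0 k = (v - c) - k • hz d0 := by
    unfold foot
    abel
  rw [e, ip_sub_left, ip_smul_left, ip_hz_L h0]
  ring

lemma cl_foot (c d0 : Pt) (k : ℤ) : cl (foot c d0 k) = cl c := by
  unfold foot
  rw [cl_add, cl_smul, cl_hz, mul_zero, add_zero]

lemma isHex_foot (c d0 : Pt) (k : ℤ) (v : Pt) : IsHex (foot c d0 k) d0 v ↔ IsHex c d0 v := by
  unfold IsHex
  rw [cl_foot]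

lemma foot_inj {d0 : Pt} (h0 : d0 ∈ dirs) (c : Pt) {j k : ℤ} (h : foot c d0 j = foot c d0 k) : j = k := by
  have h1 : (j - k) • hz d0 = 0 := by
    rw [← foot_sub_foot c, h, sub_self]
  have h2 := cross_smul d0 (j - k) (hz d0)
  rw [h1, cross_hz h0] at h2
  have h3 : cross d0 0 = 0 := by simp [cross]
  rw [h3] at h2
  omega

/-- a point on the base line is a foot. -/
lemma perp_foot {d0 : Pt} (h0 : d0 ∈ dirs) {p : Pt} (hp : ip p d0 = 0) : ∃ k : ℤ, p = k • hz d0 := by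
  have key : ∀ d ∈ dirs, d = (1, 0) ∨ d = (0, 1) ∨ d = (-1, 1) ∨ d = (-1, 0) ∨ d = (0, -1) ∨ d = (1, -1) := by
    decide
  obtain ⟨a, b⟩ := p
  rcases key d0 h0 with rfl | rfl | rfl | rfl | rfl | rfl
  · refine ⟨a, ?_⟩
    simp only [ip] at hp
    simp only [hz, rotR, Prod.mk_add_mk, Prod.smul_mk, smul_eq_mul, Prod.mk.injEq]
    constructor <;> omega
  · refine ⟨-b, ?_⟩
    simp only [ip] at hp
    simp only [hz, rotR, Prod.mk_add_mk, Prod.smul_mk, smul_eq_mul, Prod.mk.injEq]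
    constructor <;> omega
  · refine ⟨a, ?_⟩
    simp only [ip] at hp
    simp only [hz, rotR, Prod.mk_add_mk, Prod.smul_mk, smul_eq_mul, Prod.mk.injEq]
    constructor <;> omega
  · refine ⟨-a, ?_⟩
    simp only [ip] at hp
    simp only [hz, rotR, Prod.mk_add_mk, Prod.smul_mk, smul_eq_mul, Prod.mk.injEq]
    constructor <;> omega
  · refine ⟨b, ?_⟩
    simp only [ip] at hp
    simp only [hz, rotR, Prod.mk_add_mk, Prod.smul_mk, smul_eq_mul, Prod.mk.injEq]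
    constructor <;> omega
  · refine ⟨-a, ?_⟩
    simp only [ip] at hp
    simp only [hz, rotR, Prod.mk_add_mk, Prod.smul_mk, smul_eq_mul, Prod.mk.injEq]
    constructor <;> omega

/-! ### exits of polygons -/

/-- a walk leaves a polygon through one of its sides, in the direction of the normal. -/
lemma poly_exit {Ω : Set Pt} {v0 d0 : Pt} (h0 : d0 ∈ dirs) {S : Set (Pt × Pt)}
    (hS : ∀ s ∈ S, IsSide v0 d0 s) (hΩ : ∀ v, v ∈ Ω ↔ IsHex v0 d0 v ∧ ∀ s ∈ S, 0 < ip (s.1 - v) s.2)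
    (hv1 : v0 + d0 ∈ Ω) {t : List Bool} (hs : Saw Ω v0 d0 t) (hout : tip v0 d0 t ∉ Ω) :
    ∃ s ∈ S, dx d0 t t.length = s.2 ∧ ip (s.1 - tip v0 d0 t) s.2 = 0 := by
  have hlen : 1 ≤ t.length := by
    by_contra hcon
    have hz : t.length = 0 := by omega
    have : t = [] := List.length_eq_zero_iff.1 hz
    rw [this] at hout
    exact hout hv1
  have hex : ∃ s ∈ S, ip (s.1 - tip v0 d0 t) s.2 ≤ 0 := by
    by_contra hcon
    push Not at hcon
    exact hout ((hΩ _).2 ⟨tip_hex v0 d0 t, hcon⟩)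
  obtain ⟨s, hsS, hsle⟩ := hex
  have hlast : vx v0 d0 t t.length ∈ Ω := hs.mem _ hlen le_rfl
  have h2 := ((hΩ _).1 hlast).2 s hsS
  obtain ⟨a, _, b⟩ := side_step (hS s hsS) (vx_hex v0 d0 t t.length) (ds_mem h0 _ : dx d0 t t.length ∈ dirs) h2 hsle
  exact ⟨s, hsS, a, b⟩

/-! ### the domain left of the corner at c, cut at distance L on the left -/

/-- the strip of height T, left of the line through the corner at c, right of the line at distance L. -/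
def cd (c d0 : Pt) (T L : ℕ) : Set Pt :=
  {v | v ∈ strip c d0 T ∧ ip (v - c) (rotL d0) < 3 * L ∧ ip (v - c) (rotR d0) < 0}

/-- the strip of height T, left of the line through the corner at c. -/
def cy (c d0 : Pt) (T : ℕ) : Set Pt := {v | v ∈ strip c d0 T ∧ ip (v - c) (rotR d0) < 0}

lemma cd_sub_cy (c d0 : Pt) (T L : ℕ) : cd c d0 T L ⊆ cy c d0 T := fun _ h => ⟨h.1, h.2.2⟩

lemma cd_sub_strip (c d0 : Pt) (T L : ℕ) : cd c d0 T L ⊆ strip c d0 T := fun _ h => h.1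

lemma cd_mono (c d0 : Pt) (T : ℕ) {L L' : ℕ} (h : L ≤ L') : cd c d0 T L ⊆ cd c d0 T L' := by
  rintro v ⟨h1, h2, h3⟩
  have : (L : ℤ) ≤ L' := by exact_mod_cast h
  exact ⟨h1, by linarith, h3⟩

lemma cd_sub_trap (c d0 : Pt) (T L : ℕ) : cd c d0 T L ⊆ trap c d0 T L := by
  rintro v ⟨h1, h2, h3⟩
  refine ⟨h1, h2, ?_⟩
  have : (0 : ℤ) ≤ L := by positivity
  linarith

lemma cd_finite {c d0 : Pt} (h0 : d0 ∈ dirs) (T L : ℕ) : (cd c d0 T L).Finite :=
  (trap_finite h0 T L).subset (cd_sub_trap c d0 T L)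

/-- the same as a finite set. -/
noncomputable def cdF {d0 : Pt} (h0 : d0 ∈ dirs) (c : Pt) (T L : ℕ) : Finset Pt := (cd_finite (c := c) h0 T L).toFinset

lemma cdF_coe {d0 : Pt} (h0 : d0 ∈ dirs) (c : Pt) (T L : ℕ) : ((cdF h0 c T L : Finset Pt) : Set Pt) = cd c d0 T L := by
  unfold cdF
  rw [Set.Finite.coe_toFinset]

/-- the sides. -/
def cdS (c d0 : Pt) (T L r : ℕ) : Set (Pt × Pt) :=
  {(foot c d0 (-(r : ℤ)), -d0), (c + d0 + (T : ℤ) • (d0 + rotL d0), d0), (c + (L : ℤ) • (d0 + rotL d0), rotL d0),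
    (c, rotR d0)}

lemma cdS_side {d0 : Pt} (h0 : d0 ∈ dirs) (c : Pt) (T L r : ℕ) :
    ∀ s ∈ cdS c d0 T L r, IsSide (foot c d0 (-(r : ℤ))) d0 s := by
  intro s hs
  unfold IsSide
  rw [cl_foot]
  rcases hs with rfl | rfl | rfl | rfl
  · exact ⟨neg_mem_dirs h0, Or.inl ⟨cl_foot _ _ _, cl_neg d0⟩⟩
  · refine ⟨h0, Or.inr ⟨?_, rfl⟩⟩
    simp only [cl_add, cl_smul, cl_rotL]
    ring
  · refine ⟨rotL_mem h0, Or.inl ⟨?_, cl_rotL d0⟩⟩
    simp only [cl_add, cl_smul, cl_rotL]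
    ring
  · exact ⟨rotR_mem h0, Or.inl ⟨rfl, cl_rotR d0⟩⟩

lemma cd_e1 (c d0 v : Pt) (r : ℕ) : ip (foot c d0 (-(r : ℤ)) - v) (-d0) = ip (v - c) d0 := by
  rw [ip_neg_right, ← ip_neg_left, neg_sub, ip_foot_self]

lemma cd_e2 {d0 : Pt} (h0 : d0 ∈ dirs) (c v : Pt) (T : ℕ) :
    ip (c + d0 + (T : ℤ) • (d0 + rotL d0) - v) d0 = 3 * T + 2 - ip (v - c) d0 := by
  have : c + d0 + (T : ℤ) • (d0 + rotL d0) - v = d0 + (T : ℤ) • (d0 + rotL d0) - (v - c) := by abel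
  rw [this, ip_sub_left, ip_add_left, ip_smul_left, ip_add_left, ip_self_dir h0, ip_comm (rotL d0), ip_rotL_self h0]
  ring

lemma cd_e3 {d0 : Pt} (h0 : d0 ∈ dirs) (c v : Pt) (L : ℕ) :
    ip (c + (L : ℤ) • (d0 + rotL d0) - v) (rotL d0) = 3 * L - ip (v - c) (rotL d0) := by
  have : c + (L : ℤ) • (d0 + rotL d0) - v = (L : ℤ) • (d0 + rotL d0) - (v - c) := by abel
  rw [this, ip_sub_left, ip_smul_left, ip_add_left, ip_rotL_self h0, ip_rotL_rotL h0]
  ring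

lemma cd_e4 (c d0 v : Pt) : ip (c - v) (rotR d0) = - ip (v - c) (rotR d0) := by
  rw [← ip_neg_left, neg_sub]

lemma cdS_iff {d0 : Pt} (h0 : d0 ∈ dirs) (c : Pt) (T L r : ℕ) (v : Pt) :
    v ∈ cd c d0 T L ↔ IsHex (foot c d0 (-(r : ℤ))) d0 v ∧ ∀ s ∈ cdS c d0 T L r, 0 < ip (s.1 - v) s.2 := by
  rw [isHex_foot]
  constructor
  · rintro ⟨⟨h1, h2, h3⟩, h4, h5⟩
    refine ⟨h1, ?_⟩
    intro s hs
    rcases hs with rfl | rfl | rfl | rfl
    · show 0 < ip (foot c d0 (-(r : ℤ)) - v) (-d0)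
      rw [cd_e1]
      exact h2
    · show 0 < ip (c + d0 + (T : ℤ) • (d0 + rotL d0) - v) d0
      rw [cd_e2 h0]
      linarith
    · show 0 < ip (c + (L : ℤ) • (d0 + rotL d0) - v) (rotL d0)
      rw [cd_e3 h0]
      linarith
    · show 0 < ip (c - v) (rotR d0)
      rw [cd_e4]
      linarith
  · rintro ⟨h1, h2⟩
    have a1 := h2 (foot c d0 (-(r : ℤ)), -d0) (by simp [cdS])
    have a2 := h2 (c + d0 + (T : ℤ) • (d0 + rotL d0), d0) (by simp [cdS])
    have a3 := h2 (c + (L : ℤ) • (d0 + rotL d0), rotL d0) (by simp [cdS])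
    have a4 := h2 (c, rotR d0) (by simp [cdS])
    simp only [] at a1 a2 a3 a4
    rw [cd_e1] at a1
    rw [cd_e2 h0] at a2
    rw [cd_e3 h0] at a3
    rw [cd_e4] at a4
    exact ⟨⟨h1, a1, by linarith⟩, by linarith, by linarith⟩

lemma cd_start {d0 : Pt} (h0 : d0 ∈ dirs) (c : Pt) {T L r : ℕ} (hT : 1 ≤ T) (hr : 1 ≤ r) (hL : r < L) :
    foot c d0 (-(r : ℤ)) + d0 ∈ cd c d0 T L := by
  have e : ∀ w : Pt, ip (foot c d0 (-(r : ℤ)) + d0 - c) w = ip d0 w - r * ip (hz d0) w := by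
    intro w
    have : foot c d0 (-(r : ℤ)) + d0 - c = d0 + (-(r : ℤ)) • hz d0 := by
      unfold foot
      abel
    rw [this, ip_add_left, ip_smul_left]
    ring
  have hT' : (1 : ℤ) ≤ T := by exact_mod_cast hT
  have hr' : (1 : ℤ) ≤ r := by exact_mod_cast hr
  have hL' : (r : ℤ) + 1 ≤ L := by exact_mod_cast hL
  refine ⟨⟨?_, ?_, ?_⟩, ?_, ?_⟩
  · right
    rw [cl_add, cl_foot]
  · rw [e, ip_self_dir h0, ip_hz_self]
    norm_num
  · rw [e, ip_self_dir h0, ip_hz_self]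
    linarith
  · rw [e, ip_rotL_self h0, ip_hz_L h0]
    linarith
  · rw [e, ip_rotR_self h0, ip_hz_R h0]
    linarith

lemma cd_good {d0 : Pt} (h0 : d0 ∈ dirs) (c : Pt) {T L r : ℕ} (hT : 1 ≤ T) (hr : 1 ≤ r) (hL : r < L) :
    GoodDom (cdF h0 c T L) (foot c d0 (-(r : ℤ))) d0 := by
  have hmem : ∀ v, v ∈ cdF h0 c T L ↔ v ∈ cd c d0 T L := by
    intro v
    rw [← Finset.mem_coe, cdF_coe]
  apply polygon_good h0 (cdS c d0 T L r) (cdS_side h0 c T L r) (by simp [cdS])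
  · intro v
    rw [hmem, cdS_iff h0 c T L r]
  · rw [hmem]
    exact cd_start h0 c hT hr hL

/-- the exits. -/
lemma cd_exit {d0 : Pt} (h0 : d0 ∈ dirs) (c : Pt) {T L r : ℕ} (hT : 1 ≤ T) (hr : 1 ≤ r) (hL : r < L) {t : List Bool}
    (hs : Saw (cd c d0 T L) (foot c d0 (-(r : ℤ))) d0 t) (hout : tip (foot c d0 (-(r : ℤ))) d0 t ∉ cd c d0 T L) :
    (dx d0 t t.length = -d0 ∧ ip (tip (foot c d0 (-(r : ℤ))) d0 t - c) d0 = 0) ∨
    (dx d0 t t.length = d0 ∧ ip (tip (foot c d0 (-(r : ℤ))) d0 t - c) d0 = 3 * T + 2) ∨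
    (dx d0 t t.length = rotL d0 ∧ ip (tip (foot c d0 (-(r : ℤ))) d0 t - c) (rotL d0) = 3 * L) ∨
    (dx d0 t t.length = rotR d0 ∧ ip (tip (foot c d0 (-(r : ℤ))) d0 t - c) (rotR d0) = 0) := by
  obtain ⟨s, hsS, h1, h2⟩ := poly_exit h0 (cdS_side h0 c T L r) (cdS_iff h0 c T L r) (cd_start h0 c hT hr hL) hs hout
  rcases hsS with rfl | rfl | rfl | rfl
  · left
    simp only [] at h1 h2
    rw [cd_e1] at h2
    exact ⟨h1, h2⟩
  · right
    left
    simp only [] at h1 h2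
    rw [cd_e2 h0] at h2
    exact ⟨h1, by linarith⟩
  · right
    right
    left
    simp only [] at h1 h2
    rw [cd_e3 h0] at h2
    exact ⟨h1, by linarith⟩
  · right
    right
    right
    simp only [] at h1 h2
    rw [cd_e4] at h2
    exact ⟨h1, by linarith⟩

/-- landing on the left is winding 3. -/
lemma gf_left {Ω : Finset Pt} {v d0 : Pt} (h : GoodDom Ω v d0) :
    gf {t | t ∈ out (Ω : Set Pt) v d0 (-d0) ∧ 0 < cross d0 (tip v d0 t - v)} = ENNReal.ofReal (Wn Ω v d0 3) := by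
  classical
  have e : {t | t ∈ out (Ω : Set Pt) v d0 (-d0) ∧ 0 < cross d0 (tip v d0 t - v)} =
      (((exits Ω v d0).filter (fun t => HexObs.wind t = 3) : Finset (List Bool)) : Set (List Bool)) := by
    ext t
    rw [Finset.mem_coe, Finset.mem_filter, Set.mem_ofPred_eq, out_coe, Finset.mem_coe, Finset.mem_filter]
    constructor
    · rintro ⟨⟨h1, h2⟩, h3⟩
      rcases h.bottom h1 h2 with ⟨_, h5⟩ | ⟨h5, _⟩
      · exact ⟨h1, h5⟩
      · exact absurd h3 (not_lt.2 h5.le)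
    · rintro ⟨h1, h2⟩
      have hd : dx d0 t t.length = -d0 := by
        rcases h.wind h1 with ⟨_, hw⟩ | ⟨_, hw⟩ | ⟨_, hw⟩ | ⟨_, hw⟩ | ⟨_, hw⟩ | ⟨hd, _⟩
        · omega
        · omega
        · omega
        · omega
        · omega
        · exact hd
      refine ⟨⟨h1, hd⟩, ?_⟩
      rcases h.bottom h1 hd with ⟨h5, _⟩ | ⟨_, h5⟩
      · exact h5
      · omega
  rw [e, gf_finset]
  rfl

/-- landing on the right is winding -3. -/
lemma gf_right {Ω : Finset Pt} {v d0 : Pt} (h : GoodDom Ω v d0) :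
    gf {t | t ∈ out (Ω : Set Pt) v d0 (-d0) ∧ cross d0 (tip v d0 t - v) < 0} = ENNReal.ofReal (Wn Ω v d0 (-3)) := by
  classical
  have e : {t | t ∈ out (Ω : Set Pt) v d0 (-d0) ∧ cross d0 (tip v d0 t - v) < 0} =
      (((exits Ω v d0).filter (fun t => HexObs.wind t = -3) : Finset (List Bool)) : Set (List Bool)) := by
    ext t
    rw [Finset.mem_coe, Finset.mem_filter, Set.mem_ofPred_eq, out_coe, Finset.mem_coe, Finset.mem_filter]
    constructor
    · rintro ⟨⟨h1, h2⟩, h3⟩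
      rcases h.bottom h1 h2 with ⟨h5, _⟩ | ⟨_, h5⟩
      · exact absurd h3 (not_lt.2 h5.le)
      · exact ⟨h1, h5⟩
    · rintro ⟨h1, h2⟩
      have hd : dx d0 t t.length = -d0 := by
        rcases h.wind h1 with ⟨_, hw⟩ | ⟨_, hw⟩ | ⟨_, hw⟩ | ⟨_, hw⟩ | ⟨_, hw⟩ | ⟨hd, _⟩
        · omega
        · omega
        · omega
        · omega
        · omega
        · exact hd
      refine ⟨⟨h1, hd⟩, ?_⟩
      rcases h.bottom h1 hd with ⟨_, h5⟩ | ⟨h5, _⟩
      · omega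
      · exact h5
  rw [e, gf_finset]
  rfl

lemma sin1_nonneg : 0 ≤ Real.sin (Real.pi / 8) := by
  apply Real.sin_nonneg_of_nonneg_of_le_pi <;> linarith [Real.pi_pos]

lemma sin3_nonneg : 0 ≤ Real.sin (3 * Real.pi / 8) := by
  apply Real.sin_nonneg_of_nonneg_of_le_pi <;> linarith [Real.pi_pos]

/-- the imaginary part of the identity in the domain left of the corner. -/
theorem cd_identity {d0 : Pt} (h0 : d0 ∈ dirs) (c : Pt) {T L r : ℕ} (hT : 1 ≤ T) (hr : 1 ≤ r) (hL : r < L) :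
    ENNReal.ofReal (Real.sin (Real.pi / 8)) * gf (out (cd c d0 T L) (foot c d0 (-(r : ℤ))) d0 (rotL d0)) +
      ENNReal.ofReal (Real.sin (3 * Real.pi / 8)) * gf {t | t ∈ out (cd c d0 T L) (foot c d0 (-(r : ℤ))) d0 (-d0) ∧
        0 < cross d0 (tip (foot c d0 (-(r : ℤ))) d0 t - foot c d0 (-(r : ℤ)))} =
    ENNReal.ofReal (Real.sin (Real.pi / 8)) * gf (out (cd c d0 T L) (foot c d0 (-(r : ℤ))) d0 (rotR d0)) +
      ENNReal.ofReal (Real.sin (3 * Real.pi / 8)) * gf {t | t ∈ out (cd c d0 T L) (foot c d0 (-(r : ℤ))) d0 (-d0) ∧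
        cross d0 (tip (foot c d0 (-(r : ℤ))) d0 t - foot c d0 (-(r : ℤ))) < 0} := by
  have hg := cd_good h0 c hT hr hL
  have him := hg.im_identity
  obtain ⟨_, w1, w2, w3, w4, _⟩ := hg.Wn_eq
  have hz : ∀ e, e = rotL (rotL d0) ∨ e = rotR (rotR d0) → Ex (cdF h0 c T L) (foot c d0 (-(r : ℤ))) d0 e = 0 := by
    intro e he
    unfold Ex
    apply Finset.sum_eq_zero
    intro t ht
    exfalso
    rw [Finset.mem_filter, mem_exits] at ht
    obtain ⟨⟨h1, h2⟩, h3⟩ := ht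
    have h1' : Saw (cd c d0 T L) (foot c d0 (-(r : ℤ))) d0 t := by
      rw [← cdF_coe h0]
      exact saw_coe.2 h1
    have h2' : tip (foot c d0 (-(r : ℤ))) d0 t ∉ cd c d0 T L := by
      rw [← cdF_coe h0, Finset.mem_coe]
      exact h2
    obtain ⟨⟨a1, a2, a3, a4, a5⟩, ⟨b1, b2, b3, b4⟩, ⟨c1, c2, c3⟩, ⟨e1, e2⟩, f1⟩ := dirs_distinct d0 h0
    rcases cd_exit h0 c hT hr hL h1' h2' with ⟨hd, _⟩ | ⟨hd, _⟩ | ⟨hd, _⟩ | ⟨hd, _⟩
    · rw [h3] at hd
      rcases he with rfl | rfl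
      · exact e2 hd.symm
      · exact f1 hd.symm
    · rw [h3] at hd
      rcases he with rfl | rfl
      · exact a3 hd
      · exact a4 hd
    · rw [h3] at hd
      rcases he with rfl | rfl
      · exact b2 hd
      · exact b3 hd
    · rw [h3] at hd
      rcases he with rfl | rfl
      · exact c1 hd
      · exact c2 hd
  rw [w3, w4, hz _ (Or.inl rfl), hz _ (Or.inr rfl), w1, w2] at him
  have hl := gf_left hg
  have hrr := gf_right hg
  rw [cdF_coe] at hl hrr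
  rw [hl, hrr]
  have g1 : gf (out (cd c d0 T L) (foot c d0 (-(r : ℤ))) d0 (rotL d0)) =
      ENNReal.ofReal (Ex (cdF h0 c T L) (foot c d0 (-(r : ℤ))) d0 (rotL d0)) := by
    rw [← cdF_coe h0, gf_out_coe]
  have g2 : gf (out (cd c d0 T L) (foot c d0 (-(r : ℤ))) d0 (rotR d0)) =
      ENNReal.ofReal (Ex (cdF h0 c T L) (foot c d0 (-(r : ℤ))) d0 (rotR d0)) := by
    rw [← cdF_coe h0, gf_out_coe]
  rw [g1, g2, ← ENNReal.ofReal_mul sin1_nonneg, ← ENNReal.ofReal_mul sin3_nonneg, ← ENNReal.ofReal_mul sin1_nonneg,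
    ← ENNReal.ofReal_mul sin3_nonneg,
    ← ENNReal.ofReal_add (mul_nonneg sin1_nonneg (Ex_nonneg _ _ _ _)) (mul_nonneg sin3_nonneg (Wn_nonneg _ _ _ _)),
    ← ENNReal.ofReal_add (mul_nonneg sin1_nonneg (Ex_nonneg _ _ _ _)) (mul_nonneg sin3_nonneg (Wn_nonneg _ _ _ _))]
  congr 1
  linarith

/-! ### the kernel of the arcs between the feet -/

/-- arcs of the domain X between two feet. -/
noncomputable def KX (X : Set Pt) (c d0 : Pt) (i j : ℤ) : ℝ≥0∞ :=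
  gf (outAt X (foot c d0 i) d0 (foot c d0 j) (-d0))

lemma KX_symm {X : Set Pt} {c d0 : Pt} (hX : ∀ k : ℤ, foot c d0 k ∉ X) (i j : ℤ) : KX X c d0 i j = KX X c d0 j i := by
  unfold KX
  rw [gf_rev (hX i) (hX j), neg_neg]

lemma KX_ne_top {X : Finset Pt} {c d0 : Pt} (i j : ℤ) : KX (X : Set Pt) c d0 i j ≠ ∞ := by
  have h : KX (X : Set Pt) c d0 i j ≤ gf (out (X : Set Pt) (foot c d0 i) d0 (-d0)) := gf_mono (fun t ht => ht.1)
  apply ne_top_of_le_ne_top _ h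
  rw [gf_out_coe]
  exact ENNReal.ofReal_ne_top

lemma gf_empty : gf (∅ : Set (List Bool)) = 0 := by
  unfold gf
  rw [_root_.tsum_subtype]
  simp

lemma gf_iUnion_disj {F : ℕ → Set (List Bool)} (h : ∀ i j, i ≠ j → Disjoint (F i) (F j)) :
    gf (⋃ n, F n) = ∑' n, gf (F n) := by
  unfold gf
  apply ENNReal.tsum_biUnion
  intro i _ j _ hij
  exact h i j hij

lemma foot_notMem_cd {d0 : Pt} (c : Pt) (T L : ℕ) (k : ℤ) : foot c d0 k ∉ cd c d0 T L := by
  rintro ⟨⟨_, h, _⟩, _⟩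
  have e : foot c d0 k - c = k • hz d0 := by
    unfold foot
    abel
  rw [e, ip_smul_left, ip_hz_self, mul_zero] at h
  exact lt_irrefl _ h

/-- the landing feet. -/
lemma cd_land {d0 : Pt} (h0 : d0 ∈ dirs) (c : Pt) {T L r : ℕ} (hT : 1 ≤ T) (hr : 1 ≤ r) (hL : r < L) {t : List Bool}
    (ht : t ∈ out (cd c d0 T L) (foot c d0 (-(r : ℤ))) d0 (-d0)) :
    ∃ j : ℤ, j ≤ -1 ∧ tip (foot c d0 (-(r : ℤ))) d0 t = foot c d0 j ∧
      cross d0 (tip (foot c d0 (-(r : ℤ))) d0 t - foot c d0 (-(r : ℤ))) = -2 * (j + r) := by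
  obtain ⟨h1, h2, h3⟩ := ht
  obtain ⟨⟨a1, a2, a3, a4, a5⟩, ⟨b1, b2, b3, b4⟩, ⟨c1, c2, c3⟩, ⟨e1, e2⟩, f1⟩ := dirs_distinct d0 h0
  have hlev : ip (tip (foot c d0 (-(r : ℤ))) d0 t - c) d0 = 0 := by
    rcases cd_exit h0 c hT hr hL h1 h2 with ⟨_, h⟩ | ⟨hd, _⟩ | ⟨hd, _⟩ | ⟨hd, _⟩
    · exact h
    · rw [h3] at hd
      exact absurd hd a5
    · rw [h3] at hd
      exact absurd hd b4
    · rw [h3] at hd
      exact absurd hd c3
  obtain ⟨j, hj⟩ := perp_foot h0 hlev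
  have htip : tip (foot c d0 (-(r : ℤ))) d0 t = foot c d0 j := by
    unfold foot at hj ⊢
    rw [← hj]
    abel
  have hlen : 1 ≤ t.length := by
    by_contra hcon
    have hz : t.length = 0 := by omega
    have : t = [] := List.length_eq_zero_iff.1 hz
    rw [this] at h2
    exact h2 (cd_start h0 c hT hr hL)
  refine ⟨j, ?_, htip, ?_⟩
  · have hlast := h1.mem _ hlen le_rfl
    have e : vx (foot c d0 (-(r : ℤ))) d0 t t.length = foot c d0 j + d0 := by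
      rw [← htip, tip_eq, h3]
      abel
    rw [e] at hlast
    have h4 := hlast.2.2
    have e5 : foot c d0 j + d0 - c = d0 + j • hz d0 := by
      unfold foot
      abel
    rw [e5, ip_add_left, ip_smul_left, ip_rotR_self h0, ip_hz_R h0] at h4
    omega
  · rw [htip, foot_sub_foot, cross_smul, cross_hz h0]
    ring

lemma left_sum {d0 : Pt} (h0 : d0 ∈ dirs) (c : Pt) {T L r : ℕ} (hT : 1 ≤ T) (hr : 1 ≤ r) (hL : r < L) :
    gf {t | t ∈ out (cd c d0 T L) (foot c d0 (-(r : ℤ))) d0 (-d0) ∧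
        0 < cross d0 (tip (foot c d0 (-(r : ℤ))) d0 t - foot c d0 (-(r : ℤ)))} =
      ∑' k : ℕ, KX (cd c d0 T L) c d0 (-(r : ℤ)) (-((r + 1 + k : ℕ) : ℤ)) := by
  have hset : {t | t ∈ out (cd c d0 T L) (foot c d0 (-(r : ℤ))) d0 (-d0) ∧
        0 < cross d0 (tip (foot c d0 (-(r : ℤ))) d0 t - foot c d0 (-(r : ℤ)))} =
      ⋃ k : ℕ, outAt (cd c d0 T L) (foot c d0 (-(r : ℤ))) d0 (foot c d0 (-((r + 1 + k : ℕ) : ℤ))) (-d0) := by
    ext t
    rw [Set.mem_iUnion]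
    constructor
    · rintro ⟨h1, h2⟩
      obtain ⟨j, hj1, hj2, hj3⟩ := cd_land h0 c hT hr hL h1
      rw [hj3] at h2
      refine ⟨(-j - r - 1).toNat, h1, ?_⟩
      rw [hj2]
      congr 1
      push_cast
      omega
    · rintro ⟨k, h1, h2⟩
      refine ⟨h1, ?_⟩
      rw [h2, foot_sub_foot, cross_smul, cross_hz h0]
      push_cast
      omega
  rw [hset, gf_iUnion_disj]
  · rfl
  · intro i j hij
    rw [Set.disjoint_left]
    rintro t ⟨_, h1⟩ ⟨_, h2⟩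
    rw [h1] at h2
    have h3 := foot_inj h0 c h2
    push_cast at h3
    omega

lemma right_sum {d0 : Pt} (h0 : d0 ∈ dirs) (c : Pt) {T L r : ℕ} (hT : 1 ≤ T) (hL : r + 1 < L) :
    gf {t | t ∈ out (cd c d0 T L) (foot c d0 (-((r + 1 : ℕ) : ℤ))) d0 (-d0) ∧
        cross d0 (tip (foot c d0 (-((r + 1 : ℕ) : ℤ))) d0 t - foot c d0 (-((r + 1 : ℕ) : ℤ))) < 0} =
      ∑ q ∈ Finset.range r, KX (cd c d0 T L) c d0 (-((r + 1 : ℕ) : ℤ)) (-((q + 1 : ℕ) : ℤ)) := by
  classical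
  set F : ℕ → Set (List Bool) := fun q => if q < r then
    outAt (cd c d0 T L) (foot c d0 (-((r + 1 : ℕ) : ℤ))) d0 (foot c d0 (-((q + 1 : ℕ) : ℤ))) (-d0) else ∅ with hF
  have hset : {t | t ∈ out (cd c d0 T L) (foot c d0 (-((r + 1 : ℕ) : ℤ))) d0 (-d0) ∧
        cross d0 (tip (foot c d0 (-((r + 1 : ℕ) : ℤ))) d0 t - foot c d0 (-((r + 1 : ℕ) : ℤ))) < 0} = ⋃ q, F q := by
    ext t
    rw [Set.mem_iUnion]
    constructor
    · rintro ⟨h1, h2⟩
      obtain ⟨j, hj1, hj2, hj3⟩ := cd_land h0 c hT (by omega) hL h1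
      rw [hj3] at h2
      push_cast at h2
      refine ⟨(-j - 1).toNat, ?_⟩
      rw [hF]
      simp only
      rw [if_pos (by omega)]
      refine ⟨h1, ?_⟩
      rw [hj2]
      congr 1
      push_cast
      omega
    · rintro ⟨q, hq⟩
      rw [hF] at hq
      simp only at hq
      split_ifs at hq with hqr
      · refine ⟨hq.1, ?_⟩
        rw [hq.2, foot_sub_foot, cross_smul, cross_hz h0]
        push_cast
        omega
      · exact absurd hq (by simp)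
  rw [hset, gf_iUnion_disj, tsum_eq_sum (s := Finset.range r)]
  · apply Finset.sum_congr rfl
    intro q hq
    rw [Finset.mem_range] at hq
    rw [hF]
    simp only
    rw [if_pos hq]
    rfl
  · intro q hq
    rw [Finset.mem_range] at hq
    rw [hF]
    simp only
    rw [if_neg hq, gf_empty]
  · intro i j hij
    rw [Set.disjoint_left, hF]
    simp only
    intro t h1 h2
    split_ifs at h1 with hi
    · split_ifs at h2 with hj
      · obtain ⟨_, h1⟩ := h1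
        obtain ⟨_, h2⟩ := h2
        rw [h1] at h2
        have h3 := foot_inj h0 c h2
        push_cast at h3
        omega
      · exact absurd h2 (by simp)
    · exact absurd h1 (by simp)

/-! ### summation over the starts -/

/-- the telescoping argument. -/
lemma tele_sum {K : ℕ → ℕ → ℝ≥0∞} (hsymm : ∀ a b, K a b = K b a) (hfin : ∀ a b, K a b ≠ ∞) {ER EL : ℕ → ℝ≥0∞}
    {s1 s3 : ℝ≥0∞} (hs3 : s3 ≠ ∞) (R : ℕ)
    (hid : ∀ r, r < R → s1 * EL r + s3 * ∑' k : ℕ, K (r + 1) (r + 2 + k) =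
      s1 * ER r + s3 * ∑ q ∈ Finset.range r, K (r + 1) (q + 1)) :
    s1 * ∑ r ∈ Finset.range R, ER r ≤
      s3 * ∑ r ∈ Finset.range R, ∑' k : ℕ, K (r + 1) (R + 1 + k) + s1 * ∑ r ∈ Finset.range R, EL r := by
  induction R with
  | zero => simp
  | succ R ih =>
    have ih' := ih (fun r hr => hid r (by omega))
    have hR := hid R (by omega)
    set X := ∑ q ∈ Finset.range R, K (R + 1) (q + 1) with hX
    set Y := ∑ r ∈ Finset.range R, ∑' k : ℕ, K (r + 1) (R + 2 + k) with hY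
    have hJ : ∑ r ∈ Finset.range R, ∑' k : ℕ, K (r + 1) (R + 1 + k) = X + Y := by
      rw [hX, hY, ← Finset.sum_add_distrib]
      apply Finset.sum_congr rfl
      intro r _
      rw [tsum_eq_zero_add' ENNReal.summable, add_zero, hsymm (R + 1) (r + 1)]
      congr 1
      apply tsum_congr
      intro k
      congr 1
      omega
    have hJ' : ∑ r ∈ Finset.range (R + 1), ∑' k : ℕ, K (r + 1) (R + 1 + 1 + k) =
        Y + ∑' k : ℕ, K (R + 1) (R + 2 + k) := by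
      rw [Finset.sum_range_succ]
    rw [hJ'] 
    rw [hJ] at ih'
    have hXf : s3 * X ≠ ∞ := ENNReal.mul_ne_top hs3 (ENNReal.sum_ne_top.2 (fun q _ => hfin _ _))
    rw [← ENNReal.add_le_add_iff_right hXf, Finset.sum_range_succ, Finset.sum_range_succ]
    calc s1 * (∑ r ∈ Finset.range R, ER r + ER R) + s3 * X
        = s1 * ∑ r ∈ Finset.range R, ER r + (s1 * ER R + s3 * X) := by ring
      _ = s1 * ∑ r ∈ Finset.range R, ER r + (s1 * EL R + s3 * ∑' k : ℕ, K (R + 1) (R + 2 + k)) := by rw [hR]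
      _ ≤ (s3 * (X + Y) + s1 * ∑ r ∈ Finset.range R, EL r) +
          (s1 * EL R + s3 * ∑' k : ℕ, K (R + 1) (R + 2 + k)) := add_le_add_left ih' _
      _ = s3 * (Y + ∑' k : ℕ, K (R + 1) (R + 2 + k)) + s1 * (∑ r ∈ Finset.range R, EL r + EL R) + s3 * X := by ring

theorem cd_sum {d0 : Pt} (h0 : d0 ∈ dirs) (c : Pt) {T L R : ℕ} (hT : 1 ≤ T) (hL : R < L) :
    ENNReal.ofReal (Real.sin (Real.pi / 8)) *
      ∑ r ∈ Finset.range R, gf (out (cd c d0 T L) (foot c d0 (-((r + 1 : ℕ) : ℤ))) d0 (rotR d0)) ≤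
    ENNReal.ofReal (Real.sin (3 * Real.pi / 8)) *
      ∑ r ∈ Finset.range R, ∑' k : ℕ, KX (cd c d0 T L) c d0 (-((r + 1 : ℕ) : ℤ)) (-((R + 1 + k : ℕ) : ℤ)) +
    ENNReal.ofReal (Real.sin (Real.pi / 8)) *
      ∑ r ∈ Finset.range R, gf (out (cd c d0 T L) (foot c d0 (-((r + 1 : ℕ) : ℤ))) d0 (rotL d0)) := by
  apply tele_sum (K := fun a b => KX (cd c d0 T L) c d0 (-(a : ℤ)) (-(b : ℤ)))
  · intro a b
    exact KX_symm (foot_notMem_cd c T L) _ _
  · intro a b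
    rw [← cdF_coe h0]
    exact KX_ne_top _ _
  · exact ENNReal.ofReal_ne_top
  · intro r hr
    have h1 := cd_identity h0 c hT (r := r + 1) (L := L) (by omega) (by omega)
    rw [left_sum h0 c hT (by omega) (by omega), right_sum h0 c hT (by omega)] at h1
    exact h1

/-! ### translations and the limit -/

/-- translations do not change the words. -/
lemma out_trans (a v0 d0 e : Pt) {Ω Ω' : Set Pt} (h : ∀ v, v ∈ Ω ↔ v + a ∈ Ω') :
    out Ω v0 d0 e = out Ω' (v0 + a) d0 e := by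
  have hu : nrm ((1, 0) : Pt) = 1 := by decide
  have h1 := out_rot hu v0 (v0 + a) d0 e (Ω := Ω) (Ω' := Ω') (by
    intro v
    rw [mulE_one, h]
    have : v0 + a + (v - v0) = v + a := by abel
    rw [this])
  rw [mulE_one, mulE_one] at h1
  exact h1

lemma vx_trans (a v0 d0 : Pt) (t : List Bool) (i : ℕ) : vx (v0 + a) d0 t i = vx v0 d0 t i + a := by
  have h1 := vx_mulE (1, 0) v0 (v0 + a) d0 t i
  rw [mulE_one, mulE_one] at h1
  rw [h1]
  abel

lemma tip_trans (a v0 d0 : Pt) (t : List Bool) : tip (v0 + a) d0 t = tip v0 d0 t + a := vx_trans a v0 d0 t _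

lemma outAt_trans (a v0 d0 w e : Pt) {Ω Ω' : Set Pt} (h : ∀ v, v ∈ Ω ↔ v + a ∈ Ω') :
    outAt Ω v0 d0 w e = outAt Ω' (v0 + a) d0 (w + a) e := by
  unfold outAt
  rw [out_trans a v0 d0 e h]
  ext t
  constructor
  · rintro ⟨h1, h2⟩
    exact ⟨h1, by rw [tip_trans, h2]⟩
  · rintro ⟨h1, h2⟩
    rw [tip_trans] at h2
    exact ⟨h1, add_right_cancel h2⟩

lemma strip_trans (a c d0 : Pt) (T : ℕ) (v : Pt) : v ∈ strip c d0 T ↔ v + a ∈ strip (c + a) d0 T := by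
  have e : v + a - (c + a) = v - c := by abel
  unfold strip IsHex
  rw [Set.mem_ofPred_eq, Set.mem_ofPred_eq, e, cl_add, cl_add]
  constructor
  · rintro ⟨h1, h2⟩
    refine ⟨?_, h2⟩
    rcases h1 with h | h
    · left
      rw [h]
    · right
      rw [h]
      ring
  · rintro ⟨h1, h2⟩
    refine ⟨?_, h2⟩
    rcases h1 with h | h
    · left
      exact add_right_cancel h
    · right
      apply add_right_cancel (b := cl a)
      rw [h]
      ring

lemma strip_foot (c d0 : Pt) (T : ℕ) (k : ℤ) : strip (foot c d0 k) d0 T = strip c d0 T := by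
  ext v
  unfold strip
  rw [Set.mem_ofPred_eq, Set.mem_ofPred_eq, isHex_foot, ip_foot_self]

lemma foot_notMem_strip (c d0 : Pt) (T : ℕ) (k : ℤ) : foot c d0 k ∉ strip c d0 T := by
  rintro ⟨_, h, _⟩
  have e : foot c d0 k - c = k • hz d0 := by
    unfold foot
    abel
  rw [e, ip_smul_left, ip_hz_self, mul_zero] at h
  exact lt_irrefl _ h

/-- arcs of the strip over distance j. -/
noncomputable def GA (v0 d0 : Pt) (T : ℕ) (j : ℤ) : ℝ≥0∞ := gf (outAt (strip v0 d0 T) v0 d0 (foot v0 d0 j) (-d0))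

lemma KX_strip (c d0 v0 : Pt) (T : ℕ) (i j : ℤ) : KX (strip c d0 T) c d0 i j = GA v0 d0 T (j - i) := by
  unfold KX GA
  rw [outAt_trans (v0 - foot c d0 i) (foot c d0 i) d0 (foot c d0 j) (-d0) (Ω' := strip v0 d0 T)]
  · have e1 : foot c d0 i + (v0 - foot c d0 i) = v0 := by abel
    have e2 : foot c d0 j + (v0 - foot c d0 i) = foot v0 d0 (j - i) := by
      unfold foot
      rw [sub_smul]
      abel
    rw [e1, e2]
  · intro v
    rw [← strip_foot c d0 T i, strip_trans (v0 - foot c d0 i)]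
    have e1 : foot c d0 i + (v0 - foot c d0 i) = v0 := by abel
    rw [e1]

lemma GA_neg (v0 d0 : Pt) (T : ℕ) (j : ℤ) : GA v0 d0 T (-j) = GA v0 d0 T j := by
  have h1 := KX_symm (X := strip v0 d0 T) (c := v0) (d0 := d0) (foot_notMem_strip v0 d0 T) 0 j
  rw [KX_strip v0 d0 v0, KX_strip v0 d0 v0, sub_zero, zero_sub] at h1
  exact h1.symm

lemma KX_cd_le (c d0 v0 : Pt) (T L : ℕ) (i j : ℤ) : KX (cd c d0 T L) c d0 i j ≤ GA v0 d0 T (j - i) := by
  rw [← KX_strip c d0 v0]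
  apply gf_mono
  rintro t ⟨⟨h1, h2, h3⟩, h4⟩
  refine ⟨⟨h1.mono (cd_sub_strip c d0 T L), ?_, h3⟩, h4⟩
  rw [h4]
  exact foot_notMem_strip c d0 T j

/-- the corner domain seen from the start at distance r. -/
def cnr (v0 d0 : Pt) (T r : ℕ) : Set Pt := {v | v ∈ strip v0 d0 T ∧ ip (v - v0) (rotR d0) < 3 * r}

lemma cy_cnr {d0 : Pt} (h0 : d0 ∈ dirs) (c v0 : Pt) (T r : ℕ) :
    out (cy c d0 T) (foot c d0 (-(r : ℤ))) d0 (rotR d0) = out (cnr v0 d0 T r) v0 d0 (rotR d0) := by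
  have e1 : foot c d0 (-(r : ℤ)) + (v0 - foot c d0 (-(r : ℤ))) = v0 := by abel
  rw [out_trans (v0 - foot c d0 (-(r : ℤ))) (foot c d0 (-(r : ℤ))) d0 (rotR d0) (Ω' := cnr v0 d0 T r), e1]
  intro v
  have h1 : v ∈ strip c d0 T ↔ v + (v0 - foot c d0 (-(r : ℤ))) ∈ strip v0 d0 T := by
    rw [← strip_foot c d0 T (-(r : ℤ)), strip_trans (v0 - foot c d0 (-(r : ℤ))), e1]
  have h2 : ip (v + (v0 - foot c d0 (-(r : ℤ))) - v0) (rotR d0) = ip (v - c) (rotR d0) + 3 * r := by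
    have e : v + (v0 - foot c d0 (-(r : ℤ))) - v0 = v - foot c d0 (-(r : ℤ)) := by abel
    rw [e, ip_foot_R h0]
    ring
  unfold cy cnr
  rw [Set.mem_ofPred_eq, Set.mem_ofPred_eq, ← h1, h2]
  constructor
  · rintro ⟨a, b⟩
    exact ⟨a, by linarith⟩
  · rintro ⟨a, b⟩
    exact ⟨a, by linarith⟩

/-- the exits through the line. -/
lemma out_cd_R {d0 : Pt} (h0 : d0 ∈ dirs) (c : Pt) {T L r : ℕ} (hT : 1 ≤ T) (hr : 1 ≤ r) (hL : r < L) :
    out (cd c d0 T L) (foot c d0 (-(r : ℤ))) d0 (rotR d0) =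
      {t | t ∈ out (cy c d0 T) (foot c d0 (-(r : ℤ))) d0 (rotR d0) ∧ Saw (cd c d0 T L) (foot c d0 (-(r : ℤ))) d0 t} := by
  obtain ⟨⟨a1, a2, a3, a4, a5⟩, ⟨b1, b2, b3, b4⟩, ⟨c1, c2, c3⟩, ⟨e1, e2⟩, f1⟩ := dirs_distinct d0 h0
  ext t
  constructor
  · rintro ⟨h1, h2, h3⟩
    refine ⟨⟨h1.mono (cd_sub_cy c d0 T L), ?_, h3⟩, h1⟩
    rintro ⟨_, h4⟩
    rcases cd_exit h0 c hT hr hL h1 h2 with ⟨hd, _⟩ | ⟨hd, _⟩ | ⟨hd, _⟩ | ⟨_, h⟩
    · rw [h3] at hd
      exact c3 hd.symm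
    · rw [h3] at hd
      exact a2 hd
    · rw [h3] at hd
      exact b1 hd
    · rw [h] at h4
      exact lt_irrefl _ h4
  · rintro ⟨⟨h1, h2, h3⟩, h4⟩
    exact ⟨h4, fun h => h2 (cd_sub_cy c d0 T L h), h3⟩

lemma saw_cd {c v d0 : Pt} {T : ℕ} {t : List Bool} (h : Saw (cy c d0 T) v d0 t) : ∃ L : ℕ, Saw (cd c d0 T L) v d0 t := by
  have key : ∀ n, n ≤ t.length → ∃ L : ℕ, ∀ i, 1 ≤ i → i ≤ n → ip (vx v d0 t i - c) (rotL d0) < 3 * L := by
    intro n
    induction n with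
    | zero => exact fun _ => ⟨0, fun i h1 h2 => by omega⟩
    | succ n ih =>
      intro hn
      obtain ⟨L, hL⟩ := ih (by omega)
      refine ⟨max L (ip (vx v d0 t (n + 1) - c) (rotL d0)).toNat + 1, ?_⟩
      intro i h1 h2
      rcases Nat.lt_or_ge n i with h3 | h3
      · have : i = n + 1 := by omega
        rw [this]
        push_cast
        omega
      · have := hL i h1 h3
        push_cast
        omega
  obtain ⟨L, hL⟩ := key t.length le_rfl
  exact ⟨L, ⟨fun i h1 h2 => ⟨(h.mem i h1 h2).1, hL i h1 h2, (h.mem i h1 h2).2⟩, h.inj⟩⟩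

lemma tendsto_R {d0 : Pt} (h0 : d0 ∈ dirs) (c : Pt) {T r : ℕ} (hT : 1 ≤ T) (hr : 1 ≤ r) :
    Tendsto (fun L => gf (out (cd c d0 T (L + r + 1)) (foot c d0 (-(r : ℤ))) d0 (rotR d0))) atTop
      (𝓝 (gf (out (cy c d0 T) (foot c d0 (-(r : ℤ))) d0 (rotR d0)))) := by
  have hmono : Monotone (fun L => out (cd c d0 T (L + r + 1)) (foot c d0 (-(r : ℤ))) d0 (rotR d0)) := by
    intro L L' hLL t ht
    simp only at ht ⊢
    rw [out_cd_R h0 c hT hr (by omega)] at ht ⊢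
    exact ⟨ht.1, ht.2.mono (cd_mono c d0 T (by omega))⟩
  have hm : Monotone (fun L => gf (out (cd c d0 T (L + r + 1)) (foot c d0 (-(r : ℤ))) d0 (rotR d0))) :=
    fun L L' h => gf_mono (hmono h)
  have hsup : ⨆ L, gf (out (cd c d0 T (L + r + 1)) (foot c d0 (-(r : ℤ))) d0 (rotR d0)) =
      gf (out (cy c d0 T) (foot c d0 (-(r : ℤ))) d0 (rotR d0)) := by
    apply le_antisymm
    · apply iSup_le
      intro L
      apply gf_mono
      intro t ht
      rw [out_cd_R h0 c hT hr (by omega)] at ht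
      exact ht.1
    · apply gf_le_of_mono_union _ hmono
      · intro t ht
        rw [Set.mem_iUnion]
        obtain ⟨L, hL⟩ := saw_cd ht.1
        refine ⟨L, ?_⟩
        rw [out_cd_R h0 c hT hr (by omega)]
        exact ⟨ht, hL.mono (cd_mono c d0 T (by omega))⟩
      · intro L
        exact le_iSup (fun L => gf (out (cd c d0 T (L + r + 1)) (foot c d0 (-(r : ℤ))) d0 (rotR d0))) L
  rw [← hsup]
  exact tendsto_atTop_iSup hm

/-- the exits on the far left disappear. -/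
lemma tendsto_L {d0 : Pt} (h0 : d0 ∈ dirs) (c : Pt) {T r : ℕ} (hT : 1 ≤ T) (hr : 1 ≤ r) :
    Tendsto (fun L => gf (out (cd c d0 T (L + r + 1)) (foot c d0 (-(r : ℤ))) d0 (rotL d0))) atTop (𝓝 0) := by
  obtain ⟨⟨a1, a2, a3, a4, a5⟩, ⟨b1, b2, b3, b4⟩, ⟨c1, c2, c3⟩, ⟨e1, e2⟩, f1⟩ := dirs_distinct d0 h0
  have h1 := lateral_zero (v0 := foot c d0 (-(r : ℤ))) h0 hT true
  apply tendsto_of_tendsto_of_tendsto_of_le_of_le' tendsto_const_nhds h1
  · exact Eventually.of_forall (fun _ => bot_le)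
  · filter_upwards [eventually_ge_atTop r] with L hL
    apply gf_mono
    rintro t ⟨h1, h2, h3⟩
    have hsub : cd c d0 T (L + r + 1) ⊆ trap (foot c d0 (-(r : ℤ))) d0 T (L + 1) := by
      rintro v ⟨g1, g2, g3⟩
      have g1' : v ∈ strip (foot c d0 (-(r : ℤ))) d0 T := by
        rw [strip_foot]
        exact g1
      refine ⟨g1', ?_, ?_⟩
      · rw [ip_foot_L h0]
        push_cast at g2 ⊢
        linarith
      · rw [ip_foot_R h0]
        have : (r : ℤ) ≤ L := by exact_mod_cast hL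
        push_cast
        linarith
    refine ⟨h1.mono hsub, ?_, h3⟩
    intro h4
    have h5 := h4.2.1
    rw [ip_foot_L h0] at h5
    rcases cd_exit h0 c hT hr (by omega) h1 h2 with ⟨hd, _⟩ | ⟨hd, _⟩ | ⟨_, h⟩ | ⟨hd, _⟩
    · rw [h3] at hd
      exact b4 hd.symm
    · rw [h3] at hd
      exact a1 hd
    · rw [h] at h5
      push_cast at h5
      linarith
    · rw [h3] at hd
      exact b1 hd.symm

/-- arcs over a distance at least r + 1 against walks to the line at distance r + 1. -/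
theorem corner_main {d0 : Pt} (h0 : d0 ∈ dirs) (v0 : Pt) {T : ℕ} (hT : 1 ≤ T) (R : ℕ) :
    ENNReal.ofReal (Real.sin (Real.pi / 8)) * ∑ r ∈ Finset.range R, gf (out (cnr v0 d0 T (r + 1)) v0 d0 (rotR d0)) ≤
    ENNReal.ofReal (Real.sin (3 * Real.pi / 8)) *
      ∑ r ∈ Finset.range R, ∑' k : ℕ, GA v0 d0 T ((r + 1 + k : ℕ) : ℤ) := by
  have hlim : ∀ r < R, Tendsto (fun n : ℕ => n + (2 * R - (r + 1))) atTop atTop := fun r _ =>
    tendsto_add_atTop_nat _
  have eL : ∀ r < R, ∀ n : ℕ, n + (2 * R - (r + 1)) + (r + 1) + 1 = n + 2 * R + 1 := fun r hr n => by omega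
  have t1 : Tendsto (fun n : ℕ => ENNReal.ofReal (Real.sin (Real.pi / 8)) *
      ∑ r ∈ Finset.range R, gf (out (cd v0 d0 T (n + 2 * R + 1)) (foot v0 d0 (-((r + 1 : ℕ) : ℤ))) d0 (rotR d0))) atTop
      (𝓝 (ENNReal.ofReal (Real.sin (Real.pi / 8)) *
        ∑ r ∈ Finset.range R, gf (out (cnr v0 d0 T (r + 1)) v0 d0 (rotR d0)))) := by
    apply ENNReal.Tendsto.const_mul _ (Or.inr ENNReal.ofReal_ne_top)
    apply tendsto_finsetSum
    intro r hr
    rw [Finset.mem_range] at hr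
    have h1 := (tendsto_R h0 v0 (T := T) (r := r + 1) hT (by omega)).comp (hlim r hr)
    rw [cy_cnr h0 v0 v0] at h1
    refine h1.congr (fun n => ?_)
    show gf (out (cd v0 d0 T (n + (2 * R - (r + 1)) + (r + 1) + 1)) _ _ _) = _
    rw [eL r hr]
  have t2 : Tendsto (fun n : ℕ => ENNReal.ofReal (Real.sin (3 * Real.pi / 8)) *
      ∑ r ∈ Finset.range R, ∑' k : ℕ, GA v0 d0 T ((r + 1 + k : ℕ) : ℤ) +
      ENNReal.ofReal (Real.sin (Real.pi / 8)) *
      ∑ r ∈ Finset.range R, gf (out (cd v0 d0 T (n + 2 * R + 1)) (foot v0 d0 (-((r + 1 : ℕ) : ℤ))) d0 (rotL d0))) atTop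
      (𝓝 (ENNReal.ofReal (Real.sin (3 * Real.pi / 8)) *
      ∑ r ∈ Finset.range R, ∑' k : ℕ, GA v0 d0 T ((r + 1 + k : ℕ) : ℤ) +
      ENNReal.ofReal (Real.sin (Real.pi / 8)) * ∑ r ∈ Finset.range R, 0)) := by
    apply Tendsto.add tendsto_const_nhds
    apply ENNReal.Tendsto.const_mul _ (Or.inr ENNReal.ofReal_ne_top)
    apply tendsto_finsetSum
    intro r hr
    rw [Finset.mem_range] at hr
    have h1 := (tendsto_L h0 v0 (T := T) (r := r + 1) hT (by omega)).comp (hlim r hr)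
    refine h1.congr (fun n => ?_)
    show gf (out (cd v0 d0 T (n + (2 * R - (r + 1)) + (r + 1) + 1)) _ _ _) = _
    rw [eL r hr]
  rw [Finset.sum_const_zero, mul_zero, add_zero] at t2
  apply le_of_tendsto_of_tendsto' t1 t2
  intro n
  refine (cd_sum h0 v0 (T := T) (L := n + 2 * R + 1) (R := R) hT (by omega)).trans ?_
  apply add_le_add_left
  apply mul_le_mul_right
  rw [← Finset.sum_range_reflect (fun r => ∑' k : ℕ, GA v0 d0 T ((r + 1 + k : ℕ) : ℤ)) R]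
  apply Finset.sum_le_sum
  intro r hr
  rw [Finset.mem_range] at hr
  apply ENNReal.tsum_le_tsum
  intro k
  refine (KX_cd_le v0 d0 v0 T _ _ _).trans (le_of_eq ?_)
  have e : -((R + 1 + k : ℕ) : ℤ) - -((r + 1 : ℕ) : ℤ) = -((R - 1 - r + 1 + k : ℕ) : ℤ) := by
    push_cast
    omega
  rw [e, GA_neg]

end CB

end HexObs
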