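import Pool.Agent.HexObs.Polygon

set_option autoImplicit false

namespace HexObs

open Complex Finset

/-- the imaginary part of the identity. -/
theorem identity_im (Ω : Finset Pt) {v0 d0 : Pt} (h0 : d0 ∈ dirs) (hhalf : ∀ v ∈ Ω, 0 < ip (v - v0) d0) :
    ∑ t ∈ exits Ω v0 d0, Real.sin (wind t * (Real.pi / 8)) * xc ^ t.length = 0 := by
  have h1 := congrArg Complex.im (identity Ω h0 hhalf)
  rw [Complex.im_sum, Complex.one_im] at h1
  rw [← h1]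
  apply Finset.sum_congr rfl
  intro t _
  unfold wt
  rw [← Complex.ofReal_pow, Complex.im_mul_ofReal, Complex.exp_ofReal_mul_I_im]

/-- generating function of the walks that leave the domain with winding n (in units of 60 degrees). -/
noncomputable def Wn (Ω : Finset Pt) (v0 d0 : Pt) (n : ℤ) : ℝ :=
  ∑ t ∈ (exits Ω v0 d0).filter (fun t => wind t = n), xc ^ t.length

lemma Wn_nonneg (Ω : Finset Pt) (v0 d0 : Pt) (n : ℤ) : 0 ≤ Wn Ω v0 d0 n :=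
  Finset.sum_nonneg (fun _ _ => pow_nonneg xc_pos.le _)

lemma GoodDom.wind_cases {Ω : Finset Pt} {v0 d0 : Pt} (h : GoodDom Ω v0 d0) {t : List Bool}
    (ht : t ∈ exits Ω v0 d0) : HexObs.wind t = 0 ∨ HexObs.wind t = 1 ∨ HexObs.wind t = -1 ∨ HexObs.wind t = 2 ∨
      HexObs.wind t = -2 ∨ HexObs.wind t = 3 ∨ HexObs.wind t = -3 := by
  rcases h.wind ht with ⟨_, hw⟩ | ⟨_, hw⟩ | ⟨_, hw⟩ | ⟨_, hw⟩ | ⟨_, hw⟩ | ⟨_, hw | hw⟩
  · exact Or.inl hw
  · exact Or.inr (Or.inl hw)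
  · exact Or.inr (Or.inr (Or.inl hw))
  · exact Or.inr (Or.inr (Or.inr (Or.inl hw)))
  · exact Or.inr (Or.inr (Or.inr (Or.inr (Or.inl hw))))
  · exact Or.inr (Or.inr (Or.inr (Or.inr (Or.inr (Or.inl hw)))))
  · exact Or.inr (Or.inr (Or.inr (Or.inr (Or.inr (Or.inr hw)))))

/-- both parts of the identity, by windings. -/
theorem GoodDom.sum_wind {Ω : Finset Pt} {v0 d0 : Pt} (h : GoodDom Ω v0 d0) (f : ℤ → ℝ) :
    ∑ t ∈ exits Ω v0 d0, f (HexObs.wind t) * xc ^ t.length =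
      f 0 * Wn Ω v0 d0 0 + f 1 * Wn Ω v0 d0 1 + f (-1) * Wn Ω v0 d0 (-1) + f 2 * Wn Ω v0 d0 2 +
      f (-2) * Wn Ω v0 d0 (-2) + f 3 * Wn Ω v0 d0 3 + f (-3) * Wn Ω v0 d0 (-3) := by
  classical
  unfold Wn
  simp only [Finset.sum_filter]
  simp only [Finset.mul_sum]
  simp only [← Finset.sum_add_distrib]
  apply Finset.sum_congr rfl
  intro t ht
  rcases h.wind_cases ht with hw | hw | hw | hw | hw | hw | hw <;> rw [hw] <;> norm_num

theorem GoodDom.re_identity {Ω : Finset Pt} {v0 d0 : Pt} (h : GoodDom Ω v0 d0) :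
    Wn Ω v0 d0 0 + Real.cos (Real.pi / 8) * (Wn Ω v0 d0 1 + Wn Ω v0 d0 (-1)) +
      Real.cos (Real.pi / 4) * (Wn Ω v0 d0 2 + Wn Ω v0 d0 (-2)) +
      Real.cos (3 * Real.pi / 8) * (Wn Ω v0 d0 3 + Wn Ω v0 d0 (-3)) = 1 := by
  have h1 := h.sum_wind (fun n => Real.cos (n * (Real.pi / 8)))
  rw [identity_re Ω h.dir h.half] at h1
  push_cast at h1
  have e1 : Real.cos (-1 * (Real.pi / 8)) = Real.cos (Real.pi / 8) := by
    rw [neg_one_mul, Real.cos_neg]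
  have e2 : Real.cos (2 * (Real.pi / 8)) = Real.cos (Real.pi / 4) := by
    congr 1
    ring
  have e2' : Real.cos (-2 * (Real.pi / 8)) = Real.cos (Real.pi / 4) := by
    rw [show (-2 : ℝ) * (Real.pi / 8) = -(Real.pi / 4) by ring, Real.cos_neg]
  have e3 : Real.cos (3 * (Real.pi / 8)) = Real.cos (3 * Real.pi / 8) := by
    congr 1
    ring
  have e3' : Real.cos (-3 * (Real.pi / 8)) = Real.cos (3 * Real.pi / 8) := by
    rw [show (-3 : ℝ) * (Real.pi / 8) = -(3 * Real.pi / 8) by ring, Real.cos_neg]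
  rw [zero_mul, Real.cos_zero, one_mul (Real.pi / 8), e1, e2, e2', e3, e3'] at h1
  linarith

/-- the imaginary part: left and right balance. -/
theorem GoodDom.im_identity {Ω : Finset Pt} {v0 d0 : Pt} (h : GoodDom Ω v0 d0) :
    Real.sin (Real.pi / 8) * (Wn Ω v0 d0 1 - Wn Ω v0 d0 (-1)) +
      Real.sin (Real.pi / 4) * (Wn Ω v0 d0 2 - Wn Ω v0 d0 (-2)) +
      Real.sin (3 * Real.pi / 8) * (Wn Ω v0 d0 3 - Wn Ω v0 d0 (-3)) = 0 := by
  have h1 := h.sum_wind (fun n => Real.sin (n * (Real.pi / 8)))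
  rw [identity_im Ω h.dir h.half] at h1
  push_cast at h1
  have e1 : Real.sin (-1 * (Real.pi / 8)) = - Real.sin (Real.pi / 8) := by
    rw [neg_one_mul, Real.sin_neg]
  have e2 : Real.sin (2 * (Real.pi / 8)) = Real.sin (Real.pi / 4) := by
    congr 1
    ring
  have e2' : Real.sin (-2 * (Real.pi / 8)) = - Real.sin (Real.pi / 4) := by
    rw [show (-2 : ℝ) * (Real.pi / 8) = -(Real.pi / 4) by ring, Real.sin_neg]
  have e3 : Real.sin (3 * (Real.pi / 8)) = Real.sin (3 * Real.pi / 8) := by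
    congr 1
    ring
  have e3' : Real.sin (-3 * (Real.pi / 8)) = - Real.sin (3 * Real.pi / 8) := by
    rw [show (-3 : ℝ) * (Real.pi / 8) = -(3 * Real.pi / 8) by ring, Real.sin_neg]
  rw [zero_mul, Real.sin_zero, one_mul (Real.pi / 8), e1, e2, e2', e3, e3'] at h1
  linarith

/-- the winding of a walk that leaves through the side of its start: +3 to the left of the start, -3 to the right. -/
theorem GoodDom.bottom {Ω : Finset Pt} {v0 d0 : Pt} (h : GoodDom Ω v0 d0) {t : List Bool}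
    (ht : t ∈ exits Ω v0 d0) (hd : dx d0 t t.length = -d0) :
    (0 < cross d0 (tip v0 d0 t - v0) ∧ HexObs.wind t = 3) ∨ (cross d0 (tip v0 d0 t - v0) < 0 ∧ HexObs.wind t = -3) := by
  have harr := (mem_exits.1 ht).1
  have hlen : 1 ≤ t.length := by
    by_contra hcon
    have hz : t.length = 0 := by omega
    rw [hz] at hd
    have hd' : d0 = -d0 := hd
    obtain ⟨⟨_, _, _, _, a5⟩, _⟩ := dirs_distinct d0 h.dir
    exact a5 hd'.symm
  obtain ⟨_, _, hc⟩ := wind_bounds h.dir hlen harr.inj (fun i h1 h2 => h.half _ (harr.mem i h1 h2))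
    (fun i h1 h2 => h.exit t ht _ (harr.mem i h1 h2))
  have e : cross d0 (vx v0 d0 t t.length + tip v0 d0 t - (v0 + v0)) = 2 * cross d0 (tip v0 d0 t - v0) := by
    have h1 : vx v0 d0 t t.length = tip v0 d0 t + d0 := by
      show _ = vx v0 d0 t t.length + dx d0 t t.length + d0
      rw [hd]
      abel
    rw [h1]
    simp only [cross, Prod.fst_sub, Prod.snd_sub, Prod.fst_add, Prod.snd_add]
    ring
  rw [e] at hc
  obtain ⟨⟨a1, a2, a3, a4, a5⟩, ⟨b1, b2, b3, b4⟩, ⟨c1, c2, c3⟩, ⟨e1, e2⟩, f1⟩ := dirs_distinct d0 h.dir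
  rcases h.wind ht with ⟨hd', hw⟩ | ⟨hd', hw⟩ | ⟨hd', hw⟩ | ⟨hd', hw⟩ | ⟨hd', hw⟩ | ⟨hd', hw⟩
  · exact absurd (hd.symm.trans hd') a5
  · exact absurd (hd.symm.trans hd') b4
  · exact absurd (hd.symm.trans hd') c3
  · exact absurd (hd.symm.trans hd') e2
  · exact absurd (hd.symm.trans hd') f1
  · rcases hw with hw | hw
    · left
      exact ⟨by omega, hw⟩
    · right
      exact ⟨by omega, hw⟩

/-- windings and exit directions. -/
lemma GoodDom.Wn_eq {Ω : Finset Pt} {v0 d0 : Pt} (h : GoodDom Ω v0 d0) :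
    Wn Ω v0 d0 0 = Ex Ω v0 d0 d0 ∧ Wn Ω v0 d0 1 = Ex Ω v0 d0 (rotL d0) ∧ Wn Ω v0 d0 (-1) = Ex Ω v0 d0 (rotR d0) ∧
    Wn Ω v0 d0 2 = Ex Ω v0 d0 (rotL (rotL d0)) ∧ Wn Ω v0 d0 (-2) = Ex Ω v0 d0 (rotR (rotR d0)) ∧
    Wn Ω v0 d0 3 + Wn Ω v0 d0 (-3) = Ex Ω v0 d0 (-d0) := by
  classical
  obtain ⟨⟨a1, a2, a3, a4, a5⟩, ⟨b1, b2, b3, b4⟩, ⟨c1, c2, c3⟩, ⟨e1, e2⟩, f1⟩ := dirs_distinct d0 h.dir
  have a1' := a1.symm
  have a2' := a2.symm
  have a3' := a3.symm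
  have a4' := a4.symm
  have a5' := a5.symm
  have b1' := b1.symm
  have b2' := b2.symm
  have b3' := b3.symm
  have b4' := b4.symm
  have c1' := c1.symm
  have c2' := c2.symm
  have c3' := c3.symm
  have e1' := e1.symm
  have e2' := e2.symm
  have f1' := f1.symm
  have key : ∀ (n : ℤ) (e : Pt), (∀ t ∈ exits Ω v0 d0, HexObs.wind t = n ↔ dx d0 t t.length = e) →
      Wn Ω v0 d0 n = Ex Ω v0 d0 e := by
    intro n e hne
    unfold Wn Ex
    congr 1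
    apply Finset.filter_congr
    intro t ht
    exact hne t ht
  refine ⟨key _ _ ?_, key _ _ ?_, key _ _ ?_, key _ _ ?_, key _ _ ?_, ?_⟩
  · intro t ht
    rcases h.wind ht with ⟨hd, hw⟩ | ⟨hd, hw⟩ | ⟨hd, hw⟩ | ⟨hd, hw⟩ | ⟨hd, hw⟩ | ⟨hd, hw | hw⟩ <;>
      rw [hd, hw] <;> simp [*]
  · intro t ht
    rcases h.wind ht with ⟨hd, hw⟩ | ⟨hd, hw⟩ | ⟨hd, hw⟩ | ⟨hd, hw⟩ | ⟨hd, hw⟩ | ⟨hd, hw | hw⟩ <;>
      rw [hd, hw] <;> simp [*]
  · intro t ht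
    rcases h.wind ht with ⟨hd, hw⟩ | ⟨hd, hw⟩ | ⟨hd, hw⟩ | ⟨hd, hw⟩ | ⟨hd, hw⟩ | ⟨hd, hw | hw⟩ <;>
      rw [hd, hw] <;> simp [*]
  · intro t ht
    rcases h.wind ht with ⟨hd, hw⟩ | ⟨hd, hw⟩ | ⟨hd, hw⟩ | ⟨hd, hw⟩ | ⟨hd, hw⟩ | ⟨hd, hw | hw⟩ <;>
      rw [hd, hw] <;> simp [*]
  · intro t ht
    rcases h.wind ht with ⟨hd, hw⟩ | ⟨hd, hw⟩ | ⟨hd, hw⟩ | ⟨hd, hw⟩ | ⟨hd, hw⟩ | ⟨hd, hw | hw⟩ <;>
      rw [hd, hw] <;> simp [*]
  · unfold Wn Ex
    simp only [Finset.sum_filter]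
    rw [← Finset.sum_add_distrib]
    apply Finset.sum_congr rfl
    intro t ht
    rcases h.wind ht with ⟨hd, hw⟩ | ⟨hd, hw⟩ | ⟨hd, hw⟩ | ⟨hd, hw⟩ | ⟨hd, hw⟩ | ⟨hd, hw | hw⟩
    · rw [hd, hw, if_neg a5.symm]
      norm_num
    · rw [hd, hw, if_neg b4.symm]
      norm_num
    · rw [hd, hw, if_neg c3.symm]
      norm_num
    · rw [hd, hw, if_neg e2.symm]
      norm_num
    · rw [hd, hw, if_neg f1.symm]
      norm_num
    · rw [hd, hw, if_pos rfl]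
      norm_num
    · rw [hd, hw, if_pos rfl]
      norm_num

end HexObs
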