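import Pool.Agent.HexObs.Rot

set_option autoImplicit false

namespace HexObs

open Complex Finset ENNReal

/-! reflections -/

lemma conjE_add (p q : Pt) : conjE (p + q) = conjE p + conjE q := by
  simp only [conjE, Prod.fst_add, Prod.snd_add, Prod.mk_add_mk]
  congr 1 <;> ring

lemma conjE_neg (p : Pt) : conjE (-p) = - conjE p := by
  simp only [conjE, Prod.fst_neg, Prod.snd_neg, Prod.neg_mk]
  congr 1
  ring

lemma conjE_turn (b : Bool) (d : Pt) : conjE (turn b d) = turn (!b) (conjE d) := by
  cases b
  · simp only [turn, Bool.false_eq_true, if_false, Bool.not_false, if_true, rotR, rotL, conjE]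
    congr 1 <;> ring
  · simp only [turn, Bool.not_true, Bool.false_eq_true, if_false, if_true, rotR, rotL, conjE]
    congr 1 <;> ring

lemma conjE_conjE (p : Pt) : conjE (conjE p) = p := by
  simp [conjE]

lemma ip_conjE (p q : Pt) : ip (conjE p) (conjE q) = ip p q := by
  simp only [conjE, ip]
  ring

lemma cl_conjE (p : Pt) : cl (conjE p) = cl p := by
  have h3 : (3 : ZMod 3) = 0 := three_eq
  simp only [conjE, cl]
  push_cast
  linear_combination (p.2 : ZMod 3) * h3

lemma tf_map_not {t : List Bool} {i : ℕ} (h : i < t.length) : tf (t.map not) i = !(tf t i) := by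
  unfold tf
  rw [List.getD_eq_getElem _ _ (by rw [List.length_map]; exact h), List.getD_eq_getElem _ _ h, List.getElem_map]

lemma ds_refl (u d0 : Pt) (τ τ' : ℕ → Bool) (i : ℕ) (h : ∀ k, k < i → τ' k = !(τ k)) :
    ds (mulE u (conjE d0)) τ' i = mulE u (conjE (ds d0 τ i)) := by
  induction i with
  | zero => rfl
  | succ i ih => rw [ds_succ, ds_succ, ih (fun k hk => h k (by omega)), h i (by omega), conjE_turn, mulE_turn]

lemma vs_refl (u v0 v0' d0 : Pt) (τ τ' : ℕ → Bool) (i : ℕ) (h : ∀ k, k + 1 < i → τ' k = !(τ k)) :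
    vs v0' (mulE u (conjE d0)) τ' i = v0' + mulE u (conjE (vs v0 d0 τ i - v0)) := by
  induction i with
  | zero =>
    show v0' = v0' + mulE u (conjE (v0 - v0))
    rw [sub_self]
    simp [mulE, conjE]
  | succ i ih =>
    rw [vs_succ, vs_succ, ih (fun k hk => h k (by omega)), ds_refl u d0 τ τ' i (fun k hk => h k (by omega))]
    have : vs v0 d0 τ i + ds d0 τ i - v0 = (vs v0 d0 τ i - v0) + ds d0 τ i := by abel
    rw [this, conjE_add, mulE_add]
    abel

/-- the reflected walk. -/
lemma vx_refl (u v0 v0' d0 : Pt) (t : List Bool) {i : ℕ} (hi : i ≤ t.length + 1) :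
    vx v0' (mulE u (conjE d0)) (t.map not) i = v0' + mulE u (conjE (vx v0 d0 t i - v0)) :=
  vs_refl u v0 v0' d0 (tf t) (tf (t.map not)) i (fun _ hk => tf_map_not (by omega))

lemma dx_refl (u d0 : Pt) (t : List Bool) {i : ℕ} (hi : i ≤ t.length) :
    dx (mulE u (conjE d0)) (t.map not) i = mulE u (conjE (dx d0 t i)) :=
  ds_refl u d0 (tf t) (tf (t.map not)) i (fun _ hk => tf_map_not (by omega))

lemma map_not_not (t : List Bool) : (t.map not).map not = t := by
  rw [List.map_map]
  have : (not ∘ not) = (id : Bool → Bool) := by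
    funext b
    cases b <;> rfl
  rw [this, List.map_id]

lemma wE_map_not (t : List Bool) : wE (t.map not) = wE t := by
  unfold wE
  rw [List.length_map]

theorem out_refl_aux {u : Pt} (hu : nrm u = 1) (v0 v0' d0 e : Pt) {Ω Ω' : Set Pt}
    (hΩ : ∀ v, v ∈ Ω ↔ v0' + mulE u (conjE (v - v0)) ∈ Ω') {t : List Bool} :
    t ∈ out Ω v0 d0 e ↔ t.map not ∈ out Ω' v0' (mulE u (conjE d0)) (mulE u (conjE e)) := by
  have hinj : ∀ v w, v0' + mulE u (conjE (v - v0)) = v0' + mulE u (conjE (w - v0)) → v = w := by
    intro v w h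
    have h1 := add_left_cancel h
    have h2 := mulE_inj hu h1
    have h3 := congrArg conjE h2
    rw [conjE_conjE, conjE_conjE] at h3
    exact sub_left_injective h3
  have hl : (t.map not).length = t.length := List.length_map _
  constructor
  · rintro ⟨⟨h1, h2⟩, h3, h4⟩
    refine ⟨⟨?_, ?_⟩, ?_, ?_⟩
    · intro i hi hil
      rw [hl] at hil
      rw [vx_refl u v0 v0' d0 t (by omega)]
      exact (hΩ _).1 (h1 i hi hil)
    · intro i k hik hk heq
      rw [hl] at hk
      rw [vx_refl u v0 v0' d0 t (by omega), vx_refl u v0 v0' d0 t (by omega)] at heq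
      exact h2 i k hik hk (hinj _ _ heq)
    · unfold tip
      rw [hl, vx_refl u v0 v0' d0 t le_rfl, ← hΩ]
      exact h3
    · rw [hl, dx_refl u d0 t le_rfl, h4]
  · rintro ⟨⟨h1, h2⟩, h3, h4⟩
    rw [hl] at h1 h2 h4
    refine ⟨⟨?_, ?_⟩, ?_, ?_⟩
    · intro i hi hil
      have := h1 i hi hil
      rw [vx_refl u v0 v0' d0 t (by omega)] at this
      exact (hΩ _).2 this
    · intro i k hik hk heq
      apply h2 i k hik hk
      rw [vx_refl u v0 v0' d0 t (by omega), vx_refl u v0 v0' d0 t (by omega), heq]
    · unfold tip at h3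
      rw [hl, vx_refl u v0 v0' d0 t le_rfl, ← hΩ] at h3
      exact h3
    · rw [dx_refl u d0 t le_rfl] at h4
      have h5 := congrArg conjE (mulE_inj hu h4)
      rwa [conjE_conjE, conjE_conjE] at h5

/-- generating functions do not change under reflections. -/
theorem gf_refl {u : Pt} (hu : nrm u = 1) (v0 v0' d0 e : Pt) {Ω Ω' : Set Pt}
    (hΩ : ∀ v, v ∈ Ω ↔ v0' + mulE u (conjE (v - v0)) ∈ Ω') :
    gf (out Ω v0 d0 e) = gf (out Ω' v0' (mulE u (conjE d0)) (mulE u (conjE e))) := by
  apply le_antisymm
  · have := gf_le_of_inj (P := out Ω v0 d0 e) (Q := out Ω' v0' (mulE u (conjE d0)) (mulE u (conjE e)))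
      (fun t => t.map not) (fun t ht => (out_refl_aux hu v0 v0' d0 e hΩ).1 ht) (by
        intro s _ t _ hst
        have := congrArg (List.map not) hst
        rwa [map_not_not, map_not_not] at this) 1 (by
        intro t _
        rw [one_mul, wE_map_not])
    rwa [one_mul] at this
  · have := gf_le_of_inj (Q := out Ω v0 d0 e) (P := out Ω' v0' (mulE u (conjE d0)) (mulE u (conjE e)))
      (fun t => t.map not) (fun t ht => (out_refl_aux hu v0 v0' d0 e hΩ).2 (by rw [map_not_not]; exact ht)) (by
        intro s _ t _ hst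
        have := congrArg (List.map not) hst
        rwa [map_not_not, map_not_not] at this) 1 (by
        intro t _
        rw [one_mul, wE_map_not])
    rwa [one_mul] at this

/-! reversal -/

/-- the reversed word. -/
def rev (t : List Bool) : List Bool := (t.map not).reverse

lemma rev_length (t : List Bool) : (rev t).length = t.length := by
  unfold rev
  rw [List.length_reverse, List.length_map]

lemma rev_rev (t : List Bool) : rev (rev t) = t := by
  unfold rev
  rw [List.map_reverse, List.reverse_reverse, map_not_not]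

lemma tf_rev {t : List Bool} {i : ℕ} (h : i < t.length) : tf (rev t) i = !(tf t (t.length - 1 - i)) := by
  have h1 : tf (rev t) i = (rev t)[i]'(by rw [rev_length]; exact h) := by
    unfold tf
    rw [List.getD_eq_getElem _ _ (by rw [rev_length]; exact h)]
  have h2 : tf t (t.length - 1 - i) = t[t.length - 1 - i]'(by omega) := by
    unfold tf
    rw [List.getD_eq_getElem _ _ (by omega)]
  rw [h1, h2]
  simp only [rev, List.getElem_reverse, List.getElem_map, List.length_map]

lemma dx_rev (d0 : Pt) (t : List Bool) (i : ℕ) (hi : i ≤ t.length) :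
    dx (-(dx d0 t t.length)) (rev t) i = -(dx d0 t (t.length - i)) := by
  induction i with
  | zero => rfl
  | succ i ih =>
    show turn (tf (rev t) i) (dx (-(dx d0 t t.length)) (rev t) i) = _
    rw [ih (by omega), tf_rev (by omega)]
    have e : t.length - i = (t.length - (i + 1)) + 1 := by omega
    have e2 : t.length - 1 - i = t.length - (i + 1) := by omega
    rw [e, e2, turn_neg]
    show -turn (!(tf t (t.length - (i + 1)))) (turn (tf t (t.length - (i + 1))) (dx d0 t (t.length - (i + 1)))) = _
    rw [turn_turn]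

/-- the reversed walk. -/
lemma vx_rev (v0 d0 : Pt) (t : List Bool) (i : ℕ) (hi : i ≤ t.length + 1) :
    vx (tip v0 d0 t) (-(dx d0 t t.length)) (rev t) i = vx v0 d0 t (t.length + 1 - i) := by
  induction i with
  | zero => rfl
  | succ i ih =>
    show vx (tip v0 d0 t) (-(dx d0 t t.length)) (rev t) i + dx (-(dx d0 t t.length)) (rev t) i = _
    rw [ih (by omega), dx_rev d0 t i (by omega)]
    have e : t.length + 1 - i = (t.length - i) + 1 := by omega
    have e2 : t.length + 1 - (i + 1) = t.length - i := by omega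
    rw [e, e2]
    show vx v0 d0 t (t.length - i) + dx d0 t (t.length - i) + -(dx d0 t (t.length - i)) = _
    abel

/-- walks from the half edge (v0, d0) to the half edge (w, e). -/
def outAt (Ω : Set Pt) (v0 d0 w e : Pt) : Set (List Bool) := {t | t ∈ out Ω v0 d0 e ∧ tip v0 d0 t = w}

lemma wE_rev (t : List Bool) : wE (rev t) = wE t := by
  unfold wE
  rw [rev_length]

lemma rev_mem {Ω : Set Pt} {v0 d0 w e : Pt} (h0 : v0 ∉ Ω) {t : List Bool} (ht : t ∈ outAt Ω v0 d0 w e) :
    rev t ∈ outAt Ω w (-e) v0 (-d0) := by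
  obtain ⟨⟨⟨h1, h2⟩, h3, h4⟩, h5⟩ := ht
  have key := vx_rev v0 d0 t
  rw [h5, h4] at key
  have hl := rev_length t
  have keyd := dx_rev d0 t
  rw [h4] at keyd
  have htip : tip w (-e) (rev t) = v0 := by
    unfold tip
    rw [hl, key _ le_rfl, Nat.sub_self]
    rfl
  refine ⟨⟨⟨?_, ?_⟩, ?_, ?_⟩, htip⟩
  · intro i hi1 hi2
    rw [hl] at hi2
    rw [key i (by omega)]
    exact h1 _ (by omega) (by omega)
  · intro i k hik hk
    rw [hl] at hk
    rw [key i (by omega), key k (by omega)]
    rcases Nat.eq_zero_or_pos i with hi | hi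
    · rw [hi]
      intro heq
      have : vx v0 d0 t (t.length + 1 - k) ∈ Ω := h1 _ (by omega) (by omega)
      rw [← heq] at this
      exact h3 this
    · exact (h2 _ _ (by omega) (by omega)).symm
  · rw [htip]
    exact h0
  · rw [hl, keyd _ le_rfl, Nat.sub_self]
    rfl

/-- REVERSAL: the generating function between two boundary half edges is symmetric. -/
theorem gf_rev {Ω : Set Pt} {v0 d0 w e : Pt} (h0 : v0 ∉ Ω) (hw : w ∉ Ω) :
    gf (outAt Ω v0 d0 w e) = gf (outAt Ω w (-e) v0 (-d0)) := by
  have hinj : ∀ (P : Set (List Bool)), Set.InjOn rev P := by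
    intro P s _ t _ hst
    have := congrArg rev hst
    rwa [rev_rev, rev_rev] at this
  apply le_antisymm
  · have := gf_le_of_inj (P := outAt Ω v0 d0 w e) (Q := outAt Ω w (-e) v0 (-d0)) rev
      (fun t ht => rev_mem h0 ht) (hinj _) 1 (by
        intro t _
        rw [one_mul, wE_rev])
    rwa [one_mul] at this
  · have := gf_le_of_inj (Q := outAt Ω v0 d0 w e) (P := outAt Ω w (-e) v0 (-d0)) rev
      (fun t ht => by
        have := rev_mem hw ht
        rwa [neg_neg, neg_neg] at this) (hinj _) 1 (by
        intro t _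
        rw [one_mul, wE_rev])
    rwa [one_mul] at this

end HexObs
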