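import Pool.Agent.HexObs.Lower
import Pool.Agent.HexObs.Sym
import Pool.Agent.HexObs.Im

set_option autoImplicit false

namespace HexObs

open Complex Finset ENNReal

/-- one foot to the right. -/
def hz (d0 : Pt) : Pt := rotR d0 + rotR (rotR d0)

/-- the foot number k on the line through v0 perpendicular to d0. -/
def foot (v0 d0 : Pt) (k : ℤ) : Pt := v0 + k • hz d0

/-- the visited vertices. -/
def vis (v d0 : Pt) (t : List Bool) : Set Pt := {p | ∃ i, 1 ≤ i ∧ i ≤ t.length ∧ vx v d0 t i = p}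

/-- bridges: walks from v that leave Ω in the direction d0 and avoid X. -/
def Br (Ω X : Set Pt) (v d0 : Pt) : Set (List Bool) :=
  {t | Saw (Ω \ X) v d0 t ∧ tip v d0 t ∉ Ω ∧ dx d0 t t.length = d0}

/-- walks from v that leave Ω downwards and avoid X. -/
def Dn (Ω X : Set Pt) (v d0 : Pt) : Set (List Bool) :=
  {t | Saw (Ω \ X) v d0 t ∧ tip v d0 t ∉ Ω ∧ dx d0 t t.length = -d0}

/-- ... landing left of the start. -/
def DnL (Ω X : Set Pt) (v d0 : Pt) : Set (List Bool) := {t | t ∈ Dn Ω X v d0 ∧ 0 < cross d0 (tip v d0 t - v)}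

/-- ... landing right of the start. -/
def DnR (Ω X : Set Pt) (v d0 : Pt) : Set (List Bool) := {t | t ∈ Dn Ω X v d0 ∧ cross d0 (tip v d0 t - v) < 0}

/-- ... landing at w. -/
def Arc (Ω X : Set Pt) (v d0 w : Pt) : Set (List Bool) := {t | t ∈ Dn Ω X v d0 ∧ tip v d0 t = w}

/-- sum over the bridges from v that avoid X, of the weight times a function of the new obstacle set. -/
noncomputable def overBr (Ω : Set Pt) (v d0 : Pt) (F : Set Pt → ℝ≥0∞) (X : Set Pt) : ℝ≥0∞ :=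
  ∑' s : List Bool, (Br Ω X v d0).indicator (fun s => wE s * F (X ∪ vis v d0 s)) s

/-- pairs of disjoint bridges. -/
noncomputable def P2 (Ω : Set Pt) (v0 d0 : Pt) (a b : ℤ) (X : Set Pt) : ℝ≥0∞ :=
  overBr Ω (foot v0 d0 a) d0 (fun Y => gf (Br Ω Y (foot v0 d0 b) d0)) X

/-- triples of disjoint bridges. -/
noncomputable def P3 (Ω : Set Pt) (v0 d0 : Pt) (a b c : ℤ) (X : Set Pt) : ℝ≥0∞ :=
  overBr Ω (foot v0 d0 a) d0 (fun Y => P2 Ω v0 d0 b c Y) X

/-- a pair of disjoint bridges from the feet a, b and, disjoint from them, a word of the family D. -/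
noncomputable def Q2 (Ω : Set Pt) (v0 d0 : Pt) (a b : ℤ) (D : Set Pt → Set (List Bool)) (X : Set Pt) : ℝ≥0∞ :=
  overBr Ω (foot v0 d0 a) d0 (fun Y => overBr Ω (foot v0 d0 b) d0 (fun Z => gf (D Z)) Y) X

lemma overBr_mono {Ω : Set Pt} {v d0 : Pt} {F G : Set Pt → ℝ≥0∞} (h : ∀ X, F X ≤ G X) (X : Set Pt) :
    overBr Ω v d0 F X ≤ overBr Ω v d0 G X := by
  unfold overBr
  apply ENNReal.tsum_le_tsum
  intro s
  by_cases hs : s ∈ Br Ω X v d0
  · rw [Set.indicator_of_mem hs, Set.indicator_of_mem hs]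
    exact mul_le_mul_right (h _) _
  · rw [Set.indicator_of_notMem hs, Set.indicator_of_notMem hs]

lemma overBr_one (Ω : Set Pt) (v d0 : Pt) (X : Set Pt) : overBr Ω v d0 (fun _ => 1) X = gf (Br Ω X v d0) := by
  unfold overBr gf
  rw [tsum_subtype (Br Ω X v d0) (fun s => wE s)]
  simp only [mul_one]

lemma overBr_const_mul (Ω : Set Pt) (v d0 : Pt) (c : ℝ≥0∞) (F : Set Pt → ℝ≥0∞) (X : Set Pt) :
    overBr Ω v d0 (fun Y => c * F Y) X = c * overBr Ω v d0 F X := by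
  unfold overBr
  rw [← ENNReal.tsum_mul_left]
  apply tsum_congr
  intro s
  by_cases hs : s ∈ Br Ω X v d0
  · rw [Set.indicator_of_mem hs, Set.indicator_of_mem hs]
    ring
  · rw [Set.indicator_of_notMem hs, Set.indicator_of_notMem hs, mul_zero]

lemma overBr_add (Ω : Set Pt) (v d0 : Pt) (F G : Set Pt → ℝ≥0∞) (X : Set Pt) :
    overBr Ω v d0 (fun Y => F Y + G Y) X = overBr Ω v d0 F X + overBr Ω v d0 G X := by
  unfold overBr
  rw [← ENNReal.tsum_add]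
  apply tsum_congr
  intro s
  by_cases hs : s ∈ Br Ω X v d0
  · rw [Set.indicator_of_mem hs, Set.indicator_of_mem hs, Set.indicator_of_mem hs]
    ring
  · rw [Set.indicator_of_notMem hs, Set.indicator_of_notMem hs, Set.indicator_of_notMem hs, add_zero]

lemma br_anti {Ω X Y : Set Pt} {v d0 : Pt} (h : X ⊆ Y) : Br Ω Y v d0 ⊆ Br Ω X v d0 := by
  rintro t ⟨h1, h2, h3⟩
  exact ⟨h1.mono (Set.sdiff_subset_sdiff_right h), h2, h3⟩

lemma dn_anti {Ω X Y : Set Pt} {v d0 : Pt} (h : X ⊆ Y) : Dn Ω Y v d0 ⊆ Dn Ω X v d0 := by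
  rintro t ⟨h1, h2, h3⟩
  exact ⟨h1.mono (Set.sdiff_subset_sdiff_right h), h2, h3⟩

lemma mem_br {Ω X : Set Pt} {v d0 : Pt} {t : List Bool} :
    t ∈ Br Ω X v d0 ↔ t ∈ Br Ω ∅ v d0 ∧ Disjoint X (vis v d0 t) := by
  constructor
  · rintro ⟨h1, h2, h3⟩
    refine ⟨⟨⟨fun i hi hl => ⟨(h1.mem i hi hl).1, fun h => h⟩, h1.inj⟩, h2, h3⟩, ?_⟩
    rw [Set.disjoint_left]
    rintro p hp ⟨i, hi, hl, rfl⟩
    exact (h1.mem i hi hl).2 hp
  · rintro ⟨⟨h1, h2, h3⟩, h4⟩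
    refine ⟨⟨fun i hi hl => ⟨(h1.mem i hi hl).1, fun h => ?_⟩, h1.inj⟩, h2, h3⟩
    exact Set.disjoint_left.1 h4 h ⟨i, hi, hl, rfl⟩

lemma mem_dn {Ω X : Set Pt} {v d0 : Pt} {t : List Bool} :
    t ∈ Dn Ω X v d0 ↔ t ∈ Dn Ω ∅ v d0 ∧ Disjoint X (vis v d0 t) := by
  constructor
  · rintro ⟨h1, h2, h3⟩
    refine ⟨⟨⟨fun i hi hl => ⟨(h1.mem i hi hl).1, fun h => h⟩, h1.inj⟩, h2, h3⟩, ?_⟩
    rw [Set.disjoint_left]
    rintro p hp ⟨i, hi, hl, rfl⟩
    exact (h1.mem i hi hl).2 hp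
  · rintro ⟨⟨h1, h2, h3⟩, h4⟩
    refine ⟨⟨fun i hi hl => ⟨(h1.mem i hi hl).1, fun h => ?_⟩, h1.inj⟩, h2, h3⟩
    exact Set.disjoint_left.1 h4 h ⟨i, hi, hl, rfl⟩

/-- bridges can be summed in any order. -/
theorem overBr_comm (Ω : Set Pt) (v w d0 : Pt) (F : Set Pt → ℝ≥0∞) (X : Set Pt) :
    overBr Ω v d0 (overBr Ω w d0 F) X = overBr Ω w d0 (overBr Ω v d0 F) X := by
  have key : ∀ v w : Pt, overBr Ω v d0 (overBr Ω w d0 F) X =
      ∑' s : List Bool, ∑' t : List Bool,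
        ({p : List Bool × List Bool | p.1 ∈ Br Ω X v d0 ∧ p.2 ∈ Br Ω X w d0 ∧
          Disjoint (vis v d0 p.1) (vis w d0 p.2)}.indicator
          (fun p => wE p.1 * wE p.2 * F (X ∪ (vis v d0 p.1 ∪ vis w d0 p.2)))) (s, t) := by
    intro v w
    unfold overBr
    apply tsum_congr
    intro s
    by_cases hs : s ∈ Br Ω X v d0
    · rw [Set.indicator_of_mem hs, ← ENNReal.tsum_mul_left]
      apply tsum_congr
      intro t
      by_cases ht : t ∈ Br Ω (X ∪ vis v d0 s) w d0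
      · have h1 := mem_br.1 ht
        rw [Set.disjoint_union_left] at h1
        have h2 : (s, t) ∈ {p : List Bool × List Bool | p.1 ∈ Br Ω X v d0 ∧ p.2 ∈ Br Ω X w d0 ∧
          Disjoint (vis v d0 p.1) (vis w d0 p.2)} := ⟨hs, mem_br.2 ⟨h1.1, h1.2.1⟩, h1.2.2⟩
        rw [Set.indicator_of_mem ht, Set.indicator_of_mem h2]
        simp only
        rw [Set.union_assoc]
        ring
      · have h2 : (s, t) ∉ {p : List Bool × List Bool | p.1 ∈ Br Ω X v d0 ∧ p.2 ∈ Br Ω X w d0 ∧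
          Disjoint (vis v d0 p.1) (vis w d0 p.2)} := by
          rintro ⟨_, h3, h4⟩
          apply ht
          have h5 := mem_br.1 h3
          exact mem_br.2 ⟨h5.1, Set.disjoint_union_left.2 ⟨h5.2, h4⟩⟩
        rw [Set.indicator_of_notMem ht, Set.indicator_of_notMem h2, mul_zero]
    · rw [Set.indicator_of_notMem hs]
      symm
      rw [ENNReal.tsum_eq_zero]
      intro t
      apply Set.indicator_of_notMem
      rintro ⟨h3, _⟩
      exact hs h3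
  rw [key v w, key w v, ENNReal.tsum_comm]
  apply tsum_congr
  intro t
  apply tsum_congr
  intro s
  by_cases h : s ∈ Br Ω X v d0 ∧ t ∈ Br Ω X w d0 ∧ Disjoint (vis v d0 s) (vis w d0 t)
  · have h1 : (s, t) ∈ {p : List Bool × List Bool | p.1 ∈ Br Ω X v d0 ∧ p.2 ∈ Br Ω X w d0 ∧
          Disjoint (vis v d0 p.1) (vis w d0 p.2)} := h
    have h2 : (t, s) ∈ {p : List Bool × List Bool | p.1 ∈ Br Ω X w d0 ∧ p.2 ∈ Br Ω X v d0 ∧
          Disjoint (vis w d0 p.1) (vis v d0 p.2)} := ⟨h.2.1, h.1, h.2.2.symm⟩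
    rw [Set.indicator_of_mem h1, Set.indicator_of_mem h2]
    simp only
    rw [mul_comm (wE s) (wE t), Set.union_comm (vis v d0 s)]
  · have h1 : (s, t) ∉ {p : List Bool × List Bool | p.1 ∈ Br Ω X v d0 ∧ p.2 ∈ Br Ω X w d0 ∧
          Disjoint (vis v d0 p.1) (vis w d0 p.2)} := h
    have h2 : (t, s) ∉ {p : List Bool × List Bool | p.1 ∈ Br Ω X w d0 ∧ p.2 ∈ Br Ω X v d0 ∧
          Disjoint (vis w d0 p.1) (vis v d0 p.2)} := fun h3 => h ⟨h3.2.1, h3.1, h3.2.2.symm⟩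
    rw [Set.indicator_of_notMem h1, Set.indicator_of_notMem h2]

theorem P2_comm (Ω : Set Pt) (v0 d0 : Pt) (a b : ℤ) (X : Set Pt) : P2 Ω v0 d0 a b X = P2 Ω v0 d0 b a X := by
  have h := overBr_comm Ω (foot v0 d0 a) (foot v0 d0 b) d0 (fun _ => 1) X
  have e : ∀ k : ℤ, (fun Y => overBr Ω (foot v0 d0 k) d0 (fun _ => 1) Y) = fun Y => gf (Br Ω Y (foot v0 d0 k) d0) :=
    fun k => funext (fun Y => overBr_one Ω _ d0 Y)
  unfold P2
  rw [← e a, ← e b]
  exact h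

end HexObs
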