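import Pool.Agent.HexObs.Planar
import Pool.Agent.HexObs.WDefs

set_option autoImplicit false

namespace HexObs

open Complex Finset ENNReal

/-! feet -/

lemma cl_hz (d0 : Pt) : cl (hz d0) = 0 := by
  unfold hz
  rw [cl_add, cl_rotR (rotR d0), cl_rotR d0]
  ring

lemma ip_hz (d0 : Pt) : ip (hz d0) d0 = 0 := by
  unfold hz ip rotR
  simp only [Prod.fst_add, Prod.snd_add]
  ring

lemma cross_hz {d0 : Pt} (h0 : d0 ∈ dirs) : cross d0 (hz d0) = -2 := by
  revert d0
  decide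

lemma ft_cl (v0 d0 : Pt) (k : ℤ) : cl (foot v0 d0 k) = cl v0 := by
  unfold foot
  rw [cl_add, cl_smul, cl_hz, mul_zero, add_zero]

lemma ft_sub (v0 d0 : Pt) (k : ℤ) : foot v0 d0 k - v0 = k • hz d0 := by
  unfold foot
  abel

lemma ft_ip (v0 d0 : Pt) (k : ℤ) : ip (foot v0 d0 k - v0) d0 = 0 := by
  rw [ft_sub, ip_smul_left, ip_hz, mul_zero]

lemma cross_foot {d0 : Pt} (h0 : d0 ∈ dirs) (v0 : Pt) (a b : ℤ) :
    cross d0 (foot v0 d0 a - foot v0 d0 b) = 2 * (b - a) := by
  have h1 := cross_hz h0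
  have h2 : cross d0 (foot v0 d0 a - foot v0 d0 b) = (a - b) * cross d0 (hz d0) := by
    simp only [cross, foot, Prod.fst_sub, Prod.snd_sub, Prod.fst_add, Prod.snd_add, Prod.smul_fst, Prod.smul_snd,
      smul_eq_mul]
    ring
  rw [h2, h1]
  ring

lemma foot_inj {v0 d0 : Pt} (h0 : d0 ∈ dirs) {a b : ℤ} (h : foot v0 d0 a = foot v0 d0 b) : a = b := by
  have h1 := cross_foot h0 v0 a b
  rw [h, sub_self] at h1
  have h2 : cross d0 0 = 0 := by
    unfold cross
    simp
  rw [h2] at h1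
  omega

/-- points of level 0 are feet. -/
lemma eq_foot {v0 d0 p : Pt} (h0 : d0 ∈ dirs) (h : ip (p - v0) d0 = 0) : ∃ k : ℤ, p = foot v0 d0 k := by
  have h1 := xy_parity v0 d0 p
  have h2 : (xy v0 d0 p).2 = 0 := h
  refine ⟨(xy v0 d0 p).1 / 2, ?_⟩
  apply xy_inj (v0 := v0) h0
  have h3 : (xy v0 d0 (foot v0 d0 ((xy v0 d0 p).1 / 2))).1 = 2 * ((xy v0 d0 p).1 / 2) := by
    show -(cross d0 (foot v0 d0 ((xy v0 d0 p).1 / 2) - v0)) = _
    have h4 : cross d0 (foot v0 d0 ((xy v0 d0 p).1 / 2) - v0) = ((xy v0 d0 p).1 / 2) * cross d0 (hz d0) := by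
      rw [ft_sub]
      simp only [cross, Prod.smul_fst, Prod.smul_snd, smul_eq_mul]
      ring
    rw [h4, cross_hz h0]
    ring
  refine Prod.ext ?_ ?_
  · rw [h3]
    omega
  · rw [h2]
    exact (ft_ip v0 d0 _).symm

/-! levels of the ends of walks from a foot -/

/-- the class of a vertex is its level modulo 3, walks from a foot. -/
lemma level_mod_foot {v0 v1 d0 : Pt} (h0 : d0 ∈ dirs) (l1 : ip (v1 - v0) d0 = 0) (t : List Bool) (i : ℕ) :
    (3 : ℤ) ∣ ip (vx v1 d0 t i - v0) d0 - (if Even i then 0 else 2) := by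
  have h1 := level_mod (v0 := v1) h0 t i
  have h2 : vx v1 d0 t i - v0 = (vx v1 d0 t i - v1) + (v1 - v0) := by abel
  rw [h2, ip_add_left, l1, add_zero]
  exact h1

lemma level_succ_foot (v0 v1 d0 : Pt) (t : List Bool) (i : ℕ) :
    ip (vx v1 d0 t (i + 1) - v0) d0 = ip (vx v1 d0 t i - v0) d0 + ip (dx d0 t i) d0 := by
  rw [vx_succ, ← ip_add_left]
  congr 1
  abel

lemma cl_ne_zero {d0 : Pt} (h0 : d0 ∈ dirs) : cl d0 ≠ -cl d0 := by
  revert d0
  decide

lemma odd_of_down {d0 : Pt} (h0 : d0 ∈ dirs) {t : List Bool} {i : ℕ} (h : dx d0 t i = -d0) : ¬ Even i := by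
  intro he
  have h1 := cl_dx d0 t i
  rw [if_pos he, h, cl_neg] at h1
  exact cl_ne_zero h0 h1.symm

lemma even_of_up {d0 : Pt} (h0 : d0 ∈ dirs) {t : List Bool} {i : ℕ} (h : dx d0 t i = d0) : Even i := by
  by_contra he
  have h1 := cl_dx d0 t i
  rw [if_neg he, h] at h1
  exact cl_ne_zero h0 h1

lemma ip_self_neg {d0 : Pt} (h0 : d0 ∈ dirs) : ip (-d0) d0 = -2 := by
  revert d0
  decide

/-- the level of a vertex below a downward step. -/
lemma down_level {v0 v1 d0 : Pt} (h0 : d0 ∈ dirs) (l1 : ip (v1 - v0) d0 = 0) {T : ℕ} {Ω : Set Pt}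
    (hΩ : Ω ⊆ strip v0 d0 T) {t : List Bool} (hs : Saw Ω v1 d0 t) (hd : dx d0 t t.length = -d0) :
    1 ≤ t.length ∧ 0 ≤ ip (tip v1 d0 t - v0) d0 ∧ ip (tip v1 d0 t - v0) d0 < 3 * T + 2 ∧
      ip (vx v1 d0 t t.length - v0) d0 = ip (tip v1 d0 t - v0) d0 + 2 := by
  have h1 := odd_of_down h0 hd
  have h2 : 1 ≤ t.length := by
    by_contra hcon
    have : t.length = 0 := by omega
    rw [this] at h1
    exact h1 (by decide)
  have h3 := hΩ (hs.mem _ h2 le_rfl)
  obtain ⟨_, h4, h5⟩ := h3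
  have h6 := level_mod_foot h0 l1 t t.length
  rw [if_neg h1] at h6
  have h7 := level_succ_foot v0 v1 d0 t t.length
  rw [hd, ip_self_neg h0] at h7
  have h8 : tip v1 d0 t = vx v1 d0 t (t.length + 1) := rfl
  rw [h8, h7]
  refine ⟨h2, ?_, ?_, ?_⟩ <;> omega

/-- the level of a vertex above an upward step. -/
lemma up_level {v0 v1 d0 : Pt} (h0 : d0 ∈ dirs) (l1 : ip (v1 - v0) d0 = 0) {T : ℕ} {Ω : Set Pt}
    (hΩ : Ω ⊆ strip v0 d0 T) {t : List Bool} (hs : Saw Ω v1 d0 t) (hd : dx d0 t t.length = d0) :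
    0 < ip (tip v1 d0 t - v0) d0 ∧ ip (tip v1 d0 t - v0) d0 ≤ 3 * T + 2 ∧
      ip (vx v1 d0 t t.length - v0) d0 + 2 = ip (tip v1 d0 t - v0) d0 := by
  have h1 := even_of_up h0 hd
  have h6 := level_mod_foot h0 l1 t t.length
  rw [if_pos h1] at h6
  have h7 := level_succ_foot v0 v1 d0 t t.length
  rw [hd, ip_self_dir h0] at h7
  have h8 : tip v1 d0 t = vx v1 d0 t (t.length + 1) := rfl
  rw [h8, h7]
  rcases Nat.eq_zero_or_pos t.length with h2 | h2
  · have h3 : ip (vx v1 d0 t t.length - v0) d0 = 0 := by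
      rw [h2]
      exact l1
    omega
  · obtain ⟨_, h4, h5⟩ := hΩ (hs.mem _ h2 le_rfl)
    omega

/-- walks that leave the strip downwards end on the bottom line. -/
lemma dn_level {v0 v1 d0 : Pt} (h0 : d0 ∈ dirs) (l1 : ip (v1 - v0) d0 = 0) (c1 : cl v1 = cl v0) {T : ℕ} {X : Set Pt}
    {t : List Bool} (ht : t ∈ Dn (strip v0 d0 T) X v1 d0) : ip (tip v1 d0 t - v0) d0 = 0 := by
  obtain ⟨h1, h2, h3⟩ := ht
  obtain ⟨k1, k2, k3, _⟩ := down_level h0 l1 Set.sdiff_subset h1 h3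
  by_contra hcon
  apply h2
  refine ⟨?_, lt_of_le_of_ne k2 (Ne.symm hcon), k3⟩
  have := tip_hex v1 d0 t
  unfold IsHex at this ⊢
  rwa [c1] at this

/-- walks that leave the strip upwards end on the line of level 3 T + 2. -/
lemma br_level {v0 v1 d0 : Pt} (h0 : d0 ∈ dirs) (l1 : ip (v1 - v0) d0 = 0) (c1 : cl v1 = cl v0) {T : ℕ} {X : Set Pt}
    {t : List Bool} (ht : t ∈ Br (strip v0 d0 T) X v1 d0) : ip (tip v1 d0 t - v0) d0 = 3 * T + 2 := by
  obtain ⟨h1, h2, h3⟩ := ht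
  obtain ⟨k1, k2, _⟩ := up_level h0 l1 Set.sdiff_subset h1 h3
  by_contra hcon
  apply h2
  refine ⟨?_, k1, lt_of_le_of_ne k2 hcon⟩
  have := tip_hex v1 d0 t
  unfold IsHex at this ⊢
  rwa [c1] at this

lemma trap_strip (v0 d0 : Pt) (T L : ℕ) : trap v0 d0 T L ⊆ strip v0 d0 T := fun _ h => h.1

lemma rot_ip_dirs : ∀ d ∈ dirs, ip d (rotL d) = 1 ∧ ip d (rotR d) = 1 ∧ ip (-d) (rotL d) = -1 ∧
    ip (-d) (rotR d) = -1 := by decide

/-- the same for the trapezoid. -/
lemma dn_level_trap {v0 v1 d0 : Pt} (h0 : d0 ∈ dirs) (l1 : ip (v1 - v0) d0 = 0) (c1 : cl v1 = cl v0) {T L : ℕ}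
    {X : Set Pt} {t : List Bool} (ht : t ∈ Dn (trap v0 d0 T L) X v1 d0) : ip (tip v1 d0 t - v0) d0 = 0 := by
  obtain ⟨h1, h2, h3⟩ := ht
  obtain ⟨k1, k2, k3, _⟩ := down_level h0 l1 (Set.sdiff_subset.trans (trap_strip v0 d0 T L)) h1 h3
  by_contra hcon
  apply h2
  obtain ⟨_, k4, k5⟩ := (h1.mem _ k1 le_rfl).1
  obtain ⟨r1, r2, r3, r4⟩ := rot_ip_dirs d0 h0
  have e : tip v1 d0 t - v0 = (vx v1 d0 t t.length - v0) + (-d0) := by
    rw [tip_eq, h3]
    abel
  refine ⟨⟨?_, lt_of_le_of_ne k2 (Ne.symm hcon), k3⟩, ?_, ?_⟩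
  · have := tip_hex v1 d0 t
    unfold IsHex at this ⊢
    rwa [c1] at this
  · rw [e, ip_add_left, r3]
    linarith
  · rw [e, ip_add_left, r4]
    linarith

/-- the same for the trapezoid; the walk may be of length 0. -/
lemma br_level_trap {v0 v1 d0 : Pt} (h0 : d0 ∈ dirs) (l1 : ip (v1 - v0) d0 = 0) (c1 : cl v1 = cl v0) {T L : ℕ}
    (hv1 : v1 + d0 ∈ trap v0 d0 T L)
    {X : Set Pt} {t : List Bool} (ht : t ∈ Br (trap v0 d0 T L) X v1 d0) : ip (tip v1 d0 t - v0) d0 = 3 * T + 2 := by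
  obtain ⟨h1, h2, h3⟩ := ht
  have he := even_of_up h0 h3
  rcases Nat.eq_zero_or_pos t.length with hz0 | hpos
  · exfalso
    apply h2
    have : t = [] := List.length_eq_zero_iff.1 hz0
    subst this
    exact hv1
  obtain ⟨k1, k2, _⟩ := up_level h0 l1 (Set.sdiff_subset.trans (trap_strip v0 d0 T L)) h1 h3
  by_contra hcon
  apply h2
  obtain ⟨_, k4, k5⟩ := (h1.mem _ hpos le_rfl).1
  obtain ⟨r1, r2, r3, r4⟩ := rot_ip_dirs d0 h0
  have e : tip v1 d0 t - v0 = (vx v1 d0 t t.length - v0) + d0 := by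
    rw [tip_eq, h3]
    abel
  have hcl : cl (vx v1 d0 t t.length) = cl v0 := by
    rw [cl_vx, if_pos he, c1]
  have m : ∀ e' : Pt, (3 : ℤ) ∣ ip (vx v1 d0 t t.length - v0) e' := by
    intro e'
    have h1 : ((ip (vx v1 d0 t t.length - v0) e' : ℤ) : ZMod 3) = 0 := by
      rw [ip_mod, cl_sub, hcl, sub_self, zero_mul, neg_zero]
    exact (ZMod.intCast_zmod_eq_zero_iff_dvd _ 3).1 h1
  refine ⟨⟨?_, k1, lt_of_le_of_ne k2 hcon⟩, ?_, ?_⟩
  · have := tip_hex v1 d0 t
    unfold IsHex at this ⊢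
    rwa [c1] at this
  · rw [e, ip_add_left, r1]
    have := m (rotL d0)
    omega
  · rw [e, ip_add_left, r2]
    have := m (rotR d0)
    omega

/-- the end of a walk that leaves the strip downwards is a foot. -/
lemma dn_tip_foot {v0 d0 : Pt} (h0 : d0 ∈ dirs) {T : ℕ} {X : Set Pt} {a : ℤ} {t : List Bool}
    (ht : t ∈ Dn (strip v0 d0 T) X (foot v0 d0 a) d0) : ∃ b : ℤ, tip (foot v0 d0 a) d0 t = foot v0 d0 b :=
  eq_foot h0 (dn_level h0 (ft_ip v0 d0 a) (ft_cl v0 d0 a) ht)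

/-! planarity for walks from feet -/

lemma vis_first {v d0 : Pt} {t : List Bool} (h : 1 ≤ t.length) : v + d0 ∈ vis v d0 t := ⟨1, le_rfl, h, rfl⟩

lemma up_length {v0 v1 d0 : Pt} (l1 : ip (v1 - v0) d0 = 0) (h0 : d0 ∈ dirs) {T : ℕ} (hT : 1 ≤ T) {s : List Bool}
    (hsl : ip (tip v1 d0 s - v0) d0 = 3 * T + 2) : 1 ≤ s.length := by
  by_contra hcon
  have : s = [] := List.length_eq_zero_iff.1 (by omega)
  subst this
  have h1 : tip v1 d0 [] - v0 = (v1 - v0) + d0 := by
    show (v1 + d0) - v0 = _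
    abel
  rw [h1, ip_add_left, l1, ip_self_dir h0] at hsl
  omega

/-- A walk from the foot a to the foot b and a walk from the foot c to the top line that are disjoint: a and b are on
the same side of c. -/
theorem dn_side {v0 d0 : Pt} (h0 : d0 ∈ dirs) {T : ℕ} (hT : 1 ≤ T) {Ω : Set Pt} (hΩ : Ω ⊆ strip v0 d0 T)
    {a b c : ℤ} {t s : List Bool} (ht : Saw Ω (foot v0 d0 a) d0 t) (htip : tip (foot v0 d0 a) d0 t = foot v0 d0 b)
    (hs : Saw Ω (foot v0 d0 c) d0 s) (hsl : ip (tip (foot v0 d0 c) d0 s - v0) d0 = 3 * T + 2)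
    (hd : Disjoint (vis (foot v0 d0 a) d0 t) (vis (foot v0 d0 c) d0 s)) :
    (a < c ∧ b < c) ∨ (c < a ∧ c < b) := by
  have hsl1 := up_length (ft_ip v0 d0 c) h0 hT hsl
  have ht1 : 1 ≤ t.length := by
    by_contra hcon
    have : t = [] := List.length_eq_zero_iff.1 (by omega)
    subst this
    have h1 : ip (tip (foot v0 d0 a) d0 [] - v0) d0 = 2 := by
      have h2 : tip (foot v0 d0 a) d0 [] - v0 = (foot v0 d0 a - v0) + d0 := by
        show (foot v0 d0 a + d0) - v0 = _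
        abel
      rw [h2, ip_add_left, ft_ip, ip_self_dir h0]
      rfl
    rw [htip, ft_ip] at h1
    omega
  -- the last step is vertical
  have hlev : ∀ i, 1 ≤ i → i ≤ t.length → 0 < ip (vx (foot v0 d0 a) d0 t i - v0) d0 :=
    fun i h1 h2 => (hΩ (ht.mem i h1 h2)).2.1
  have hlevt : ∀ i, 1 ≤ i → i ≤ t.length → ip (vx (foot v0 d0 a) d0 t i - v0) d0 < 3 * T + 2 :=
    fun i h1 h2 => (hΩ (ht.mem i h1 h2)).2.2
  have hlevs : ∀ i, 1 ≤ i → i ≤ s.length → 0 < ip (vx (foot v0 d0 c) d0 s i - v0) d0 :=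
    fun i h1 h2 => (hΩ (hs.mem i h1 h2)).2.1
  have hlevst : ∀ i, 1 ≤ i → i ≤ s.length → ip (vx (foot v0 d0 c) d0 s i - v0) d0 < 3 * T + 2 :=
    fun i h1 h2 => (hΩ (hs.mem i h1 h2)).2.2
  have htl : ip (tip (foot v0 d0 a) d0 t - v0) d0 = 0 := by rw [htip, ft_ip]
  have hlast : foot v0 d0 b + d0 ∈ vis (foot v0 d0 a) d0 t := by
    refine ⟨t.length, ht1, le_rfl, ?_⟩
    have h1 := level_succ_foot v0 (foot v0 d0 a) d0 t t.length
    have h2 : ip (vx (foot v0 d0 a) d0 t (t.length + 1) - v0) d0 = 0 := htl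
    have h3 := hlev t.length ht1 le_rfl
    have h4 := level_mod_foot h0 (ft_ip v0 d0 a) t t.length
    have h5 : dx d0 t t.length = -d0 := by
      by_cases he : Even t.length
      · rw [if_pos he] at h4
        rcases step_even h0 t he with ⟨_, h⟩ | ⟨_, h⟩ | ⟨_, h⟩ <;> omega
      · rcases step_odd h0 t he with ⟨h, _⟩ | ⟨_, h⟩ | ⟨_, h⟩
        · exact h
        · omega
        · omega
    rw [← htip, tip_eq, h5]
    abel
  have hac : a ≠ c := by
    rintro rfl
    exact Set.disjoint_left.1 hd (vis_first ht1) (vis_first hsl1)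
  have hbc : b ≠ c := by
    rintro rfl
    exact Set.disjoint_left.1 hd hlast (vis_first hsl1)
  have key := no_cross (v0 := v0) h0 (ft_cl v0 d0 a) (ft_cl v0 d0 c) (ft_ip v0 d0 a) (ft_ip v0 d0 c)
    (t := t) (s := s) hlev htl ?_ ?_ ?_
  · rw [htip, cross_foot h0, cross_foot h0] at key
    rcases lt_or_gt_of_ne hac with h | h
    · left
      exact ⟨h, by have := key.1 (by omega); omega⟩
    · right
      refine ⟨h, ?_⟩
      by_contra hcon
      have := key.2 (by omega)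
      omega
  · intro j h1 h2
    rcases Nat.lt_or_ge s.length j with h | h
    · have h3 : j = s.length + 1 := by omega
      have h4 : ip (vx (foot v0 d0 c) d0 s j - v0) d0 = 3 * T + 2 := by
        rw [h3]
        exact hsl
      rw [h4]
      omega
    · exact hlevs j h1 h
  · intro i h1 j h2 heq
    have e0 : ∀ (x : ℤ) (r : List Bool), vx (foot v0 d0 x) d0 r 0 = foot v0 d0 x := fun _ _ => rfl
    have hi : ip (vx (foot v0 d0 a) d0 t i - v0) d0 < 3 * T + 2 := by
      rcases Nat.eq_zero_or_pos i with h | h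
      · rw [h, e0, ft_ip]
        omega
      · rcases Nat.lt_or_ge t.length i with h' | h'
        · have h3 : i = t.length + 1 := by omega
          have h4 : ip (vx (foot v0 d0 a) d0 t i - v0) d0 = 0 := by
            rw [h3]
            exact htl
          rw [h4]
          omega
        · exact hlevt i h h'
    rcases Nat.eq_zero_or_pos j with hj | hj
    · rw [hj, e0] at heq
      rcases Nat.eq_zero_or_pos i with h | h
      · rw [h, e0] at heq
        exact hac (foot_inj h0 heq)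
      · rcases Nat.lt_or_ge t.length i with h' | h'
        · have h3 : i = t.length + 1 := by omega
          have h4 : vx (foot v0 d0 a) d0 t i = foot v0 d0 b := by
            rw [h3]
            exact htip
          rw [h4] at heq
          exact hbc (foot_inj h0 heq)
        · have := hlev i h h'
          rw [heq, ft_ip] at this
          omega
    · rcases Nat.lt_or_ge s.length j with h' | h'
      · have h3 : j = s.length + 1 := by omega
        have h4 : ip (vx (foot v0 d0 c) d0 s j - v0) d0 = 3 * T + 2 := by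
          rw [h3]
          exact hsl
        rw [heq, h4] at hi
        omega
      · have h5 := hlevs j hj h'
        rcases Nat.eq_zero_or_pos i with h | h
        · rw [← heq, h, e0, ft_ip] at h5
          omega
        · rcases Nat.lt_or_ge t.length i with h6 | h6
          · have h3 : i = t.length + 1 := by omega
            have h4 : vx (foot v0 d0 a) d0 t i = foot v0 d0 b := by
              rw [h3]
              exact htip
            rw [← heq, h4, ft_ip] at h5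
            omega
          · exact Set.disjoint_left.1 hd ⟨i, h, h6, rfl⟩ ⟨j, hj, h', heq.symm⟩
  · intro i h1
    rw [hsl]
    have e0 : ∀ (x : ℤ) (r : List Bool), vx (foot v0 d0 x) d0 r 0 = foot v0 d0 x := fun _ _ => rfl
    rcases Nat.eq_zero_or_pos i with h | h
    · rw [h, e0, ft_ip]
      omega
    · rcases Nat.lt_or_ge t.length i with h' | h'
      · have h3 : i = t.length + 1 := by omega
        have h4 : ip (vx (foot v0 d0 a) d0 t i - v0) d0 = 0 := by
          rw [h3]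
          exact htl
        rw [h4]
        omega
      · exact hlevt i h h'

/-- A walk from the foot a that ends on the walk g from the foot e, and a walk from the foot c to the top line that is
disjoint from both: a and e are on the same side of c. -/
theorem hit_side {v0 d0 : Pt} (h0 : d0 ∈ dirs) {T : ℕ} (hT : 1 ≤ T) {Ω : Set Pt} (hΩ : Ω ⊆ strip v0 d0 T)
    {a e c : ℤ} {t g s : List Bool} (ht : Saw Ω (foot v0 d0 a) d0 t) (hg : Saw Ω (foot v0 d0 e) d0 g)
    (hhit : tip (foot v0 d0 a) d0 t ∈ vis (foot v0 d0 e) d0 g)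
    (hs : Saw Ω (foot v0 d0 c) d0 s) (hsl : ip (tip (foot v0 d0 c) d0 s - v0) d0 = 3 * T + 2)
    (hts : Disjoint (vis (foot v0 d0 a) d0 t) (vis (foot v0 d0 c) d0 s))
    (hgs : Disjoint (vis (foot v0 d0 e) d0 g) (vis (foot v0 d0 c) d0 s)) :
    (a < c ∧ e < c) ∨ (c < a ∧ c < e) := by
  have hsl1 := up_length (ft_ip v0 d0 c) h0 hT hsl
  obtain ⟨j0, hj1, hj2, hj3⟩ := hhit
  have hg1 : 1 ≤ g.length := by omega
  have e0 : ∀ (x : ℤ) (r : List Bool), vx (foot v0 d0 x) d0 r 0 = foot v0 d0 x := fun _ _ => rfl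
  have hec : e ≠ c := by
    rintro rfl
    exact Set.disjoint_left.1 hgs (vis_first hg1) (vis_first hsl1)
  have hac : a ≠ c := by
    rintro rfl
    rcases Nat.eq_zero_or_pos t.length with h | h
    · have : t = [] := List.length_eq_zero_iff.1 h
      subst this
      have h2 : foot v0 d0 a + d0 ∈ vis (foot v0 d0 e) d0 g := ⟨j0, hj1, hj2, hj3⟩
      exact Set.disjoint_left.1 hgs h2 (vis_first hsl1)
    · exact Set.disjoint_left.1 hts (vis_first h) (vis_first hsl1)
  have hlev : ∀ (x : ℤ) (r : List Bool), Saw Ω (foot v0 d0 x) d0 r → ∀ i, 1 ≤ i → i ≤ r.length →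
      0 < ip (vx (foot v0 d0 x) d0 r i - v0) d0 ∧ ip (vx (foot v0 d0 x) d0 r i - v0) d0 < 3 * T + 2 :=
    fun x r hr i h1 h2 => ⟨(hΩ (hr.mem i h1 h2)).2.1, (hΩ (hr.mem i h1 h2)).2.2⟩
  have hdis : ∀ (x : ℤ) (r : List Bool), Saw Ω (foot v0 d0 x) d0 r → x ≠ c →
      Disjoint (vis (foot v0 d0 x) d0 r) (vis (foot v0 d0 c) d0 s) →
      ∀ i, i ≤ r.length → ∀ j, j ≤ s.length + 1 → vx (foot v0 d0 x) d0 r i ≠ vx (foot v0 d0 c) d0 s j := by
    intro x r hr hxc hd i h1 j h2 heq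
    have hi : ip (vx (foot v0 d0 x) d0 r i - v0) d0 < 3 * T + 2 := by
      rcases Nat.eq_zero_or_pos i with h | h
      · rw [h, e0, ft_ip]
        omega
      · exact (hlev x r hr i h h1).2
    rcases Nat.eq_zero_or_pos j with hj | hj
    · rw [hj, e0] at heq
      rcases Nat.eq_zero_or_pos i with h | h
      · rw [h, e0] at heq
        exact hxc (foot_inj h0 heq)
      · have := (hlev x r hr i h h1).1
        rw [heq, ft_ip] at this
        omega
    · rcases Nat.lt_or_ge s.length j with h' | h'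
      · have h3 : j = s.length + 1 := by omega
        have h4 : ip (vx (foot v0 d0 c) d0 s j - v0) d0 = 3 * T + 2 := by
          rw [h3]
          exact hsl
        rw [heq, h4] at hi
        omega
      · have h5 := (hlev c s hs j hj h').1
        rcases Nat.eq_zero_or_pos i with h | h
        · rw [← heq, h, e0, ft_ip] at h5
          omega
        · exact Set.disjoint_left.1 hd ⟨i, h, h1, rfl⟩ ⟨j, hj, h', heq.symm⟩
  have key := no_cross_hit (v0 := v0) h0 (ft_cl v0 d0 a) (ft_cl v0 d0 c) (ft_cl v0 d0 e) (ft_ip v0 d0 a)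
    (ft_ip v0 d0 c) (ft_ip v0 d0 e) (t := t) (s := s) (g := g) hj1 hj3.symm
    (fun i h1 h2 => (hlev a t ht i h1 h2).1) (fun i h1 h2 => (hlev e g hg i h1 (by omega)).1) ?_
    (hdis a t ht hac hts) (fun i hi j hj => hdis e g hg hec hgs i (by omega) j hj) ?_ ?_
  · rw [cross_foot h0, cross_foot h0] at key
    rcases lt_or_gt_of_ne hac with h | h
    · left
      exact ⟨h, by have := key.1 (by omega); omega⟩
    · right
      refine ⟨h, ?_⟩
      by_contra hcon
      have := key.2 (by omega)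
      omega
  · intro j h1 h2
    rcases Nat.lt_or_ge s.length j with h | h
    · have h3 : j = s.length + 1 := by omega
      have h4 : ip (vx (foot v0 d0 c) d0 s j - v0) d0 = 3 * T + 2 := by
        rw [h3]
        exact hsl
      rw [h4]
      omega
    · exact (hlev c s hs j h1 h).1
  · intro i h1
    rw [hsl]
    rcases Nat.eq_zero_or_pos i with h | h
    · rw [h, e0, ft_ip]
      omega
    · exact (hlev a t ht i h h1).2
  · intro i h1
    rw [hsl]
    rcases Nat.eq_zero_or_pos i with h | h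
    · rw [h, e0, ft_ip]
      omega
    · exact (hlev e g hg i h (by omega)).2

/-- the same in terms of the families Dn and Br in the strip: the explorer from the foot a lands on the same side of the
walker from the foot c. -/
theorem dn_br_side {v0 d0 : Pt} (h0 : d0 ∈ dirs) {T : ℕ} (hT : 1 ≤ T) {a c : ℤ} {X Y : Set Pt} {t s : List Bool}
    (ht : t ∈ Dn (strip v0 d0 T) Y (foot v0 d0 a) d0) (hs : s ∈ Br (strip v0 d0 T) X (foot v0 d0 c) d0)
    (hY : vis (foot v0 d0 c) d0 s ⊆ Y) :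
    ∃ b : ℤ, tip (foot v0 d0 a) d0 t = foot v0 d0 b ∧ ((a < c ∧ b < c) ∨ (c < a ∧ c < b)) := by
  obtain ⟨b, hb⟩ := dn_tip_foot h0 ht
  refine ⟨b, hb, ?_⟩
  refine dn_side h0 hT (Ω := strip v0 d0 T) (subset_refl _) (ht.1.mono Set.sdiff_subset) hb
    (hs.1.mono Set.sdiff_subset) (br_level h0 (ft_ip v0 d0 c) (ft_cl v0 d0 c) hs) ?_
  exact ((mem_dn.1 ht).2.mono_left hY).symm

/-- no arc passes over the foot of a walker that is disjoint from it. -/
theorem arc_over {v0 d0 : Pt} (h0 : d0 ∈ dirs) {T : ℕ} (hT : 1 ≤ T) {a b c : ℤ} {X Y : Set Pt} {t s : List Bool}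
    (ht : t ∈ Arc (strip v0 d0 T) Y (foot v0 d0 a) d0 (foot v0 d0 b))
    (hs : s ∈ Br (strip v0 d0 T) X (foot v0 d0 c) d0)
    (hd : Disjoint (vis (foot v0 d0 a) d0 t) (vis (foot v0 d0 c) d0 s))
    (hc : (a ≤ c ∧ c ≤ b) ∨ (b ≤ c ∧ c ≤ a)) : False := by
  have h := dn_side h0 hT (Ω := strip v0 d0 T) (subset_refl _) (ht.1.1.mono Set.sdiff_subset) ht.2
    (hs.1.mono Set.sdiff_subset) (br_level h0 (ft_ip v0 d0 c) (ft_cl v0 d0 c) hs) hd
  omega

/-- a walk from the foot a in the complement of Y that ends on the walker from the foot e does not pass the walker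
from the foot c. -/
theorem hit_br_side {v0 d0 : Pt} (h0 : d0 ∈ dirs) {T : ℕ} (hT : 1 ≤ T) {a c e : ℤ} {X X' Y : Set Pt}
    {t g s : List Bool} (ht : Saw (strip v0 d0 T \ Y) (foot v0 d0 a) d0 t)
    (hg : g ∈ Br (strip v0 d0 T) X' (foot v0 d0 e) d0)
    (hhit : tip (foot v0 d0 a) d0 t ∈ vis (foot v0 d0 e) d0 g)
    (hs : s ∈ Br (strip v0 d0 T) X (foot v0 d0 c) d0) (hY : vis (foot v0 d0 c) d0 s ⊆ Y)
    (hgs : Disjoint (vis (foot v0 d0 e) d0 g) (vis (foot v0 d0 c) d0 s)) :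
    (a < c ∧ e < c) ∨ (c < a ∧ c < e) := by
  refine hit_side h0 hT (Ω := strip v0 d0 T) (subset_refl _) (ht.mono Set.sdiff_subset) (hg.1.mono Set.sdiff_subset)
    hhit (hs.1.mono Set.sdiff_subset) (br_level h0 (ft_ip v0 d0 c) (ft_cl v0 d0 c) hs) ?_ hgs
  rw [Set.disjoint_left]
  rintro p ⟨i, h1, h2, rfl⟩ h3
  exact (ht.mem i h1 h2).2 (hY h3)

end HexObs
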