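import Pool.Agent.HexObs.Cut2

set_option autoImplicit false

namespace HexObs

open Complex Finset ENNReal

/-- the critical weight of the bridges of height T, as a real number. -/
noncomputable def bT (T : ℕ) : ℝ := (BT T).toReal

/-- the critical weight of the arches of height at most T, as a real number. -/
noncomputable def aT (T : ℕ) : ℝ := (AT T).toReal

lemma BT_ne_top {T : ℕ} (hT : 1 ≤ T) : BT T ≠ ∞ := ne_top_of_le_ne_top ENNReal.one_ne_top (BT_le_one hT)

lemma ofReal_bT {T : ℕ} (hT : 1 ≤ T) : ENNReal.ofReal (bT T) = BT T := ENNReal.ofReal_toReal (BT_ne_top hT)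

lemma ofReal_aT {T : ℕ} (hT : 1 ≤ T) : ENNReal.ofReal (aT T) = AT T := ENNReal.ofReal_toReal (AT_ne_top hT)

lemma bT_nonneg (T : ℕ) : 0 ≤ bT T := ENNReal.toReal_nonneg

lemma aT_nonneg (T : ℕ) : 0 ≤ aT T := ENNReal.toReal_nonneg

theorem bT_add_aT {T : ℕ} (hT : 1 ≤ T) : bT T + Real.cos (3 * Real.pi / 8) * aT T = 1 := by
  have h := BT_add_AT hT
  rw [← ofReal_bT hT, ← ofReal_aT hT, ← ENNReal.ofReal_mul cos3_pos.le,
    ← ENNReal.ofReal_add (bT_nonneg T) (mul_nonneg cos3_pos.le (aT_nonneg T)), ← ENNReal.ofReal_one] at h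
  exact (ENNReal.ofReal_eq_ofReal_iff (add_nonneg (bT_nonneg T) (mul_nonneg cos3_pos.le (aT_nonneg T)))
    zero_le_one).1 h

theorem bT_antitone {T : ℕ} (hT : 1 ≤ T) : bT (T + 1) ≤ bT T :=
  ENNReal.toReal_mono (BT_ne_top hT) (BT_antitone hT)

theorem aT_succ_le {T : ℕ} (hT : 1 ≤ T) : aT (T + 1) ≤ aT T + xc⁻¹ * bT (T + 1) ^ 2 := by
  have h := AT_succ_le (T := T)
  have hx : 0 ≤ xc⁻¹ := by
    have := xc_pos
    positivity
  rw [← ofReal_aT hT, ← ofReal_aT (T := T + 1) (by omega), ← ofReal_bT (T := T + 1) (by omega),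
    ← ENNReal.ofReal_mul (bT_nonneg _), ← ENNReal.ofReal_mul hx, ← ENNReal.ofReal_add (aT_nonneg _)
      (mul_nonneg hx (mul_nonneg (bT_nonneg _) (bT_nonneg _)))] at h
  have h2 := (ENNReal.ofReal_le_ofReal_iff (add_nonneg (aT_nonneg _)
      (mul_nonneg hx (mul_nonneg (bT_nonneg _) (bT_nonneg _))))).1 h
  rw [pow_two]
  exact h2

lemma kappa_eq : Real.cos (3 * Real.pi / 8) * xc⁻¹ = Real.sqrt 2 / 2 := by
  unfold xc
  have h1 : Real.cos (3 * Real.pi / 8) * (2 * Real.cos (Real.pi / 8)) =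
      Real.cos (3 * Real.pi / 8 - Real.pi / 8) + Real.cos (3 * Real.pi / 8 + Real.pi / 8) := by
    rw [Real.cos_sub, Real.cos_add]
    ring
  have h2 : 3 * Real.pi / 8 - Real.pi / 8 = Real.pi / 4 := by ring
  have h3 : 3 * Real.pi / 8 + Real.pi / 8 = Real.pi / 2 := by ring
  rw [one_div, inv_inv, h1, h2, h3, Real.cos_pi_div_four, Real.cos_pi_div_two, add_zero]

/-- the decrease of the bridges. -/
theorem bT_step {T : ℕ} (hT : 1 ≤ T) : bT T ≤ bT (T + 1) + Real.sqrt 2 / 2 * bT (T + 1) ^ 2 := by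
  have h1 := bT_add_aT hT
  have h2 := bT_add_aT (T := T + 1) (by omega)
  have h3 := aT_succ_le hT
  have h4 := mul_le_mul_of_nonneg_left h3 cos3_pos.le
  have h5 := kappa_eq
  have h6 : Real.cos (3 * Real.pi / 8) * (xc⁻¹ * bT (T + 1) ^ 2) = Real.sqrt 2 / 2 * bT (T + 1) ^ 2 := by
    rw [← mul_assoc, h5]
  rw [mul_add, h6] at h4
  linarith

lemma xc_sq : xc ^ 2 = 1 / (2 + Real.sqrt 2) := by
  unfold xc
  have h1 : Real.cos (Real.pi / 8) ^ 2 = (2 + Real.sqrt 2) / 4 := by
    have h2 := Real.cos_sq (Real.pi / 8)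
    rw [show 2 * (Real.pi / 8) = Real.pi / 4 by ring, Real.cos_pi_div_four] at h2
    rw [h2]
    ring
  rw [div_pow, mul_pow, h1]
  norm_num

lemma bT_one : xc ^ 2 ≤ bT 1 := by
  have h0 : ((0, 1) : Pt) ∈ dirs := by decide
  have hmem : [true, false] ∈ out (strip (0, 0) (0, 1) 1) (0, 0) (0, 1) (0, 1) := by
    have hv1 : vx (0, 0) (0, 1) [true, false] 1 = (0, 1) := by decide
    have hv2 : vx (0, 0) (0, 1) [true, false] 2 = (-1, 2) := by decide
    have hv3 : tip (0, 0) (0, 1) [true, false] = (-1, 3) := by decide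
    refine ⟨⟨?_, ?_⟩, ?_, ?_⟩
    · intro i h1 h2
      have : i = 1 ∨ i = 2 := by
        simp at h2
        omega
      rcases this with rfl | rfl
      · rw [hv1]
        exact ⟨Or.inr (by decide), by decide, by decide⟩
      · rw [hv2]
        exact ⟨Or.inl (by decide), by decide, by decide⟩
    · intro i k hik hk
      have hv0 : vx (0, 0) (0, 1) [true, false] 0 = (0, 0) := rfl
      have : (i = 0 ∧ k = 1) ∨ (i = 0 ∧ k = 2) ∨ (i = 1 ∧ k = 2) := by
        simp at hk
        omega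
      rcases this with ⟨rfl, rfl⟩ | ⟨rfl, rfl⟩ | ⟨rfl, rfl⟩
      · rw [hv0, hv1]
        decide
      · rw [hv0, hv2]
        decide
      · rw [hv1, hv2]
        decide
    · rw [hv3]
      rintro ⟨_, _, h⟩
      revert h
      decide
    · decide
  have h1 : wE [true, false] ≤ BT 1 := by
    unfold BT gf
    exact ENNReal.le_tsum (⟨_, hmem⟩ : out (strip (0, 0) (0, 1) 1) (0, 0) (0, 1) (0, 1))
  rw [← ofReal_bT le_rfl] at h1
  exact (ENNReal.ofReal_le_ofReal_iff (bT_nonneg 1)).1 h1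

theorem bT_pos {T : ℕ} (hT : 1 ≤ T) : 0 < bT T := by
  induction T, hT using Nat.le_induction with
  | base => exact lt_of_lt_of_le (pow_pos xc_pos 2) bT_one
  | succ T hT ih =>
    rcases lt_or_eq_of_le (bT_nonneg (T + 1)) with h | h
    · exact h
    · exfalso
      have := bT_step hT
      rw [← h] at this
      simp at this
      linarith

theorem bT_lower {T : ℕ} (hT : 1 ≤ T) : 1 / (T + 3 : ℝ) ≤ bT T := by
  have key : (bT T)⁻¹ ≤ T + 3 := by
    induction T, hT using Nat.le_induction with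
    | base =>
      have h1 := bT_one
      rw [xc_sq] at h1
      have h2 : (bT 1)⁻¹ ≤ (1 / (2 + Real.sqrt 2))⁻¹ := inv_anti₀ (by positivity) h1
      rw [one_div, inv_inv] at h2
      have h3 : Real.sqrt 2 ≤ 2 := by
        rw [Real.sqrt_le_left (by norm_num)]
        norm_num
      push_cast
      linarith
    | succ T hT ih =>
      have h1 := bT_step hT
      have hp := bT_pos hT
      have hp' := bT_pos (T := T + 1) (by omega)
      have ha := bT_antitone hT
      have h3 : Real.sqrt 2 / 2 ≤ 1 := by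
        have : Real.sqrt 2 ≤ 2 := by
          rw [Real.sqrt_le_left (by norm_num)]
          norm_num
        linarith
      have h4 : bT T ≤ bT (T + 1) + bT (T + 1) * bT T := by
        have h5 : Real.sqrt 2 / 2 * bT (T + 1) ^ 2 ≤ bT (T + 1) * bT T := by
          have h6 : bT (T + 1) ^ 2 ≤ bT (T + 1) * bT T := by
            rw [pow_two]
            exact mul_le_mul_of_nonneg_left ha hp'.le
          have h7 : 0 ≤ bT (T + 1) ^ 2 := by positivity
          nlinarith
        linarith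
      have h8 : (bT (T + 1))⁻¹ ≤ (bT T)⁻¹ + 1 := by
        have e : (bT T)⁻¹ + 1 = (1 + bT T) / bT T := by
          field_simp
        rw [e, inv_eq_one_div, div_le_div_iff₀ hp' hp]
        linarith
      push_cast
      linarith
  have hp := bT_pos hT
  rw [one_div]
  exact inv_le_of_inv_le₀ hp key

end HexObs
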