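import Pool.Agent.HexObs.Strip3

set_option autoImplicit false

namespace HexObs

open Complex Finset ENNReal

/-- multiplication of Eisenstein integers. -/
def mulE (u p : Pt) : Pt := (u.1 * p.1 - u.2 * p.2, u.1 * p.2 + u.2 * p.1 + u.2 * p.2)

lemma mulE_add (u p q : Pt) : mulE u (p + q) = mulE u p + mulE u q := by
  simp only [mulE, Prod.fst_add, Prod.snd_add, Prod.mk_add_mk]
  congr 1 <;> ring

lemma mulE_sub (u p q : Pt) : mulE u (p - q) = mulE u p - mulE u q := by
  simp only [mulE, Prod.fst_sub, Prod.snd_sub, Prod.mk_sub_mk]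
  congr 1 <;> ring

lemma mulE_neg (u p : Pt) : mulE u (-p) = - mulE u p := by
  simp only [mulE, Prod.fst_neg, Prod.snd_neg, Prod.neg_mk]
  congr 1 <;> ring

lemma mulE_turn (u : Pt) (b : Bool) (d : Pt) : mulE u (turn b d) = turn b (mulE u d) := by
  cases b
  · simp only [turn, Bool.false_eq_true, if_false, rotR, mulE]
    congr 1 <;> ring
  · simp only [turn, if_true, rotL, mulE]
    congr 1 <;> ring

lemma mulE_comm (u p : Pt) : mulE u p = mulE p u := by
  simp only [mulE]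
  congr 1 <;> ring

lemma mulE_assoc (u v p : Pt) : mulE u (mulE v p) = mulE (mulE u v) p := by
  simp only [mulE]
  congr 1 <;> ring

/-- the conjugate. -/
def conjE (p : Pt) : Pt := (p.1 + p.2, -p.2)

lemma mulE_conjE (p : Pt) : mulE p (conjE p) = (nrm p, 0) := by
  simp only [mulE, conjE, nrm]
  congr 1 <;> ring

lemma nrm_mulE (u p : Pt) : nrm (mulE u p) = nrm u * nrm p := by
  simp only [mulE, nrm]
  ring

lemma nrm_conjE (u : Pt) : nrm (conjE u) = nrm u := by
  simp only [conjE, nrm]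
  ring

lemma ip_mulE (u p q : Pt) : ip (mulE u p) (mulE u q) = nrm u * ip p q := by
  simp only [mulE, nrm, ip]
  ring

lemma mulE_one (p : Pt) : mulE (1, 0) p = p := by
  simp [mulE]

lemma cl_mulE (u p : Pt) : cl (mulE u p) = cl u * cl p := by
  have h3 : (3 : ZMod 3) = 0 := three_eq
  simp only [mulE, cl]
  push_cast
  linear_combination (-(u.2 : ZMod 3) * p.2) * h3

lemma mulE_inj {u : Pt} (hu : nrm u = 1) {p q : Pt} (h : mulE u p = mulE u q) : p = q := by
  have h1 : mulE (conjE u) (mulE u p) = mulE (conjE u) (mulE u q) := by rw [h]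
  rw [mulE_assoc, mulE_assoc, mulE_comm (conjE u) u, mulE_conjE, hu, mulE_one, mulE_one] at h1
  exact h1

/-- the rotation that maps d to d'. -/
def rotTo (d d' : Pt) : Pt := mulE d' (conjE d)

lemma rotTo_apply {d : Pt} (d' : Pt) (hd : d ∈ dirs) : mulE (rotTo d d') d = d' := by
  unfold rotTo
  rw [← mulE_assoc, mulE_comm (conjE d) d, mulE_conjE, mem_dirs.1 hd, mulE_comm, mulE_one]

lemma nrm_rotTo {d d' : Pt} (hd : d ∈ dirs) (hd' : d' ∈ dirs) : nrm (rotTo d d') = 1 := by
  unfold rotTo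
  rw [nrm_mulE, nrm_conjE, mem_dirs.1 hd, mem_dirs.1 hd']
  norm_num

lemma ds_mulE (u d0 : Pt) (τ : ℕ → Bool) (i : ℕ) : ds (mulE u d0) τ i = mulE u (ds d0 τ i) := by
  induction i with
  | zero => rfl
  | succ i ih => rw [ds_succ, ds_succ, ih, mulE_turn]

lemma vs_mulE (u v0 v0' d0 : Pt) (τ : ℕ → Bool) (i : ℕ) :
    vs v0' (mulE u d0) τ i = v0' + mulE u (vs v0 d0 τ i - v0) := by
  induction i with
  | zero =>
    show v0' = v0' + mulE u (v0 - v0)
    rw [sub_self]
    simp [mulE]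
  | succ i ih =>
    rw [vs_succ, vs_succ, ih, ds_mulE]
    have : vs v0 d0 τ i + ds d0 τ i - v0 = (vs v0 d0 τ i - v0) + ds d0 τ i := by abel
    rw [this, mulE_add]
    abel

lemma vx_mulE (u v0 v0' d0 : Pt) (t : List Bool) (i : ℕ) :
    vx v0' (mulE u d0) t i = v0' + mulE u (vx v0 d0 t i - v0) := vs_mulE u v0 v0' d0 (tf t) i

lemma dx_mulE (u d0 : Pt) (t : List Bool) (i : ℕ) : dx (mulE u d0) t i = mulE u (dx d0 t i) :=
  ds_mulE u d0 (tf t) i

/-- rotations and translations do not change the words of the walks leaving a domain. -/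
theorem out_rot {u : Pt} (hu : nrm u = 1) (v0 v0' d0 e : Pt) {Ω Ω' : Set Pt}
    (hΩ : ∀ v, v ∈ Ω ↔ v0' + mulE u (v - v0) ∈ Ω') :
    out Ω v0 d0 e = out Ω' v0' (mulE u d0) (mulE u e) := by
  have hinj : ∀ v w, v0' + mulE u (v - v0) = v0' + mulE u (w - v0) → v = w := by
    intro v w h
    have h1 := add_left_cancel h
    have h2 := mulE_inj hu h1
    exact sub_left_injective h2
  ext t
  constructor
  · rintro ⟨⟨h1, h2⟩, h3, h4⟩
    refine ⟨⟨?_, ?_⟩, ?_, ?_⟩
    · intro i hi hl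
      rw [vx_mulE u v0]
      exact (hΩ _).1 (h1 i hi hl)
    · intro i k hik hk heq
      rw [vx_mulE u v0, vx_mulE u v0] at heq
      exact h2 i k hik hk (hinj _ _ heq)
    · unfold tip
      rw [vx_mulE u v0, ← hΩ]
      exact h3
    · rw [dx_mulE, h4]
  · rintro ⟨⟨h1, h2⟩, h3, h4⟩
    refine ⟨⟨?_, ?_⟩, ?_, ?_⟩
    · intro i hi hl
      have := h1 i hi hl
      rw [vx_mulE u v0] at this
      exact (hΩ _).2 this
    · intro i k hik hk heq
      apply h2 i k hik hk
      rw [vx_mulE u v0, vx_mulE u v0, heq]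
    · unfold tip at h3
      rw [vx_mulE u v0, ← hΩ] at h3
      exact h3
    · rw [dx_mulE] at h4
      exact mulE_inj hu h4

lemma isHex_mulE {u : Pt} (hu : nrm u = 1) (v0 v0' d0 v : Pt) :
    IsHex v0 d0 v ↔ IsHex v0' (mulE u d0) (v0' + mulE u (v - v0)) := by
  have hcu : cl u * cl u = 1 := cl_dir_sq u (mem_dirs.2 hu)
  unfold IsHex
  rw [cl_add, cl_mulE, cl_mulE, cl_sub]
  constructor
  · rintro (h | h)
    · left
      rw [h]
      ring
    · right
      rw [h]
      ring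
  · rintro (h | h)
    · left
      have h1 : cl u * (cl v - cl v0) = 0 := by linear_combination h
      have h2 : cl u * (cl u * (cl v - cl v0)) = 0 := by rw [h1, mul_zero]
      rw [← mul_assoc, hcu, one_mul] at h2
      linear_combination h2
    · right
      have h1 : cl u * (cl v - cl v0) = cl u * cl d0 := by linear_combination h
      have h2 : cl u * (cl u * (cl v - cl v0)) = cl u * (cl u * cl d0) := by rw [h1]
      rw [← mul_assoc, ← mul_assoc, hcu, one_mul, one_mul] at h2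
      linear_combination h2

/-- the words of the bridges of a strip do not depend on the strip. -/
theorem strip_rot {d0 d0' : Pt} (h0 : d0 ∈ dirs) (h0' : d0' ∈ dirs) (v0 v0' : Pt) (T : ℕ) :
    out (strip v0 d0 T) v0 d0 d0 = out (strip v0' d0' T) v0' d0' d0' ∧
    out (strip v0 d0 T) v0 d0 (-d0) = out (strip v0' d0' T) v0' d0' (-d0') := by
  have hu := nrm_rotTo h0 h0'
  have ha := rotTo_apply d0' h0
  set u := rotTo d0 d0' with hu'
  have hΩ : ∀ v, v ∈ strip v0 d0 T ↔ v0' + mulE u (v - v0) ∈ strip v0' d0' T := by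
    intro v
    have e1 : v0' + mulE u (v - v0) - v0' = mulE u (v - v0) := by abel
    have e2 : ip (v0' + mulE u (v - v0) - v0') d0' = ip (v - v0) d0 := by
      rw [e1, ← ha, ip_mulE, hu, one_mul]
    constructor
    · rintro ⟨h1, h2, h3⟩
      refine ⟨?_, ?_, ?_⟩
      · have := (isHex_mulE hu v0 v0' d0 v).1 h1
        rwa [ha] at this
      · rw [e2]
        exact h2
      · rw [e2]
        exact h3
    · rintro ⟨h1, h2, h3⟩
      rw [e2] at h2 h3
      refine ⟨?_, h2, h3⟩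
      apply (isHex_mulE hu v0 v0' d0 v).2
      rwa [ha]
  have k1 := out_rot hu v0 v0' d0 d0 hΩ
  have k2 := out_rot hu v0 v0' d0 (-d0) hΩ
  rw [mulE_neg, ha] at k2
  rw [ha] at k1
  exact ⟨k1, k2⟩

/-- critical generating function of the bridges of a strip of height T. -/
noncomputable def BT (T : ℕ) : ℝ≥0∞ := gf (out (strip (0, 0) (0, 1) T) (0, 0) (0, 1) (0, 1))

/-- critical generating function of the arches in a strip of height T. -/
noncomputable def AT (T : ℕ) : ℝ≥0∞ := gf (out (strip (0, 0) (0, 1) T) (0, 0) (0, 1) (-(0, 1)))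

lemma gf_B {d0 : Pt} (h0 : d0 ∈ dirs) (v0 : Pt) (T : ℕ) : gf (out (strip v0 d0 T) v0 d0 d0) = BT T := by
  unfold BT
  rw [(strip_rot h0 (show ((0, 1) : Pt) ∈ dirs by decide) v0 (0, 0) T).1]

lemma gf_A {d0 : Pt} (h0 : d0 ∈ dirs) (v0 : Pt) (T : ℕ) : gf (out (strip v0 d0 T) v0 d0 (-d0)) = AT T := by
  unfold AT
  rw [(strip_rot h0 (show ((0, 1) : Pt) ∈ dirs by decide) v0 (0, 0) T).2]

theorem BT_add_AT {T : ℕ} (hT : 1 ≤ T) : BT T + ENNReal.ofReal (Real.cos (3 * Real.pi / 8)) * AT T = 1 :=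
  strip_identity (v0 := (0, 0)) (d0 := (0, 1)) (by decide) hT

lemma strip_mono (v0 d0 : Pt) {T T' : ℕ} (h : T ≤ T') : strip v0 d0 T ⊆ strip v0 d0 T' := by
  rintro v ⟨h1, h2, h3⟩
  have : (T : ℤ) ≤ T' := by exact_mod_cast h
  exact ⟨h1, h2, by linarith⟩

end HexObs
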