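import Pool.Agent.HexObs.Slit2

/-!
The half layer identity (helper63): the end point of a critical bridge is spread.
-/

set_option autoImplicit false

namespace HexObs

open Complex Finset ENNReal Filter Topology

lemma dir_tab : ∀ d ∈ dirs, ∀ e ∈ dirs,
    (e = d ∧ cross d e = 0 ∧ ip e d = 2) ∨ (e = rotL d ∧ cross d e = 1 ∧ ip e d = 1) ∨
    (e = rotR d ∧ cross d e = -1 ∧ ip e d = 1) ∨ (e = rotL (rotL d) ∧ cross d e = 1 ∧ ip e d = -1) ∨
    (e = rotR (rotR d) ∧ cross d e = -1 ∧ ip e d = -1) ∨ (e = -d ∧ cross d e = 0 ∧ ip e d = -2) := by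
  decide

lemma rotL_tab : ∀ d ∈ dirs, ip (rotL d) (rotR d) = -1 ∧ cross d (rotL d) = 1 := by
  decide

lemma cross_add_right (d p q : Pt) : cross d (p + q) = cross d p + cross d q := by
  simp only [cross, Prod.fst_add, Prod.snd_add]
  ring

lemma hex_level {v0 d0 v : Pt} (h0 : d0 ∈ dirs) (hv : IsHex v0 d0 v) :
    ip (v - v0) d0 % 3 = 0 ∨ ip (v - v0) d0 % 3 = 2 := by
  rcases hv with hv | hv
  · left
    have h1 : ((ip (v - v0) d0 : ℤ) : ZMod 3) = 0 := by
      rw [ip_mod, cl_sub, hv, sub_self, zero_mul, neg_zero]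
    exact Int.emod_eq_zero_of_dvd ((ZMod.intCast_zmod_eq_zero_iff_dvd _ 3).1 h1)
  · right
    have h1 : ((ip (v - v0) d0 - 2 : ℤ) : ZMod 3) = 0 := by
      have h3 : (3 : ZMod 3) = 0 := three_eq
      push_cast
      rw [ip_mod, cl_sub, hv]
      linear_combination (-1 : ZMod 3) * cl_dir_sq d0 h0 - h3
    have h2 := Int.emod_eq_zero_of_dvd ((ZMod.intCast_zmod_eq_zero_iff_dvd _ 3).1 h1)
    omega

/-- the part of the top layer on the left of w. -/
def lft (v0 d0 w : Pt) (T : ℕ) : Set Pt :=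
  {v | (3 * T + 2 : ℤ) ≤ ip (v - v0) d0 ∧ cross d0 (w - v0) < cross d0 (v - v0)}

lemma v0_not_lft (v0 d0 w : Pt) (T : ℕ) : v0 ∉ lft v0 d0 w T := by
  rintro ⟨h, _⟩
  rw [sub_self] at h
  simp [ip] at h
  omega

/-- the walks that stop on the left part of the top layer. -/
lemma ni_hit {v0 d0 w : Pt} (h0 : d0 ∈ dirs) {T L : ℕ} (hT : 1 ≤ T) (hL : 1 ≤ L)
    (hw : ip (w - v0) d0 = 3 * T + 2) {t : List Bool}
    (hs : Saw (trap v0 d0 (T + 1) L \ lft v0 d0 w T) v0 d0 t) (htip : tip v0 d0 t ∈ lft v0 d0 w T)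
    (htr : tip v0 d0 t ∈ trap v0 d0 (T + 1) L) : wind t = 0 ∨ wind t = 1 := by
  have hlen : 1 ≤ t.length := by
    by_contra hcon
    have hz : t.length = 0 := by omega
    have ht0 : t = [] := List.length_eq_zero_iff.1 hz
    rw [ht0] at htip
    have h1 : tip v0 d0 [] = v0 + d0 := rfl
    rw [h1] at htip
    obtain ⟨h2, _⟩ := htip
    have e : v0 + d0 - v0 = d0 := by abel
    rw [e, ip_self_dir h0] at h2
    omega
  obtain ⟨hv1, hv2⟩ := hs.mem t.length hlen le_rfl
  have hvh := vx_hex v0 d0 t t.length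
  have hth := tip_hex v0 d0 t
  have hde := dx_mem h0 t t.length
  have e0 : tip v0 d0 t - v0 = (vx v0 d0 t t.length - v0) + dx d0 t t.length := by
    rw [tip_eq]
    abel
  have htip' := htip
  obtain ⟨a1, a2⟩ := htip'
  obtain ⟨⟨_, b1, b2⟩, b3, b4⟩ := htr
  have lev1 := hex_level h0 hvh
  have lev2 := hex_level h0 hth
  have hX : ∀ i, i ≤ t.length → vx v0 d0 t i ∉ lft v0 d0 w T := by
    intro i hi
    rcases Nat.eq_zero_or_pos i with h | h
    · rw [h]
      exact v0_not_lft v0 d0 w T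
    · exact (hs.mem i h hi).2
  have hmem : Saw (trap v0 d0 (T + 1) L) v0 d0 t := hs.mono (fun _ h => h.1)
  rw [e0, ip_add_left] at a1 lev2
  rw [e0, cross_add_right] at a2
  push_cast at b2
  have hnot : ip (vx v0 d0 t t.length - v0) d0 < 3 * T + 2 ∨
      cross d0 (vx v0 d0 t t.length - v0) ≤ cross d0 (w - v0) := by
    by_contra hcon
    push Not at hcon
    exact hv2 ⟨hcon.1, hcon.2⟩
  have par1 := xy_parity v0 d0 (vx v0 d0 t t.length)
  have par2 := xy_parity v0 d0 w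
  unfold xy at par1 par2
  simp only [] at par1 par2
  rw [hw] at par2
  rcases dir_tab d0 h0 _ hde with ⟨he, c1, c2⟩ | ⟨he, c1, c2⟩ | ⟨he, c1, c2⟩ | ⟨he, c1, c2⟩ | ⟨he, c1, c2⟩ |
    ⟨he, c1, c2⟩
  · -- from below
    rw [c1, add_zero] at a2
    rw [c2] at a1 lev2
    have hlt : ip (vx v0 d0 t t.length - v0) d0 < 3 * T + 2 := by
      rcases hnot with h | h
      · exact h
      · exact absurd a2 (not_lt.2 h)
    have hlv : ip (tip v0 d0 t - v0) d0 = 3 * T + 2 := by
      rw [e0, ip_add_left, c2]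
      omega
    left
    have hg := trap_good (v0 := v0) h0 (T := T + 1) (L := L + 1) (by omega) (by omega)
    have ht1 : Saw (trap v0 d0 (T + 1) (L + 1)) v0 d0 (t ++ [true]) := by
      refine saw_append_one.2 ⟨hmem.mono (trap_mono v0 d0 (T + 1) (by omega)), ?_, ?_⟩
      · refine ⟨⟨hth, b1, by push_cast; linarith⟩, by push_cast; linarith, by push_cast; linarith⟩
      · intro i hi he'
        exact hX i hi (he' ▸ htip)
    have hl1 : (t ++ [true]).length = t.length + 1 := by simp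
    have hd1 : dx d0 (t ++ [true]) (t ++ [true]).length = rotL d0 := by
      rw [dx_append_one, he]
      rfl
    have htp1 : tip v0 d0 (t ++ [true]) = tip v0 d0 t + rotL d0 := by
      rw [tip_append_one, he]
      rfl
    have e1 : tip v0 d0 t + rotL d0 - v0 = (tip v0 d0 t - v0) + rotL d0 := by abel
    have hmem1 : tip v0 d0 (t ++ [true]) ∈ trap v0 d0 (T + 1) (L + 1) := by
      refine ⟨⟨tip_hex _ _ _, ?_, ?_⟩, ?_, ?_⟩
      · rw [htp1, e1, ip_add_left, hlv, ip_comm (rotL d0), ip_rotL_self h0]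
        omega
      · rw [htp1, e1, ip_add_left, hlv, ip_comm (rotL d0), ip_rotL_self h0]
        push_cast
        omega
      · rw [htp1, e1, ip_add_left, ip_rotL_rotL h0]
        push_cast
        linarith
      · rw [htp1, e1, ip_add_left]
        rw [(rotL_tab d0 h0).1]
        push_cast
        linarith
    have hlft1 : tip v0 d0 (t ++ [true]) ∈ lft v0 d0 w T := by
      refine ⟨?_, ?_⟩
      · rw [htp1, e1, ip_add_left, hlv, ip_comm (rotL d0), ip_rotL_self h0]
        omega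
      · rw [htp1, e1, cross_add_right]
        rw [(rotL_tab d0 h0).2, e0, cross_add_right, c1]
        linarith
    have ht2 : Saw (trap v0 d0 (T + 1) (L + 1)) v0 d0 (t ++ [true] ++ [false]) := by
      refine saw_append_one.2 ⟨ht1, hmem1, ?_⟩
      intro i hi he'
      rw [hl1] at hi
      rcases Nat.lt_or_ge t.length i with h | h
      · have hii : i = t.length + 1 := by omega
        rw [hii, vx_append le_rfl, htp1] at he'
        have h5 : tip v0 d0 t = tip v0 d0 t + rotL d0 := he'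
        have h6 : rotL d0 = 0 := by
          have h8 := congrArg (fun x => x - tip v0 d0 t) h5
          simpa using h8.symm
        have h7 := ip_rotL_rotL h0
        rw [h6] at h7
        simp [ip] at h7
      · rw [vx_append (by omega)] at he'
        exact hX i h (he' ▸ hlft1)
    have hd2 : dx d0 (t ++ [true] ++ [false]) (t ++ [true] ++ [false]).length = d0 := by
      rw [dx_append_one, hd1]
      exact turn_turn true d0
    have htp2 : tip v0 d0 (t ++ [true] ++ [false]) = tip v0 d0 t + rotL d0 + d0 := by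
      rw [tip_append_one, hd1, htp1]
      congr 1
      exact turn_turn true d0
    have hout : tip v0 d0 (t ++ [true] ++ [false]) ∉ trap v0 d0 (T + 1) (L + 1) := by
      rintro ⟨⟨_, _, h3⟩, _⟩
      have e2 : tip v0 d0 t + rotL d0 + d0 - v0 = (tip v0 d0 t - v0) + rotL d0 + d0 := by abel
      rw [htp2, e2, ip_add_left, ip_add_left, hlv, ip_comm (rotL d0), ip_rotL_self h0, ip_self_dir h0] at h3
      push_cast at h3
      omega
    have hbr : t ++ [true] ++ [false] ∈ Br ((trapF (v0 := v0) h0 (T + 1) (L + 1) : Finset Pt) : Set Pt) ∅ v0 d0 := by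
      rw [trapF_coe]
      exact ⟨⟨fun i hi hil => ⟨ht2.mem i hi hil, fun h => h⟩, ht2.inj⟩, hout, hd2⟩
    have hw0 := br_wind hg hbr
    rw [wind_append, wind_append] at hw0
    simp [wind, sgn] at hw0
    exact hw0
  · -- the jog
    rw [c1] at a2
    rw [c2] at a1 lev2
    right
    have hlv : ip (tip v0 d0 t - v0) d0 = 3 * T + 3 := by
      rw [e0, ip_add_left, c2]
      rw [e0, ip_add_left, c2] at b2
      omega
    have hg := trap_good (v0 := v0) h0 (T := T + 1) (L := L) (by omega) hL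
    have ht1 : Saw (trap v0 d0 (T + 1) L) v0 d0 (t ++ [false]) := by
      refine saw_append_one.2 ⟨hmem, ⟨⟨hth, b1, by push_cast; linarith⟩, b3, b4⟩, ?_⟩
      intro i hi he'
      exact hX i hi (he' ▸ htip)
    have hd1 : dx d0 (t ++ [false]) (t ++ [false]).length = d0 := by
      rw [dx_append_one, he]
      exact turn_turn true d0
    have htp1 : tip v0 d0 (t ++ [false]) = tip v0 d0 t + d0 := by
      rw [tip_append_one, he]
      congr 1
      exact turn_turn true d0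
    have hout : tip v0 d0 (t ++ [false]) ∉ trap v0 d0 (T + 1) L := by
      rintro ⟨⟨_, _, h3⟩, _⟩
      have e2 : tip v0 d0 t + d0 - v0 = (tip v0 d0 t - v0) + d0 := by abel
      rw [htp1, e2, ip_add_left, hlv, ip_self_dir h0] at h3
      push_cast at h3
      omega
    have hbr : t ++ [false] ∈ Br ((trapF (v0 := v0) h0 (T + 1) L : Finset Pt) : Set Pt) ∅ v0 d0 := by
      rw [trapF_coe]
      exact ⟨⟨fun i hi hil => ⟨ht1.mem i hi hil, fun h => h⟩, ht1.inj⟩, hout, hd1⟩
    have hw0 := br_wind hg hbr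
    rw [wind_append] at hw0
    simp [wind, sgn] at hw0
    have : wind t = 1 := by
      unfold wind
      omega
    exact this
  · exfalso
    rw [c1] at a2
    rw [c2] at a1 lev2
    rcases hnot with h | h <;> omega
  · exfalso
    rw [c1] at a2
    rw [c2] at a1 lev2
    rw [e0, ip_add_left, c2] at b2
    rcases hnot with h | h <;> omega
  · exfalso
    rw [c1] at a2
    rw [c2] at a1 lev2
    rcases hnot with h | h <;> omega
  · exfalso
    rw [c1] at a2
    rw [c2] at a1 lev2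
    rcases hnot with h | h <;> omega

/-- the bridges of height T that end at w. -/
def BrAt (Ω : Set Pt) (v0 d0 w : Pt) : Set (List Bool) := {t | t ∈ out Ω v0 d0 d0 ∧ tip v0 d0 t = w}

/-- the half layer inequality in a finite domain. -/
theorem ni_fin {v0 d0 w : Pt} (h0 : d0 ∈ dirs) {T L : ℕ} (hT : 1 ≤ T) (hL : 1 ≤ L)
    (hw : ip (w - v0) d0 = 3 * T + 2) (hw1 : w ∈ trap v0 d0 (T + 1) L)
    (hw2 : w + rotL d0 ∈ trap v0 d0 (T + 1) L) :
    Real.sin (Real.pi / 8) * (xc * gr (trapF (v0 := v0) h0 T L) v0 d0 (BrAt (trap v0 d0 T L) v0 d0 w)) +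
        Real.sin (3 * Real.pi / 8) * Wn (trapF (v0 := v0) h0 T L) v0 d0 3 ≤
      Real.sin (3 * Real.pi / 8) * Wn (trapF (v0 := v0) h0 (T + 1) L) v0 d0 (-3) +
        gr (trapF (v0 := v0) h0 (T + 1) L) v0 d0 (Lat (trap v0 d0 (T + 1) L) ∅ v0 d0) := by
  classical
  have hpi := Real.pi_pos
  have hg := trap_good (v0 := v0) h0 (T := T + 1) (L := L) (by omega) hL
  have hgT := trap_good (v0 := v0) h0 (T := T) (L := L) hT hL
  obtain ⟨Ω, hΩ⟩ : ∃ Ω, Ω = trapF (v0 := v0) h0 (T + 1) L := ⟨_, rfl⟩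
  obtain ⟨Ω1, hΩ1⟩ : ∃ Ω, Ω = trapF (v0 := v0) h0 T L := ⟨_, rfl⟩
  have hcoe : (Ω : Set Pt) = trap v0 d0 (T + 1) L := by rw [hΩ, trapF_coe]
  have hcoe1 : (Ω1 : Set Pt) = trap v0 d0 T L := by rw [hΩ1, trapF_coe]
  have hmem : ∀ v, v ∈ Ω ↔ v ∈ trap v0 d0 (T + 1) L := by
    intro v
    rw [← Finset.mem_coe, hcoe]
  rw [← hΩ] at hg ⊢
  rw [← hΩ1] at hgT ⊢
  rw [← hcoe, ← hcoe1]
  set Y : Set Pt := lft v0 d0 w T ∩ (Ω : Set Pt) with hY
  have hid := identity_phase (slit Ω (∅ ∪ Y)) (v0 := v0) h0 (fun v hv => hg.half v (mem_slit.1 hv).1) 0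
  have hsum := slit_exits Ω (X := ∅) (Y := Y) (Set.empty_disjoint _) (Set.empty_subset _) Set.inter_subset_right v0 d0
    (fun t => xc ^ t.length * Real.sin ((0 + wind t) * (Real.pi / 8)))
  rw [hid] at hsum
  have hempty : ∑ u ∈ hitF Ω Y ∅ v0 d0, xc ^ u.length * Real.sin ((0 + wind u) * (Real.pi / 8)) = 0 := by
    apply Finset.sum_eq_zero
    intro u hu
    rw [mem_hitF] at hu
    exact absurd hu.2 (fun h => h)
  have hfr : ∑ u ∈ freeF Ω (∅ ∪ Y) v0 d0, xc ^ u.length * Real.sin ((0 + wind u) * (Real.pi / 8)) =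
      fr Ω v0 d0 (fun w => Real.sin ((0 + w) * (Real.pi / 8))) (∅ ∪ Y) := rfl
  rw [hempty, add_zero, hfr, fr_eq hg, Set.empty_union] at hsum
  have s1 : Real.sin ((((0 : ℤ) : ℝ)) * (Real.pi / 8)) = 0 := by
    push_cast
    rw [zero_mul, Real.sin_zero]
  have s2 : Real.sin ((((3 : ℤ) : ℝ)) * (Real.pi / 8)) = Real.sin (3 * Real.pi / 8) := by
    congr 1
    push_cast
    ring
  have s3 : Real.sin ((((-3 : ℤ) : ℝ)) * (Real.pi / 8)) = - Real.sin (3 * Real.pi / 8) := by
    rw [← Real.sin_neg]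
    congr 1
    push_cast
    ring
  simp only [zero_mul, zero_add] at hsum
  rw [s1, s2, s3, Real.sin_zero, zero_mul, zero_add] at hsum
  -- lateral exits
  have hlat : - gr Ω v0 d0 (Lat (Ω : Set Pt) ∅ v0 d0) ≤
      ∑ u ∈ fam Ω v0 d0 (Lat (Ω : Set Pt) Y v0 d0), xc ^ u.length * Real.sin (wind u * (Real.pi / 8)) := by
    have h1 : gr Ω v0 d0 (Lat (Ω : Set Pt) Y v0 d0) ≤ gr Ω v0 d0 (Lat (Ω : Set Pt) ∅ v0 d0) := by
      unfold gr
      apply Finset.sum_le_sum_of_subset_of_nonneg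
      · intro u hu
        rw [mem_fam] at hu ⊢
        exact ⟨hu.1, ⟨⟨fun i hi hil => ⟨(hu.2.1.mem i hi hil).1, fun h => h⟩, hu.2.1.inj⟩, hu.2.2⟩⟩
      · intro u _ _
        exact pow_nonneg xc_pos.le _
    have h2 : - gr Ω v0 d0 (Lat (Ω : Set Pt) Y v0 d0) ≤
      ∑ u ∈ fam Ω v0 d0 (Lat (Ω : Set Pt) Y v0 d0), xc ^ u.length * Real.sin (wind u * (Real.pi / 8)) := by
      unfold gr
      rw [← Finset.sum_neg_distrib]
      apply Finset.sum_le_sum
      intro u _
      have h3 := pow_nonneg xc_pos.le u.length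
      nlinarith [Real.neg_one_le_sin (wind u * (Real.pi / 8))]
    linarith
  -- landing on the right
  have hright : gr Ω v0 d0 (DnR (Ω : Set Pt) Y v0 d0) ≤ Wn Ω v0 d0 (-3) := by
    unfold gr Wn
    apply Finset.sum_le_sum_of_subset_of_nonneg
    · intro u hu
      rw [mem_fam] at hu
      obtain ⟨hu1, hu2, hu3⟩ := hu
      have hex : u ∈ exits Ω v0 d0 := mem_exits.2 ⟨hu1, hu2.2.1⟩
      rw [Finset.mem_filter]
      refine ⟨hex, ?_⟩
      rcases hg.bottom hex hu2.2.2 with ⟨h1, _⟩ | ⟨_, h2⟩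
      · exact absurd h1 (not_lt.2 hu3.le)
      · exact h2
    · intro u _ _
      exact pow_nonneg xc_pos.le _
  have hsub : (Ω1 : Set Pt) ⊆ (Ω : Set Pt) \ Y := by
    rw [hcoe1, hY, hcoe]
    rintro v ⟨⟨h1, h2, h3⟩, h4, h5⟩
    refine ⟨⟨⟨h1, h2, by push_cast; linarith⟩, h4, h5⟩, ?_⟩
    rintro ⟨⟨h6, _⟩, _⟩
    exact absurd h3 (not_lt.2 h6)
  -- landing on the left
  have hleft : Wn Ω1 v0 d0 3 ≤ gr Ω v0 d0 (DnL (Ω : Set Pt) Y v0 d0) := by
    unfold gr Wn
    apply Finset.sum_le_sum_of_subset_of_nonneg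
    · intro u hu
      rw [Finset.mem_filter] at hu
      obtain ⟨hex, hw3⟩ := hu
      obtain ⟨⟨a1, a2, a3, a4, a5⟩, ⟨b1, b2, b3, b4⟩, ⟨c1, c2, c3⟩, ⟨e1, e2⟩, f1⟩ := dirs_distinct d0 h0
      have hd : dx d0 u u.length = -d0 := by
        rcases hgT.wind hex with ⟨_, hw⟩ | ⟨_, hw⟩ | ⟨_, hw⟩ | ⟨_, hw⟩ | ⟨_, hw⟩ | ⟨hd, _⟩
        · omega
        · omega
        · omega
        · omega
        · omega
        · exact hd
      have hc : 0 < cross d0 (tip v0 d0 u - v0) := by
        rcases hgT.bottom hex hd with ⟨h1, _⟩ | ⟨_, h2⟩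
        · exact h1
        · omega
      have hlev := hgT.bottom_level hex hd
      have hsaw : Saw (Ω1 : Set Pt) v0 d0 u := saw_coe.2 (mem_exits.1 hex).1
      have hsaw' : Saw ((Ω : Set Pt) \ Y) v0 d0 u := hsaw.mono hsub
      rw [mem_fam]
      refine ⟨saw_arr hsaw', ⟨hsaw', ?_, hd⟩, hc⟩
      intro hmemt
      rw [hcoe] at hmemt
      have := hmemt.1.2.1
      rw [hlev] at this
      exact lt_irrefl _ this
    · intro u _ _
      exact pow_nonneg xc_pos.le _
  -- hits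
  have hhit : Real.sin (Real.pi / 8) * (xc * gr Ω1 v0 d0 (BrAt (Ω1 : Set Pt) v0 d0 w)) ≤
      ∑ u ∈ hitF Ω ∅ Y v0 d0, xc ^ u.length * Real.sin (wind u * (Real.pi / 8)) := by
    have hwind : ∀ u ∈ hitF Ω ∅ Y v0 d0, wind u = 0 ∨ wind u = 1 := by
      intro u hu
      rw [mem_hitF, Set.empty_union] at hu
      apply ni_hit h0 hT hL hw (t := u) _ hu.2.1 (by rw [← hcoe]; exact hu.2.2)
      apply hu.1.mono
      rintro x ⟨hx1, hx2⟩
      rw [← hcoe]
      exact ⟨hx1, fun h => hx2 ⟨h, hx1⟩⟩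
    have hinj : Set.InjOn (fun s : List Bool => s ++ [true]) (fam Ω1 v0 d0 (BrAt (Ω1 : Set Pt) v0 d0 w) : Set (List Bool)) := by
      intro a _ b _ hab
      exact List.append_cancel_right hab
    have h1 : Real.sin (Real.pi / 8) * (xc * gr Ω1 v0 d0 (BrAt (Ω1 : Set Pt) v0 d0 w)) =
        ∑ u ∈ (fam Ω1 v0 d0 (BrAt (Ω1 : Set Pt) v0 d0 w)).image (fun s => s ++ [true]),
          xc ^ u.length * Real.sin (wind u * (Real.pi / 8)) := by
      rw [Finset.sum_image hinj]
      unfold gr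
      rw [Finset.mul_sum, Finset.mul_sum]
      apply Finset.sum_congr rfl
      intro s hs
      rw [mem_fam] at hs
      have hbr : s ∈ Br (Ω1 : Set Pt) ∅ v0 d0 :=
        ⟨⟨fun i hi hil => ⟨hs.2.1.1.mem i hi hil, fun h => h⟩, hs.2.1.1.inj⟩, hs.2.1.2.1, hs.2.1.2.2⟩
      have hw0 := br_wind hgT hbr
      have hw1 : wind (s ++ [true]) = 1 := by
        rw [wind_append, hw0]
        simp [wind, sgn]
      rw [hw1, List.length_append, List.length_singleton, pow_succ]
      push_cast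
      rw [one_mul]
      ring
    rw [h1]
    apply Finset.sum_le_sum_of_subset_of_nonneg
    · intro u hu
      rw [Finset.mem_image] at hu
      obtain ⟨s, hs, rfl⟩ := hu
      rw [mem_fam] at hs
      obtain ⟨hs1, ⟨hs2, hs3, hs4⟩, hs5⟩ := hs
      have hsaw' : Saw ((Ω : Set Pt) \ Y) v0 d0 s := hs2.mono hsub
      have hwY : w ∉ Y := by
        rintro ⟨⟨_, h⟩, _⟩
        exact lt_irrefl _ h
      have hwΩ : w ∈ (Ω : Set Pt) := by
        rw [hcoe]
        exact hw1
      have hlast : tip v0 d0 (s ++ [true]) = w + rotL d0 := by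
        rw [tip_append_one, hs4, hs5]
        rfl
      rw [mem_hitF, Set.empty_union]
      refine ⟨saw_append_one.2 ⟨hsaw', ?_, ?_⟩, ?_⟩
      · rw [hs5]
        exact ⟨hwΩ, hwY⟩
      · intro i hi he
        rw [hs5] at he
        rcases Nat.eq_zero_or_pos i with h | h
        · rw [h] at he
          have he' : v0 = w := he
          rw [← he', sub_self] at hw
          simp [ip] at hw
          omega
        · have h5 := hs2.mem i h hi
          rw [he, hcoe1] at h5
          have h6 := h5.1.2.2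
          rw [hw] at h6
          exact lt_irrefl _ h6
      · rw [hlast]
        have e1 : w + rotL d0 - v0 = (w - v0) + rotL d0 := by abel
        refine ⟨⟨?_, ?_⟩, ?_⟩
        · rw [e1, ip_add_left, hw, ip_comm (rotL d0), ip_rotL_self h0]
          linarith
        · rw [e1, cross_add_right, (rotL_tab d0 h0).2]
          linarith
        · rw [hcoe]
          exact hw2
    · intro u hu _
      apply mul_nonneg (pow_nonneg xc_pos.le _)
      rcases hwind u hu with h | h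
      · rw [h]
        simp
      · rw [h]
        push_cast
        rw [one_mul]
        exact Real.sin_nonneg_of_nonneg_of_le_pi (by linarith) (by linarith)
  have hs3 : 0 ≤ Real.sin (3 * Real.pi / 8) := Real.sin_nonneg_of_nonneg_of_le_pi (by linarith) (by linarith)
  have k1 := mul_le_mul_of_nonneg_left hright hs3
  have k2 := mul_le_mul_of_nonneg_left hleft hs3
  linarith

/-- lateral exits of the trapezoid, by direction. -/
lemma lat_trap {v0 d0 : Pt} (h0 : d0 ∈ dirs) {T L : ℕ} (hT : 1 ≤ T) (hL : 1 ≤ L) :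
    gr (trapF (v0 := v0) h0 T L) v0 d0 (Lat (trap v0 d0 T L) ∅ v0 d0) ≤
      Ex (trapF (v0 := v0) h0 T L) v0 d0 (rotL d0) + Ex (trapF (v0 := v0) h0 T L) v0 d0 (rotR d0) := by
  classical
  unfold gr Ex
  simp only [Finset.sum_filter]
  rw [← Finset.sum_add_distrib]
  have hsub : fam (trapF (v0 := v0) h0 T L) v0 d0 (Lat (trap v0 d0 T L) ∅ v0 d0) ⊆
      exits (trapF (v0 := v0) h0 T L) v0 d0 := by
    intro u hu
    rw [mem_fam] at hu
    refine mem_exits.2 ⟨hu.1, ?_⟩
    rw [← Finset.mem_coe, trapF_coe]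
    exact hu.2.2.1
  refine le_trans (Finset.sum_le_sum (g := fun t => (if dx d0 t t.length = rotL d0 then xc ^ t.length else 0) +
    if dx d0 t t.length = rotR d0 then xc ^ t.length else 0) ?_) (Finset.sum_le_sum_of_subset_of_nonneg hsub ?_)
  · intro u hu
    rw [mem_fam] at hu
    obtain ⟨_, hu1, hu2, hu3, hu4⟩ := hu
    have hs : Saw (trap v0 d0 T L) v0 d0 u := ⟨fun i hi hil => (hu1.mem i hi hil).1, hu1.inj⟩
    have hp := pow_nonneg xc_pos.le u.length
    rcases trap_exit h0 hT hL hs hu2 with ⟨hd, _⟩ | ⟨hd, _⟩ | ⟨b, hd, _⟩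
    · exact absurd hd hu4
    · exact absurd hd hu3
    · cases b
      · have hd' : dx d0 u u.length = rotR d0 := hd
        simp only [hd', if_true]
        split_ifs <;> linarith
      · have hd' : dx d0 u u.length = rotL d0 := hd
        simp only [hd', if_true]
        split_ifs <;> linarith
  · intro u _ _
    have hp := pow_nonneg xc_pos.le u.length
    split_ifs <;> linarith

/-- twice the landing weight on one side. -/
lemma wn3_bounds {v0 d0 : Pt} (h0 : d0 ∈ dirs) {T L : ℕ} (hT : 1 ≤ T) (hL : 1 ≤ L) :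
    2 * Wn (trapF (v0 := v0) h0 T L) v0 d0 (-3) ≤ Ex (trapF (v0 := v0) h0 T L) v0 d0 (-d0) +
      (Ex (trapF (v0 := v0) h0 T L) v0 d0 (rotL d0) + Ex (trapF (v0 := v0) h0 T L) v0 d0 (rotR d0)) ∧
    Ex (trapF (v0 := v0) h0 T L) v0 d0 (-d0) -
      (Ex (trapF (v0 := v0) h0 T L) v0 d0 (rotL d0) + Ex (trapF (v0 := v0) h0 T L) v0 d0 (rotR d0)) ≤
      2 * Wn (trapF (v0 := v0) h0 T L) v0 d0 3 := by
  have hg := trap_good (v0 := v0) h0 hT hL
  obtain ⟨w0, w1, w2, w3, w4, w5⟩ := hg.Wn_eq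
  have him := hg.im_identity
  have hpi := Real.pi_pos
  have hz : ∀ e, e = rotL (rotL d0) ∨ e = rotR (rotR d0) → Ex (trapF (v0 := v0) h0 T L) v0 d0 e = 0 := by
    intro e he
    unfold Ex
    apply Finset.sum_eq_zero
    intro t ht
    exfalso
    rw [Finset.mem_filter, mem_exits] at ht
    obtain ⟨⟨h1, h2⟩, h3⟩ := ht
    have h1' : Saw (trap v0 d0 T L) v0 d0 t := by
      rw [← trapF_coe (v0 := v0) h0]
      exact saw_coe.2 h1
    have h2' : tip v0 d0 t ∉ trap v0 d0 T L := by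
      rw [← trapF_coe (v0 := v0) h0, Finset.mem_coe]
      exact h2
    obtain ⟨⟨a1, a2, a3, a4, a5⟩, ⟨b1, b2, b3, b4⟩, ⟨c1, c2, c3⟩, ⟨e1, e2⟩, f1⟩ := dirs_distinct d0 h0
    rcases trap_exit h0 hT hL h1' h2' with ⟨hd, _⟩ | ⟨hd, _⟩ | ⟨b, hd, _⟩
    · rw [h3] at hd
      rcases he with rfl | rfl
      · exact e2 hd.symm
      · exact f1 hd.symm
    · rw [h3] at hd
      rcases he with rfl | rfl
      · exact a3 hd
      · exact a4 hd
    · rw [h3] at hd
      cases b
      · rcases he with rfl | rfl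
        · exact c1 hd
        · exact c2 hd
      · rcases he with rfl | rfl
        · exact b2 hd
        · exact b3 hd
  rw [w1, w2, w3, w4, hz _ (Or.inl rfl), hz _ (Or.inr rfl), sub_zero, mul_zero, add_zero] at him
  have p1 := Ex_nonneg (trapF (v0 := v0) h0 T L) v0 d0 (rotL d0)
  have p2 := Ex_nonneg (trapF (v0 := v0) h0 T L) v0 d0 (rotR d0)
  have s1 : 0 < Real.sin (Real.pi / 8) := Real.sin_pos_of_pos_of_lt_pi (by linarith) (by linarith)
  have s3 : Real.sin (Real.pi / 8) ≤ Real.sin (3 * Real.pi / 8) :=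
    Real.sin_le_sin_of_le_of_le_pi_div_two (by linarith) (by linarith) (by linarith)
  set A := Ex (trapF (v0 := v0) h0 T L) v0 d0 (rotL d0)
  set B := Ex (trapF (v0 := v0) h0 T L) v0 d0 (rotR d0)
  set W := Wn (trapF (v0 := v0) h0 T L) v0 d0 3
  set W' := Wn (trapF (v0 := v0) h0 T L) v0 d0 (-3)
  have hle1 : W' - W ≤ A + B := by
    have h3 : Real.sin (3 * Real.pi / 8) * (W' - W) ≤ Real.sin (3 * Real.pi / 8) * (A + B) := by
      have h4 : Real.sin (3 * Real.pi / 8) * (W' - W) = Real.sin (Real.pi / 8) * (A - B) := by linarith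
      rw [h4]
      have h5 : Real.sin (Real.pi / 8) * (A - B) ≤ Real.sin (Real.pi / 8) * (A + B) :=
        mul_le_mul_of_nonneg_left (by linarith) s1.le
      have h6 : Real.sin (Real.pi / 8) * (A + B) ≤ Real.sin (3 * Real.pi / 8) * (A + B) :=
        mul_le_mul_of_nonneg_right s3 (by linarith)
      linarith
    exact le_of_mul_le_mul_left h3 (by linarith)
  constructor
  · linarith
  · linarith

lemma xc_tan : Real.cos (3 * Real.pi / 8) * (Real.sin (Real.pi / 8) * xc) * (3 + 2 * Real.sqrt 2) * 2 =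
    Real.sin (3 * Real.pi / 8) := by
  have e1 : Real.sin (Real.pi / 8) = Real.sqrt (2 - Real.sqrt 2) / 2 := Real.sin_pi_div_eight
  have e2 : Real.cos (Real.pi / 8) = Real.sqrt (2 + Real.sqrt 2) / 2 := Real.cos_pi_div_eight
  have e3 : Real.cos (3 * Real.pi / 8) = Real.sin (Real.pi / 8) := by
    rw [show 3 * Real.pi / 8 = Real.pi / 2 - Real.pi / 8 by ring, Real.cos_pi_div_two_sub]
  have e4 : Real.sin (3 * Real.pi / 8) = Real.cos (Real.pi / 8) := by
    rw [show 3 * Real.pi / 8 = Real.pi / 2 - Real.pi / 8 by ring, Real.sin_pi_div_two_sub]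
  have hs2 : Real.sqrt 2 * Real.sqrt 2 = 2 := Real.mul_self_sqrt (by norm_num)
  have hs2' : 0 < Real.sqrt 2 := Real.sqrt_pos.2 (by norm_num)
  have hlt : Real.sqrt 2 ≤ 2 := by nlinarith
  have hm : Real.sqrt (2 - Real.sqrt 2) * Real.sqrt (2 - Real.sqrt 2) = 2 - Real.sqrt 2 :=
    Real.mul_self_sqrt (by linarith)
  have hp : Real.sqrt (2 + Real.sqrt 2) * Real.sqrt (2 + Real.sqrt 2) = 2 + Real.sqrt 2 :=
    Real.mul_self_sqrt (by linarith)
  have hpp : 0 < Real.sqrt (2 + Real.sqrt 2) := Real.sqrt_pos.2 (by linarith)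
  rw [e3, e4]
  unfold xc
  rw [e1, e2]
  set a := Real.sqrt (2 - Real.sqrt 2)
  set b := Real.sqrt (2 + Real.sqrt 2)
  set r := Real.sqrt 2
  have h1 : a / 2 * (a / 2 * (1 / (2 * (b / 2)))) * (3 + 2 * r) * 2 = (a * a) * (3 + 2 * r) / (2 * b) := by
    field_simp
  rw [h1, hm, div_eq_iff (by positivity)]
  have h2 : b / 2 * (2 * b) = b * b := by ring
  rw [h2, hp]
  nlinarith

/-- ANTI-CONCENTRATION (helper63): the weight of the bridges of height T that end at a given edge is at most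
(3 + 2 sqrt 2) (B_T - B_(T+1)). -/
theorem anti_conc {v0 d0 : Pt} (h0 : d0 ∈ dirs) {T : ℕ} (hT : 1 ≤ T) (w : Pt) :
    gf (BrAt (strip v0 d0 T) v0 d0 w) ≤ ENNReal.ofReal ((3 + 2 * Real.sqrt 2) * (bT T - bT (T + 1))) := by
  classical
  have hpi := Real.pi_pos
  by_cases hne : ∃ t, t ∈ BrAt (strip v0 d0 T) v0 d0 w
  swap
  · have : BrAt (strip v0 d0 T) v0 d0 w = ∅ := by
      rw [Set.eq_empty_iff_forall_notMem]
      intro t ht
      exact hne ⟨t, ht⟩
    rw [this]
    unfold gf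
    simp
  obtain ⟨t0, ⟨hs0, hout0, hd0⟩, htip0⟩ := hne
  -- the level of w
  have hwhex : IsHex v0 d0 w := by
    rw [← htip0]
    exact tip_hex _ _ _
  have hw : ip (w - v0) d0 = 3 * T + 2 := by
    obtain ⟨L, hL⟩ := saw_trap hs0
    have hout : tip v0 d0 t0 ∉ trap v0 d0 T (L + 1) := fun h => hout0 (trap_sub _ _ _ _ h)
    obtain ⟨⟨a1, a2, a3, a4, a5⟩, _⟩ := dirs_distinct d0 h0
    rcases trap_exit h0 hT (by omega) hL hout with ⟨hd, _⟩ | ⟨_, hi⟩ | ⟨b, hd, _⟩
    · exact absurd (hd.symm.trans hd0) a5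
    · rw [htip0] at hi
      exact hi
    · exfalso
      cases b
      · exact a2 (hd.symm.trans hd0)
      · exact a1 (hd.symm.trans hd0)
  -- large boxes
  have hbox : ∀ v : Pt, IsHex v0 d0 v → 0 < ip (v - v0) d0 → ip (v - v0) d0 < 3 * ((T + 1 : ℕ) : ℤ) + 2 →
      ∃ L0 : ℕ, ∀ L, L0 ≤ L → v ∈ trap v0 d0 (T + 1) L := by
    intro v hv h1 h2
    refine ⟨(ip (v - v0) (rotL d0)).toNat + (ip (v - v0) (rotR d0)).toNat + 1, ?_⟩
    intro L hL
    refine ⟨⟨hv, h1, h2⟩, ?_, ?_⟩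
    · omega
    · omega
  have hlev2 : ip (w + rotL d0 - v0) d0 = 3 * T + 3 := by
    have e1 : w + rotL d0 - v0 = (w - v0) + rotL d0 := by abel
    rw [e1, ip_add_left, hw, ip_comm (rotL d0), ip_rotL_self h0]
    ring
  have hhex2 : IsHex v0 d0 (w + rotL d0) := by
    rw [← htip0]
    have := tip_hex v0 d0 (t0 ++ [true])
    rw [tip_append_one, hd0] at this
    exact this
  obtain ⟨L1, hL1⟩ := hbox w hwhex (by rw [hw]; omega) (by rw [hw]; push_cast; omega)
  obtain ⟨L2, hL2⟩ := hbox (w + rotL d0) hhex2 (by rw [hlev2]; omega) (by rw [hlev2]; push_cast; omega)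
  -- the bound for the box number L
  set s1 := Real.sin (Real.pi / 8) with hs1
  set s3 := Real.sin (3 * Real.pi / 8) with hs3
  have s1pos : 0 < s1 := Real.sin_pos_of_pos_of_lt_pi (by linarith) (by linarith)
  have s3pos : 0 < s3 := Real.sin_pos_of_pos_of_lt_pi (by linarith) (by linarith)
  have hc3 : 0 < Real.cos (3 * Real.pi / 8) := by
    apply Real.cos_pos_of_mem_Ioo
    constructor <;> linarith
  let E : ℕ → ℕ → Pt → ℝ := fun T L e => (gf (out (trap v0 d0 T (L + 1)) v0 d0 e)).toReal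
  have hE : ∀ T L e, E T L e = Ex (trapF (v0 := v0) h0 T (L + 1)) v0 d0 e := by
    intro T L e
    show (gf (out (trap v0 d0 T (L + 1)) v0 d0 e)).toReal = _
    rw [← trapF_coe (v0 := v0) h0, gf_out_coe, ENNReal.toReal_ofReal (Ex_nonneg _ _ _ _)]
  let bd : ℕ → ℝ := fun L => (s3 / 2 * (E (T + 1) L (-d0) - E T L (-d0)) +
    (s3 / 2 + 1) * (E (T + 1) L (rotL d0) + E (T + 1) L (rotR d0)) +
    s3 / 2 * (E T L (rotL d0) + E T L (rotR d0))) / (s1 * xc)
  have hx := xc_pos
  have hbd : ∀ L, L1 ≤ L → L2 ≤ L → (gf (BrAt (trap v0 d0 T (L + 1)) v0 d0 w)).toReal ≤ bd L := by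
    intro L h1 h2
    have hfin := ni_fin h0 hT (L := L + 1) (by omega) hw (hL1 (L + 1) (by omega)) (hL2 (L + 1) (by omega))
    have hlat := lat_trap (v0 := v0) h0 (T := T + 1) (L := L + 1) (by omega) (by omega)
    obtain ⟨b1, _⟩ := wn3_bounds (v0 := v0) h0 (T := T + 1) (L := L + 1) (by omega) (by omega)
    obtain ⟨_, b2⟩ := wn3_bounds (v0 := v0) h0 (T := T) (L := L + 1) hT (by omega)
    have hgr : (gf (BrAt (trap v0 d0 T (L + 1)) v0 d0 w)).toReal =
        gr (trapF (v0 := v0) h0 T (L + 1)) v0 d0 (BrAt (trap v0 d0 T (L + 1)) v0 d0 w) := by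
      apply gf_toReal
      intro t ht
      have := ht.1.1
      rw [← trapF_coe (v0 := v0) h0] at this
      exact saw_coe.1 this
    rw [hgr]
    show _ ≤ (s3 / 2 * (E (T + 1) L (-d0) - E T L (-d0)) +
      (s3 / 2 + 1) * (E (T + 1) L (rotL d0) + E (T + 1) L (rotR d0)) +
      s3 / 2 * (E T L (rotL d0) + E T L (rotR d0))) / (s1 * xc)
    rw [le_div_iff₀ (by positivity)]
    simp only [hE]
    have b1' := mul_le_mul_of_nonneg_left b1 (by linarith : (0 : ℝ) ≤ s3 / 2)
    have b2' := mul_le_mul_of_nonneg_left b2 (by linarith : (0 : ℝ) ≤ s3 / 2)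
    nlinarith
  -- limits
  have hfinE : ∀ T L e, gf (out (trap v0 d0 T (L + 1)) v0 d0 e) ≠ ∞ := by
    intro T L e
    rw [← trapF_coe (v0 := v0) h0, gf_out_coe]
    exact ENNReal.ofReal_ne_top
  have hA : ∀ T, 1 ≤ T → Tendsto (fun L => E T L (-d0)) atTop (𝓝 (aT T)) := by
    intro T hT
    have h1 := gf_out_strip (v0 := v0) h0 hT (e := -d0) (Or.inr rfl)
    rw [gf_A h0] at h1
    exact (ENNReal.tendsto_toReal (AT_ne_top hT)).comp h1
  have hZ : ∀ T, 1 ≤ T → ∀ b : Bool, Tendsto (fun L => E T L (turn b d0)) atTop (𝓝 0) := by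
    intro T hT b
    have h1 := lateral_zero (v0 := v0) h0 hT b
    have h2 := (ENNReal.tendsto_toReal ENNReal.zero_ne_top).comp h1
    rw [ENNReal.toReal_zero] at h2
    exact h2
  have hT1 : 1 ≤ T + 1 := by omega
  have hlim : Tendsto bd atTop (𝓝 ((s3 / 2 * (aT (T + 1) - aT T) + (s3 / 2 + 1) * (0 + 0) + s3 / 2 * (0 + 0)) /
      (s1 * xc))) := by
    apply Filter.Tendsto.div_const
    refine Tendsto.add (Tendsto.add ?_ ?_) ?_
    · exact ((hA (T + 1) hT1).sub (hA T hT)).const_mul _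
    · exact ((hZ (T + 1) hT1 true).add (hZ (T + 1) hT1 false)).const_mul _
    · exact ((hZ T hT true).add (hZ T hT false)).const_mul _
  have hval : (s3 / 2 * (aT (T + 1) - aT T) + (s3 / 2 + 1) * (0 + 0) + s3 / 2 * (0 + 0)) / (s1 * xc) =
      (3 + 2 * Real.sqrt 2) * (bT T - bT (T + 1)) := by
    have i1 := bT_add_aT hT
    have i2 := bT_add_aT hT1
    rw [div_eq_iff (by positivity)]
    have h5 := xc_tan
    have h6 : Real.cos (3 * Real.pi / 8) * (aT (T + 1) - aT T) = bT T - bT (T + 1) := by linarith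
    rw [← h6, hs3, ← h5, hs1]
    ring
  rw [hval] at hlim
  -- monotone union
  have hmono : Monotone (fun L => BrAt (trap v0 d0 T (L + 1)) v0 d0 w) := by
    intro L L' hLL t ht
    have h1 := out_trap_top (v0 := v0) h0 (T := T) (L := L + 1) hT (by omega) (e := d0) (Or.inl rfl)
    have h2 := out_trap_top (v0 := v0) h0 (T := T) (L := L' + 1) hT (by omega) (e := d0) (Or.inl rfl)
    obtain ⟨ht1, ht2⟩ := ht
    rw [h1] at ht1
    refine ⟨?_, ht2⟩
    rw [h2]
    exact ⟨ht1.1, ht1.2.mono (trap_mono v0 d0 T (by omega))⟩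
  have hfinB : ∀ L, gf (BrAt (trap v0 d0 T (L + 1)) v0 d0 w) ≠ ∞ := by
    intro L
    refine ne_top_of_le_ne_top (hfinE T L d0) (gf_mono (fun t ht => ht.1))
  apply gf_le_of_mono_union _ hmono
  · rintro t ⟨ht1, ht2⟩
    rw [Set.mem_iUnion]
    obtain ⟨L, hL⟩ := saw_trap ht1.1
    refine ⟨L, ?_, ht2⟩
    rw [out_trap_top h0 hT (by omega) (Or.inl rfl)]
    exact ⟨ht1, hL⟩
  · intro L
    rw [← ENNReal.ofReal_toReal (hfinB L)]
    apply ENNReal.ofReal_le_ofReal
    apply ge_of_tendsto hlim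
    filter_upwards [Filter.eventually_ge_atTop (max L (max L1 L2))] with L' hL'
    have h1 : L ≤ L' := le_trans (le_max_left _ _) hL'
    have h2 : L1 ≤ L' := le_trans (le_trans (le_max_left _ _) (le_max_right _ _)) hL'
    have h3 : L2 ≤ L' := le_trans (le_trans (le_max_right _ _) (le_max_right _ _)) hL'
    refine le_trans ?_ (hbd L' h2 h3)
    exact ENNReal.toReal_mono (hfinB L') (gf_mono (hmono h1))

end HexObs
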