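import Pool.Agent.HexObs.Rot

set_option autoImplicit false

namespace HexObs

open Complex Finset ENNReal

/-- the steps of a walk: their class. -/
lemma cl_dx (d0 : Pt) (t : List Bool) (i : ℕ) : cl (dx d0 t i) = if Even i then cl d0 else - cl d0 := cl_ds i

lemma cl_vx (v0 d0 : Pt) (t : List Bool) (i : ℕ) : cl (vx v0 d0 t i) = if Even i then cl v0 else cl v0 + cl d0 :=
  cl_vs i

lemma vx_succ (v0 d0 : Pt) (t : List Bool) (i : ℕ) : vx v0 d0 t (i + 1) = vx v0 d0 t i + dx d0 t i := rfl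

lemma dx_succ (d0 : Pt) (t : List Bool) (i : ℕ) : dx d0 t (i + 1) = turn (tf t i) (dx d0 t i) := rfl

lemma dx_mem {d0 : Pt} (h0 : d0 ∈ dirs) (t : List Bool) (i : ℕ) : dx d0 t i ∈ dirs := ds_mem h0 i

lemma level_succ (v0 d0 : Pt) (t : List Bool) (i : ℕ) :
    ip (vx v0 d0 t (i + 1) - v0) d0 = ip (vx v0 d0 t i - v0) d0 + ip (dx d0 t i) d0 := by
  rw [vx_succ, ← ip_add_left]
  congr 1
  abel

/-- the class of a vertex is its level modulo 3. -/
lemma level_mod {v0 d0 : Pt} (h0 : d0 ∈ dirs) (t : List Bool) (i : ℕ) :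
    (3 : ℤ) ∣ ip (vx v0 d0 t i - v0) d0 - (if Even i then 0 else 2) := by
  have h : ((ip (vx v0 d0 t i - v0) d0 : ℤ) : ZMod 3) = (((if Even i then 0 else 2) : ℤ) : ZMod 3) := by
    rw [ip_mod, cl_sub, cl_vx]
    by_cases he : Even i
    · rw [if_pos he, if_pos he]
      push_cast
      ring
    · rw [if_neg he, if_neg he]
      have h1 := cl_dir_sq d0 h0
      have h3 : (3 : ZMod 3) = 0 := three_eq
      push_cast
      linear_combination -h1 - h3
  have := (ZMod.intCast_eq_intCast_iff_dvd_sub _ _ 3).1 h.symm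
  exact this

/-- steps from even vertices: up by 2 or down by 1. -/
lemma step_check : ∀ d ∈ dirs, ∀ e ∈ dirs, cl e = cl d → (e = d ∧ ip e d = 2) ∨ (e = rotL (rotL d) ∧ ip e d = -1) ∨
    (e = rotR (rotR d) ∧ ip e d = -1) := by
  decide

lemma step_check' : ∀ d ∈ dirs, ∀ e ∈ dirs, cl e = -cl d → (e = -d ∧ ip e d = -2) ∨ (e = rotL d ∧ ip e d = 1) ∨
    (e = rotR d ∧ ip e d = 1) := by
  decide

lemma step_even {d0 : Pt} (h0 : d0 ∈ dirs) (t : List Bool) {i : ℕ} (hi : Even i) :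
    (dx d0 t i = d0 ∧ ip (dx d0 t i) d0 = 2) ∨ (dx d0 t i = rotL (rotL d0) ∧ ip (dx d0 t i) d0 = -1) ∨
    (dx d0 t i = rotR (rotR d0) ∧ ip (dx d0 t i) d0 = -1) :=
  step_check d0 h0 _ (dx_mem h0 t i) (by rw [cl_dx, if_pos hi])

lemma step_odd {d0 : Pt} (h0 : d0 ∈ dirs) (t : List Bool) {i : ℕ} (hi : ¬ Even i) :
    (dx d0 t i = -d0 ∧ ip (dx d0 t i) d0 = -2) ∨ (dx d0 t i = rotL d0 ∧ ip (dx d0 t i) d0 = 1) ∨
    (dx d0 t i = rotR d0 ∧ ip (dx d0 t i) d0 = 1) :=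
  step_check' d0 h0 _ (dx_mem h0 t i) (by rw [cl_dx, if_neg hi])

/-- the last step of a walk leaving the strip. -/
lemma strip_exit {v0 d0 : Pt} (h0 : d0 ∈ dirs) {T : ℕ} (hT : 1 ≤ T) {t : List Bool}
    (hs : Saw (strip v0 d0 T) v0 d0 t) (hout : tip v0 d0 t ∉ strip v0 d0 T) :
    (dx d0 t t.length = -d0 ∧ ip (tip v0 d0 t - v0) d0 = 0) ∨
    (dx d0 t t.length = d0 ∧ ip (tip v0 d0 t - v0) d0 = 3 * T + 2) := by
  obtain ⟨L, hL⟩ := saw_trap hs
  have h2 : tip v0 d0 t ∉ trap v0 d0 T (L + 1) := fun h => hout (trap_sub _ _ _ _ h)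
  rcases trap_exit h0 hT (by omega) hL h2 with h | h | ⟨b, _, _, h, _⟩
  · exact Or.inl h
  · exact Or.inr h
  · exact absurd h hout

lemma AT_mono_succ {T : ℕ} (hT : 1 ≤ T) : AT T ≤ AT (T + 1) := by
  apply gf_mono
  rintro t ⟨h1, h2, h3⟩
  refine ⟨h1.mono (strip_mono _ _ (by omega)), ?_, h3⟩
  have h0 : ((0, 1) : Pt) ∈ dirs := by decide
  rcases strip_exit h0 hT h1 h2 with ⟨hd, hi⟩ | ⟨hd, hi⟩
  · rintro ⟨_, hb, _⟩
    rw [hi] at hb
    exact lt_irrefl _ hb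
  · rw [h3] at hd
    exact absurd hd (by decide)

lemma cos3_pos : 0 < Real.cos (3 * Real.pi / 8) := by
  apply Real.cos_pos_of_mem_Ioo
  constructor <;> linarith [Real.pi_pos]

lemma BT_le_one {T : ℕ} (hT : 1 ≤ T) : BT T ≤ 1 := by
  rw [← BT_add_AT hT]
  exact le_self_add

lemma AT_ne_top {T : ℕ} (hT : 1 ≤ T) : AT T ≠ ∞ := by
  intro h
  have := BT_add_AT hT
  rw [h, ENNReal.mul_top (by rw [Ne, ENNReal.ofReal_eq_zero]; push Not; exact cos3_pos)] at this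
  simp at this

theorem BT_antitone {T : ℕ} (hT : 1 ≤ T) : BT (T + 1) ≤ BT T := by
  have h1 := BT_add_AT hT
  have h2 := BT_add_AT (T := T + 1) (by omega)
  have h3 : ENNReal.ofReal (Real.cos (3 * Real.pi / 8)) * AT T ≠ ∞ :=
    ENNReal.mul_ne_top ENNReal.ofReal_ne_top (AT_ne_top hT)
  have h4 : BT (T + 1) + ENNReal.ofReal (Real.cos (3 * Real.pi / 8)) * AT T ≤
      BT T + ENNReal.ofReal (Real.cos (3 * Real.pi / 8)) * AT T := by
    rw [h1, ← h2]
    gcongr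
    exact AT_mono_succ hT
  exact (ENNReal.add_le_add_iff_right h3).1 h4

/-! cutting a word at a vertex -/

/-- the vertices after the cut. -/
lemma vx_split (v0 d0 : Pt) (a : List Bool) (b : Bool) (r : List Bool) (k : ℕ) :
    vx v0 d0 (a ++ ([b] ++ r)) (a.length + 1 + k) = vs (tip v0 d0 a) (turn b (dx d0 a a.length)) (tf r) k ∧
    dx d0 (a ++ ([b] ++ r)) (a.length + 1 + k) = ds (turn b (dx d0 a a.length)) (tf r) k := by
  have e1 : vs v0 d0 (tf (a ++ ([b] ++ r))) (a.length + 1) = tip v0 d0 a := vx_append le_rfl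
  have e2 : ds d0 (tf (a ++ ([b] ++ r))) (a.length + 1) = turn b (dx d0 a a.length) := by
    rw [ds_succ]
    have h1 : tf (a ++ ([b] ++ r)) a.length = b := by
      have := tf_append_right (t := a) (s := [b] ++ r) 0
      rw [add_zero] at this
      rw [this]
      rfl
    have h2 : ds d0 (tf (a ++ ([b] ++ r))) a.length = dx d0 a a.length := dx_append le_rfl
    rw [h1, h2]
  have e3 : (fun k => tf (a ++ ([b] ++ r)) (a.length + 1 + k)) = tf r := by
    funext k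
    rw [add_assoc, tf_append_right, add_comm 1 k]
    rfl
  constructor
  · show vs v0 d0 (tf (a ++ ([b] ++ r))) (a.length + 1 + k) = _
    rw [vs_shift, e1, e2, e3]
  · show ds d0 (tf (a ++ ([b] ++ r))) (a.length + 1 + k) = _
    rw [ds_shift, e2, e3]

end HexObs
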