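import Pool.Agent.HexObs.T3fin

/-!
Bridges with a prescribed set of ends.
-/

set_option autoImplicit false

namespace HexObs

namespace Ex

open Complex Finset ENNReal

/-- bridges that end in W. -/
def BrE (Ω X : Set Pt) (v d0 : Pt) (W : Set Pt) : Set (List Bool) := {t | t ∈ Br Ω X v d0 ∧ tip v d0 t ∈ W}

/-- sum over the bridges that end in W. -/
noncomputable def overE (Ω : Set Pt) (v d0 : Pt) (W : Set Pt) (F : Set Pt → ℝ≥0∞) (X : Set Pt) : ℝ≥0∞ :=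
  ∑' s : List Bool, (BrE Ω X v d0 W).indicator (fun s => wE s * F (X ∪ vis v d0 s)) s

/-- pairs of disjoint bridges with ends in Wa, Wb. -/
noncomputable def P2E (Ω : Set Pt) (v0 d0 : Pt) (a : ℤ) (Wa : Set Pt) (b : ℤ) (Wb : Set Pt) (X : Set Pt) : ℝ≥0∞ :=
  overE Ω (foot v0 d0 a) d0 Wa (fun Y => gf (BrE Ω Y (foot v0 d0 b) d0 Wb)) X

/-- a pair of disjoint bridges with ends in Wa, Wb and a disjoint word of the family D. -/
noncomputable def Q2E (Ω : Set Pt) (v0 d0 : Pt) (a : ℤ) (Wa : Set Pt) (b : ℤ) (Wb : Set Pt)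
    (D : Set Pt → Set (List Bool)) (X : Set Pt) : ℝ≥0∞ :=
  overE Ω (foot v0 d0 a) d0 Wa (fun Y => overE Ω (foot v0 d0 b) d0 Wb (fun Z => gf (D Z)) Y) X

lemma brE_sub {Ω X : Set Pt} {v d0 : Pt} {W : Set Pt} : BrE Ω X v d0 W ⊆ Br Ω X v d0 := fun _ h => h.1

lemma brE_univ (Ω X : Set Pt) (v d0 : Pt) : BrE Ω X v d0 Set.univ = Br Ω X v d0 := by
  ext t
  exact ⟨fun h => h.1, fun h => ⟨h, trivial⟩⟩

lemma brE_mono {Ω X : Set Pt} {v d0 : Pt} {W W' : Set Pt} (h : W ⊆ W') : BrE Ω X v d0 W ⊆ BrE Ω X v d0 W' :=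
  fun _ ht => ⟨ht.1, h ht.2⟩

lemma brE_anti {Ω X Y : Set Pt} {v d0 : Pt} {W : Set Pt} (h : X ⊆ Y) : BrE Ω Y v d0 W ⊆ BrE Ω X v d0 W :=
  fun _ ht => ⟨br_anti h ht.1, ht.2⟩

lemma mem_brE {Ω X : Set Pt} {v d0 : Pt} {W : Set Pt} {t : List Bool} :
    t ∈ BrE Ω X v d0 W ↔ t ∈ BrE Ω ∅ v d0 W ∧ Disjoint X (vis v d0 t) := by
  unfold BrE
  simp only [Set.mem_ofPred_eq]
  rw [mem_br]
  constructor
  · rintro ⟨⟨h1, h2⟩, h3⟩
    exact ⟨⟨h1, h3⟩, h2⟩
  · rintro ⟨⟨h1, h3⟩, h2⟩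
    exact ⟨⟨h1, h2⟩, h3⟩

lemma brE_arr (Ω : Finset Pt) (X : Set Pt) (v d0 : Pt) (W : Set Pt) : InArr Ω v d0 (BrE (Ω : Set Pt) X v d0 W) :=
  fun t h => br_arr Ω X v d0 t h.1

lemma overE_univ (Ω : Set Pt) (v d0 : Pt) (F : Set Pt → ℝ≥0∞) (X : Set Pt) :
    overE Ω v d0 Set.univ F X = overBr Ω v d0 F X := by
  unfold overE overBr
  rw [brE_univ]

lemma overE_mono {Ω : Set Pt} {v d0 : Pt} {W W' : Set Pt} (hW : W ⊆ W') {F G : Set Pt → ℝ≥0∞}
    (h : ∀ X, F X ≤ G X) (X : Set Pt) : overE Ω v d0 W F X ≤ overE Ω v d0 W' G X := by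
  unfold overE
  apply ENNReal.tsum_le_tsum
  intro s
  by_cases hs : s ∈ BrE Ω X v d0 W
  · rw [Set.indicator_of_mem hs, Set.indicator_of_mem (brE_mono hW hs)]
    exact mul_le_mul_right (h _) _
  · rw [Set.indicator_of_notMem hs]
    exact zero_le

lemma overE_one (Ω : Set Pt) (v d0 : Pt) (W : Set Pt) (X : Set Pt) :
    overE Ω v d0 W (fun _ => 1) X = gf (BrE Ω X v d0 W) := by
  unfold overE gf
  rw [tsum_subtype (BrE Ω X v d0 W) (fun s => wE s)]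
  simp only [mul_one]

lemma overE_const_mul (Ω : Set Pt) (v d0 : Pt) (W : Set Pt) (c : ℝ≥0∞) (F : Set Pt → ℝ≥0∞) (X : Set Pt) :
    overE Ω v d0 W (fun Y => c * F Y) X = c * overE Ω v d0 W F X := by
  unfold overE
  rw [← ENNReal.tsum_mul_left]
  apply tsum_congr
  intro s
  by_cases hs : s ∈ BrE Ω X v d0 W
  · rw [Set.indicator_of_mem hs, Set.indicator_of_mem hs]
    ring
  · rw [Set.indicator_of_notMem hs, Set.indicator_of_notMem hs, mul_zero]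

/-- the sum over bridges of a bounded function. -/
lemma overE_le {Ω : Set Pt} {v d0 : Pt} {W : Set Pt} {F : Set Pt → ℝ≥0∞} {c B : ℝ≥0∞} (hF : ∀ Y, F Y ≤ c)
    {X : Set Pt} (hB : gf (BrE Ω X v d0 W) ≤ B) : overE Ω v d0 W F X ≤ c * B := by
  calc overE Ω v d0 W F X ≤ overE Ω v d0 W (fun _ => c * 1) X :=
        overE_mono (le_refl W) (fun Y => by rw [mul_one]; exact hF Y) X
    _ = c * overE Ω v d0 W (fun _ => 1) X := overE_const_mul Ω v d0 W c (fun _ => 1) X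
    _ = c * gf (BrE Ω X v d0 W) := by rw [overE_one]
    _ ≤ c * B := mul_le_mul_right hB c

/-! finite domains -/

/-- the real form of overE. -/
noncomputable def obE (Ω : Finset Pt) (v d0 : Pt) (W : Set Pt) (F : Set Pt → ℝ) (X : Set Pt) : ℝ :=
  ∑ s ∈ fam Ω v d0 (BrE (Ω : Set Pt) X v d0 W), xc ^ s.length * F (X ∪ vis v d0 s)

lemma mem_brEF {Ω : Finset Pt} {X : Set Pt} {v d0 : Pt} {W : Set Pt} {t : List Bool} :
    t ∈ fam Ω v d0 (BrE (Ω : Set Pt) X v d0 W) ↔ t ∈ BrE (Ω : Set Pt) X v d0 W := by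
  rw [mem_fam]
  exact ⟨fun h => h.2, fun h => ⟨brE_arr _ _ _ _ _ _ h, h⟩⟩

lemma overE_sum (Ω : Finset Pt) (v d0 : Pt) (W : Set Pt) (F : Set Pt → ℝ≥0∞) (X : Set Pt) :
    overE (Ω : Set Pt) v d0 W F X =
      ∑ s ∈ fam Ω v d0 (BrE (Ω : Set Pt) X v d0 W), wE s * F (X ∪ vis v d0 s) := by
  unfold overE
  rw [tsum_eq_sum (s := fam Ω v d0 (BrE (Ω : Set Pt) X v d0 W))]
  · apply Finset.sum_congr rfl
    intro s hs
    rw [Set.indicator_of_mem (mem_brEF.1 hs)]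
  · intro s hs
    rw [Set.indicator_of_notMem (fun h => hs (mem_brEF.2 h))]

lemma overE_ne_top (Ω : Finset Pt) (v d0 : Pt) (W : Set Pt) (F : Set Pt → ℝ≥0∞) (hF : ∀ Y, F Y ≠ ∞) (X : Set Pt) :
    overE (Ω : Set Pt) v d0 W F X ≠ ∞ := by
  rw [overE_sum]
  apply ENNReal.sum_ne_top.2
  intro s _
  exact ENNReal.mul_ne_top (wE_ne_top s) (hF _)

lemma overE_toReal (Ω : Finset Pt) (v d0 : Pt) (W : Set Pt) (F : Set Pt → ℝ≥0∞) (hF : ∀ Y, F Y ≠ ∞) (X : Set Pt) :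
    (overE (Ω : Set Pt) v d0 W F X).toReal = obE Ω v d0 W (fun Y => (F Y).toReal) X := by
  rw [overE_sum, ENNReal.toReal_sum]
  · unfold obE
    apply Finset.sum_congr rfl
    intro s _
    rw [ENNReal.toReal_mul, wE_toReal]
  · intro s _
    exact ENNReal.mul_ne_top (wE_ne_top s) (hF _)

lemma obE_add (Ω : Finset Pt) (v d0 : Pt) (W : Set Pt) (F G : Set Pt → ℝ) (X : Set Pt) :
    obE Ω v d0 W (fun Y => F Y + G Y) X = obE Ω v d0 W F X + obE Ω v d0 W G X := by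
  unfold obE
  rw [← Finset.sum_add_distrib]
  apply Finset.sum_congr rfl
  intro s _
  ring

lemma obE_mul (Ω : Finset Pt) (v d0 : Pt) (W : Set Pt) (c : ℝ) (F : Set Pt → ℝ) (X : Set Pt) :
    obE Ω v d0 W (fun Y => c * F Y) X = c * obE Ω v d0 W F X := by
  unfold obE
  rw [Finset.mul_sum]
  apply Finset.sum_congr rfl
  intro s _
  ring

lemma obE_mono (Ω : Finset Pt) (v d0 : Pt) (W : Set Pt) (F G : Set Pt → ℝ) (X : Set Pt)
    (h : ∀ s ∈ BrE (Ω : Set Pt) X v d0 W, F (X ∪ vis v d0 s) ≤ G (X ∪ vis v d0 s)) :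
    obE Ω v d0 W F X ≤ obE Ω v d0 W G X := by
  unfold obE
  apply Finset.sum_le_sum
  intro s hs
  exact mul_le_mul_of_nonneg_left (h s (mem_brEF.1 hs)) (pow_nonneg xc_pos.le _)

lemma obE_nonneg (Ω : Finset Pt) (v d0 : Pt) (W : Set Pt) (F : Set Pt → ℝ) (X : Set Pt) (h : ∀ Y, 0 ≤ F Y) :
    0 ≤ obE Ω v d0 W F X :=
  Finset.sum_nonneg (fun _ _ => mul_nonneg (pow_nonneg xc_pos.le _) (h _))

lemma obE_one (Ω : Finset Pt) (v d0 : Pt) (W : Set Pt) (X : Set Pt) :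
    obE Ω v d0 W (fun _ => 1) X = gr Ω v d0 (BrE (Ω : Set Pt) X v d0 W) := by
  unfold obE gr
  simp only [mul_one]

/-- two bridges, in any order. -/
lemma mem_brE_swap {Ω X : Set Pt} {v w d0 : Pt} {V W : Set Pt} {s t : List Bool} :
    (s ∈ BrE Ω X v d0 V ∧ t ∈ BrE Ω (X ∪ vis v d0 s) w d0 W) ↔
      (t ∈ BrE Ω X w d0 W ∧ s ∈ BrE Ω (X ∪ vis w d0 t) v d0 V) := by
  have h := mem_br_swap (Ω := Ω) (X := X) (v := v) (w := w) (d0 := d0) (s := s) (t := t)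
  constructor
  · rintro ⟨⟨a1, a2⟩, b1, b2⟩
    obtain ⟨c1, c2⟩ := h.1 ⟨a1, b1⟩
    exact ⟨⟨c1, b2⟩, c2, a2⟩
  · rintro ⟨⟨a1, a2⟩, b1, b2⟩
    obtain ⟨c1, c2⟩ := h.2 ⟨a1, b1⟩
    exact ⟨⟨c1, b2⟩, c2, a2⟩

lemma sum_brE_comm (Ω : Finset Pt) (X : Set Pt) (v w d0 : Pt) (V W : Set Pt) (h : List Bool → List Bool → ℝ) :
    ∑ s ∈ fam Ω v d0 (BrE (Ω : Set Pt) X v d0 V),
      ∑ t ∈ fam Ω w d0 (BrE (Ω : Set Pt) (X ∪ vis v d0 s) w d0 W), h s t =
    ∑ t ∈ fam Ω w d0 (BrE (Ω : Set Pt) X w d0 W),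
      ∑ s ∈ fam Ω v d0 (BrE (Ω : Set Pt) (X ∪ vis w d0 t) v d0 V), h s t := by
  apply Finset.sum_comm'
  intro s t
  rw [mem_brEF, mem_brEF, mem_brEF, mem_brEF]
  exact mem_brE_swap.trans and_comm

lemma obE_comm (Ω : Finset Pt) (v w d0 : Pt) (V W : Set Pt) (F : Set Pt → ℝ) (X : Set Pt) :
    obE Ω v d0 V (obE Ω w d0 W F) X = obE Ω w d0 W (obE Ω v d0 V F) X := by
  unfold obE
  simp only [Finset.mul_sum]
  rw [sum_brE_comm]
  apply Finset.sum_congr rfl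
  intro t _
  apply Finset.sum_congr rfl
  intro s _
  rw [Set.union_assoc, Set.union_comm (vis v d0 s), ← Set.union_assoc]
  ring

/-- the last two of three walkers. -/
lemma obE_gr (Ω : Finset Pt) (v w d0 : Pt) (V W : Set Pt) (X : Set Pt) :
    obE Ω v d0 V (fun Y => gr Ω w d0 (BrE (Ω : Set Pt) Y w d0 W)) X =
      obE Ω w d0 W (fun Y => gr Ω v d0 (BrE (Ω : Set Pt) Y v d0 V)) X := by
  have e : ∀ (p : Pt) (U : Set Pt), (fun Y => gr Ω p d0 (BrE (Ω : Set Pt) Y p d0 U)) =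
      obE Ω p d0 U (fun _ => 1) := by
    intro p U
    funext Y
    rw [obE_one]
  rw [e, e]
  exact obE_comm Ω v w d0 V W (fun _ => 1) X

/-- pairs of walkers from q, r and a family of words disjoint from them, as a real number. -/
noncomputable def ooE (Ω : Finset Pt) (q : Pt) (V : Set Pt) (r : Pt) (W : Set Pt) (p d0 : Pt)
    (D : Set Pt → Set (List Bool)) : ℝ :=
  obE Ω q d0 V (obE Ω r d0 W (fun Z => gr Ω p d0 (D Z))) ∅

lemma ooE_nonneg (Ω : Finset Pt) (q : Pt) (V : Set Pt) (r : Pt) (W : Set Pt) (p d0 : Pt)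
    (D : Set Pt → Set (List Bool)) : 0 ≤ ooE Ω q V r W p d0 D :=
  obE_nonneg _ _ _ _ _ _ (fun _ => obE_nonneg _ _ _ _ _ _ (fun _ => gr_nonneg _ _ _ _))

lemma ooE_comm (Ω : Finset Pt) (q : Pt) (V : Set Pt) (r : Pt) (W : Set Pt) (p d0 : Pt)
    (D : Set Pt → Set (List Bool)) : ooE Ω q V r W p d0 D = ooE Ω r W q V p d0 D :=
  obE_comm Ω q r d0 V W _ ∅

lemma ooE_last (Ω : Finset Pt) (q : Pt) (V : Set Pt) (r : Pt) (W : Set Pt) (p d0 : Pt) (U : Set Pt) :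
    ooE Ω q V r W p d0 (fun Z => BrE (Ω : Set Pt) Z p d0 U) =
      ooE Ω q V p U r d0 (fun Z => BrE (Ω : Set Pt) Z r d0 W) := by
  unfold ooE
  congr 1
  funext Y
  exact obE_gr Ω r p d0 W U Y

lemma obE_obE_toReal {Ω : Finset Pt} {q r p d0 : Pt} {V W : Set Pt} {D : Set Pt → Set (List Bool)}
    (hD : ∀ Z, InArr Ω p d0 (D Z)) :
    (overE (Ω : Set Pt) q d0 V (fun Y => overE (Ω : Set Pt) r d0 W (fun Z => gf (D Z)) Y) ∅).toReal =
      ooE Ω q V r W p d0 D := by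
  have h1 : ∀ Z, gf (D Z) ≠ ∞ := fun Z => gf_ne_top (hD Z)
  rw [overE_toReal _ _ _ _ _ (fun Y => overE_ne_top _ _ _ _ _ h1 Y)]
  unfold ooE
  congr 1
  funext Y
  rw [overE_toReal _ _ _ _ _ h1]
  congr 1
  funext Z
  exact gf_toReal (hD Z)

lemma P2E_toReal (Ω : Finset Pt) (v0 d0 : Pt) (a : ℤ) (Wa : Set Pt) (b : ℤ) (Wb : Set Pt) :
    (P2E (Ω : Set Pt) v0 d0 a Wa b Wb ∅).toReal =
      obE Ω (foot v0 d0 a) d0 Wa (fun Y => gr Ω (foot v0 d0 b) d0 (BrE (Ω : Set Pt) Y (foot v0 d0 b) d0 Wb)) ∅ := by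
  unfold P2E
  rw [overE_toReal _ _ _ _ _ (fun Y => gf_ne_top (brE_arr Ω Y _ _ _))]
  congr 1
  funext Y
  exact gf_toReal (brE_arr Ω Y _ _ _)

lemma Q2E_toReal {Ω : Finset Pt} {v0 d0 p : Pt} {a b : ℤ} {Wa Wb : Set Pt} {D : Set Pt → Set (List Bool)}
    (hD : ∀ Z, InArr Ω p d0 (D Z)) :
    (Q2E (Ω : Set Pt) v0 d0 a Wa b Wb D ∅).toReal = ooE Ω (foot v0 d0 a) Wa (foot v0 d0 b) Wb p d0 D :=
  obE_obE_toReal hD

/-! explorers and walkers with prescribed ends -/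

/-- walker from q with end in W, explorer from p that stops on the walker; X is a further obstacle. -/
noncomputable def ZhE (Ω : Finset Pt) (X : Set Pt) (p q d0 : Pt) (W : Set Pt) (f : ℤ → ℝ) : ℝ :=
  ∑ s ∈ fam Ω q d0 (BrE (Ω : Set Pt) X q d0 W), ∑ u ∈ hitF Ω X (vis q d0 s) p d0,
    xc ^ (s.length + u.length) * f (wind u)

/-- the swap keeps the end. -/
lemma tip_stem {p q d0 : Pt} {l r m : List Bool} {c c' : Bool} (ht : tip p d0 l = tip q d0 r)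
    (hd : turn c' (dx d0 l l.length) = turn c (dx d0 r r.length)) :
    tip p d0 (l ++ ([c'] ++ m)) = tip q d0 (r ++ ([c] ++ m)) := by
  have h := (vx_stem (m := m) ht hd (m.length + 1)).1
  have e1 : tip p d0 (l ++ ([c'] ++ m)) = vx p d0 (l ++ ([c'] ++ m)) ((l ++ ([c'] ++ m)).length + 1) := rfl
  have e2 : tip q d0 (r ++ ([c] ++ m)) = vx q d0 (r ++ ([c] ++ m)) ((r ++ ([c] ++ m)).length + 1) := rfl
  have e3 : (l ++ ([c'] ++ m)).length + 1 = l.length + 1 + (m.length + 1) := by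
    simp only [List.length_append, List.length_singleton]
    omega
  have e4 : (r ++ ([c] ++ m)).length + 1 = r.length + 1 + (m.length + 1) := by
    simp only [List.length_append, List.length_singleton]
    omega
  rw [e1, e2, e3, e4]
  exact h

/-- THE SWAP with ends: q is on the right of p. -/
theorem swap_sumE {Ω : Finset Pt} {X : Set Pt} {p q d0 : Pt} (hp : GoodDom Ω p d0) (hq : GoodDom Ω q d0)
    (hpq : ip (q - p) d0 = 0) (hcl : cl p = cl q) (hright : cross d0 (q - p) < 0) (W : Set Pt) (f : ℤ → ℝ) :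
    ZhE Ω X q p d0 W f = ZhE Ω X p q d0 W (fun w => f (w + 2)) := by
  have hne : p ≠ q := by
    rintro rfl
    rw [sub_self] at hright
    simp [cross] at hright
  have hqp : ip (p - q) d0 = 0 := by
    have e : p - q = -(q - p) := by abel
    rw [e, ip_neg_left, hpq, neg_zero]
  unfold ZhE
  rw [Finset.sum_sigma', Finset.sum_sigma']
  symm
  refine Finset.sum_bij' (fun a _ => ⟨(swp q p d0 (a.1, a.2)).1, (swp q p d0 (a.1, a.2)).2⟩)
    (fun a _ => ⟨(swp p q d0 (a.1, a.2)).1, (swp p q d0 (a.1, a.2)).2⟩) ?_ ?_ ?_ ?_ ?_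
  · rintro ⟨s, u⟩ ha
    rw [Finset.mem_sigma] at ha
    simp only at ha
    rw [mem_brEF, mem_hitF] at ha
    obtain ⟨⟨hs, hsW⟩, hu, ht⟩ := ha
    obtain ⟨r, c, m, rfl, ht'⟩ := hit_pieces hs hu ht
    obtain ⟨k1, _, h1, h2⟩ := swap_geo hp.dir (fun v hv => hp.half v hv) hpq hne hcl hs hu ht'
    rw [Finset.mem_sigma]
    simp only [swp_eq hs ht']
    rw [mem_brEF, mem_hitF]
    refine ⟨⟨h1, ?_⟩, h2, u.length + 1, by omega, by simp, ?_⟩
    · rw [tip_stem ht' k1]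
      exact hsW
    · rw [vx_append le_rfl, ← ht']
      rfl
  · rintro ⟨s, u⟩ ha
    rw [Finset.mem_sigma] at ha
    simp only at ha
    rw [mem_brEF, mem_hitF] at ha
    obtain ⟨⟨hs, hsW⟩, hu, ht⟩ := ha
    obtain ⟨r, c, m, rfl, ht'⟩ := hit_pieces hs hu ht
    obtain ⟨k1, _, h1, h2⟩ := swap_geo hq.dir (fun v hv => hq.half v hv) hqp hne.symm hcl.symm hs hu ht'
    rw [Finset.mem_sigma]
    simp only [swp_eq hs ht']
    rw [mem_brEF, mem_hitF]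
    refine ⟨⟨h1, ?_⟩, h2, u.length + 1, by omega, by simp, ?_⟩
    · rw [tip_stem ht' k1]
      exact hsW
    · rw [vx_append le_rfl, ← ht']
      rfl
  · rintro ⟨s, u⟩ ha
    rw [Finset.mem_sigma] at ha
    simp only at ha
    rw [mem_brEF, mem_hitF] at ha
    obtain ⟨⟨hs, _⟩, hu, ht⟩ := ha
    obtain ⟨r, c, m, rfl, ht'⟩ := hit_pieces hs hu ht
    obtain ⟨_, _, h1, h2⟩ := swap_geo hp.dir (fun v hv => hp.half v hv) hpq hne hcl hs hu ht'
    simp only [swp_eq hs ht', swp_eq h1 ht'.symm, Bool.not_not]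
  · rintro ⟨s, u⟩ ha
    rw [Finset.mem_sigma] at ha
    simp only at ha
    rw [mem_brEF, mem_hitF] at ha
    obtain ⟨⟨hs, _⟩, hu, ht⟩ := ha
    obtain ⟨r, c, m, rfl, ht'⟩ := hit_pieces hs hu ht
    obtain ⟨_, _, h1, h2⟩ := swap_geo hq.dir (fun v hv => hq.half v hv) hqp hne.symm hcl.symm hs hu ht'
    simp only [swp_eq hs ht', swp_eq h1 ht'.symm, Bool.not_not]
  · rintro ⟨s, u⟩ ha
    rw [Finset.mem_sigma] at ha
    simp only at ha
    rw [mem_brEF, mem_hitF] at ha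
    obtain ⟨⟨hs, _⟩, hu, ht⟩ := ha
    obtain ⟨r, c, m, rfl, ht'⟩ := hit_pieces hs hu ht
    have hw := swap_wind hp hq hpq hcl hright hs hu ht'
    simp only [swp_eq hs ht']
    rw [hw]
    congr 2
    simp only [List.length_append, List.length_singleton]
    omega

/-- THE SLIT IDENTITY with one walker. -/
theorem slit2E {Ω : Finset Pt} {p d0 : Pt} (hp : GoodDom Ω p d0) (q : Pt) (W : Set Pt) (m : ℝ) :
    Real.sin (m * (Real.pi / 8)) * gr Ω q d0 (BrE (Ω : Set Pt) ∅ q d0 W) =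
      obE Ω q d0 W (fr Ω p d0 (fun w => Real.sin ((m + w) * (Real.pi / 8)))) ∅ +
      ZhE Ω ∅ p q d0 W (fun w => Real.sin ((m + w) * (Real.pi / 8))) := by
  set f : ℤ → ℝ := fun w => Real.sin ((m + w) * (Real.pi / 8)) with hf
  unfold obE gr ZhE
  rw [Finset.mul_sum, ← Finset.sum_add_distrib]
  apply Finset.sum_congr rfl
  intro s hs
  rw [mem_brEF] at hs
  have hid := identity_phase (slit Ω (∅ ∪ vis q d0 s)) hp.dir
    (fun v hv => hp.half v (mem_slit.1 hv).1) m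
  have key := sum_exits_pair Ω (Set.empty_disjoint (vis q d0 s)) (Set.empty_subset _) (vis_sub hs.1) p d0 f _ hid
  have e1 : ∑ u ∈ hitF Ω (vis q d0 s) ∅ p d0, xc ^ u.length * f (wind u) = 0 := by
    apply Finset.sum_eq_zero
    intro u hu
    rw [mem_hitF] at hu
    exact absurd hu.2 (Set.notMem_empty _)
  rw [e1, add_zero] at key
  have e2 : ∑ u ∈ hitF Ω ∅ (vis q d0 s) p d0, xc ^ (s.length + u.length) * f (wind u) =
      xc ^ s.length * ∑ u ∈ hitF Ω ∅ (vis q d0 s) p d0, xc ^ u.length * f (wind u) := by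
    rw [Finset.mul_sum]
    apply Finset.sum_congr rfl
    intro u _
    ring
  rw [e2, key]
  ring

/-- THE SLIT IDENTITY: explorer from p, walkers from q and r. -/
theorem slit3E {Ω : Finset Pt} {p d0 : Pt} (hp : GoodDom Ω p d0) (q : Pt) (V : Set Pt) (r : Pt) (W : Set Pt) (m : ℝ) :
    Real.sin (m * (Real.pi / 8)) * obE Ω q d0 V (fun Y => gr Ω r d0 (BrE (Ω : Set Pt) Y r d0 W)) ∅ =
      obE Ω q d0 V (obE Ω r d0 W (fr Ω p d0 (fun w => Real.sin ((m + w) * (Real.pi / 8))))) ∅ +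
      ∑ t ∈ fam Ω r d0 (BrE (Ω : Set Pt) ∅ r d0 W), xc ^ t.length *
        ZhE Ω (vis r d0 t) p q d0 V (fun w => Real.sin ((m + w) * (Real.pi / 8))) +
      ∑ s ∈ fam Ω q d0 (BrE (Ω : Set Pt) ∅ q d0 V), xc ^ s.length *
        ZhE Ω (vis q d0 s) p r d0 W (fun w => Real.sin ((m + w) * (Real.pi / 8))) := by
  set f : ℤ → ℝ := fun w => Real.sin ((m + w) * (Real.pi / 8)) with hf
  have hcomm := sum_brE_comm Ω ∅ q r d0 V W (fun s t => ∑ u ∈ hitF Ω (vis r d0 t) (vis q d0 s) p d0,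
    xc ^ (s.length + t.length + u.length) * f (wind u))
  have e1 : ∑ t ∈ fam Ω r d0 (BrE (Ω : Set Pt) ∅ r d0 W), xc ^ t.length * ZhE Ω (vis r d0 t) p q d0 V f =
      ∑ t ∈ fam Ω r d0 (BrE (Ω : Set Pt) ∅ r d0 W), ∑ s ∈ fam Ω q d0 (BrE (Ω : Set Pt) (∅ ∪ vis r d0 t) q d0 V),
        ∑ u ∈ hitF Ω (vis r d0 t) (vis q d0 s) p d0, xc ^ (s.length + t.length + u.length) * f (wind u) := by
    apply Finset.sum_congr rfl
    intro t _
    unfold ZhE
    rw [Set.empty_union, Finset.mul_sum]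
    apply Finset.sum_congr rfl
    intro s _
    rw [Finset.mul_sum]
    apply Finset.sum_congr rfl
    intro u _
    ring
  rw [e1, ← hcomm]
  unfold obE gr ZhE
  simp only [Finset.mul_sum]
  rw [← Finset.sum_add_distrib, ← Finset.sum_add_distrib]
  apply Finset.sum_congr rfl
  intro s hs
  rw [mem_brEF] at hs
  simp only [Set.empty_union]
  rw [← Finset.sum_add_distrib, ← Finset.sum_add_distrib]
  apply Finset.sum_congr rfl
  intro t ht
  rw [mem_brEF] at ht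
  have hdis : Disjoint (vis q d0 s) (vis r d0 t) := (mem_br.1 ht.1).2
  have hid := identity_phase (slit Ω (vis q d0 s ∪ vis r d0 t)) hp.dir
    (fun v hv => hp.half v (mem_slit.1 hv).1) m
  have key := sum_exits_pair Ω hdis (vis_sub hs.1) (vis_sub ht.1) p d0 f _ hid
  have e2 : ∑ u ∈ hitF Ω (vis r d0 t) (vis q d0 s) p d0, xc ^ (s.length + t.length + u.length) * f (wind u) =
      xc ^ s.length * xc ^ t.length * ∑ u ∈ hitF Ω (vis r d0 t) (vis q d0 s) p d0, xc ^ u.length * f (wind u) := by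
    rw [Finset.mul_sum]
    apply Finset.sum_congr rfl
    intro u _
    ring
  have e3 : ∑ u ∈ hitF Ω (vis q d0 s) (vis r d0 t) p d0, xc ^ s.length * (xc ^ (t.length + u.length) * f (wind u)) =
      xc ^ s.length * xc ^ t.length * ∑ u ∈ hitF Ω (vis q d0 s) (vis r d0 t) p d0, xc ^ u.length * f (wind u) := by
    rw [Finset.mul_sum]
    apply Finset.sum_congr rfl
    intro u _
    ring
  rw [e2, e3, key]
  ring

/-- a hit sum over an unreachable walker. -/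
lemma zhE_far {Ω : Finset Pt} {v1 v2 v3 d0 : Pt} (h2 : GoodDom Ω v2 d0)
    (c1 : cl v1 = cl v2) (c3 : cl v3 = cl v2) (l1 : ip (v1 - v2) d0 = 0) (l3 : ip (v3 - v2) d0 = 0)
    (hside : (0 < cross d0 (v1 - v2) ∧ cross d0 (v3 - v2) < 0) ∨ (cross d0 (v1 - v2) < 0 ∧ 0 < cross d0 (v3 - v2)))
    (V W : Set Pt) (f : ℤ → ℝ) :
    ∑ s ∈ fam Ω v2 d0 (BrE (Ω : Set Pt) ∅ v2 d0 V), xc ^ s.length * ZhE Ω (vis v2 d0 s) v1 v3 d0 W f = 0 := by
  apply Finset.sum_eq_zero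
  intro s hs
  rw [mem_brEF] at hs
  have : ZhE Ω (vis v2 d0 s) v1 v3 d0 W f = 0 := by
    unfold ZhE
    apply Finset.sum_eq_zero
    intro g hg
    rw [mem_brEF] at hg
    apply Finset.sum_eq_zero
    intro u hu
    rw [mem_hitF] at hu
    exact absurd hu.2 (far_hit h2 c1 c3 l1 l3 hside hs.1 hg.1 hu.1)
  rw [this, mul_zero]

lemma ooE_lin (Ω : Finset Pt) (q : Pt) (V : Set Pt) (r : Pt) (W : Set Pt) (d0 : Pt) (F G : Set Pt → ℝ) (a b : ℝ) :
    obE Ω q d0 V (obE Ω r d0 W (fun Z => a * F Z + b * G Z)) ∅ =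
      a * obE Ω q d0 V (obE Ω r d0 W F) ∅ + b * obE Ω q d0 V (obE Ω r d0 W G) ∅ := by
  have e1 : obE Ω r d0 W (fun Z => a * F Z + b * G Z) = fun Y => a * obE Ω r d0 W F Y + b * obE Ω r d0 W G Y := by
    funext Y
    rw [obE_add Ω r d0 W (fun Z => a * F Z) (fun Z => b * G Z), obE_mul, obE_mul]
  rw [e1, obE_add Ω q d0 V (fun Y => a * obE Ω r d0 W F Y) (fun Y => b * obE Ω r d0 W G Y), obE_mul, obE_mul]

end Ex

end HexObs
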