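import Pool.Agent.HexObs.Exit

set_option autoImplicit false

namespace HexObs

open Complex Finset

lemma ip_dirs_ge : ∀ d ∈ dirs, ∀ e ∈ dirs, -2 ≤ ip d e ∧ ip d e ≤ 2 := by
  decide

lemma ip_self_dir {d : Pt} (h : d ∈ dirs) : ip d d = 2 := by
  rw [ip_self, mem_dirs.1 h]
  rfl

lemma mod3_two {n : ℤ} (h : 0 < n) (h2 : ((n : ℤ) : ZMod 3) = 0 ∨ ((n : ℤ) : ZMod 3) = -1) : 2 ≤ n := by
  by_contra hcon
  have : n = 1 := by omega
  rw [this] at h2
  revert h2
  decide

lemma cl_dir_sq : ∀ d ∈ dirs, cl d * cl d = 1 := by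
  decide

lemma cl_dir_cases : ∀ d ∈ dirs, ∀ e ∈ dirs, cl e = cl d ∨ cl e = - cl d := by
  decide

/-- the angle of a direction, in units of 60 degrees. -/
def ang (d : Pt) : ZMod 6 :=
  if d = (1, 0) then 0 else if d = (0, 1) then 1 else if d = (-1, 1) then 2 else
  if d = (-1, 0) then 3 else if d = (0, -1) then 4 else 5

lemma ang_turn : ∀ d ∈ dirs, ∀ b : Bool, ang (turn b d) = ang d + ((sgn b : ℤ) : ZMod 6) := by
  decide

lemma ang_ds {d0 : Pt} (h0 : d0 ∈ dirs) (τ : ℕ → Bool) (n : ℕ) :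
    ang (ds d0 τ n) = ang d0 + ((∑ i ∈ range n, sgn (τ i) : ℤ) : ZMod 6) := by
  induction n with
  | zero => simp [ds]
  | succ n ih =>
    rw [ds_succ, ang_turn _ (ds_mem h0 n), ih, Finset.sum_range_succ]
    push_cast
    ring

lemma ang_dx {d0 : Pt} (h0 : d0 ∈ dirs) (t : List Bool) :
    ang (dx d0 t t.length) = ang d0 + ((wind t : ℤ) : ZMod 6) := by
  rw [wind_sum]
  exact ang_ds h0 (tf t) t.length

lemma even_check : ∀ d ∈ dirs, ∀ e ∈ dirs, (d.1 + e.1) % 2 = 0 → (d.2 + e.2) % 2 = 0 → e = d ∨ e = -d := by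
  decide

/-- The winding of a walk that starts on the boundary of a half plane and ends with a step that leaves a half
plane. P is the vector from the first vertex to the mid point of the last edge, doubled. -/
theorem wind_bounds {v0 d0 : Pt} (h0 : d0 ∈ dirs) {t : List Bool} (hlen : 1 ≤ t.length)
    (hinj : ∀ i k, i < k → k ≤ t.length → vx v0 d0 t i ≠ vx v0 d0 t k)
    (hhalf : ∀ i, 1 ≤ i → i ≤ t.length → 0 < ip (vx v0 d0 t i - v0) d0)
    (hexit : ∀ i, 1 ≤ i → i ≤ t.length → 0 < ip (tip v0 d0 t - vx v0 d0 t i) (dx d0 t t.length)) :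
    2 ≤ ip (vx v0 d0 t t.length + tip v0 d0 t - (v0 + v0)) d0 ∧
    0 < ip (vx v0 d0 t t.length + tip v0 d0 t - (v0 + v0) - (d0 + d0)) (dx d0 t t.length) ∧
    ((0 < cross d0 (vx v0 d0 t t.length + tip v0 d0 t - (v0 + v0)) ∧ -1 ≤ wind t ∧ wind t ≤ 4) ∨
    (cross d0 (vx v0 d0 t t.length + tip v0 d0 t - (v0 + v0)) < 0 ∧ -4 ≤ wind t ∧ wind t ≤ 1) ∨
    (cross d0 (vx v0 d0 t t.length + tip v0 d0 t - (v0 + v0)) = 0 ∧ -1 ≤ wind t ∧ wind t ≤ 1)) := by
  obtain ⟨l, hl⟩ : ∃ l, t.length = l + 1 := ⟨t.length - 1, by omega⟩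
  set d1 := dx d0 t t.length with hd1
  have hd1m : d1 ∈ dirs := ds_mem h0 _
  have htip : tip v0 d0 t = vx v0 d0 t t.length + d1 := rfl
  set Z : Pt := vx v0 d0 t t.length + vx v0 d0 t t.length + d1 with hZ
  have hZ2 : vx v0 d0 t t.length + tip v0 d0 t = Z := by
    rw [htip, hZ]
    abel
  rw [hZ2]
  -- classes
  have hclv : ∀ i, cl (vx v0 d0 t i - v0) = 0 ∨ cl (vx v0 d0 t i - v0) = cl d0 := by
    intro i
    rw [cl_sub]
    have := cl_vs (v0 := v0) (d0 := d0) (τ := tf t) i
    show cl (vs v0 d0 (tf t) i) - cl v0 = 0 ∨ cl (vs v0 d0 (tf t) i) - cl v0 = cl d0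
    rw [this]
    by_cases he : Even i
    · rw [if_pos he]
      left
      ring
    · rw [if_neg he]
      right
      ring
  have hge : ∀ i, 1 ≤ i → i ≤ t.length → 2 ≤ ip (vx v0 d0 t i - v0) d0 := by
    intro i h1 h2
    apply mod3_two (hhalf i h1 h2)
    rw [ip_mod]
    rcases hclv i with h | h
    · left
      rw [h]
      ring
    · right
      rw [h, cl_dir_sq d0 h0]
  have hcld1 : cl d1 = if Even t.length then cl d0 else - cl d0 := cl_ds _
  have hge' : ∀ i, 1 ≤ i → i ≤ t.length → 2 ≤ ip (tip v0 d0 t - vx v0 d0 t i) d1 := by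
    intro i h1 h2
    apply mod3_two (hexit i h1 h2)
    rw [ip_mod, cl_sub]
    have e1 : cl (tip v0 d0 t) = if Even (t.length + 1) then cl v0 else cl v0 + cl d0 := cl_vs _
    have e2 : cl (vx v0 d0 t i) = if Even i then cl v0 else cl v0 + cl d0 := cl_vs _
    have hsq := cl_dir_sq d0 h0
    rw [e1, e2, hcld1]
    by_cases ha : Even t.length <;> by_cases hb : Even i
    · have ha' : ¬ Even (t.length + 1) := by simpa [Nat.even_add_one] using ha
      rw [if_neg ha', if_pos hb, if_pos ha]
      right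
      linear_combination -hsq
    · have ha' : ¬ Even (t.length + 1) := by simpa [Nat.even_add_one] using ha
      rw [if_neg ha', if_neg hb]
      left
      ring
    · have ha' : Even (t.length + 1) := by simpa [Nat.even_add_one] using ha
      rw [if_pos ha', if_pos hb]
      left
      ring
    · have ha' : Even (t.length + 1) := by simpa [Nat.even_add_one] using ha
      rw [if_pos ha', if_neg hb, if_neg ha]
      right
      linear_combination -hsq
  have H1 : 0 < ip (Z - (v0 + v0)) d0 := by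
    have e1 : Z - (v0 + v0) = (vx v0 d0 t t.length - v0) + (vx v0 d0 t t.length - v0) + d1 := by
      rw [hZ]
      abel
    rw [e1, ip_add_left, ip_add_left]
    have := hge t.length hlen le_rfl
    have := (ip_dirs_ge d1 hd1m d0 h0).1
    linarith
  have H3 : ∀ i, 1 ≤ i → i ≤ t.length → 0 < ip (Z - (vx v0 d0 t i + vx v0 d0 t i)) d1 := by
    intro i h1 h2
    have e1 : Z - (vx v0 d0 t i + vx v0 d0 t i) = (tip v0 d0 t - vx v0 d0 t i) + (tip v0 d0 t - vx v0 d0 t i) - d1 := by
      rw [hZ, htip]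
      abel
    rw [e1, ip_sub_left, ip_add_left, ip_self_dir hd1m]
    have := hge' i h1 h2
    linarith
  -- Hopf
  have E := hopf_half (v0 := v0) (τ := tf t) h0 (a := 0) (b := t.length) (by omega) (c := tf t (t.length - 1))
    (fun i k _ h1 h2 => hinj i k h1 h2)
  have hds : turn (tf t (t.length - 1)) (ds d0 (tf t) (t.length - 1)) = d1 := by
    rw [hd1, hl]
    rfl
  rw [hds] at E
  have p1 : ∀ i, i ≤ t.length → poly v0 d0 (tf t) 0 t.length d1 i = vx v0 d0 t i + vx v0 d0 t i := by
    intro i hi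
    unfold poly
    rw [if_pos (by omega), zero_add]
    rfl
  have p1z : poly v0 d0 (tf t) 0 t.length d1 (t.length + 1) = Z := by
    unfold poly
    rw [if_neg (by omega)]
    rfl
  have X1 := half_sum (poly v0 d0 (tf t) 0 t.length d1) d0 t.length (by
    intro i h1 h2
    rcases Nat.lt_or_ge t.length i with h3 | h3
    · have : i = t.length + 1 := by omega
      rw [this, p1z, p1 0 (by omega)]
      exact H1
    · rw [p1 i h3, p1 0 (by omega)]
      have := hhalf i h1 h3
      have e1 : vx v0 d0 t i + vx v0 d0 t i - (vx v0 d0 t 0 + vx v0 d0 t 0) =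
          (vx v0 d0 t i - v0) + (vx v0 d0 t i - v0) := by
        show vx v0 d0 t i + vx v0 d0 t i - (v0 + v0) = _
        abel
      rw [e1, ip_add_left]
      linarith)
  simp only [Nat.sub_zero] at E
  rw [X1, p1z] at E
  have X2 : ∑ i ∈ range t.length, arg ((emb Z - emb (poly v0 d0 (tf t) 0 t.length d1 (i + 1))) /
      (emb Z - emb (poly v0 d0 (tf t) 0 t.length d1 i))) =
      arg ((emb Z - emb (vx v0 d0 t t.length + vx v0 d0 t t.length)) / (emb Z - emb (vx v0 d0 t 1 + vx v0 d0 t 1))) +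
      arg ((emb Z - emb (vx v0 d0 t 1 + vx v0 d0 t 1)) / (emb Z - emb (vx v0 d0 t 0 + vx v0 d0 t 0))) := by
    rw [hl, Finset.sum_range_succ', ← hl]
    have X3 := half_sum_end (fun i => poly v0 d0 (tf t) 0 t.length d1 i) Z d1 l (by
      intro i h1 h2
      show 0 < ip (Z - poly v0 d0 (tf t) 0 t.length d1 i) d1
      rw [p1 i (by omega)]
      exact H3 i h1 (by omega))
    rw [X3, zero_add, p1 1 (by omega), p1 0 (by omega), p1 (l + 1) (by omega)]
    rw [← hl]
  rw [X2, p1 0 (by omega), p1 1 (by omega)] at E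
  -- the winding
  have hW : ∑ k ∈ range (t.length - 1), (sgn (tf t (0 + k)) : ℝ) + (sgn (tf t (t.length - 1)) : ℝ) = (wind t : ℝ) := by
    rw [wind_sum, hl, Finset.sum_range_succ]
    simp
  rw [hW] at E
  -- the angles
  have v1e : vx v0 d0 t 1 + vx v0 d0 t 1 - (vx v0 d0 t 0 + vx v0 d0 t 0) = d0 + d0 := by
    show v0 + d0 + (v0 + d0) - (v0 + v0) = d0 + d0
    abel
  set P : Pt := Z - (v0 + v0) with hP
  have hZP : Z - (vx v0 d0 t 0 + vx v0 d0 t 0) = P := rfl
  have hZP1 : Z - (vx v0 d0 t 1 + vx v0 d0 t 1) = P - (d0 + d0) := by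
    show Z - (v0 + d0 + (v0 + d0)) = Z - (v0 + v0) - (d0 + d0)
    abel
  rw [← emb_sub, ← emb_sub, ← emb_sub, ← emb_sub, hZP, v1e, hZP1] at E
  set U : ℂ := emb P / emb (d0 + d0) with hU
  have hd0ne : emb (d0 + d0) ≠ 0 := by
    rw [emb_two]
    exact mul_ne_zero (by norm_num) (emb_ne h0)
  have hPne : emb P ≠ 0 := by
    intro h
    have h1 := re_emb_mul P d0
    rw [h, zero_mul, Complex.zero_re] at h1
    have : (0 : ℝ) < ip P d0 := by exact_mod_cast H1
    linarith
  have hU1 : emb (P - (d0 + d0)) / emb P = (U - 1) / U := by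
    rw [emb_sub, hU]
    field_simp
  rw [hU1] at E
  have hUe : U = ((1 / 2 : ℝ) : ℂ) * (emb P * (starRingEnd ℂ) (emb d0)) := by
    have hn : emb d0 * (starRingEnd ℂ) (emb d0) = 1 := by
      apply Complex.ext
      · rw [re_emb_mul, ip_self_dir h0]
        norm_num
      · rw [im_emb_mul]
        unfold cross
        push_cast
        simp
        ring
    rw [hU, emb_two]
    have h1 : emb d0 ≠ 0 := emb_ne h0
    rw [div_eq_iff (mul_ne_zero (by norm_num) h1)]
    push_cast
    linear_combination (-(emb P)) * hn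
  have hUre : U.re = (ip P d0 : ℝ) / 4 := by
    rw [hUe, Complex.re_ofReal_mul, re_emb_mul]
    ring
  have hUim : U.im = (cross d0 P : ℝ) * (Real.sqrt 3 / 4) := by
    rw [hUe, Complex.im_ofReal_mul, im_emb_mul]
    ring
  have hUpos : 0 < U.re := by
    rw [hUre]
    have : (0 : ℝ) < ip P d0 := by exact_mod_cast H1
    linarith
  -- the last angle
  obtain ⟨θ, hθ⟩ : ∃ θ, θ = arg (emb (Z - (vx v0 d0 t t.length + vx v0 d0 t t.length)) / emb (P - (d0 + d0))) :=
    ⟨_, rfl⟩
  have hθb : |θ| < Real.pi / 2 := by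
    rw [hθ]
    apply Complex.abs_arg_lt_pi_div_two_iff.2
    left
    have e1 : Z - (vx v0 d0 t t.length + vx v0 d0 t t.length) = d1 := by
      rw [hZ]
      abel
    rw [e1]
    have h1 : 0 < ip (P - (d0 + d0)) d1 := by
      rw [← hZP1]
      exact H3 1 le_rfl hlen
    have h2 : emb (P - (d0 + d0)) ≠ 0 := by
      intro h
      have h3 := re_emb_mul (P - (d0 + d0)) d1
      rw [h, zero_mul, Complex.zero_re] at h3
      have : (0 : ℝ) < ip (P - (d0 + d0)) d1 := by exact_mod_cast h1
      linarith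
    have e2 : emb d1 / emb (P - (d0 + d0)) =
        (emb d1 * (starRingEnd ℂ) (emb (P - (d0 + d0)))) / (Complex.normSq (emb (P - (d0 + d0))) : ℂ) := by
      rw [div_eq_div_iff h2 (by exact_mod_cast (Complex.normSq_pos.2 h2).ne')]
      rw [mul_assoc, ← Complex.mul_conj, mul_comm ((starRingEnd ℂ) _) (emb _)]
    rw [e2, Complex.div_ofReal_re, re_emb_mul, ip_comm]
    apply div_pos _ (Complex.normSq_pos.2 h2)
    have : (0 : ℝ) < ip (P - (d0 + d0)) d1 := by exact_mod_cast h1
    linarith
  rw [← hθ] at E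
  rw [abs_lt] at hθb
  have hpi := Real.pi_pos
  have hs3 : 0 < Real.sqrt 3 := Real.sqrt_pos.2 (by norm_num)
  have hclP : cl P = cl d0 := by
    have e1 : P = (vx v0 d0 t t.length - v0) + (vx v0 d0 t t.length - v0) + d1 := by
      rw [hP, hZ]
      abel
    have e2 : cl (vx v0 d0 t t.length) = if Even t.length then cl v0 else cl v0 + cl d0 := cl_vs _
    rw [e1, cl_add, cl_add, cl_sub, e2, hcld1]
    by_cases ha : Even t.length
    · rw [if_pos ha, if_pos ha]
      ring
    · rw [if_neg ha, if_neg ha]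
      ring
  have hmod : ((ip P d0 : ℤ) : ZMod 3) = ((2 : ℤ) : ZMod 3) := by
    rw [ip_mod, hclP, cl_dir_sq d0 h0]
    decide
  refine ⟨mod3_two H1 (Or.inr ?_), ?_, ?_⟩
  · rw [hmod]
    decide
  · rw [← hZP1]
    exact H3 1 le_rfl hlen
  rcases lt_trichotomy (cross d0 P) 0 with hc | hc | hc
  · right
    left
    have him : U.im < 0 := by
      rw [hUim]
      have : ((cross d0 P : ℤ) : ℝ) < 0 := by exact_mod_cast hc
      nlinarith
    have h := arg_sum_neg hUpos him
    refine ⟨hc, ?_, ?_⟩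
    · have : (-5 : ℝ) < wind t := by
        by_contra hcon
        push Not at hcon
        nlinarith
      have h' : (-5 : ℤ) < wind t := by exact_mod_cast this
      omega
    · have : (wind t : ℝ) < 2 := by
        by_contra hcon
        push Not at hcon
        nlinarith
      have h' : wind t < 2 := by exact_mod_cast this
      omega
  · right
    right
    have him : U.im = 0 := by
      rw [hUim, hc]
      simp
    have hre : 1 < U.re := by
      have hdvd : (3 : ℤ) ∣ 2 - ip P d0 := (ZMod.intCast_eq_intCast_iff_dvd_sub _ _ 3).1 hmod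
      have hne2 : ip P d0 ≠ 2 := by
        intro h2
        -- P = d0
        have hPd : P = d0 := by
          have k1 : ip (P - d0) d0 = 0 := by
            rw [ip_sub_left, h2, ip_self_dir h0]
            ring
          have k2 : cross d0 (P - d0) = 0 := by
            rw [← hc]
            simp only [cross, Prod.fst_sub, Prod.snd_sub]
            ring
          have k3 : nrm (P - d0) = 0 := by
            have k4 : ip (P - d0) d0 ^ 2 + 3 * cross d0 (P - d0) ^ 2 = 4 * nrm (P - d0) * nrm d0 := by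
              unfold ip cross nrm
              ring
            rw [k1, k2, mem_dirs.1 h0] at k4
            linarith
          have k5 := abs_le_of_nrm (p := P - d0) (k := 0) le_rfl (by rw [k3]; norm_num)
          have k6 : (P - d0).1 = 0 := by nlinarith [k5.1]
          have k7 : (P - d0).2 = 0 := by nlinarith [k5.2]
          have k8 : P - d0 = 0 := Prod.ext k6 k7
          exact sub_eq_zero.1 k8
        have q1 : vx v0 d0 t t.length + vx v0 d0 t t.length + d1 = v0 + v0 + d0 := by
          rw [← hZ]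
          have : Z = P + (v0 + v0) := by
            rw [hP]
            abel
          rw [this, hPd]
          abel
        have q2 : d1 = d0 ∨ d1 = -d0 := by
          have r1 := congrArg Prod.fst q1
          have r2 := congrArg Prod.snd q1
          simp only [Prod.fst_add, Prod.snd_add] at r1 r2
          exact even_check d0 h0 d1 hd1m (by omega) (by omega)
        rcases q2 with q2 | q2
        · rw [q2] at q1
          have q3 : vx v0 d0 t t.length = v0 := by
            have r1 := congrArg Prod.fst q1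
            have r2 := congrArg Prod.snd q1
            simp only [Prod.fst_add, Prod.snd_add] at r1 r2
            exact Prod.ext (by omega) (by omega)
          exact hinj 0 t.length (by omega) le_rfl q3.symm
        · have q3 : vx v0 d0 t t.length = v0 + d0 := by
            rw [q2] at q1
            have r1 := congrArg Prod.fst q1
            have r2 := congrArg Prod.snd q1
            simp only [Prod.fst_add, Prod.snd_add, Prod.fst_neg, Prod.snd_neg] at r1 r2
            exact Prod.ext (by simp only [Prod.fst_add]; omega) (by simp only [Prod.snd_add]; omega)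
          have q4 : l = 0 := by
            by_contra hcon
            exact hinj 1 t.length (by omega) le_rfl q3.symm
          have q5 : d1 = turn (tf t 0) d0 := by
            rw [hd1, hl, q4]
            rfl
          have q6 := ip_turn_pos d0 h0 (tf t 0)
          rw [← q5, q2, ip_comm, ip_neg_left, ip_self_dir h0] at q6
          omega
      have h5 : 5 ≤ ip P d0 := by omega
      have h5' : (5 : ℝ) ≤ ((ip P d0 : ℤ) : ℝ) := by exact_mod_cast h5
      rw [hUre]
      linarith
    have h := arg_sum_zero hre him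
    refine ⟨hc, ?_, ?_⟩
    · have : (-2 : ℝ) < wind t := by
        by_contra hcon
        push Not at hcon
        nlinarith
      have h' : (-2 : ℤ) < wind t := by exact_mod_cast this
      omega
    · have : (wind t : ℝ) < 2 := by
        by_contra hcon
        push Not at hcon
        nlinarith
      have h' : wind t < 2 := by exact_mod_cast this
      omega
  · left
    have him : 0 < U.im := by
      rw [hUim]
      have : (0 : ℝ) < ((cross d0 P : ℤ) : ℝ) := by exact_mod_cast hc
      positivity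
    have h := arg_sum_pos hUpos him
    refine ⟨hc, ?_, ?_⟩
    · have : (-2 : ℝ) < wind t := by
        by_contra hcon
        push Not at hcon
        nlinarith
      have h' : (-2 : ℤ) < wind t := by exact_mod_cast this
      omega
    · have : (wind t : ℝ) < 5 := by
        by_contra hcon
        push Not at hcon
        nlinarith
      have h' : wind t < 5 := by exact_mod_cast this
      omega

lemma ang_two : ∀ d ∈ dirs, ∀ e ∈ dirs, ang e - ang d = 2 → e = rotL (rotL d) := by
  decide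

lemma ang_four : ∀ d ∈ dirs, ∀ e ∈ dirs, ang e - ang d = 4 → e = rotR (rotR d) := by
  decide

lemma cross_rot (P d : Pt) : 2 * ip P (rotL (rotL d)) + ip P d = 3 * cross d P := by
  unfold ip rotL cross
  ring

lemma cross_rot' (P d : Pt) : 2 * ip P (rotR (rotR d)) + ip P d = - (3 * cross d P) := by
  unfold ip rotR cross
  ring

lemma ip_rot_two : ∀ d ∈ dirs, ip d (rotL (rotL d)) = -1 ∧ ip d (rotR (rotR d)) = -1 := by
  decide

lemma dir_check (d : Pt) (hd : d ∈ dirs) (e : Pt) (he : e ∈ dirs) (W : ℤ) (hW : -3 ≤ W ∧ W ≤ 3)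
    (h : ang e = ang d + ((W : ℤ) : ZMod 6)) :
    (e = d ∧ W = 0) ∨ (e = rotL d ∧ W = 1) ∨ (e = rotR d ∧ W = -1) ∨ (e = rotL (rotL d) ∧ W = 2) ∨
      (e = rotR (rotR d) ∧ W = -2) ∨ (e = -d ∧ (W = 3 ∨ W = -3)) := by
  have c3 : ∀ d ∈ dirs, ∀ e ∈ dirs, ang e = ang d + ((3 : ℤ) : ZMod 6) → e = -d := by decide
  have c3' : ∀ d ∈ dirs, ∀ e ∈ dirs, ang e = ang d + ((-3 : ℤ) : ZMod 6) → e = -d := by decide
  have c2 : ∀ d ∈ dirs, ∀ e ∈ dirs, ang e = ang d + ((2 : ℤ) : ZMod 6) → e = rotL (rotL d) := by decide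
  have c2' : ∀ d ∈ dirs, ∀ e ∈ dirs, ang e = ang d + ((-2 : ℤ) : ZMod 6) → e = rotR (rotR d) := by decide
  have c1 : ∀ d ∈ dirs, ∀ e ∈ dirs, ang e = ang d + ((1 : ℤ) : ZMod 6) → e = rotL d := by decide
  have c1' : ∀ d ∈ dirs, ∀ e ∈ dirs, ang e = ang d + ((-1 : ℤ) : ZMod 6) → e = rotR d := by decide
  have c0 : ∀ d ∈ dirs, ∀ e ∈ dirs, ang e = ang d + ((0 : ℤ) : ZMod 6) → e = d := by decide
  have hc : W = 0 ∨ W = 1 ∨ W = -1 ∨ W = 2 ∨ W = -2 ∨ W = 3 ∨ W = -3 := by omega
  rcases hc with rfl | rfl | rfl | rfl | rfl | rfl | rfl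
  · exact Or.inl ⟨c0 d hd e he h, rfl⟩
  · exact Or.inr (Or.inl ⟨c1 d hd e he h, rfl⟩)
  · exact Or.inr (Or.inr (Or.inl ⟨c1' d hd e he h, rfl⟩))
  · exact Or.inr (Or.inr (Or.inr (Or.inl ⟨c2 d hd e he h, rfl⟩)))
  · exact Or.inr (Or.inr (Or.inr (Or.inr (Or.inl ⟨c2' d hd e he h, rfl⟩))))
  · exact Or.inr (Or.inr (Or.inr (Or.inr (Or.inr ⟨c3 d hd e he h, Or.inl rfl⟩))))
  · exact Or.inr (Or.inr (Or.inr (Or.inr (Or.inr ⟨c3' d hd e he h, Or.inr rfl⟩))))

/-- the winding as a function of the exit direction. -/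
theorem wind_exit {v0 d0 : Pt} (h0 : d0 ∈ dirs) {t : List Bool}
    (hinj : ∀ i k, i < k → k ≤ t.length → vx v0 d0 t i ≠ vx v0 d0 t k)
    (hhalf : ∀ i, 1 ≤ i → i ≤ t.length → 0 < ip (vx v0 d0 t i - v0) d0)
    (hexit : ∀ i, 1 ≤ i → i ≤ t.length → 0 < ip (tip v0 d0 t - vx v0 d0 t i) (dx d0 t t.length)) :
    (dx d0 t t.length = d0 ∧ wind t = 0) ∨
    (dx d0 t t.length = rotL d0 ∧ wind t = 1) ∨
    (dx d0 t t.length = rotR d0 ∧ wind t = -1) ∨
    (dx d0 t t.length = rotL (rotL d0) ∧ wind t = 2) ∨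
    (dx d0 t t.length = rotR (rotR d0) ∧ wind t = -2) ∨
    (dx d0 t t.length = -d0 ∧ (wind t = 3 ∨ wind t = -3)) := by
  rcases Nat.eq_zero_or_pos t.length with hz | hlen
  · left
    have : t = [] := List.length_eq_zero_iff.1 hz
    rw [this]
    exact ⟨rfl, rfl⟩
  obtain ⟨ha, hb, hc⟩ := wind_bounds h0 hlen hinj hhalf hexit
  have hang := ang_dx h0 t
  set d1 := dx d0 t t.length with hd1
  have hd1m : d1 ∈ dirs := ds_mem h0 _
  set P := vx v0 d0 t t.length + tip v0 d0 t - (v0 + v0) with hP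
  obtain ⟨W, hW⟩ : ∃ W, W = wind t := ⟨_, rfl⟩
  rw [← hW] at hc hang ⊢
  have hW4 : -4 ≤ W ∧ W ≤ 4 := by omega
  have hm4 : W ≠ -4 := by
    intro h
    have hcr : cross d0 P < 0 := by omega
    have h2 : ang d1 - ang d0 = 2 := by
      rw [hang, h]
      have : ((-4 : ℤ) : ZMod 6) = 2 := by decide
      rw [this]
      ring
    have h3 := ang_two d0 h0 d1 hd1m h2
    have h4 := cross_rot P d0
    rw [ip_sub_left, ip_two_left, h3, (ip_rot_two d0 h0).1] at hb
    linarith
  have hp4 : W ≠ 4 := by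
    intro h
    have hcr : 0 < cross d0 P := by omega
    have h2 : ang d1 - ang d0 = 4 := by
      rw [hang, h]
      have : ((4 : ℤ) : ZMod 6) = 4 := by decide
      rw [this]
      ring
    have h3 := ang_four d0 h0 d1 hd1m h2
    have h4 := cross_rot' P d0
    rw [ip_sub_left, ip_two_left, h3, (ip_rot_two d0 h0).2] at hb
    linarith
  exact dir_check d0 h0 d1 hd1m W (by omega) hang

end HexObs
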