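import Pool.Agent.HexObs.Cut

set_option autoImplicit false

namespace HexObs

open Complex Finset ENNReal

lemma take_split {t : List Bool} {i : ℕ} (hi : i < t.length) :
    t = t.take i ++ ([tf t i] ++ t.drop (i + 1)) := by
  have h1 : tf t i = t[i] := by
    unfold tf
    rw [List.getD_eq_getElem _ _ hi]
  rw [h1]
  have h2 : t.drop i = t[i] :: t.drop (i + 1) := List.drop_eq_getElem_cons hi
  have h3 : [t[i]] ++ t.drop (i + 1) = t.drop i := by
    rw [h2]
    rfl
  rw [h3, List.take_append_drop]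

/-- an arch of the strip of height T + 1 that does not fit in the strip of height T visits the top level. -/
lemma visits_top {v0 d0 : Pt} (h0 : d0 ∈ dirs) {T : ℕ} {t : List Bool}
    (ht : t ∈ out (strip v0 d0 (T + 1)) v0 d0 (-d0)) (hn : t ∉ out (strip v0 d0 T) v0 d0 (-d0)) :
    ∃ i, 1 ≤ i ∧ i ≤ t.length ∧ ip (vx v0 d0 t i - v0) d0 = 3 * T + 3 := by
  obtain ⟨h1, h2, h3⟩ := ht
  have hsub : ∀ v, v ∈ strip v0 d0 T → v ∈ strip v0 d0 (T + 1) := fun v hv => strip_mono _ _ (by omega) hv
  -- some vertex is not in the smaller strip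
  have h4 : ∃ i, 1 ≤ i ∧ i ≤ t.length ∧ vx v0 d0 t i ∉ strip v0 d0 T := by
    by_contra hcon
    push Not at hcon
    exact hn ⟨⟨hcon, h1.inj⟩, fun h => h2 (hsub _ h), h3⟩
  obtain ⟨i, hi1, hi2, hi3⟩ := h4
  have hmem := h1.mem i hi1 hi2
  have hlev : 3 * (T : ℤ) + 2 ≤ ip (vx v0 d0 t i - v0) d0 := by
    by_contra hcon
    push Not at hcon
    exact hi3 ⟨hmem.1, hmem.2.1, hcon⟩
  have hlt : ip (vx v0 d0 t i - v0) d0 < 3 * ((T + 1 : ℕ) : ℤ) + 2 := hmem.2.2
  push_cast at hlt
  have hmod := level_mod (v0 := v0) h0 t i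
  by_cases he : Even i
  · rw [if_pos he] at hmod
    exact ⟨i, hi1, hi2, by omega⟩
  · rw [if_neg he] at hmod
    have hlv : ip (vx v0 d0 t i - v0) d0 = 3 * T + 2 := by omega
    -- the previous vertex
    obtain ⟨m, rfl⟩ : ∃ m, i = m + 1 := ⟨i - 1, by omega⟩
    have hem : Even m := by
      rw [Nat.even_add_one, not_not] at he
      exact he
    have hs1 := level_succ v0 d0 t m
    rcases step_even h0 t hem with ⟨hd, hip⟩ | ⟨hd, hip⟩ | ⟨hd, hip⟩
    · -- arrived from below: the next vertex
      have hs2 := level_succ v0 d0 t (m + 1)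
      have hdn := dx_succ d0 t m
      rw [hd] at hdn
      have hip2 : ip (dx d0 t (m + 1)) d0 = 1 := by
        rw [hdn, ip_comm, ip_turn_self h0]
      rw [hip2, hlv] at hs2
      rcases Nat.lt_or_ge (m + 1) t.length with h5 | h5
      · exact ⟨m + 2, by omega, by omega, by rw [hs2]; ring⟩
      · exfalso
        have h6 : t.length = m + 1 := by omega
        apply h2
        refine ⟨tip_hex v0 d0 t, ?_, ?_⟩
        · unfold tip
          rw [h6, hs2]
          positivity
        · unfold tip
          rw [h6, hs2]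
          push_cast
          linarith
    · rw [hip, hlv] at hs1
      rcases Nat.eq_zero_or_pos m with h5 | h5
      · exfalso
        rw [h5] at hs1
        have : ip (vx v0 d0 t 0 - v0) d0 = 0 := by
          show ip (v0 - v0) d0 = 0
          rw [sub_self]
          simp [ip]
        rw [this] at hs1
        omega
      · exact ⟨m, h5, by omega, by linarith⟩
    · rw [hip, hlv] at hs1
      rcases Nat.eq_zero_or_pos m with h5 | h5
      · exfalso
        rw [h5] at hs1
        have : ip (vx v0 d0 t 0 - v0) d0 = 0 := by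
          show ip (v0 - v0) d0 = 0
          rw [sub_self]
          simp [ip]
        rw [this] at hs1
        omega
      · exact ⟨m, h5, by omega, by linarith⟩

/-- the flipped strip. -/
lemma strip_flip {v0 d0 w : Pt} {T : ℕ} (hw : IsHex v0 d0 w) (hlev : ip (w - v0) d0 = 3 * T + 2) :
    strip w (-d0) T = strip v0 d0 T := by
  have hclw : cl w = cl v0 + cl d0 := by
    rcases hw with h | h
    · exfalso
      have h1 : ((ip (w - v0) d0 : ℤ) : ZMod 3) = 0 := by
        rw [ip_mod, cl_sub, h]
        ring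
      rw [hlev] at h1
      push_cast at h1
      have h3 : (3 : ZMod 3) = 0 := three_eq
      rw [h3, zero_mul, zero_add] at h1
      exact absurd h1 (by decide)
    · exact h
  have e : ∀ v, ip (v - w) (-d0) = 3 * T + 2 - ip (v - v0) d0 := by
    intro v
    rw [ip_neg_right, ← hlev, ← ip_neg_left, ← ip_sub_left]
    congr 1
    abel
  ext v
  constructor
  · rintro ⟨h1, h2, h3⟩
    rw [e] at h2 h3
    refine ⟨?_, by linarith, by linarith⟩
    rcases h1 with h1 | h1
    · right
      rw [h1, hclw]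
    · left
      rw [h1, hclw, cl_neg]
      ring
  · rintro ⟨h1, h2, h3⟩
    refine ⟨?_, by rw [e]; linarith, by rw [e]; linarith⟩
    rcases h1 with h1 | h1
    · right
      rw [h1, hclw, cl_neg]
      ring
    · left
      rw [h1, hclw]

lemma turn_down : ∀ d ∈ dirs, ∀ b : Bool, turn (!b) (-d) = turn b (turn b d) := by
  decide

/-- the cut at the first visit to the top level. -/
lemma cut_top {v0 d0 : Pt} (h0 : d0 ∈ dirs) {T : ℕ} {t : List Bool}
    (ht : t ∈ out (strip v0 d0 (T + 1)) v0 d0 (-d0)) (hn : t ∉ out (strip v0 d0 T) v0 d0 (-d0)) :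
    ∃ a b r, t = a ++ ([b] ++ r) ∧ a ++ [!b] ∈ out (strip v0 d0 (T + 1)) v0 d0 d0 ∧
      ∃ w, [!b] ++ r ∈ out (strip w (-d0) (T + 1)) w (-d0) (-d0) := by
  classical
  have hex := visits_top h0 ht hn
  obtain ⟨h1, h2, h3⟩ := ht
  set i := Nat.find hex with hi
  obtain ⟨hi1, hi2, hi3⟩ := Nat.find_spec hex
  rw [← hi] at hi1 hi2 hi3
  have hmin : ∀ k, 1 ≤ k → k < i → ip (vx v0 d0 t k - v0) d0 ≠ 3 * T + 3 := by
    intro k hk hki h
    exact Nat.find_min hex hki ⟨hk, by omega, h⟩
  have hlt : ∀ k, 1 ≤ k → k ≤ t.length → ip (vx v0 d0 t k - v0) d0 ≤ 3 * T + 3 := by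
    intro k hk hkl
    have h4 : ip (vx v0 d0 t k - v0) d0 < 3 * ((T + 1 : ℕ) : ℤ) + 2 := (h1.mem k hk hkl).2.2
    have hmod := level_mod (v0 := v0) h0 t k
    push_cast at h4
    by_cases he : Even k
    · rw [if_pos he] at hmod
      omega
    · rw [if_neg he] at hmod
      omega
  have hev : Even i := by
    by_contra he
    have hmod := level_mod (v0 := v0) h0 t i
    rw [if_neg he, hi3] at hmod
    omega
  obtain ⟨m, hm⟩ : ∃ m, i = m + 1 := ⟨i - 1, by omega⟩
  rw [hm] at hi1 hi2 hi3 hmin hev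
  have hodd : ¬ Even m := by
    intro he
    rw [Nat.even_add_one] at hev
    exact hev he
  have hm1 : 1 ≤ m := by
    by_contra hcon
    have : m = 0 := by omega
    rw [this] at hodd
    exact hodd (by decide)
  -- direction of arrival
  have harr : ∃ c : Bool, dx d0 t m = turn c d0 := by
    rcases step_odd h0 t hodd with ⟨hd, hip⟩ | ⟨hd, hip⟩ | ⟨hd, hip⟩
    · exfalso
      have hs := level_succ v0 d0 t m
      rw [hip, hi3] at hs
      have := hlt m hm1 (by omega)
      omega
    · exact ⟨true, hd⟩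
    · exact ⟨false, hd⟩
  obtain ⟨c, hc⟩ := harr
  have hdx1 := dx_succ d0 t m
  rw [hc] at hdx1
  have hb : tf t m = c := by
    by_contra hne
    have hb' : tf t m = !c := by
      cases h5 : tf t m <;> cases h6 : c <;> rw [h5, h6] at hne <;> simp at hne ⊢
    rw [hb', turn_turn] at hdx1
    have hs := level_succ v0 d0 t (m + 1)
    rw [hdx1, ip_self_dir h0, hi3] at hs
    rcases Nat.lt_or_ge (m + 1) t.length with h5 | h5
    · have := hlt (m + 2) (by omega) (by omega)
      rw [show m + 2 = m + 1 + 1 from rfl, hs] at this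
      omega
    · have h6 : t.length = m + 1 := by omega
      rw [h6, hdx1] at h3
      have h7 := congrArg (fun p => ip p d0) h3
      rw [ip_neg_left, ip_self_dir h0] at h7
      omega
  have hsplit := take_split (t := t) (i := m) (by omega)
  rw [hb] at hsplit
  obtain ⟨a, ha⟩ : ∃ a, a = t.take m := ⟨_, rfl⟩
  obtain ⟨r, hr⟩ : ∃ r, r = t.drop (m + 1) := ⟨_, rfl⟩
  rw [← ha, ← hr] at hsplit
  have hal : a.length = m := by
    rw [ha, List.length_take]
    omega
  have hrl : r.length + (m + 1) = t.length := by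
    rw [hr, List.length_drop]
    omega
  have hva : ∀ k, k ≤ m + 1 → vx v0 d0 a k = vx v0 d0 t k := by
    intro k hk
    rw [hsplit, vx_append (by omega)]
  have hda : ∀ k, k ≤ m → dx d0 a k = dx d0 t k := by
    intro k hk
    rw [hsplit, dx_append (by omega)]
  have htipa : tip v0 d0 a = vx v0 d0 t (m + 1) := by
    unfold tip
    rw [hal, hva _ le_rfl]
  refine ⟨a, c, r, hsplit, ?_, ?_⟩
  · -- the first part
    refine ⟨saw_append_one.2 ⟨⟨?_, ?_⟩, ?_, ?_⟩, ?_, ?_⟩
    · intro k hk1 hk2
      rw [hva k (by omega)]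
      exact h1.mem k hk1 (by omega)
    · intro k l hkl hl
      rw [hva k (by omega), hva l (by omega)]
      exact h1.inj k l hkl (by omega)
    · rw [htipa]
      exact h1.mem _ (by omega) (by omega)
    · intro k hk
      rw [htipa, hva k (by omega)]
      exact h1.inj k (m + 1) (by omega) (by omega)
    · rw [tip_append_one, hal, hda m le_rfl, hc, turn_turn, htipa]
      rintro ⟨_, _, h5⟩
      have e : vx v0 d0 t (m + 1) + d0 - v0 = (vx v0 d0 t (m + 1) - v0) + d0 := by abel
      rw [e, ip_add_left, hi3, ip_self_dir h0] at h5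
      push_cast at h5
      linarith
    · rw [dx_append_one, hal, hda m le_rfl, hc, turn_turn]
  · -- the second part
    refine ⟨vx v0 d0 t (m + 1) + d0, ?_⟩
    set w := vx v0 d0 t (m + 1) + d0 with hw
    have hclv : cl (vx v0 d0 t (m + 1)) = cl v0 := by rw [cl_vx, if_pos hev]
    have hhexw : IsHex v0 d0 w := by
      right
      rw [hw, cl_add, hclv]
    have hlevw : ip (w - v0) d0 = 3 * ((T + 1 : ℕ) : ℤ) + 2 := by
      have e : w - v0 = (vx v0 d0 t (m + 1) - v0) + d0 := by
        rw [hw]
        abel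
      rw [e, ip_add_left, hi3, ip_self_dir h0]
      push_cast
      ring
    have hflip := strip_flip (T := T + 1) hhexw hlevw
    rw [hflip]
    -- vertices of the second word
    have k1 := fun k => (vx_split v0 d0 a c r k)
    have k2 := fun k => (vx_split w (-d0) [] (!c) r k)
    simp only [List.nil_append, List.length_nil, zero_add] at k2
    have e1 : tip w (-d0) [] = tip v0 d0 a := by
      show w + -d0 = _
      rw [htipa, hw]
      abel
    have e2 : turn (!c) (dx (-d0) [] 0) = turn c (dx d0 a a.length) := by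
      show turn (!c) (-d0) = _
      rw [hal, hda m le_rfl, hc, turn_down d0 h0]
    rw [← hsplit, hal] at k1
    rw [hal] at e2
    have key : ∀ k, vx w (-d0) ([!c] ++ r) (1 + k) = vx v0 d0 t (m + 1 + k) := by
      intro k
      rw [(k1 k).1, (k2 k).1, e1, e2]
    have keyd : ∀ k, dx (-d0) ([!c] ++ r) (1 + k) = dx d0 t (m + 1 + k) := by
      intro k
      rw [(k1 k).2, (k2 k).2, e2]
    have hl2 : ([!c] ++ r).length = 1 + r.length := by
      rw [List.length_append]
      rfl
    have hw0 : vx w (-d0) ([!c] ++ r) 0 = w := rfl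
    refine ⟨⟨?_, ?_⟩, ?_, ?_⟩
    · intro k hk1 hk2
      obtain ⟨k', rfl⟩ : ∃ k', k = 1 + k' := ⟨k - 1, by omega⟩
      rw [key]
      exact h1.mem _ (by omega) (by omega)
    · intro k l hkl hl
      obtain ⟨l', rfl⟩ : ∃ l', l = 1 + l' := ⟨l - 1, by omega⟩
      rw [key]
      rcases Nat.eq_zero_or_pos k with hk | hk
      · rw [hk, hw0]
        intro heq
        have := hlt (m + 1 + l') (by omega) (by omega)
        rw [← heq, hlevw] at this
        push_cast at this
        linarith
      · obtain ⟨k', rfl⟩ : ∃ k', k = 1 + k' := ⟨k - 1, by omega⟩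
        rw [key]
        exact h1.inj _ _ (by omega) (by omega)
    · unfold tip
      rw [hl2, add_assoc, key]
      have : m + 1 + (r.length + 1) = t.length + 1 := by omega
      rw [this]
      exact h2
    · rw [hl2, keyd]
      have : m + 1 + r.length = t.length := by omega
      rw [this]
      exact h3

/-- the arches of the strip T + 1 that are not in the strip T consist of two bridges. -/
theorem AT_succ_le {T : ℕ} :
    AT (T + 1) ≤ AT T + ENNReal.ofReal xc⁻¹ * (BT (T + 1) * BT (T + 1)) := by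
  classical
  have h0 : ((0, 1) : Pt) ∈ dirs := by decide
  set D := out (strip (0, 0) (0, 1) (T + 1)) (0, 0) (0, 1) (-(0, 1)) \
    out (strip (0, 0) (0, 1) T) (0, 0) (0, 1) (-(0, 1)) with hD
  have hsub : out (strip (0, 0) (0, 1) (T + 1)) (0, 0) (0, 1) (-(0, 1)) ⊆
      out (strip (0, 0) (0, 1) T) (0, 0) (0, 1) (-(0, 1)) ∪ D := by
    intro t ht
    by_cases h : t ∈ out (strip (0, 0) (0, 1) T) (0, 0) (0, 1) (-(0, 1))
    · exact Or.inl h
    · exact Or.inr ⟨ht, h⟩
  have h1 : AT (T + 1) ≤ AT T + gf D := (gf_mono hsub).trans (gf_union_le _ _)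
  refine h1.trans ?_
  gcongr
  have hcut : ∀ t ∈ D, ∃ p : List Bool × Bool × List Bool, t = p.1 ++ ([p.2.1] ++ p.2.2) ∧
      p.1 ++ [!p.2.1] ∈ out (strip (0, 0) (0, 1) (T + 1)) (0, 0) (0, 1) (0, 1) ∧
      ∃ w, [!p.2.1] ++ p.2.2 ∈ out (strip w (-(0, 1)) (T + 1)) w (-(0, 1)) (-(0, 1)) := by
    rintro t ⟨ht, hn⟩
    obtain ⟨a, b, r, h⟩ := cut_top h0 ht hn
    exact ⟨(a, b, r), h⟩
  choose! p hp1 hp2 hp3 using hcut
  have hQ : ∀ w : Pt, out (strip w (-(0, 1)) (T + 1)) w (-(0, 1)) (-(0, 1)) =
      out (strip (0, 0) (0, 1) (T + 1)) (0, 0) (0, 1) (0, 1) := by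
    intro w
    exact (strip_rot (show (-(0, 1) : Pt) ∈ dirs by decide) h0 w (0, 0) (T + 1)).1
  have key := gf_le_pair (P := D) (Q := out (strip (0, 0) (0, 1) (T + 1)) (0, 0) (0, 1) (0, 1))
    (R := out (strip (0, 0) (0, 1) (T + 1)) (0, 0) (0, 1) (0, 1)) (ENNReal.ofReal xc⁻¹)
    (fun t => (p t).1 ++ [!(p t).2.1]) (fun t => [!(p t).2.1] ++ (p t).2.2) hp2 (by
      intro t ht
      obtain ⟨w, hw⟩ := hp3 t ht
      rw [hQ w] at hw
      exact hw) (by
      intro s hs t ht h1 h2
      have h3 := List.append_inj' h1 rfl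
      have h4 := List.append_inj h2 rfl
      have h5 : (p s).2.1 = (p t).2.1 := by
        have := h3.2
        simp only [List.cons.injEq, and_true, Bool.not_eq_eq_eq_not, Bool.not_not] at this
        exact this
      rw [hp1 s hs, hp1 t ht, h3.1, h4.2, h5]) (by
      intro t ht
      rw [← wE_append]
      have hl : ((p t).1 ++ [!(p t).2.1] ++ ([!(p t).2.1] ++ (p t).2.2)).length = t.length + 1 := by
        conv_rhs => rw [hp1 t ht]
        simp only [List.length_append, List.length_cons, List.length_nil]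
        omega
      unfold wE
      rw [hl, ← ENNReal.ofReal_mul (by
        have := xc_pos
        positivity), pow_succ]
      apply ENNReal.ofReal_le_ofReal
      have := xc_pos
      have e : xc⁻¹ * (xc ^ t.length * xc) = xc ^ t.length := by
        field_simp
      rw [e])
  exact key

end HexObs
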