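import Pool.Agent.HexObs.Sep

set_option autoImplicit false

namespace HexObs

open Complex Finset

/-- exp(i pi/3). -/
noncomputable def zt : ℂ := ⟨1 / 2, Real.sqrt 3 / 2⟩

/-- the plane embedding. -/
noncomputable def emb (p : Pt) : ℂ := (p.1 : ℂ) + (p.2 : ℂ) * zt

lemma emb_re (p : Pt) : (emb p).re = p.1 + p.2 / 2 := by
  simp [emb, zt]
  ring

lemma emb_im (p : Pt) : (emb p).im = p.2 * (Real.sqrt 3 / 2) := by
  simp [emb, zt]

lemma emb_add (p q : Pt) : emb (p + q) = emb p + emb q := by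
  simp only [emb, Prod.fst_add, Prod.snd_add]
  push_cast
  ring

lemma emb_sub (p q : Pt) : emb (p - q) = emb p - emb q := by
  simp only [emb, Prod.fst_sub, Prod.snd_sub]
  push_cast
  ring

lemma emb_neg (p : Pt) : emb (-p) = - emb p := by
  simp only [emb, Prod.fst_neg, Prod.snd_neg]
  push_cast
  ring

lemma re_emb_mul (p q : Pt) : (emb p * (starRingEnd ℂ) (emb q)).re = (ip p q : ℝ) / 2 := by
  rw [Complex.mul_re, Complex.conj_re, Complex.conj_im, emb_re, emb_re, emb_im, emb_im]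
  have h3 : Real.sqrt 3 * Real.sqrt 3 = 3 := Real.mul_self_sqrt (by norm_num)
  unfold ip
  push_cast
  linear_combination ((p.2 : ℝ) * q.2 / 4) * h3

lemma ip_self (p : Pt) : ip p p = 2 * nrm p := by
  unfold ip nrm
  ring

lemma ip_add_left (p q r : Pt) : ip (p + q) r = ip p r + ip q r := by
  simp only [ip, Prod.fst_add, Prod.snd_add]
  ring

lemma ip_sub_left (p q r : Pt) : ip (p - q) r = ip p r - ip q r := by
  simp only [ip, Prod.fst_sub, Prod.snd_sub]
  ring

lemma ip_neg_left (p r : Pt) : ip (-p) r = - ip p r := by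
  simp only [ip, Prod.fst_neg, Prod.snd_neg]
  ring

lemma ip_comm (p q : Pt) : ip p q = ip q p := by
  unfold ip
  ring

lemma ip_add_right (p q r : Pt) : ip p (q + r) = ip p q + ip p r := by
  simp only [ip, Prod.fst_add, Prod.snd_add]
  ring

/-- Cauchy-Schwarz. -/
lemma ip_lt {w S : Pt} (h : nrm w < nrm S) : - (2 * nrm S) < ip w S ∧ ip w S < 2 * nrm S := by
  have h1 : 4 * nrm w * nrm S - ip w S ^ 2 = 3 * (w.1 * S.2 - w.2 * S.1) ^ 2 := by
    unfold nrm ip
    ring
  have h0 : 0 ≤ nrm w := by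
    unfold nrm
    nlinarith [sq_nonneg (w.1 + w.2), sq_nonneg w.1, sq_nonneg w.2]
  have h2 : ip w S ^ 2 < (2 * nrm S) ^ 2 := by
    nlinarith [sq_nonneg (w.1 * S.2 - w.2 * S.1)]
  exact abs_lt.1 (abs_lt_of_sq_lt_sq h2 (by linarith))

lemma sep_half {A B C D : Pt} (h : Sep A B C D) :
    ∃ c : ℂ, 0 < ((emb C - emb A) * (starRingEnd ℂ) c).re ∧
      0 < ((emb D - emb A) * (starRingEnd ℂ) c).re ∧
      0 < ((emb C - emb B) * (starRingEnd ℂ) c).re ∧
      0 < ((emb D - emb B) * (starRingEnd ℂ) c).re := by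
  obtain ⟨h1, h2⟩ := h
  refine ⟨emb (C + D - A - B), ?_⟩
  have k1 := ip_lt h1
  have k2 := ip_lt h2
  set S := C + D - A - B with hS
  have hSS := ip_self S
  have e1 : ip (C - A) S + ip (C - A) S = ip S S + ip ((B - A) - (D - C)) S := by
    rw [← ip_add_left, ← ip_add_left]
    congr 1
    rw [hS]
    abel
  have e2 : ip (D - A) S + ip (D - A) S = ip S S + ip ((B - A) + (D - C)) S := by
    rw [← ip_add_left, ← ip_add_left]
    congr 1
    rw [hS]
    abel
  have e3 : ip (C - B) S + ip (C - B) S = ip S S - ip ((B - A) + (D - C)) S := by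
    rw [← ip_add_left, ← ip_sub_left]
    congr 1
    rw [hS]
    abel
  have e4 : ip (D - B) S + ip (D - B) S = ip S S - ip ((B - A) - (D - C)) S := by
    rw [← ip_add_left, ← ip_sub_left]
    congr 1
    rw [hS]
    abel
  rw [← emb_sub, ← emb_sub, ← emb_sub, ← emb_sub, re_emb_mul, re_emb_mul, re_emb_mul, re_emb_mul]
  refine ⟨?_, ?_, ?_, ?_⟩
  · have : 0 < ip (C - A) S := by linarith [k1.1]
    have h' : (0 : ℝ) < ip (C - A) S := by exact_mod_cast this
    linarith
  · have : 0 < ip (D - A) S := by linarith [k2.1]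
    have h' : (0 : ℝ) < ip (D - A) S := by exact_mod_cast this
    linarith
  · have : 0 < ip (C - B) S := by linarith [k2.2]
    have h' : (0 : ℝ) < ip (C - B) S := by exact_mod_cast this
    linarith
  · have : 0 < ip (D - B) S := by linarith [k1.2]
    have h' : (0 : ℝ) < ip (D - B) S := by exact_mod_cast this
    linarith

/-- Hopf's lemma for lattice polygons. -/
theorem hopfZ (q : ℕ → Pt) (m : ℕ) (hm : 1 ≤ m)
    (hsq : ∀ i j, i + 1 < j → j < m → Sep (q i) (q (i + 1)) (q j) (q (j + 1)))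
    (htri : ∀ k, k + 1 < m → 0 < ip (q (k + 1) - q k) (q (k + 2) - q (k + 1))) :
    ∑ k ∈ range (m - 1), arg ((emb (q (k + 2)) - emb (q (k + 1))) / (emb (q (k + 1)) - emb (q k))) =
      ∑ j ∈ range (m - 1), arg ((emb (q (j + 2)) - emb (q 0)) / (emb (q (j + 1)) - emb (q 0))) +
      ∑ i ∈ range (m - 1), arg ((emb (q m) - emb (q (i + 1))) / (emb (q m) - emb (q i))) := by
  refine hopf (fun i => emb (q i)) m hm (fun i j hij hj => sep_half (hsq i j hij hj)) ?_
  intro k hk
  have h := htri k hk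
  refine ⟨emb ((q (k + 1) - q k) + (q (k + 2) - q (k + 1))), ?_, ?_⟩
  · show 0 < ((emb (q (k + 1)) - emb (q k)) * _).re
    rw [← emb_sub, re_emb_mul, ip_add_right, ip_self]
    have h0 : 0 ≤ nrm (q (k + 1) - q k) := by
      unfold nrm
      nlinarith [sq_nonneg ((q (k + 1) - q k).1 + (q (k + 1) - q k).2), sq_nonneg (q (k + 1) - q k).1,
        sq_nonneg (q (k + 1) - q k).2]
    have : 0 < 2 * nrm (q (k + 1) - q k) + ip (q (k + 1) - q k) (q (k + 2) - q (k + 1)) := by linarith
    have h' : (0 : ℝ) < ((2 * nrm (q (k + 1) - q k) + ip (q (k + 1) - q k) (q (k + 2) - q (k + 1)) : ℤ) : ℝ) := by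
      exact_mod_cast this
    linarith
  · show 0 < ((emb (q (k + 2)) - emb (q (k + 1))) * _).re
    rw [← emb_sub, re_emb_mul, ip_add_right, ip_self, ip_comm]
    have h0 : 0 ≤ nrm (q (k + 2) - q (k + 1)) := by
      unfold nrm
      nlinarith [sq_nonneg ((q (k + 2) - q (k + 1)).1 + (q (k + 2) - q (k + 1)).2),
        sq_nonneg (q (k + 2) - q (k + 1)).1, sq_nonneg (q (k + 2) - q (k + 1)).2]
    have : 0 < ip (q (k + 1) - q k) (q (k + 2) - q (k + 1)) + 2 * nrm (q (k + 2) - q (k + 1)) := by linarith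
    have h' : (0 : ℝ) < ((ip (q (k + 1) - q k) (q (k + 2) - q (k + 1)) + 2 * nrm (q (k + 2) - q (k + 1)) : ℤ) : ℝ) := by
      exact_mod_cast this
    linarith

lemma arg_zt : arg zt = Real.pi / 3 := by
  have h : zt = ((1 : ℝ) : ℂ) * (Complex.cos ((Real.pi / 3 : ℝ) : ℂ) +
      Complex.sin ((Real.pi / 3 : ℝ) : ℂ) * I) := by
    rw [← Complex.ofReal_cos, ← Complex.ofReal_sin, Real.cos_pi_div_three, Real.sin_pi_div_three]
    apply Complex.ext <;> simp [zt]
  rw [h, Complex.arg_mul_cos_add_sin_mul_I (by norm_num)]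
  constructor <;> linarith [Real.pi_pos]

lemma zt_ne : zt ≠ 0 := by
  intro h
  have := congrArg Complex.re h
  simp [zt] at this

lemma arg_zt_inv : arg zt⁻¹ = - (Real.pi / 3) := by
  rw [Complex.arg_inv, arg_zt, if_neg]
  intro h
  linarith [Real.pi_pos]

lemma zt_sq : zt * zt = zt - 1 := by
  have h3 : Real.sqrt 3 * Real.sqrt 3 = 3 := Real.mul_self_sqrt (by norm_num)
  apply Complex.ext
  · simp [zt, Complex.mul_re]
    linear_combination (-(1 / 4 : ℝ)) * h3
  · simp [zt, Complex.mul_im]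
    ring

lemma emb_rotL (d : Pt) : emb (rotL d) = zt * emb d := by
  simp only [emb, rotL]
  push_cast
  linear_combination (-(d.2 : ℂ)) * zt_sq

lemma emb_rotR (d : Pt) : emb (rotR d) = zt⁻¹ * emb d := by
  have h : zt * emb (rotR d) = emb d := by
    simp only [emb, rotR]
    push_cast
    linear_combination (-(d.1 : ℂ)) * zt_sq
  rw [← h, ← mul_assoc, inv_mul_cancel₀ zt_ne, one_mul]

lemma emb_turn (b : Bool) (d : Pt) : emb (turn b d) = zt ^ (sgn b) * emb d := by
  cases b
  · simp only [turn, sgn, Bool.false_eq_true, if_false, emb_rotR]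
    rw [zpow_neg_one]
  · simp only [turn, sgn, if_true, emb_rotL, zpow_one]

lemma arg_zt_sgn (b : Bool) : arg (zt ^ (sgn b)) = sgn b * (Real.pi / 3) := by
  cases b
  · simp only [sgn, Bool.false_eq_true, if_false, zpow_neg_one, arg_zt_inv]
    push_cast
    ring
  · simp only [sgn, if_true, zpow_one, arg_zt]
    push_cast
    ring

lemma emb_ne {d : Pt} (h : d ∈ dirs) : emb d ≠ 0 := by
  intro h0
  have h1 := re_emb_mul d d
  rw [h0, ip_self, mem_dirs.1 h] at h1
  simp at h1

/-- the turning angle between a vector of direction d and one of direction turn b d. -/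
lemma arg_turn {b : Bool} {d : Pt} (hd : d ∈ dirs) {r s : ℝ} (hr : 0 < r) (hs : 0 < s) :
    arg (((s : ℂ) * emb (turn b d)) / ((r : ℂ) * emb d)) = sgn b * (Real.pi / 3) := by
  have h0 := emb_ne hd
  have hr' : (r : ℂ) ≠ 0 := by exact_mod_cast hr.ne'
  have : ((s : ℂ) * emb (turn b d)) / ((r : ℂ) * emb d) = ((s / r : ℝ) : ℂ) * zt ^ (sgn b) := by
    rw [emb_turn]
    push_cast
    field_simp
  rw [this, Complex.arg_real_mul _ (by positivity), arg_zt_sgn]

end HexObs
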