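import Pool.Agent.HexObs.Ex

/-!
The three explorer inequality and the two explorer inequality with prescribed ends, finite domains.
-/

set_option autoImplicit false

namespace HexObs

namespace Ex

open Complex Finset ENNReal

/-- T3 with prescribed ends of the right walker, in a finite domain. -/
theorem T3F_fin {Ω : Finset Pt} {v0 d0 : Pt} {d : ℕ} (W : Set Pt) (hd : 1 ≤ d)
    (hg : ∀ k : ℤ, k = 0 ∨ k = 1 ∨ k = 1 + d → GoodDom Ω (foot v0 d0 k) d0) :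
    Real.sin (Real.pi / 8) * ((P2E (Ω : Set Pt) v0 d0 0 Set.univ 1 W ∅).toReal -
        (Q2E (Ω : Set Pt) v0 d0 0 Set.univ 1 W
          (fun Z => BrE (Ω : Set Pt) Z (foot v0 d0 (1 + d)) d0 Set.univ) ∅).toReal) -
        (Q2E (Ω : Set Pt) v0 d0 0 Set.univ 1 W (fun Z => DnL (Ω : Set Pt) Z (foot v0 d0 (1 + d)) d0) ∅).toReal +
        (Q2E (Ω : Set Pt) v0 d0 0 Set.univ 1 W (fun Z => DnR (Ω : Set Pt) Z (foot v0 d0 (1 + d)) d0) ∅).toReal /
          Real.sqrt 2 ≤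
      Real.sin (3 * Real.pi / 8) *
        ((P2E (Ω : Set Pt) v0 d0 0 Set.univ (1 + d) W ∅).toReal -
          (P2E (Ω : Set Pt) v0 d0 1 Set.univ (1 + d) W ∅).toReal) +
        (Q2E (Ω : Set Pt) v0 d0 1 Set.univ (1 + d) W (fun Z => Lat (Ω : Set Pt) Z (foot v0 d0 0) d0) ∅).toReal +
        (Q2E (Ω : Set Pt) v0 d0 0 Set.univ 1 W (fun Z => Lat (Ω : Set Pt) Z (foot v0 d0 (1 + d)) d0) ∅).toReal := by
  have g0 := hg 0 (Or.inl rfl)
  have g1 := hg 1 (Or.inr (Or.inl rfl))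
  have gd := hg (1 + d) (Or.inr (Or.inr rfl))
  have hdz : (1 : ℤ) ≤ d := by exact_mod_cast hd
  rw [P2E_toReal, P2E_toReal, P2E_toReal, Q2E_toReal (fun Z => brE_arr Ω Z _ _ _), Q2E_toReal (fun Z => dnl_arr Ω Z _ _),
    Q2E_toReal (fun Z => dnr_arr Ω Z _ _), Q2E_toReal (fun Z => lat_arr Ω Z _ _), Q2E_toReal (fun Z => lat_arr Ω Z _ _)]
  obtain ⟨p0, hp0⟩ : ∃ p, p = foot v0 d0 0 := ⟨_, rfl⟩
  obtain ⟨p1, hp1⟩ : ∃ p, p = foot v0 d0 1 := ⟨_, rfl⟩
  obtain ⟨pd, hpd⟩ : ∃ p, p = foot v0 d0 (1 + d) := ⟨_, rfl⟩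
  obtain ⟨U, hU⟩ : ∃ U : Set Pt, U = Set.univ := ⟨_, rfl⟩
  rw [← hU]
  have M := slit3E g1 p0 U pd W 3
  have L := slit3E g0 p1 U pd W 5
  have R := slit3E gd p0 U p1 W 1
  -- unreachable walkers
  have far1 := zhE_far (v1 := p0) (v2 := p1) (v3 := pd) (by rw [hp1]; exact g1) (by rw [hp0, hp1, t3_cl_foot, t3_cl_foot])
    (by rw [hpd, hp1, t3_cl_foot, t3_cl_foot]) (by rw [hp0, hp1]; exact t3_ip_foot _ _ _ _)
    (by rw [hpd, hp1]; exact t3_ip_foot _ _ _ _)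
    (Or.inl ⟨by rw [hp0, hp1, t3_cross_foot g0.dir]; norm_num, by rw [hpd, hp1, t3_cross_foot g0.dir]; linarith⟩)
    U W (fun w => Real.sin ((5 + w) * (Real.pi / 8)))
  have far2 := zhE_far (v1 := pd) (v2 := p1) (v3 := p0) (by rw [hp1]; exact g1) (by rw [hpd, hp1, t3_cl_foot, t3_cl_foot])
    (by rw [hp0, hp1, t3_cl_foot, t3_cl_foot]) (by rw [hpd, hp1]; exact t3_ip_foot _ _ _ _)
    (by rw [hp0, hp1]; exact t3_ip_foot _ _ _ _)
    (Or.inr ⟨by rw [hpd, hp1, t3_cross_foot g0.dir]; linarith, by rw [hp0, hp1, t3_cross_foot g0.dir]; norm_num⟩)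
    W U (fun w => Real.sin ((1 + w) * (Real.pi / 8)))
  -- swaps
  have swap1 : ∀ X, ZhE Ω X p1 p0 d0 U (fun w => Real.sin ((3 + w) * (Real.pi / 8))) =
      ZhE Ω X p0 p1 d0 U (fun w => Real.sin ((5 + w) * (Real.pi / 8))) := by
    intro X
    have := swap_sumE (X := X) (p := p0) (q := p1) (by rw [hp0]; exact g0) (by rw [hp1]; exact g1)
      (by rw [hp0, hp1]; exact t3_ip_foot _ _ _ _) (by rw [hp0, hp1, t3_cl_foot, t3_cl_foot])
      (by rw [hp0, hp1, t3_cross_foot g0.dir]; norm_num) U (fun w => Real.sin ((3 + w) * (Real.pi / 8)))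
    rw [this]
    congr 1
    funext w
    congr 1
    push_cast
    ring
  have swap2 : ∀ X, ZhE Ω X pd p1 d0 W (fun w => Real.sin ((1 + w) * (Real.pi / 8))) =
      ZhE Ω X p1 pd d0 W (fun w => Real.sin ((3 + w) * (Real.pi / 8))) := by
    intro X
    have := swap_sumE (X := X) (p := p1) (q := pd) (by rw [hp1]; exact g1) (by rw [hpd]; exact gd)
      (by rw [hpd, hp1]; exact t3_ip_foot _ _ _ _) (by rw [hpd, hp1, t3_cl_foot, t3_cl_foot])
      (by rw [hpd, hp1, t3_cross_foot g0.dir]; linarith) W (fun w => Real.sin ((1 + w) * (Real.pi / 8)))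
    rw [this]
    congr 1
    funext w
    congr 1
    push_cast
    ring
  obtain ⟨s4, s2, s8, s5⟩ := sin_vals
  have hpi := Real.pi_pos
  -- free parts
  have FM : Real.sin (3 * Real.pi / 8) * ooE Ω p0 U pd W p1 d0 (fun Z => BrE (Ω : Set Pt) Z p1 d0 U) ≤
      obE Ω p0 d0 U (obE Ω pd d0 W (fr Ω p1 d0 (fun w => Real.sin ((3 + w) * (Real.pi / 8))))) ∅ := by
    unfold ooE
    rw [← obE_mul]
    apply obE_mono
    intro s _
    rw [← obE_mul]
    apply obE_mono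
    intro t _
    rw [fr_eq (by rw [hp1]; exact g1), hU]
    simp only [brE_univ]
    have h1 := lat_nonneg (by rw [hp1]; exact g1 : GoodDom Ω p1 d0) (fun w => Real.sin ((3 + w) * (Real.pi / 8)))
      (∅ ∪ vis p0 d0 s ∪ vis pd d0 t)
      (by push_cast; exact Real.sin_nonneg_of_nonneg_of_le_pi (by linarith) (by linarith))
      (by push_cast; exact Real.sin_nonneg_of_nonneg_of_le_pi (by linarith) (by linarith))
      (by push_cast; exact Real.sin_nonneg_of_nonneg_of_le_pi (by linarith) (by linarith))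
      (by push_cast; exact Real.sin_nonneg_of_nonneg_of_le_pi (by linarith) (by linarith))
    have h2 : 0 ≤ Real.sin ((3 + ((3 : ℤ) : ℝ)) * (Real.pi / 8)) := by
      push_cast
      exact Real.sin_nonneg_of_nonneg_of_le_pi (by linarith) (by linarith)
    have h3 : Real.sin ((3 + ((-3 : ℤ) : ℝ)) * (Real.pi / 8)) = 0 := by
      push_cast
      rw [show (3 + (-3 : ℝ)) * (Real.pi / 8) = 0 by ring, Real.sin_zero]
    have h4 : Real.sin ((3 + ((0 : ℤ) : ℝ)) * (Real.pi / 8)) = Real.sin (3 * Real.pi / 8) := by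
      congr 1
      push_cast
      ring
    have h5 := mul_nonneg h2 (gr_nonneg Ω p1 d0 (DnL (Ω : Set Pt) (∅ ∪ vis p0 d0 s ∪ vis pd d0 t) p1 d0))
    simp only [h3, h4, zero_mul, add_zero]
    linarith
  have FL : obE Ω p1 d0 U (obE Ω pd d0 W (fr Ω p0 d0 (fun w => Real.sin ((5 + w) * (Real.pi / 8))))) ∅ ≤
      Real.sin (3 * Real.pi / 8) * ooE Ω p0 U pd W p1 d0 (fun Z => BrE (Ω : Set Pt) Z p1 d0 U) +
        ooE Ω p1 U pd W p0 d0 (fun Z => Lat (Ω : Set Pt) Z p0 d0) := by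
    have e1 : ooE Ω p0 U pd W p1 d0 (fun Z => BrE (Ω : Set Pt) Z p1 d0 U) =
        ooE Ω p1 U pd W p0 d0 (fun Z => BrE (Ω : Set Pt) Z p0 d0 U) := by
      rw [ooE_last, ooE_comm, ooE_last]
    rw [e1]
    have e2 := ooE_lin Ω p1 U pd W d0 (fun Z => gr Ω p0 d0 (BrE (Ω : Set Pt) Z p0 d0 U))
      (fun Z => gr Ω p0 d0 (Lat (Ω : Set Pt) Z p0 d0)) (Real.sin (3 * Real.pi / 8)) 1
    rw [one_mul] at e2
    unfold ooE
    rw [← e2]
    apply obE_mono
    intro s hs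
    apply obE_mono
    intro t _
    rw [fr_eq (by rw [hp0]; exact g0), hU]
    simp only [brE_univ]
    have h1 := lat_le (Ω := Ω) (p := p0) (d0 := d0) (fun w => Real.sin ((5 + w) * (Real.pi / 8)))
      (∅ ∪ vis p1 d0 s ∪ vis pd d0 t) (fun w => Real.sin_le_one _)
    have h2 : Real.sin ((5 + ((3 : ℤ) : ℝ)) * (Real.pi / 8)) = 0 := by
      push_cast
      rw [← s8]
      congr 1
      ring
    have h3 : gr Ω p0 d0 (DnR (Ω : Set Pt) (∅ ∪ vis p1 d0 s ∪ vis pd d0 t) p0 d0) = 0 := by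
      rw [hp0]
      apply dnr_empty g0 g1 (s := s)
      · rw [← hp1]
        exact hs.1
      · rw [← hp1]
        intro x hx
        exact Or.inl (Or.inr hx)
    have h4 : Real.sin ((5 + ((0 : ℤ) : ℝ)) * (Real.pi / 8)) = Real.sin (3 * Real.pi / 8) := by
      rw [← s5]
      congr 1
      push_cast
      ring
    simp only [h2, h3, h4, zero_mul, mul_zero, add_zero]
    linarith
  have FR : obE Ω p0 d0 U (obE Ω p1 d0 W (fr Ω pd d0 (fun w => Real.sin ((1 + w) * (Real.pi / 8))))) ∅ ≤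
      Real.sin (Real.pi / 8) * ooE Ω p0 U p1 W pd d0 (fun Z => BrE (Ω : Set Pt) Z pd d0 U) +
        ooE Ω p0 U p1 W pd d0 (fun Z => DnL (Ω : Set Pt) Z pd d0) -
        ooE Ω p0 U p1 W pd d0 (fun Z => DnR (Ω : Set Pt) Z pd d0) / Real.sqrt 2 +
        ooE Ω p0 U p1 W pd d0 (fun Z => Lat (Ω : Set Pt) Z pd d0) := by
    have e2 := ooE_lin Ω p0 U p1 W d0 (fun Z => gr Ω pd d0 (BrE (Ω : Set Pt) Z pd d0 U))
      (fun Z => gr Ω pd d0 (DnL (Ω : Set Pt) Z pd d0)) (Real.sin (Real.pi / 8)) 1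
    have e3 := ooE_lin Ω p0 U p1 W d0 (fun Z => gr Ω pd d0 (DnR (Ω : Set Pt) Z pd d0))
      (fun Z => gr Ω pd d0 (Lat (Ω : Set Pt) Z pd d0)) (-(1 / Real.sqrt 2)) 1
    have e4 := ooE_lin Ω p0 U p1 W d0 (fun Z => Real.sin (Real.pi / 8) * gr Ω pd d0 (BrE (Ω : Set Pt) Z pd d0 U) +
      1 * gr Ω pd d0 (DnL (Ω : Set Pt) Z pd d0)) (fun Z => -(1 / Real.sqrt 2) * gr Ω pd d0 (DnR (Ω : Set Pt) Z pd d0) +
      1 * gr Ω pd d0 (Lat (Ω : Set Pt) Z pd d0)) 1 1
    rw [e2, e3] at e4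
    have e5 : Real.sin (Real.pi / 8) * ooE Ω p0 U p1 W pd d0 (fun Z => BrE (Ω : Set Pt) Z pd d0 U) +
        ooE Ω p0 U p1 W pd d0 (fun Z => DnL (Ω : Set Pt) Z pd d0) -
        ooE Ω p0 U p1 W pd d0 (fun Z => DnR (Ω : Set Pt) Z pd d0) / Real.sqrt 2 +
        ooE Ω p0 U p1 W pd d0 (fun Z => Lat (Ω : Set Pt) Z pd d0) =
        obE Ω p0 d0 U (obE Ω p1 d0 W (fun Z => 1 * (Real.sin (Real.pi / 8) * gr Ω pd d0 (BrE (Ω : Set Pt) Z pd d0 U) +
      1 * gr Ω pd d0 (DnL (Ω : Set Pt) Z pd d0)) + 1 * (-(1 / Real.sqrt 2) * gr Ω pd d0 (DnR (Ω : Set Pt) Z pd d0) +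
      1 * gr Ω pd d0 (Lat (Ω : Set Pt) Z pd d0)))) ∅ := by
      rw [e4]
      unfold ooE
      ring
    rw [e5]
    apply obE_mono
    intro s _
    apply obE_mono
    intro t _
    rw [fr_eq (by rw [hpd]; exact gd), hU]
    simp only [brE_univ]
    have h1 := lat_le (Ω := Ω) (p := pd) (d0 := d0) (fun w => Real.sin ((1 + w) * (Real.pi / 8)))
      (∅ ∪ vis p0 d0 s ∪ vis p1 d0 t) (fun w => Real.sin_le_one _)
    have h2 : Real.sin ((1 + ((3 : ℤ) : ℝ)) * (Real.pi / 8)) = 1 := by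
      rw [show (1 + ((3 : ℤ) : ℝ)) * (Real.pi / 8) = 4 * (Real.pi / 8) by push_cast; ring]
      exact s4
    have h3 : Real.sin ((1 + ((-3 : ℤ) : ℝ)) * (Real.pi / 8)) = -(1 / Real.sqrt 2) := by
      rw [← s2, ← Real.sin_neg]
      congr 1
      push_cast
      ring
    have h4 : Real.sin ((1 + ((0 : ℤ) : ℝ)) * (Real.pi / 8)) = Real.sin (Real.pi / 8) := by
      congr 1
      push_cast
      ring
    simp only [h2, h3, h4]
    linarith
  -- assembly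
  have m1 : Real.sin (3 * (Real.pi / 8)) = Real.sin (3 * Real.pi / 8) := by
    congr 1
    ring
  have m2 : Real.sin (1 * (Real.pi / 8)) = Real.sin (Real.pi / 8) := by
    rw [one_mul]
  rw [← hp1] at M
  rw [← hp0] at L
  rw [← hpd] at R
  rw [m1] at M
  rw [s5, far1, add_zero] at L
  rw [m2, far2, add_zero] at R
  simp only [swap1] at M
  simp only [swap2] at R
  rw [← hp0, ← hp1, ← hpd]
  linarith

/-- two neighbouring feet: the walker with end in W from the right foot, compared with the walker from the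
left foot. -/
theorem SEP_fin {Ω : Finset Pt} {v0 d0 : Pt} (W : Set Pt)
    (g0 : GoodDom Ω (foot v0 d0 0) d0) (g1 : GoodDom Ω (foot v0 d0 1) d0) :
    Real.sin (3 * Real.pi / 8) * ((gf (BrE (Ω : Set Pt) ∅ (foot v0 d0 1) d0 W)).toReal -
        (P2E (Ω : Set Pt) v0 d0 0 Set.univ 1 W ∅).toReal) ≤
      Real.sin (3 * Real.pi / 8) * ((gf (BrE (Ω : Set Pt) ∅ (foot v0 d0 0) d0 W)).toReal -
        (P2E (Ω : Set Pt) v0 d0 0 W 1 Set.univ ∅).toReal) +
        (overE (Ω : Set Pt) (foot v0 d0 1) d0 W (fun Z => gf (Lat (Ω : Set Pt) Z (foot v0 d0 0) d0)) ∅).toReal := by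
  rw [gf_toReal (brE_arr Ω _ _ _ _), gf_toReal (brE_arr Ω _ _ _ _), P2E_toReal, P2E_toReal,
    overE_toReal _ _ _ _ _ (fun Y => gf_ne_top (lat_arr Ω Y _ _))]
  have hlat : (fun Y => (gf (Lat (Ω : Set Pt) Y (foot v0 d0 0) d0)).toReal) =
      fun Y => gr Ω (foot v0 d0 0) d0 (Lat (Ω : Set Pt) Y (foot v0 d0 0) d0) :=
    funext (fun Y => gf_toReal (lat_arr Ω Y _ _))
  rw [hlat]
  obtain ⟨p0, hp0⟩ : ∃ p, p = foot v0 d0 0 := ⟨_, rfl⟩
  obtain ⟨p1, hp1⟩ : ∃ p, p = foot v0 d0 1 := ⟨_, rfl⟩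
  obtain ⟨U, hU⟩ : ∃ U : Set Pt, U = Set.univ := ⟨_, rfl⟩
  rw [← hU]
  have M := slit2E g1 p0 W 3
  have L := slit2E g0 p1 W 5
  have swap1 : ZhE Ω ∅ p1 p0 d0 W (fun w => Real.sin ((3 + w) * (Real.pi / 8))) =
      ZhE Ω ∅ p0 p1 d0 W (fun w => Real.sin ((5 + w) * (Real.pi / 8))) := by
    have := swap_sumE (X := ∅) (p := p0) (q := p1) (by rw [hp0]; exact g0) (by rw [hp1]; exact g1)
      (by rw [hp0, hp1]; exact t3_ip_foot _ _ _ _) (by rw [hp0, hp1, t3_cl_foot, t3_cl_foot])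
      (by rw [hp0, hp1, t3_cross_foot g0.dir]; norm_num) W (fun w => Real.sin ((3 + w) * (Real.pi / 8)))
    rw [this]
    congr 1
    funext w
    congr 1
    push_cast
    ring
  obtain ⟨s4, s2, s8, s5⟩ := sin_vals
  have hpi := Real.pi_pos
  have FM : Real.sin (3 * Real.pi / 8) * obE Ω p0 d0 W (fun Y => gr Ω p1 d0 (BrE (Ω : Set Pt) Y p1 d0 U)) ∅ ≤
      obE Ω p0 d0 W (fr Ω p1 d0 (fun w => Real.sin ((3 + w) * (Real.pi / 8)))) ∅ := by
    rw [← obE_mul]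
    apply obE_mono
    intro s _
    rw [fr_eq (by rw [hp1]; exact g1), hU]
    simp only [brE_univ]
    have h1 := lat_nonneg (by rw [hp1]; exact g1 : GoodDom Ω p1 d0) (fun w => Real.sin ((3 + w) * (Real.pi / 8)))
      (∅ ∪ vis p0 d0 s)
      (by push_cast; exact Real.sin_nonneg_of_nonneg_of_le_pi (by linarith) (by linarith))
      (by push_cast; exact Real.sin_nonneg_of_nonneg_of_le_pi (by linarith) (by linarith))
      (by push_cast; exact Real.sin_nonneg_of_nonneg_of_le_pi (by linarith) (by linarith))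
      (by push_cast; exact Real.sin_nonneg_of_nonneg_of_le_pi (by linarith) (by linarith))
    have h2 : 0 ≤ Real.sin ((3 + ((3 : ℤ) : ℝ)) * (Real.pi / 8)) := by
      push_cast
      exact Real.sin_nonneg_of_nonneg_of_le_pi (by linarith) (by linarith)
    have h3 : Real.sin ((3 + ((-3 : ℤ) : ℝ)) * (Real.pi / 8)) = 0 := by
      push_cast
      rw [show (3 + (-3 : ℝ)) * (Real.pi / 8) = 0 by ring, Real.sin_zero]
    have h4 : Real.sin ((3 + ((0 : ℤ) : ℝ)) * (Real.pi / 8)) = Real.sin (3 * Real.pi / 8) := by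
      congr 1
      push_cast
      ring
    have h5 := mul_nonneg h2 (gr_nonneg Ω p1 d0 (DnL (Ω : Set Pt) (∅ ∪ vis p0 d0 s) p1 d0))
    simp only [h3, h4, zero_mul, add_zero]
    linarith
  have FL : obE Ω p1 d0 W (fr Ω p0 d0 (fun w => Real.sin ((5 + w) * (Real.pi / 8)))) ∅ ≤
      Real.sin (3 * Real.pi / 8) * obE Ω p0 d0 U (fun Y => gr Ω p1 d0 (BrE (Ω : Set Pt) Y p1 d0 W)) ∅ +
        obE Ω p1 d0 W (fun Z => gr Ω p0 d0 (Lat (Ω : Set Pt) Z p0 d0)) ∅ := by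
    rw [obE_gr Ω p0 p1 d0 U W ∅, ← obE_mul, ← obE_add Ω p1 d0 W (fun Y => Real.sin (3 * Real.pi / 8) *
      gr Ω p0 d0 (BrE (Ω : Set Pt) Y p0 d0 U)) (fun Z => gr Ω p0 d0 (Lat (Ω : Set Pt) Z p0 d0))]
    apply obE_mono
    intro s hs
    rw [fr_eq (by rw [hp0]; exact g0), hU]
    simp only [brE_univ]
    have h1 := lat_le (Ω := Ω) (p := p0) (d0 := d0) (fun w => Real.sin ((5 + w) * (Real.pi / 8)))
      (∅ ∪ vis p1 d0 s) (fun w => Real.sin_le_one _)
    have h2 : Real.sin ((5 + ((3 : ℤ) : ℝ)) * (Real.pi / 8)) = 0 := by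
      push_cast
      rw [← s8]
      congr 1
      ring
    have h3 : gr Ω p0 d0 (DnR (Ω : Set Pt) (∅ ∪ vis p1 d0 s) p0 d0) = 0 := by
      rw [hp0]
      apply dnr_empty g0 g1 (s := s)
      · rw [← hp1]
        exact hs.1
      · rw [← hp1]
        intro x hx
        exact Or.inr hx
    have h4 : Real.sin ((5 + ((0 : ℤ) : ℝ)) * (Real.pi / 8)) = Real.sin (3 * Real.pi / 8) := by
      rw [← s5]
      congr 1
      push_cast
      ring
    simp only [h2, h3, h4, zero_mul, mul_zero, add_zero]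
    linarith
  have m1 : Real.sin (3 * (Real.pi / 8)) = Real.sin (3 * Real.pi / 8) := by
    congr 1
    ring
  rw [← hp1] at M
  rw [← hp0] at L
  rw [m1, swap1] at M
  rw [s5] at L
  rw [← hp0, ← hp1]
  linarith

end Ex

end HexObs
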