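import Pool.Agent.HexObs.Main

set_option autoImplicit false

namespace HexObs

open Complex Finset

lemma ip_mod (p q : Pt) : ((ip p q : ℤ) : ZMod 3) = - (cl p * cl q) := by
  have h3 : (3 : ZMod 3) = 0 := three_eq
  unfold ip cl
  push_cast
  linear_combination ((p.1 : ZMod 3) * q.1 + (p.2 : ZMod 3) * q.2) * h3

/-- the (scaled) cross product: positive if q is to the left of p. -/
def cross (p q : Pt) : ℤ := p.1 * q.2 - p.2 * q.1

lemma im_emb_mul (p q : Pt) : (emb p * (starRingEnd ℂ) (emb q)).im = (cross q p : ℝ) * (Real.sqrt 3 / 2) := by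
  rw [Complex.mul_im, Complex.conj_re, Complex.conj_im, emb_re, emb_re, emb_im, emb_im]
  unfold cross
  push_cast
  ring

lemma half_sum_end (q : ℕ → Pt) (z d : Pt) (n : ℕ)
    (h : ∀ i, 1 ≤ i → i ≤ n + 1 → 0 < ip (z - q i) d) :
    ∑ i ∈ range n, arg ((emb z - emb (q (i + 1 + 1))) / (emb z - emb (q (i + 1)))) =
      arg ((emb z - emb (q (n + 1))) / (emb z - emb (q 1))) := by
  have key : ∀ i, 1 ≤ i → i ≤ n + 1 → 0 < ((emb z - emb (q i)) * (starRingEnd ℂ) (emb d)).re := by
    intro i h1 h2
    rw [← emb_sub, re_emb_mul]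
    have := h i h1 h2
    have h' : (0 : ℝ) < ip (z - q i) d := by exact_mod_cast this
    linarith
  have e : ∀ j ∈ range n, arg ((emb z - emb (q (j + 1 + 1))) / (emb z - emb (q (j + 1)))) =
      arg ((emb z - emb (q (j + 1 + 1))) / emb d) - arg ((emb z - emb (q (j + 1))) / emb d) := by
    intro j hj
    rw [mem_range] at hj
    exact arg_div_of_half (key _ (by omega) (by omega)) (key _ (by omega) (by omega))
  rw [Finset.sum_congr rfl e, Finset.sum_range_sub (fun j => arg ((emb z - emb (q (j + 1))) / emb d)),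
    arg_div_of_half (key 1 le_rfl (by omega)) (key (n + 1) (by omega) le_rfl)]

/-- the angles at the start: case of the left side. -/
lemma arg_sum_pos {U : ℂ} (hre : 0 < U.re) (him : 0 < U.im) :
    0 < arg U + arg ((U - 1) / U) ∧ arg U + arg ((U - 1) / U) < Real.pi := by
  have hpi := Real.pi_pos
  have hU0 : U ≠ 0 := by
    rintro rfl
    simp at hre
  have hU1 : U - 1 ≠ 0 := by
    intro h
    have := congrArg Complex.im h
    simp at this
    linarith
  have a1 : |arg U| < Real.pi / 2 := Complex.abs_arg_lt_pi_div_two_iff.2 (Or.inl hre)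
  have a2 : 0 < arg U := by
    rcases lt_or_eq_of_le (Complex.arg_nonneg_iff.2 him.le) with h | h
    · exact h
    · exfalso
      have := Complex.arg_eq_zero_iff.1 h.symm
      linarith [this.2]
  have him2 : 0 < ((U - 1) / U).im := by
    have e : (U - 1) / U = ((U - 1) * (starRingEnd ℂ) U) / (Complex.normSq U : ℂ) := by
      rw [div_eq_div_iff hU0 (by exact_mod_cast (Complex.normSq_pos.2 hU0).ne')]
      rw [mul_assoc, ← Complex.mul_conj, mul_comm ((starRingEnd ℂ) U) U]
    rw [e, Complex.div_ofReal_im]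
    apply div_pos _ (Complex.normSq_pos.2 hU0)
    rw [Complex.mul_im, Complex.conj_re, Complex.conj_im]
    simp only [Complex.sub_re, Complex.sub_im, Complex.one_re, Complex.one_im]
    nlinarith
  have a3 : 0 < arg ((U - 1) / U) := by
    rcases lt_or_eq_of_le (Complex.arg_nonneg_iff.2 him2.le) with h | h
    · exact h
    · exfalso
      have := Complex.arg_eq_zero_iff.1 h.symm
      linarith [this.2]
  have a4 : arg ((U - 1) / U) ≤ Real.pi := Complex.arg_le_pi _
  have him3 : 0 < (U - 1).im := by simpa using him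
  have a5 : 0 < arg (U - 1) := by
    rcases lt_or_eq_of_le (Complex.arg_nonneg_iff.2 him3.le) with h | h
    · exact h
    · exfalso
      have := Complex.arg_eq_zero_iff.1 h.symm
      linarith [this.2]
  have a6 : arg (U - 1) < Real.pi := by
    rcases lt_or_eq_of_le (Complex.arg_le_pi (U - 1)) with h | h
    · exact h
    · exfalso
      have := Complex.arg_eq_pi_iff.1 h
      linarith [this.2]
  have hc := Complex.arg_mul_coe_angle hU0 (div_ne_zero hU1 hU0)
  have e1 : U * ((U - 1) / U) = U - 1 := by field_simp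
  rw [e1, ← Real.Angle.coe_add, Real.Angle.angle_eq_iff_two_pi_dvd_sub] at hc
  obtain ⟨k, hk⟩ := hc
  rw [abs_lt] at a1
  have hk0 : k = 0 := by
    have k1 : (-1 : ℝ) < k := by
      by_contra hcon
      push Not at hcon
      nlinarith
    have k2 : (k : ℝ) < 1 := by
      by_contra hcon
      push Not at hcon
      nlinarith
    have k1' : (-1 : ℤ) < k := by exact_mod_cast k1
    have k2' : k < 1 := by exact_mod_cast k2
    omega
  rw [hk0] at hk
  push_cast at hk
  rw [mul_zero] at hk
  constructor <;> linarith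

lemma arg_sum_neg {U : ℂ} (hre : 0 < U.re) (him : U.im < 0) :
    - Real.pi < arg U + arg ((U - 1) / U) ∧ arg U + arg ((U - 1) / U) < 0 := by
  have h := arg_sum_pos (U := (starRingEnd ℂ) U) (by rw [Complex.conj_re]; exact hre)
    (by rw [Complex.conj_im]; linarith)
  have hpi := Real.pi_pos
  have e1 : ((starRingEnd ℂ) U - 1) / (starRingEnd ℂ) U = (starRingEnd ℂ) ((U - 1) / U) := by
    rw [map_div₀, map_sub, map_one]
  have hU0 : U ≠ 0 := by
    rintro rfl
    simp at hre
  have him2 : ((U - 1) / U).im ≠ 0 := by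
    have e : (U - 1) / U = ((U - 1) * (starRingEnd ℂ) U) / (Complex.normSq U : ℂ) := by
      rw [div_eq_div_iff hU0 (by exact_mod_cast (Complex.normSq_pos.2 hU0).ne')]
      rw [mul_assoc, ← Complex.mul_conj, mul_comm ((starRingEnd ℂ) U) U]
    rw [e, Complex.div_ofReal_im]
    apply div_ne_zero _ (Complex.normSq_pos.2 hU0).ne'
    rw [Complex.mul_im, Complex.conj_re, Complex.conj_im]
    simp only [Complex.sub_re, Complex.sub_im, Complex.one_re, Complex.one_im]
    nlinarith
  have c1 : arg ((starRingEnd ℂ) U) = - arg U := by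
    rw [Complex.arg_conj, if_neg]
    intro h'
    have := Complex.arg_eq_pi_iff.1 h'
    linarith [this.2]
  have c2 : arg ((starRingEnd ℂ) ((U - 1) / U)) = - arg ((U - 1) / U) := by
    rw [Complex.arg_conj, if_neg]
    intro h'
    exact him2 (Complex.arg_eq_pi_iff.1 h').2
  rw [e1, c1, c2] at h
  constructor <;> linarith [h.1, h.2]

lemma arg_sum_zero {U : ℂ} (hre : 1 < U.re) (him : U.im = 0) : arg U + arg ((U - 1) / U) = 0 := by
  have e : U = ((U.re : ℝ) : ℂ) := by
    apply Complex.ext
    · simp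
    · simp [him]
  obtain ⟨r, hr⟩ : ∃ r, r = U.re := ⟨_, rfl⟩
  rw [← hr] at e hre
  rw [e]
  have e2 : ((r : ℂ) - 1) / (r : ℂ) = (((r - 1) / r : ℝ) : ℂ) := by
    push_cast
    rfl
  rw [e2, Complex.arg_ofReal_of_nonneg (by linarith), Complex.arg_ofReal_of_nonneg (by
    apply div_nonneg <;> linarith), add_zero]

end HexObs
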