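import Pool.Agent.HexObs.Polygon

set_option autoImplicit false

namespace HexObs

open Complex Finset ENNReal

/-- the critical weight of a word. -/
noncomputable def wE (t : List Bool) : ℝ≥0∞ := ENNReal.ofReal (xc ^ t.length)

/-- the critical generating function of a set of words. -/
noncomputable def gf (P : Set (List Bool)) : ℝ≥0∞ := ∑' t : P, wE t

lemma wE_append (a b : List Bool) : wE (a ++ b) = wE a * wE b := by
  unfold wE
  rw [List.length_append, pow_add, ENNReal.ofReal_mul (pow_nonneg xc_pos.le _)]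

lemma wE_pos (t : List Bool) : 0 < wE t := by
  unfold wE
  rw [ENNReal.ofReal_pos]
  exact pow_pos xc_pos _

lemma wE_ne_top (t : List Bool) : wE t ≠ ∞ := ENNReal.ofReal_ne_top

lemma gf_mono {P Q : Set (List Bool)} (h : P ⊆ Q) : gf P ≤ gf Q := ENNReal.tsum_mono_subtype wE h

lemma gf_union {P Q : Set (List Bool)} (h : Disjoint P Q) : gf (P ∪ Q) = gf P + gf Q := by
  unfold gf
  exact ENNReal.summable.tsum_union_disjoint h ENNReal.summable

lemma gf_union_le (P Q : Set (List Bool)) : gf (P ∪ Q) ≤ gf P + gf Q := ENNReal.tsum_union_le wE P Q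

/-- weights can be compared along an injective map. -/
lemma gf_le_of_inj {P Q : Set (List Bool)} (φ : List Bool → List Bool) (h : ∀ t ∈ P, φ t ∈ Q)
    (hi : Set.InjOn φ P) (c : ℝ≥0∞) (hw : ∀ t ∈ P, wE t ≤ c * wE (φ t)) : gf P ≤ c * gf Q := by
  unfold gf
  rw [← ENNReal.tsum_mul_left]
  let ψ : P → Q := fun t => ⟨φ t, h t t.2⟩
  have hψ : Function.Injective ψ := by
    intro a b hab
    have := congrArg Subtype.val hab
    exact Subtype.ext (hi a.2 b.2 this)
  calc ∑' t : P, wE t ≤ ∑' t : P, c * wE (ψ t) := ENNReal.tsum_le_tsum (fun t => hw t t.2)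
    _ ≤ ∑' s : Q, c * wE s := ENNReal.tsum_comp_le_tsum_of_injective hψ (fun s => c * wE s)

/-- the general cutting lemma: words of P are mapped injectively to pairs. -/
lemma gf_le_pair {P Q R : Set (List Bool)} (c : ℝ≥0∞) (f g : List Bool → List Bool) (hf : ∀ t ∈ P, f t ∈ Q)
    (hg : ∀ t ∈ P, g t ∈ R) (hi : ∀ s ∈ P, ∀ t ∈ P, f s = f t → g s = g t → s = t)
    (hw : ∀ t ∈ P, wE t ≤ c * (wE (f t) * wE (g t))) : gf P ≤ c * (gf Q * gf R) := by
  unfold gf
  rw [← ENNReal.tsum_mul_right]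
  simp_rw [← ENNReal.tsum_mul_left]
  rw [← ENNReal.tsum_prod (f := fun (a : Q) (b : R) => c * (wE a * wE b))]
  let ψ : P → Q × R := fun t => (⟨f t, hf t t.2⟩, ⟨g t, hg t t.2⟩)
  have hψ : Function.Injective ψ := by
    intro a b hab
    have h1 : f a = f b := congrArg (fun p => (p.1 : List Bool)) hab
    have h2 : g a = g b := congrArg (fun p => (p.2 : List Bool)) hab
    exact Subtype.ext (hi a a.2 b b.2 h1 h2)
  calc ∑' t : P, wE t ≤ ∑' t : P, c * (wE (ψ t).1 * wE (ψ t).2) := ENNReal.tsum_le_tsum (fun t => hw t t.2)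
    _ ≤ ∑' p : Q × R, c * (wE p.1 * wE p.2) :=
        ENNReal.tsum_comp_le_tsum_of_injective hψ (fun p : Q × R => c * (wE p.1 * wE p.2))

/-- every word of P splits into a word of Q and a word of R. -/
lemma gf_le_mul {P Q R : Set (List Bool)} (h : ∀ t ∈ P, ∃ a ∈ Q, ∃ b ∈ R, t = a ++ b) :
    gf P ≤ gf Q * gf R := by
  classical
  unfold gf
  rw [← ENNReal.tsum_mul_right]
  simp_rw [← ENNReal.tsum_mul_left]
  rw [← ENNReal.tsum_prod]
  choose! f hf g hg hfg using h
  let ψ : P → Q × R := fun t => (⟨f t, hf t t.2⟩, ⟨g t, hg t t.2⟩)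
  have hψ : Function.Injective ψ := by
    intro a b hab
    have h1 : f a = f b := congrArg (fun p => (p.1 : List Bool)) hab
    have h2 : g a = g b := congrArg (fun p => (p.2 : List Bool)) hab
    apply Subtype.ext
    rw [hfg a a.2, hfg b b.2, h1, h2]
  calc ∑' t : P, wE t = ∑' t : P, wE (ψ t).1 * wE (ψ t).2 := by
        apply tsum_congr
        intro t
        rw [← wE_append]
        show wE t = wE (f t ++ g t)
        rw [← hfg t t.2]
    _ ≤ ∑' p : Q × R, wE p.1 * wE p.2 :=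
        ENNReal.tsum_comp_le_tsum_of_injective hψ (fun p : Q × R => wE p.1 * wE p.2)

/-- concatenation, when the words of Q and R can be recovered. -/
lemma mul_le_gf {P Q R : Set (List Bool)} (h : ∀ a ∈ Q, ∀ b ∈ R, a ++ b ∈ P)
    (hu : ∀ a ∈ Q, ∀ b ∈ R, ∀ a' ∈ Q, ∀ b' ∈ R, a ++ b = a' ++ b' → a = a') :
    gf Q * gf R ≤ gf P := by
  unfold gf
  rw [← ENNReal.tsum_mul_right]
  simp_rw [← ENNReal.tsum_mul_left]
  rw [← ENNReal.tsum_prod]
  let ψ : Q × R → P := fun p => ⟨p.1 ++ p.2, h _ p.1.2 _ p.2.2⟩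
  have hψ : Function.Injective ψ := by
    rintro ⟨a, b⟩ ⟨a', b'⟩ hab
    have h1 : (a : List Bool) ++ b = a' ++ b' := congrArg Subtype.val hab
    have h2 := hu a a.2 b b.2 a' a'.2 b' b'.2 h1
    rw [h2] at h1
    have h3 := List.append_cancel_left h1
    exact Prod.ext (Subtype.ext h2) (Subtype.ext h3)
  calc ∑' p : Q × R, wE p.1 * wE p.2 = ∑' p : Q × R, wE (ψ p) := by
        apply tsum_congr
        intro p
        rw [← wE_append]
    _ ≤ ∑' t : P, wE t := ENNReal.tsum_comp_le_tsum_of_injective hψ (fun t : P => wE t)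

lemma gf_finset (s : Finset (List Bool)) : gf (s : Set (List Bool)) = ENNReal.ofReal (∑ t ∈ s, xc ^ t.length) := by
  unfold gf
  rw [ENNReal.ofReal_sum_of_nonneg (fun t _ => pow_nonneg xc_pos.le _)]
  exact Finset.tsum_subtype s wE

lemma gf_le_of_finset {P : Set (List Bool)} {c : ℝ≥0∞} (h : ∀ s : Finset (List Bool), (s : Set (List Bool)) ⊆ P →
    gf (s : Set (List Bool)) ≤ c) : gf P ≤ c := by
  classical
  unfold gf
  rw [ENNReal.tsum_eq_iSup_sum]
  apply iSup_le
  intro s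
  have h1 := h (s.image Subtype.val) (by
    intro t ht
    rw [Finset.mem_coe, Finset.mem_image] at ht
    obtain ⟨a, _, rfl⟩ := ht
    exact a.2)
  refine le_trans (le_of_eq ?_) h1
  unfold gf
  have e1 : ∑' t : ((s.image Subtype.val : Finset (List Bool)) : Set (List Bool)), wE t =
      ∑ t ∈ s.image Subtype.val, wE t := Finset.tsum_subtype _ wE
  rw [e1, Finset.sum_image]
  intro a _ b _ hab
  exact Subtype.ext hab

/-- a monotone union: the generating function is the supremum. -/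
lemma gf_le_of_mono_union {P : Set (List Bool)} (F : ℕ → Set (List Bool)) (hF : Monotone F)
    (h : P ⊆ ⋃ n, F n) {c : ℝ≥0∞} (hc : ∀ n, gf (F n) ≤ c) : gf P ≤ c := by
  apply gf_le_of_finset
  intro s hs
  have key : ∃ n, (s : Set (List Bool)) ⊆ F n := by
    classical
    induction s using Finset.induction_on with
    | empty => exact ⟨0, by simp⟩
    | insert a s _ ih =>
      have h1 : (s : Set (List Bool)) ⊆ P := fun t ht => hs (by simp [ht])
      obtain ⟨n, hn⟩ := ih h1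
      have h2 : a ∈ ⋃ n, F n := h (hs (by simp))
      rw [Set.mem_iUnion] at h2
      obtain ⟨m, hm⟩ := h2
      refine ⟨max n m, ?_⟩
      intro t ht
      rw [Finset.mem_coe, Finset.mem_insert] at ht
      rcases ht with rfl | ht
      · exact hF (le_max_right n m) hm
      · exact hF (le_max_left n m) (hn ht)
  obtain ⟨n, hn⟩ := key
  exact (gf_mono hn).trans (hc n)

/-! walks in arbitrary sets -/

/-- The walk with turns t is self-avoiding and has its inner vertices in the set Ω; the last vertex is free. -/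
structure Saw (Ω : Set Pt) (v0 d0 : Pt) (t : List Bool) : Prop where
  mem : ∀ i, 1 ≤ i → i ≤ t.length → vx v0 d0 t i ∈ Ω
  inj : ∀ i k, i < k → k ≤ t.length → vx v0 d0 t i ≠ vx v0 d0 t k

/-- the words of the walks that leave Ω in the direction e. -/
def out (Ω : Set Pt) (v0 d0 e : Pt) : Set (List Bool) :=
  {t | Saw Ω v0 d0 t ∧ tip v0 d0 t ∉ Ω ∧ dx d0 t t.length = e}

lemma saw_coe {Ω : Finset Pt} {v0 d0 : Pt} {t : List Bool} : Saw (Ω : Set Pt) v0 d0 t ↔ IsArr Ω v0 d0 t :=
  ⟨fun h => ⟨h.mem, h.inj⟩, fun h => ⟨h.mem, h.inj⟩⟩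

lemma out_coe (Ω : Finset Pt) (v0 d0 e : Pt) : out (Ω : Set Pt) v0 d0 e =
    ((exits Ω v0 d0).filter (fun t => dx d0 t t.length = e) : Finset (List Bool)) := by
  ext t
  rw [Finset.mem_coe, Finset.mem_filter, mem_exits]
  unfold out
  constructor
  · rintro ⟨h1, h2, h3⟩
    exact ⟨⟨saw_coe.1 h1, h2⟩, h3⟩
  · rintro ⟨⟨h1, h2⟩, h3⟩
    exact ⟨saw_coe.2 h1, h2, h3⟩

lemma gf_out_coe (Ω : Finset Pt) (v0 d0 e : Pt) : gf (out (Ω : Set Pt) v0 d0 e) = ENNReal.ofReal (Ex Ω v0 d0 e) := by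
  rw [out_coe, gf_finset]
  rfl

lemma Ex_nonneg (Ω : Finset Pt) (v0 d0 e : Pt) : 0 ≤ Ex Ω v0 d0 e :=
  Finset.sum_nonneg (fun _ _ => pow_nonneg xc_pos.le _)

end HexObs
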