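import Mathlib

set_option autoImplicit false

namespace HexObs

open Complex Finset

/-- Two vectors in the open half plane of c: the angle between them is the difference of the angles to c. -/
lemma arg_div_of_half {c x y : ℂ} (hx : 0 < (x * (starRingEnd ℂ) c).re)
    (hy : 0 < (y * (starRingEnd ℂ) c).re) : arg (y / x) = arg (y / c) - arg (x / c) := by
  have hc : c ≠ 0 := by
    rintro rfl
    simp at hx
  have hx0 : x ≠ 0 := by
    rintro rfl
    simp at hx
  have hy0 : y ≠ 0 := by
    rintro rfl
    simp at hy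
  have hn : 0 < Complex.normSq c := Complex.normSq_pos.2 hc
  have key : ∀ z : ℂ, 0 < (z * (starRingEnd ℂ) c).re → 0 < (z / c).re := by
    intro z hz
    have : z / c = (z * (starRingEnd ℂ) c) / (Complex.normSq c : ℂ) := by
      rw [div_eq_div_iff hc (by exact_mod_cast hn.ne')]
      rw [mul_assoc, ← Complex.mul_conj, mul_comm ((starRingEnd ℂ) c) c]
    rw [this, Complex.div_ofReal_re]
    positivity
  have hxr := key x hx
  have hyr := key y hy
  have ax : |arg (x / c)| < Real.pi / 2 := Complex.abs_arg_lt_pi_div_two_iff.2 (Or.inl hxr)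
  have ay : |arg (y / c)| < Real.pi / 2 := Complex.abs_arg_lt_pi_div_two_iff.2 (Or.inl hyr)
  rw [abs_lt] at ax ay
  have e1 : y / x = (y / c) * (x / c)⁻¹ := by
    field_simp
  have hinv : arg (x / c)⁻¹ = - arg (x / c) := by
    rw [Complex.arg_inv, if_neg]
    intro h
    rw [h] at ax
    linarith [ax.2, Real.pi_pos]
  rw [e1, Complex.arg_mul (div_ne_zero hy0 hc) (inv_ne_zero (div_ne_zero hx0 hc)), hinv]
  · ring
  · rw [hinv]
    constructor
    · linarith [ax.2, ay.1]
    · linarith [ax.1, ay.2]

/-- The four corners of a square of the secant map lie in a half plane: the increments add up. -/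
lemma square {c p q r s : ℂ} (hp : 0 < (p * (starRingEnd ℂ) c).re) (hq : 0 < (q * (starRingEnd ℂ) c).re)
    (hr : 0 < (r * (starRingEnd ℂ) c).re) (hs : 0 < (s * (starRingEnd ℂ) c).re) :
    arg (q / p) + arg (s / q) = arg (r / p) + arg (s / r) := by
  rw [arg_div_of_half hp hq, arg_div_of_half hq hs, arg_div_of_half hp hr, arg_div_of_half hr hs]
  ring

/-- Hopf's secant map, discrete version. -/
theorem hopf (P : ℕ → ℂ) (m : ℕ) (hm : 1 ≤ m)
    (hsq : ∀ i j, i + 1 < j → j < m → ∃ c : ℂ, 0 < ((P j - P i) * (starRingEnd ℂ) c).re ∧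
      0 < ((P (j + 1) - P i) * (starRingEnd ℂ) c).re ∧
      0 < ((P j - P (i + 1)) * (starRingEnd ℂ) c).re ∧
      0 < ((P (j + 1) - P (i + 1)) * (starRingEnd ℂ) c).re)
    (htri : ∀ k, k + 1 < m → ∃ c : ℂ, 0 < ((P (k + 1) - P k) * (starRingEnd ℂ) c).re ∧
      0 < ((P (k + 2) - P (k + 1)) * (starRingEnd ℂ) c).re) :
    ∑ k ∈ range (m - 1), arg ((P (k + 2) - P (k + 1)) / (P (k + 1) - P k)) =
      ∑ j ∈ range (m - 1), arg ((P (j + 2) - P 0) / (P (j + 1) - P 0)) +
      ∑ i ∈ range (m - 1), arg ((P m - P (i + 1)) / (P m - P i)) := by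
  induction m, hm using Nat.le_induction with
  | base => simp
  | succ m hm ih =>
    have ih' := ih (fun i j h1 h2 => hsq i j h1 (by omega)) (fun k hk => htri k (by omega))
    obtain ⟨m, rfl⟩ : ∃ m', m = m' + 1 := ⟨m - 1, by omega⟩
    simp only [Nat.add_sub_cancel] at ih' ⊢
    rw [sum_range_succ, sum_range_succ (fun j => arg ((P (j + 2) - P 0) / (P (j + 1) - P 0)))]
    rw [ih']
    -- the new column
    have step : ∀ n, n ≤ m →
        ∑ i ∈ range n, arg ((P (m + 1 + 1) - P (i + 1)) / (P (m + 1 + 1) - P i)) =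
        ∑ i ∈ range n, arg ((P (m + 1) - P (i + 1)) / (P (m + 1) - P i)) +
        arg ((P (m + 1 + 1) - P n) / (P (m + 1) - P n)) -
        arg ((P (m + 1 + 1) - P 0) / (P (m + 1) - P 0)) := by
      intro n
      induction n with
      | zero => intro _; simp
      | succ n ihn =>
        intro hn
        rw [sum_range_succ, sum_range_succ, ihn (by omega)]
        obtain ⟨c, h1, h2, h3, h4⟩ := hsq n (m + 1) (by omega) (by omega)
        have := square h1 h2 h3 h4
        linarith
    rw [sum_range_succ, step m le_rfl]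
    obtain ⟨c, h1, h2⟩ := htri m (by omega)
    have h3 : 0 < ((P (m + 1 + 1) - P m) * (starRingEnd ℂ) c).re := by
      have : (P (m + 1 + 1) - P m) * (starRingEnd ℂ) c =
        (P (m + 1) - P m) * (starRingEnd ℂ) c + (P (m + 2) - P (m + 1)) * (starRingEnd ℂ) c := by
        ring_nf
      rw [this, Complex.add_re]
      exact add_pos h1 h2
    have e1 := arg_div_of_half h1 h3
    have e2 := arg_div_of_half h3 h2
    have e3 := arg_div_of_half h1 h2
    have e4 : m + 1 + 1 = m + 2 := rfl
    rw [e4] at *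
    linarith

end HexObs
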