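import Pool.Agent.HexObs.Rev

set_option autoImplicit false

namespace HexObs

open Complex Finset

/-- the critical fugacity of the hexagonal lattice, 1 / (2 cos (pi/8)). -/
noncomputable def xc : ℝ := 1 / (2 * Real.cos (Real.pi / 8))

/-- the weight of a word. -/
noncomputable def wt (t : List Bool) : ℂ :=
  Complex.exp (((wind t : ℝ) * (Real.pi / 8) : ℝ) * I) * (xc : ℂ) ^ t.length

lemma cos_pos : 0 < Real.cos (Real.pi / 8) := by
  apply Real.cos_pos_of_mem_Ioo
  constructor <;> linarith [Real.pi_pos]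

lemma xc_pos : 0 < xc := by
  unfold xc
  have := cos_pos
  positivity

lemma wt_nil : wt [] = 1 := by
  unfold wt wind
  simp

lemma wt_extend (t : List Bool) : wt (t ++ [true]) + wt (t ++ [false]) = wt t := by
  have h1 : wind (t ++ [true]) = wind t + 1 := by
    rw [wind_append]
    rfl
  have h2 : wind (t ++ [false]) = wind t - 1 := by
    rw [wind_append]
    rfl
  unfold wt
  rw [h1, h2]
  simp only [List.length_append, List.length_cons, List.length_nil, zero_add]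
  have e1 : ((((wind t + 1 : ℤ) : ℝ) * (Real.pi / 8) : ℝ) : ℂ) * I =
      (((wind t : ℝ) * (Real.pi / 8) : ℝ) : ℂ) * I + ((Real.pi / 8 : ℝ) : ℂ) * I := by
    push_cast
    ring
  have e2 : ((((wind t - 1 : ℤ) : ℝ) * (Real.pi / 8) : ℝ) : ℂ) * I =
      (((wind t : ℝ) * (Real.pi / 8) : ℝ) : ℂ) * I + -(((Real.pi / 8 : ℝ) : ℂ)) * I := by
    push_cast
    ring
  rw [e1, e2, Complex.exp_add, Complex.exp_add]
  have h3 : 2 * Complex.cos ((Real.pi / 8 : ℝ) : ℂ) =
      Complex.exp (((Real.pi / 8 : ℝ) : ℂ) * I) + Complex.exp (-(((Real.pi / 8 : ℝ) : ℂ)) * I) :=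
    Complex.two_cos _
  have h4 : 2 * Complex.cos ((Real.pi / 8 : ℝ) : ℂ) * (xc : ℂ) = 1 := by
    rw [← Complex.ofReal_cos]
    unfold xc
    push_cast
    have h5 : Complex.cos ((Real.pi : ℂ) / 8) ≠ 0 := by
      have := cos_pos.ne'
      intro h
      apply this
      have h6 : ((Real.cos (Real.pi / 8) : ℝ) : ℂ) = 0 := by
        push_cast
        exact h
      exact_mod_cast h6
    field_simp
  rw [h3] at h4
  linear_combination (Complex.exp ((((wind t : ℝ) * (Real.pi / 8) : ℝ) : ℂ) * I) * (xc : ℂ) ^ t.length) * h4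

/-- the walks of the domain whose next vertex is free. -/
noncomputable def exte (Ω : Finset Pt) (v0 d0 : Pt) : Finset (List Bool) := by
  classical
  exact (arr Ω v0 d0).filter (fun t => tip v0 d0 t ∈ Ω ∧ ∀ i, i ≤ t.length → vx v0 d0 t i ≠ tip v0 d0 t)

/-- the walks of the domain that are back at a visited vertex. -/
noncomputable def back (Ω : Finset Pt) (v0 d0 : Pt) : Finset (List Bool) := by
  classical
  exact (arr Ω v0 d0).filter (fun t => tip v0 d0 t ∈ Ω ∧ ¬ ∀ i, i ≤ t.length → vx v0 d0 t i ≠ tip v0 d0 t)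

lemma sum_arr (Ω : Finset Pt) (v0 d0 : Pt) (f : List Bool → ℂ) :
    ∑ t ∈ arr Ω v0 d0, f t = ∑ t ∈ exits Ω v0 d0, f t + ∑ t ∈ exte Ω v0 d0, f t + ∑ t ∈ back Ω v0 d0, f t := by
  classical
  have h1 := Finset.sum_filter_add_sum_filter_not (arr Ω v0 d0) (fun t => tip v0 d0 t ∈ Ω) f
  have h2 := Finset.sum_filter_add_sum_filter_not ((arr Ω v0 d0).filter (fun t => tip v0 d0 t ∈ Ω))
    (fun t => ∀ i, i ≤ t.length → vx v0 d0 t i ≠ tip v0 d0 t) f
  rw [Finset.filter_filter, Finset.filter_filter] at h2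
  have h3 : ∑ t ∈ exte Ω v0 d0, f t + ∑ t ∈ back Ω v0 d0, f t =
      ∑ t ∈ (arr Ω v0 d0).filter (fun t => tip v0 d0 t ∈ Ω), f t := by
    rw [← h2]
    rfl
  rw [add_assoc, h3, ← h1, add_comm]
  rfl

lemma mem_exte {Ω : Finset Pt} {v0 d0 : Pt} {t : List Bool} : t ∈ exte Ω v0 d0 ↔
    IsArr Ω v0 d0 t ∧ tip v0 d0 t ∈ Ω ∧ ∀ i, i ≤ t.length → vx v0 d0 t i ≠ tip v0 d0 t := by
  classical
  unfold exte
  rw [Finset.mem_filter, mem_arr]

lemma mem_back {Ω : Finset Pt} {v0 d0 : Pt} {t : List Bool} : t ∈ back Ω v0 d0 ↔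
    IsArr Ω v0 d0 t ∧ tip v0 d0 t ∈ Ω ∧ ¬ ∀ i, i ≤ t.length → vx v0 d0 t i ≠ tip v0 d0 t := by
  classical
  unfold back
  rw [Finset.mem_filter, mem_arr]

lemma sum_arr' (Ω : Finset Pt) (v0 d0 : Pt) :
    ∑ t ∈ arr Ω v0 d0, wt t = 1 + ∑ t ∈ exte Ω v0 d0, wt t := by
  classical
  have hnil : [] ∈ arr Ω v0 d0 := mem_arr.2 (isArr_nil Ω v0 d0)
  rw [← Finset.add_sum_erase _ _ hnil, wt_nil]
  congr 1
  have h1 : ∑ t ∈ exte Ω v0 d0, wt t = ∑ t ∈ exte Ω v0 d0, ∑ b : Bool, wt (t ++ [b]) := by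
    apply Finset.sum_congr rfl
    intro t _
    rw [Fintype.sum_bool, wt_extend]
  rw [h1, ← Finset.sum_product']
  symm
  refine Finset.sum_bij (fun p _ => p.1 ++ [p.2]) ?_ ?_ ?_ ?_
  · rintro ⟨t, b⟩ hp
    rw [Finset.mem_product, mem_exte] at hp
    rw [Finset.mem_erase, mem_arr]
    exact ⟨by simp, isArr_append_one.2 hp.1⟩
  · rintro ⟨t, b⟩ _ ⟨s, c⟩ _ h
    have := List.append_inj' h rfl
    simp only [List.cons.injEq, and_true] at this
    exact Prod.ext this.1 this.2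
  · intro t ht
    rw [Finset.mem_erase, mem_arr] at ht
    obtain ⟨hne, harr⟩ := ht
    have h2 := List.dropLast_append_getLast hne
    refine ⟨(t.dropLast, t.getLast hne), ?_, h2⟩
    rw [Finset.mem_product, mem_exte]
    refine ⟨?_, Finset.mem_univ _⟩
    rw [← h2] at harr
    exact isArr_append_one.1 harr
  · intro p _
    rfl

end HexObs
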