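import Pool.Agent.HexObs.Emb

set_option autoImplicit false

namespace HexObs

open Complex Finset

/-- the direction of the step number i (step 0 is d0; after step i the walk turns by tau i). -/
def ds (d0 : Pt) (τ : ℕ → Bool) : ℕ → Pt
  | 0 => d0
  | i + 1 => turn (τ i) (ds d0 τ i)

/-- the vertex number i. -/
def vs (v0 d0 : Pt) (τ : ℕ → Bool) : ℕ → Pt
  | 0 => v0
  | i + 1 => vs v0 d0 τ i + ds d0 τ i

variable {v0 d0 : Pt} {τ : ℕ → Bool}

lemma ds_succ (i : ℕ) : ds d0 τ (i + 1) = turn (τ i) (ds d0 τ i) := rfl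

lemma vs_succ (i : ℕ) : vs v0 d0 τ (i + 1) = vs v0 d0 τ i + ds d0 τ i := rfl

lemma ds_mem (h : d0 ∈ dirs) (i : ℕ) : ds d0 τ i ∈ dirs := by
  induction i with
  | zero => exact h
  | succ i ih =>
    rw [ds_succ, mem_dirs, nrm_turn]
    exact mem_dirs.1 ih

lemma cl_ds (i : ℕ) : cl (ds d0 τ i) = if Even i then cl d0 else - cl d0 := by
  induction i with
  | zero => simp [ds]
  | succ i ih =>
    rw [ds_succ, cl_turn, ih]
    by_cases h : Even i
    · rw [if_pos h, if_neg (by simpa [Nat.even_add_one] using h)]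
    · rw [if_neg h, if_pos (by simpa [Nat.even_add_one] using h), neg_neg]

lemma cl_vs (i : ℕ) : cl (vs v0 d0 τ i) = if Even i then cl v0 else cl v0 + cl d0 := by
  induction i with
  | zero => simp [vs]
  | succ i ih =>
    rw [vs_succ, cl_add, ih, cl_ds]
    by_cases h : Even i
    · rw [if_pos h, if_pos h, if_neg (by simpa [Nat.even_add_one] using h)]
    · rw [if_neg h, if_neg h, if_pos (by simpa [Nat.even_add_one] using h)]
      ring

lemma cl_dir_ne {d : Pt} (h : d ∈ dirs) : cl d ≠ 0 := by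
  revert d
  decide

/-- full edges number i and k of the path. -/
lemma sep_path (h0 : d0 ∈ dirs) {i k : ℕ} (h1 : vs v0 d0 τ i ≠ vs v0 d0 τ k)
    (h2 : vs v0 d0 τ (i + 1) ≠ vs v0 d0 τ (k + 1)) (h3 : vs v0 d0 τ i ≠ vs v0 d0 τ (k + 1))
    (h4 : vs v0 d0 τ (i + 1) ≠ vs v0 d0 τ k) :
    Sep (vs v0 d0 τ i + vs v0 d0 τ i) (vs v0 d0 τ (i + 1) + vs v0 d0 τ (i + 1))
      (vs v0 d0 τ k + vs v0 d0 τ k) (vs v0 d0 τ (k + 1) + vs v0 d0 τ (k + 1)) := by
  by_cases hp : (Even i ↔ Even k)
  · have e1 : cl (ds d0 τ i) = cl (ds d0 τ k) := by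
      rw [cl_ds, cl_ds]
      simp only [hp]
    have e2 : cl (vs v0 d0 τ i) = cl (vs v0 d0 τ k) := by
      rw [cl_vs, cl_vs]
      simp only [hp]
    exact sep_ff (ds_mem h0 i) (ds_mem h0 k) e1 e2 h1 h2
  · have hk : Even (k + 1) ↔ Even i := by
      rw [Nat.even_add_one]
      tauto
    have e1 : cl (ds d0 τ i) = cl (-(ds d0 τ k)) := by
      rw [cl_neg, cl_ds, cl_ds]
      by_cases hi : Even i
      · have : ¬ Even k := by tauto
        rw [if_pos hi, if_neg this, neg_neg]
      · have : Even k := by tauto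
        rw [if_neg hi, if_pos this]
    have e2 : cl (vs v0 d0 τ i) = cl (vs v0 d0 τ (k + 1)) := by
      rw [cl_vs, cl_vs]
      simp only [hk]
    have e3 : vs v0 d0 τ (k + 1) + (-(ds d0 τ k)) = vs v0 d0 τ k := by
      rw [vs_succ]
      abel
    have hm : -(ds d0 τ k) ∈ dirs := by
      rw [mem_dirs, nrm_neg]
      exact mem_dirs.1 (ds_mem h0 k)
    have := sep_ff (ds_mem h0 i) hm e1 e2 h3 (by rw [e3]; exact h4)
    rw [e3] at this
    exact sep_rev2 this

/-- the half edge at the vertex number b in direction h, and the full edge number i. -/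
lemma sep_he (h0 : d0 ∈ dirs) {b i : ℕ} {h : Pt} (hh : h ∈ dirs) (hcl : cl h = cl (ds d0 τ b))
    (h1 : vs v0 d0 τ b ≠ vs v0 d0 τ i) (h2 : vs v0 d0 τ b ≠ vs v0 d0 τ (i + 1)) :
    Sep (vs v0 d0 τ i + vs v0 d0 τ i) (vs v0 d0 τ (i + 1) + vs v0 d0 τ (i + 1))
      (vs v0 d0 τ b + vs v0 d0 τ b) (vs v0 d0 τ b + vs v0 d0 τ b + h) := by
  by_cases hp : (Even b ↔ Even i)
  · have e1 : cl h = cl (ds d0 τ i) := by
      rw [hcl, cl_ds, cl_ds]
      simp only [hp]
    have e2 : cl (vs v0 d0 τ b) = cl (vs v0 d0 τ i) := by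
      rw [cl_vs, cl_vs]
      simp only [hp]
    exact sep_fh hh (ds_mem h0 i) e1 e2 h1
  · have hk : Even b ↔ Even (i + 1) := by
      rw [Nat.even_add_one]
      tauto
    have e1 : cl h = cl (-(ds d0 τ i)) := by
      rw [hcl, cl_neg, cl_ds, cl_ds]
      by_cases hi : Even b
      · have : ¬ Even i := by tauto
        rw [if_pos hi, if_neg this, neg_neg]
      · have : Even i := by tauto
        rw [if_neg hi, if_pos this]
    have e2 : cl (vs v0 d0 τ b) = cl (vs v0 d0 τ (i + 1)) := by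
      rw [cl_vs, cl_vs]
      simp only [hk]
    have e3 : vs v0 d0 τ (i + 1) + (-(ds d0 τ i)) = vs v0 d0 τ i := by
      rw [vs_succ]
      abel
    have hm : -(ds d0 τ i) ∈ dirs := by
      rw [mem_dirs, nrm_neg]
      exact mem_dirs.1 (ds_mem h0 i)
    have := sep_fh hh hm e1 e2 h2
    rw [e3] at this
    exact sep_rev1 this

lemma ip_turn_pos : ∀ d ∈ dirs, ∀ b : Bool, 0 < ip d (turn b d) := by decide

lemma ip_two_left (p r : Pt) : ip (p + p) r = 2 * ip p r := by
  rw [ip_add_left]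
  ring

lemma ip_two_right (p r : Pt) : ip r (p + p) = 2 * ip r p := by
  rw [ip_add_right]
  ring

/-- the polygon through the vertices a, ..., b followed by a half edge h. -/
def poly (v0 d0 : Pt) (τ : ℕ → Bool) (a b : ℕ) (h : Pt) (i : ℕ) : Pt :=
  if a + i ≤ b then vs v0 d0 τ (a + i) + vs v0 d0 τ (a + i) else vs v0 d0 τ b + vs v0 d0 τ b + h

lemma emb_two (p : Pt) : emb (p + p) = ((2 : ℝ) : ℂ) * emb p := by
  rw [emb_add]
  push_cast
  ring

/-- sum of the turns of a polygon with final half edge h = turn c (ds (b-1)). -/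
theorem hopf_half (h0 : d0 ∈ dirs) {a b : ℕ} (hab : a < b) {c : Bool}
    (hd : ∀ i k, a ≤ i → i < k → k ≤ b → vs v0 d0 τ i ≠ vs v0 d0 τ k) :
    (∑ k ∈ range (b - 1 - a), (sgn (τ (a + k)) : ℝ) + sgn c) * (Real.pi / 3) =
      ∑ j ∈ range (b - a), arg ((emb (poly v0 d0 τ a b (turn c (ds d0 τ (b - 1))) (j + 2)) - emb (poly v0 d0 τ a b (turn c (ds d0 τ (b - 1))) 0)) /
        (emb (poly v0 d0 τ a b (turn c (ds d0 τ (b - 1))) (j + 1)) - emb (poly v0 d0 τ a b (turn c (ds d0 τ (b - 1))) 0))) +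
      ∑ i ∈ range (b - a), arg ((emb (poly v0 d0 τ a b (turn c (ds d0 τ (b - 1))) (b - a + 1)) - emb (poly v0 d0 τ a b (turn c (ds d0 τ (b - 1))) (i + 1))) /
        (emb (poly v0 d0 τ a b (turn c (ds d0 τ (b - 1))) (b - a + 1)) - emb (poly v0 d0 τ a b (turn c (ds d0 τ (b - 1))) i))) := by
  obtain ⟨h, hh⟩ : ∃ h, h = turn c (ds d0 τ (b - 1)) := ⟨_, rfl⟩
  rw [← hh]
  have hmem : h ∈ dirs := by
    rw [hh, mem_dirs, nrm_turn]
    exact mem_dirs.1 (ds_mem h0 _)
  have hcl : cl h = cl (ds d0 τ b) := by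
    rw [hh, cl_turn]
    obtain ⟨b', rfl⟩ : ∃ b', b = b' + 1 := ⟨b - 1, by omega⟩
    rw [ds_succ, cl_turn]
    rfl
  have hq := hopfZ (poly v0 d0 τ a b h) (b - a + 1) (by omega) ?_ ?_
  · rw [Nat.add_sub_cancel] at hq
    rw [← hq]
    obtain ⟨n, hn⟩ : ∃ n, b = a + n + 1 := ⟨b - a - 1, by omega⟩
    subst hn
    have e1 : a + n + 1 - a = n + 1 := by omega
    have e2 : a + n + 1 - 1 - a = n := by omega
    rw [e1, e2, sum_range_succ, add_mul, Finset.sum_mul]
    congr 1
    · apply Finset.sum_congr rfl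
      intro k hk
      rw [mem_range] at hk
      have p0 : poly v0 d0 τ a (a + n + 1) h k = vs v0 d0 τ (a + k) + vs v0 d0 τ (a + k) := by
        unfold poly
        rw [if_pos (by omega)]
      have p1 : poly v0 d0 τ a (a + n + 1) h (k + 1) = vs v0 d0 τ (a + k + 1) + vs v0 d0 τ (a + k + 1) := by
        unfold poly
        rw [if_pos (by omega)]
        rfl
      have p2 : poly v0 d0 τ a (a + n + 1) h (k + 2) = vs v0 d0 τ (a + k + 2) + vs v0 d0 τ (a + k + 2) := by
        unfold poly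
        rw [if_pos (by omega)]
        rfl
      rw [p0, p1, p2, ← emb_sub, ← emb_sub]
      have q1 : vs v0 d0 τ (a + k + 2) + vs v0 d0 τ (a + k + 2) - (vs v0 d0 τ (a + k + 1) + vs v0 d0 τ (a + k + 1)) =
          turn (τ (a + k)) (ds d0 τ (a + k)) + turn (τ (a + k)) (ds d0 τ (a + k)) := by
        rw [show a + k + 2 = (a + k + 1) + 1 from rfl, vs_succ (a + k + 1), ds_succ]
        abel
      have q0 : vs v0 d0 τ (a + k + 1) + vs v0 d0 τ (a + k + 1) - (vs v0 d0 τ (a + k) + vs v0 d0 τ (a + k)) =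
          ds d0 τ (a + k) + ds d0 τ (a + k) := by
        rw [vs_succ]
        abel
      rw [q1, q0, emb_two, emb_two, arg_turn (ds_mem h0 _) (by norm_num) (by norm_num)]
    · have p0 : poly v0 d0 τ a (a + n + 1) h n = vs v0 d0 τ (a + n) + vs v0 d0 τ (a + n) := by
        unfold poly
        rw [if_pos (by omega)]
      have p1 : poly v0 d0 τ a (a + n + 1) h (n + 1) = vs v0 d0 τ (a + n + 1) + vs v0 d0 τ (a + n + 1) := by
        unfold poly
        rw [if_pos (by omega)]
        rfl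
      have p2 : poly v0 d0 τ a (a + n + 1) h (n + 2) = vs v0 d0 τ (a + n + 1) + vs v0 d0 τ (a + n + 1) + h := by
        unfold poly
        rw [if_neg (by omega)]
      rw [p0, p1, p2, ← emb_sub, ← emb_sub]
      have q1 : vs v0 d0 τ (a + n + 1) + vs v0 d0 τ (a + n + 1) + h - (vs v0 d0 τ (a + n + 1) + vs v0 d0 τ (a + n + 1)) =
          turn c (ds d0 τ (a + n)) := by
        rw [hh]
        simp
      have q0 : vs v0 d0 τ (a + n + 1) + vs v0 d0 τ (a + n + 1) - (vs v0 d0 τ (a + n) + vs v0 d0 τ (a + n)) =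
          ds d0 τ (a + n) + ds d0 τ (a + n) := by
        rw [vs_succ]
        abel
      rw [q1, q0, emb_two]
      have := arg_turn (b := c) (ds_mem h0 (τ := τ) (a + n)) (r := 2) (s := 1) (by norm_num) (by norm_num)
      rw [Complex.ofReal_one, one_mul] at this
      rw [this]
  · intro i j hij hj
    have p0 : poly v0 d0 τ a b h i = vs v0 d0 τ (a + i) + vs v0 d0 τ (a + i) := by
      unfold poly
      rw [if_pos (by omega)]
    have p1 : poly v0 d0 τ a b h (i + 1) = vs v0 d0 τ (a + i + 1) + vs v0 d0 τ (a + i + 1) := by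
      unfold poly
      rw [if_pos (by omega)]
      rfl
    have p2 : poly v0 d0 τ a b h j = vs v0 d0 τ (a + j) + vs v0 d0 τ (a + j) := by
      unfold poly
      rw [if_pos (by omega)]
    rw [p0, p1, p2]
    by_cases hjb : j < b - a
    · have p3 : poly v0 d0 τ a b h (j + 1) = vs v0 d0 τ (a + j + 1) + vs v0 d0 τ (a + j + 1) := by
        unfold poly
        rw [if_pos (by omega)]
        rfl
      rw [p3]
      exact sep_path h0 (hd _ _ (by omega) (by omega) (by omega)) (hd _ _ (by omega) (by omega) (by omega))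
        (hd _ _ (by omega) (by omega) (by omega)) (hd _ _ (by omega) (by omega) (by omega))
    · have p3 : poly v0 d0 τ a b h (j + 1) = vs v0 d0 τ b + vs v0 d0 τ b + h := by
        unfold poly
        rw [if_neg (by omega)]
      have hjb' : a + j = b := by omega
      rw [p3, hjb']
      exact sep_he h0 hmem hcl (hd _ _ (by omega) (by omega) (by omega)).symm
        (hd _ _ (by omega) (by omega) (by omega)).symm
  · intro k hk
    have p0 : poly v0 d0 τ a b h k = vs v0 d0 τ (a + k) + vs v0 d0 τ (a + k) := by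
      unfold poly
      rw [if_pos (by omega)]
    have p1 : poly v0 d0 τ a b h (k + 1) = vs v0 d0 τ (a + k + 1) + vs v0 d0 τ (a + k + 1) := by
      unfold poly
      rw [if_pos (by omega)]
      rfl
    have q0 : vs v0 d0 τ (a + k + 1) + vs v0 d0 τ (a + k + 1) - (vs v0 d0 τ (a + k) + vs v0 d0 τ (a + k)) =
        ds d0 τ (a + k) + ds d0 τ (a + k) := by
      rw [vs_succ]
      abel
    by_cases hkb : a + k + 2 ≤ b
    · have p2 : poly v0 d0 τ a b h (k + 2) = vs v0 d0 τ (a + k + 2) + vs v0 d0 τ (a + k + 2) := by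
        unfold poly
        rw [if_pos (by omega)]
        rfl
      have q1 : vs v0 d0 τ (a + k + 2) + vs v0 d0 τ (a + k + 2) - (vs v0 d0 τ (a + k + 1) + vs v0 d0 τ (a + k + 1)) =
          turn (τ (a + k)) (ds d0 τ (a + k)) + turn (τ (a + k)) (ds d0 τ (a + k)) := by
        rw [show a + k + 2 = (a + k + 1) + 1 from rfl, vs_succ (a + k + 1), ds_succ]
        abel
      rw [p0, p1, p2, q1, q0, ip_two_left, ip_two_right]
      have := ip_turn_pos _ (ds_mem h0 (τ := τ) (a + k)) (τ (a + k))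
      linarith
    · have p2 : poly v0 d0 τ a b h (k + 2) = vs v0 d0 τ b + vs v0 d0 τ b + h := by
        unfold poly
        rw [if_neg (by omega)]
      have hb' : b = a + k + 1 := by omega
      have q1 : vs v0 d0 τ b + vs v0 d0 τ b + h - (vs v0 d0 τ (a + k + 1) + vs v0 d0 τ (a + k + 1)) =
          turn c (ds d0 τ (a + k)) := by
        rw [hh, hb']
        simp
      rw [p0, p1, p2, q1, q0, ip_two_left]
      have := ip_turn_pos _ (ds_mem h0 (τ := τ) (a + k)) c
      linarith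

end HexObs
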