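import Pool.Agent.HexObs.Loop

set_option autoImplicit false

namespace HexObs

open Complex Finset

variable {v0 d0 : Pt} {τ : ℕ → Bool}

/-- full edges only: vertices a, ..., b. -/
theorem hopf_full (h0 : d0 ∈ dirs) {a b : ℕ} (hab : a < b)
    (hd : ∀ i k, a ≤ i → i < k → k ≤ b → vs v0 d0 τ i ≠ vs v0 d0 τ k) (V : ℕ → ℂ)
    (hV : ∀ i, V i = emb (vs v0 d0 τ (a + i) + vs v0 d0 τ (a + i))) :
    (∑ k ∈ range (b - 1 - a), (sgn (τ (a + k)) : ℝ)) * (Real.pi / 3) =
      ∑ j ∈ range (b - 1 - a), arg ((V (j + 2) - V 0) / (V (j + 1) - V 0)) +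
      ∑ i ∈ range (b - 1 - a), arg ((V (b - a) - V (i + 1)) / (V (b - a) - V i)) := by
  have hq := hopfZ (fun i => vs v0 d0 τ (a + i) + vs v0 d0 τ (a + i)) (b - a) (by omega) ?_ ?_
  · have e1 : b - a - 1 = b - 1 - a := by omega
    rw [e1] at hq
    simp only [← hV] at hq
    rw [← hq, Finset.sum_mul]
    apply Finset.sum_congr rfl
    intro k hk
    rw [hV, hV, hV, ← emb_sub, ← emb_sub]
    have q1 : vs v0 d0 τ (a + (k + 2)) + vs v0 d0 τ (a + (k + 2)) - (vs v0 d0 τ (a + (k + 1)) + vs v0 d0 τ (a + (k + 1))) =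
        turn (τ (a + k)) (ds d0 τ (a + k)) + turn (τ (a + k)) (ds d0 τ (a + k)) := by
      rw [show a + (k + 2) = (a + k + 1) + 1 from rfl, vs_succ (a + k + 1), ds_succ]
      rw [show a + (k + 1) = a + k + 1 from rfl]
      abel
    have q0 : vs v0 d0 τ (a + (k + 1)) + vs v0 d0 τ (a + (k + 1)) - (vs v0 d0 τ (a + k) + vs v0 d0 τ (a + k)) =
        ds d0 τ (a + k) + ds d0 τ (a + k) := by
      rw [show a + (k + 1) = a + k + 1 from rfl, vs_succ]
      abel
    rw [q1, q0, emb_two, emb_two, arg_turn (ds_mem h0 _) (by norm_num) (by norm_num)]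
  · intro i j hij hj
    exact sep_path h0 (hd _ _ (by omega) (by omega) (by omega)) (hd _ _ (by omega) (by omega) (by omega))
      (hd _ _ (by omega) (by omega) (by omega)) (hd _ _ (by omega) (by omega) (by omega))
  · intro k hk
    have q1 : vs v0 d0 τ (a + (k + 2)) + vs v0 d0 τ (a + (k + 2)) - (vs v0 d0 τ (a + (k + 1)) + vs v0 d0 τ (a + (k + 1))) =
        turn (τ (a + k)) (ds d0 τ (a + k)) + turn (τ (a + k)) (ds d0 τ (a + k)) := by
      rw [show a + (k + 2) = (a + k + 1) + 1 from rfl, vs_succ (a + k + 1), ds_succ]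
      rw [show a + (k + 1) = a + k + 1 from rfl]
      abel
    have q0 : vs v0 d0 τ (a + (k + 1)) + vs v0 d0 τ (a + (k + 1)) - (vs v0 d0 τ (a + k) + vs v0 d0 τ (a + k)) =
        ds d0 τ (a + k) + ds d0 τ (a + k) := by
      rw [show a + (k + 1) = a + k + 1 from rfl, vs_succ]
      abel
    show 0 < ip (vs v0 d0 τ (a + (k + 1)) + vs v0 d0 τ (a + (k + 1)) - (vs v0 d0 τ (a + k) + vs v0 d0 τ (a + k)))
      (vs v0 d0 τ (a + (k + 2)) + vs v0 d0 τ (a + (k + 2)) - (vs v0 d0 τ (a + (k + 1)) + vs v0 d0 τ (a + (k + 1))))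
    rw [q1, q0, ip_two_left, ip_two_right]
    have := ip_turn_pos _ (ds_mem h0 (τ := τ) (a + k)) (τ (a + k))
    linarith

/-- the polygon with a first half edge: mid point z, then the vertices a, ..., b. -/
def polyS (v0 d0 : Pt) (τ : ℕ → Bool) (a : ℕ) (z : Pt) (i : ℕ) : Pt :=
  match i with
  | 0 => z
  | i + 1 => vs v0 d0 τ (a + i) + vs v0 d0 τ (a + i)

/-- first half edge z -> v_a of direction e, with ds a = turn c e. -/
theorem hopf_start (h0 : d0 ∈ dirs) {a b : ℕ} (hab : a < b) {c : Bool} {e : Pt} (he : e ∈ dirs)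
    (hce : ds d0 τ a = turn c e)
    (hd : ∀ i k, a ≤ i → i < k → k ≤ b → vs v0 d0 τ i ≠ vs v0 d0 τ k) (V : ℕ → ℂ)
    (hV : ∀ i, V i = emb (vs v0 d0 τ (a + i) + vs v0 d0 τ (a + i))) (z : Pt)
    (hz : z = vs v0 d0 τ a + vs v0 d0 τ a + (-e)) :
    (sgn c + ∑ k ∈ range (b - 1 - a), (sgn (τ (a + k)) : ℝ)) * (Real.pi / 3) =
      ∑ j ∈ range (b - a), arg ((V (j + 1) - emb z) / (V j - emb z)) +
      (arg ((V (b - a) - V 0) / (V (b - a) - emb z)) +
      ∑ i ∈ range (b - 1 - a), arg ((V (b - a) - V (i + 1)) / (V (b - a) - V i))) := by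
  have hem : -e ∈ dirs := by
    rw [mem_dirs, nrm_neg]
    exact mem_dirs.1 he
  have hcl : cl (-e) = cl (ds d0 τ a) := by
    rw [hce, cl_turn, cl_neg]
  have hq := hopfZ (polyS v0 d0 τ a z) (b - a + 1) (by omega) ?_ ?_
  · obtain ⟨n, hn⟩ : ∃ n, b = a + n + 1 := ⟨b - a - 1, by omega⟩
    subst hn
    have e1 : a + n + 1 - a = n + 1 := by omega
    have e2 : a + n + 1 - 1 - a = n := by omega
    rw [e1, Nat.add_sub_cancel] at hq
    rw [e1, e2]
    have hp : ∀ i, emb (polyS v0 d0 τ a z (i + 1)) = V i := fun i => by rw [hV]; rfl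
    have hp0 : emb (polyS v0 d0 τ a z 0) = emb z := rfl
    have t1 : ∀ k ∈ range n, arg ((emb (polyS v0 d0 τ a z (k + 1 + 2)) - emb (polyS v0 d0 τ a z (k + 1 + 1))) /
        (emb (polyS v0 d0 τ a z (k + 1 + 1)) - emb (polyS v0 d0 τ a z (k + 1)))) =
        sgn (τ (a + k)) * (Real.pi / 3) := by
      intro k hk
      rw [show k + 1 + 2 = (k + 2) + 1 from rfl, hp, hp, hp, hV, hV, hV, ← emb_sub, ← emb_sub]
      have q1 : vs v0 d0 τ (a + (k + 2)) + vs v0 d0 τ (a + (k + 2)) - (vs v0 d0 τ (a + (k + 1)) + vs v0 d0 τ (a + (k + 1))) =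
          turn (τ (a + k)) (ds d0 τ (a + k)) + turn (τ (a + k)) (ds d0 τ (a + k)) := by
        rw [show a + (k + 2) = (a + k + 1) + 1 from rfl, vs_succ (a + k + 1), ds_succ]
        rw [show a + (k + 1) = a + k + 1 from rfl]
        abel
      have q0 : vs v0 d0 τ (a + (k + 1)) + vs v0 d0 τ (a + (k + 1)) - (vs v0 d0 τ (a + k) + vs v0 d0 τ (a + k)) =
          ds d0 τ (a + k) + ds d0 τ (a + k) := by
        rw [show a + (k + 1) = a + k + 1 from rfl, vs_succ]
        abel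
      rw [q1, q0, emb_two, emb_two, arg_turn (ds_mem h0 _) (by norm_num) (by norm_num)]
    have t0 : arg ((emb (polyS v0 d0 τ a z (0 + 2)) - emb (polyS v0 d0 τ a z (0 + 1))) /
        (emb (polyS v0 d0 τ a z (0 + 1)) - emb (polyS v0 d0 τ a z 0))) = sgn c * (Real.pi / 3) := by
      rw [hp, hp, hp0, hV, hV, ← emb_sub, ← emb_sub]
      have q1 : vs v0 d0 τ (a + 1) + vs v0 d0 τ (a + 1) - (vs v0 d0 τ (a + 0) + vs v0 d0 τ (a + 0)) =
          turn c e + turn c e := by
        rw [vs_succ, ← hce, add_zero]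
        abel
      have q0 : vs v0 d0 τ (a + 0) + vs v0 d0 τ (a + 0) - z = e := by
        rw [hz, add_zero]
        abel
      rw [q1, q0, emb_two]
      have := arg_turn (b := c) he (r := 1) (s := 2) (by norm_num) (by norm_num)
      rw [Complex.ofReal_one, one_mul] at this
      exact this
    rw [Finset.sum_range_succ', Finset.sum_congr rfl t1, t0, ← Finset.sum_mul, ← add_mul] at hq
    have s1 : ∑ j ∈ range (n + 1), arg ((emb (polyS v0 d0 τ a z (j + 2)) - emb (polyS v0 d0 τ a z 0)) /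
        (emb (polyS v0 d0 τ a z (j + 1)) - emb (polyS v0 d0 τ a z 0))) =
        ∑ j ∈ range (n + 1), arg ((V (j + 1) - emb z) / (V j - emb z)) := by
      apply Finset.sum_congr rfl
      intro j _
      have h2 := hp (j + 1)
      have h1 := hp j
      rw [show j + 1 + 1 = j + 2 from rfl] at h2
      rw [h2, h1, hp0]
    have s2 : ∑ i ∈ range (n + 1), arg ((emb (polyS v0 d0 τ a z (n + 1 + 1)) - emb (polyS v0 d0 τ a z (i + 1))) /
        (emb (polyS v0 d0 τ a z (n + 1 + 1)) - emb (polyS v0 d0 τ a z i))) =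
        arg ((V (n + 1) - V 0) / (V (n + 1) - emb z)) +
        ∑ i ∈ range n, arg ((V (n + 1) - V (i + 1)) / (V (n + 1) - V i)) := by
      rw [Finset.sum_range_succ', hp0, hp, hp, add_comm]
      congr 1
      apply Finset.sum_congr rfl
      intro i _
      rw [hp, hp]
    rw [add_comm (sgn c : ℝ), hq, s1, s2]
  · intro i j hij hj
    obtain ⟨j, rfl⟩ : ∃ j', j = j' + 1 := ⟨j - 1, by omega⟩
    cases i with
    | zero =>
      show Sep z (vs v0 d0 τ (a + 0) + vs v0 d0 τ (a + 0)) (vs v0 d0 τ (a + j) + vs v0 d0 τ (a + j))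
        (vs v0 d0 τ (a + (j + 1)) + vs v0 d0 τ (a + (j + 1)))
      have := sep_he (v0 := v0) h0 (b := a) (i := a + j) hem hcl (hd _ _ (by omega) (by omega) (by omega))
        (hd _ _ (by omega) (by omega) (by omega))
      rw [hz]
      exact sep_rev1 (sep_swap this)
    | succ i =>
      exact sep_path h0 (hd _ _ (by omega) (by omega) (by omega)) (hd _ _ (by omega) (by omega) (by omega))
        (hd _ _ (by omega) (by omega) (by omega)) (hd _ _ (by omega) (by omega) (by omega))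
  · intro k hk
    cases k with
    | zero =>
      show 0 < ip (vs v0 d0 τ (a + 0) + vs v0 d0 τ (a + 0) - z)
        (vs v0 d0 τ (a + (0 + 1)) + vs v0 d0 τ (a + (0 + 1)) - (vs v0 d0 τ (a + 0) + vs v0 d0 τ (a + 0)))
      have q1 : vs v0 d0 τ (a + (0 + 1)) + vs v0 d0 τ (a + (0 + 1)) - (vs v0 d0 τ (a + 0) + vs v0 d0 τ (a + 0)) =
          turn c e + turn c e := by
        rw [zero_add, vs_succ, ← hce, add_zero]
        abel
      have q0 : vs v0 d0 τ (a + 0) + vs v0 d0 τ (a + 0) - z = e := by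
        rw [hz, add_zero]
        abel
      rw [q1, q0, ip_two_right]
      have := ip_turn_pos _ he c
      linarith
    | succ k =>
      have q1 : vs v0 d0 τ (a + (k + 2)) + vs v0 d0 τ (a + (k + 2)) - (vs v0 d0 τ (a + (k + 1)) + vs v0 d0 τ (a + (k + 1))) =
          turn (τ (a + k)) (ds d0 τ (a + k)) + turn (τ (a + k)) (ds d0 τ (a + k)) := by
        rw [show a + (k + 2) = (a + k + 1) + 1 from rfl, vs_succ (a + k + 1), ds_succ]
        rw [show a + (k + 1) = a + k + 1 from rfl]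
        abel
      have q0 : vs v0 d0 τ (a + (k + 1)) + vs v0 d0 τ (a + (k + 1)) - (vs v0 d0 τ (a + k) + vs v0 d0 τ (a + k)) =
          ds d0 τ (a + k) + ds d0 τ (a + k) := by
        rw [show a + (k + 1) = a + k + 1 from rfl, vs_succ]
        abel
      show 0 < ip (vs v0 d0 τ (a + (k + 1)) + vs v0 d0 τ (a + (k + 1)) - (vs v0 d0 τ (a + k) + vs v0 d0 τ (a + k)))
        (vs v0 d0 τ (a + (k + 2)) + vs v0 d0 τ (a + (k + 2)) - (vs v0 d0 τ (a + (k + 1)) + vs v0 d0 τ (a + (k + 1))))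
      rw [q1, q0, ip_two_left, ip_two_right]
      have := ip_turn_pos _ (ds_mem h0 (τ := τ) (a + k)) (τ (a + k))
      linarith

end HexObs
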