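import Pool.Agent.HexObs.Ident

set_option autoImplicit false

namespace HexObs

open Complex Finset

variable {Ω : Finset Pt} {v0 d0 : Pt}

/-- the number of the vertex the walk returned to. -/
noncomputable def ret (v0 d0 : Pt) (t : List Bool) : ℕ := by
  classical
  exact if h : ∃ j, 1 ≤ j ∧ j ≤ t.length ∧ vx v0 d0 t j = tip v0 d0 t then Nat.find h else 0

lemma ret_unique {t : List Bool} (h : IsArr Ω v0 d0 t) {j : ℕ} (hj : 1 ≤ j) (hjl : j ≤ t.length)
    (hv : vx v0 d0 t j = tip v0 d0 t) : ret v0 d0 t = j := by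
  classical
  have hex : ∃ j, 1 ≤ j ∧ j ≤ t.length ∧ vx v0 d0 t j = tip v0 d0 t := ⟨j, hj, hjl, hv⟩
  unfold ret
  rw [dif_pos hex]
  obtain ⟨h1, h2, h3⟩ := Nat.find_spec hex
  by_contra hne
  rcases lt_or_gt_of_ne hne with h4 | h4
  · exact h.inj _ _ h4 hjl (h3.trans hv.symm)
  · exact h.inj _ _ h4 h2 (hv.trans h3.symm)

lemma back_ret (hhalf : ∀ v ∈ Ω, 0 < ip (v - v0) d0) {t : List Bool} (ht : t ∈ back Ω v0 d0) :
    1 ≤ ret v0 d0 t ∧ ret v0 d0 t ≤ t.length ∧ vx v0 d0 t (ret v0 d0 t) = tip v0 d0 t := by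
  classical
  rw [mem_back] at ht
  obtain ⟨harr, hmem, hnot⟩ := ht
  push Not at hnot
  obtain ⟨i, hi, hv⟩ := hnot
  have hi1 : 1 ≤ i := by
    rcases Nat.eq_zero_or_pos i with h0 | h0
    · exfalso
      rw [h0] at hv
      have h1 : v0 = tip v0 d0 t := hv
      have h2 := hhalf _ hmem
      rw [← h1, sub_self] at h2
      simp [ip] at h2
    · exact h0
  rw [ret_unique harr hi1 hi hv]
  exact ⟨hi1, hi, hv⟩

lemma IsArr.half (hhalf : ∀ v ∈ Ω, 0 < ip (v - v0) d0) {t : List Bool} (h : IsArr Ω v0 d0 t) :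
    ∀ i, 1 ≤ i → i ≤ t.length → 0 < ip (vs v0 d0 (tf t) i - v0) d0 :=
  fun i h1 h2 => hhalf _ (h.mem i h1 h2)

lemma vx_revw_gt {t : List Bool} (h0 : d0 ∈ dirs) (h : IsArr Ω v0 d0 t) {j : ℕ} (hj : 1 ≤ j)
    (hjl : j ≤ t.length) (hv : vx v0 d0 t j = tip v0 d0 t) (i : ℕ) (hi : j + i ≤ t.length + 1) :
    vx v0 d0 (revw t j) (j + i) = vx v0 d0 t (t.length + 1 - i) := by
  rw [vx_revw hi]
  exact vs_rev hj hv.symm (loop_dir h0 hj hjl hv.symm h.inj).2 i hi

lemma vx_revw_le {t : List Bool} {j : ℕ} (hjl : j ≤ t.length) (i : ℕ) (hi : i ≤ j) :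
    vx v0 d0 (revw t j) i = vx v0 d0 t i := by
  rw [vx_revw (by omega)]
  exact vs_rev_le hi

lemma revw_back (h0 : d0 ∈ dirs) {t : List Bool} (h : IsArr Ω v0 d0 t) {j : ℕ} (hj : 1 ≤ j)
    (hjl : j ≤ t.length) (hv : vx v0 d0 t j = tip v0 d0 t) :
    IsArr Ω v0 d0 (revw t j) ∧ vx v0 d0 (revw t j) j = tip v0 d0 (revw t j) ∧
      tip v0 d0 (revw t j) = tip v0 d0 t := by
  have key := vx_revw_gt h0 h hj hjl hv
  have key2 := fun i hi => vx_revw_le (v0 := v0) (d0 := d0) hjl i hi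
  have hl := revw_length t j
  have ht : tip v0 d0 (revw t j) = tip v0 d0 t := by
    unfold tip
    rw [hl]
    obtain ⟨m, hm⟩ : ∃ m, t.length = j + m := ⟨t.length - j, by omega⟩
    have := key (m + 1) (by omega)
    rw [show t.length + 1 = j + (m + 1) by omega] at this ⊢
    rw [this, show j + (m + 1) - (m + 1) = j by omega, hv]
    unfold tip
    rw [show t.length + 1 = j + (m + 1) by omega]
  refine ⟨⟨?_, ?_⟩, ?_, ht⟩
  · intro i h1 h2
    rw [hl] at h2
    rcases Nat.lt_or_ge j i with h3 | h3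
    · obtain ⟨k, rfl⟩ : ∃ k, i = j + k := ⟨i - j, by omega⟩
      rw [key k (by omega)]
      exact h.mem _ (by omega) (by omega)
    · rw [key2 i h3]
      exact h.mem _ h1 (by omega)
  · intro i k h1 h2
    rw [hl] at h2
    rcases Nat.lt_or_ge j i with h3 | h3
    · obtain ⟨i', rfl⟩ : ∃ k, i = j + k := ⟨i - j, by omega⟩
      obtain ⟨k', rfl⟩ : ∃ k', k = j + k' := ⟨k - j, by omega⟩
      rw [key i' (by omega), key k' (by omega)]
      exact (h.inj _ _ (by omega) (by omega)).symm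
    · rw [key2 i h3]
      rcases Nat.lt_or_ge j k with h4 | h4
      · obtain ⟨k', rfl⟩ : ∃ k', k = j + k' := ⟨k - j, by omega⟩
        rw [key k' (by omega)]
        exact h.inj _ _ (by omega) (by omega)
      · rw [key2 k h4]
        exact h.inj _ _ h1 (by omega)
  · rw [key2 j le_rfl, ht, hv]

/-- the winding of a word that came back, and of its reversal. -/
lemma wind_back (h0 : d0 ∈ dirs) (hhalf : ∀ v ∈ Ω, 0 < ip (v - v0) d0) {t : List Bool}
    (h : IsArr Ω v0 d0 t) {j : ℕ} (hj : 1 ≤ j) (hjl : j ≤ t.length) (hv : vx v0 d0 t j = tip v0 d0 t) :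
    wind t = ∑ i ∈ range (j - 1), sgn (tf t i) - 4 * sgn (tf t (j - 1)) := by
  rw [wind_sum]
  obtain ⟨m, hm⟩ : ∃ m, t.length = (j - 1) + 1 + m := ⟨t.length - j, by omega⟩
  rw [hm, Finset.sum_range_add, Finset.sum_range_succ]
  have := loop_turn (τ := tf t) h0 hj hjl hv.symm h.inj (h.half hhalf)
  have e1 : t.length - j = m := by omega
  rw [e1] at this
  have e2 : j - 1 + 1 = j := by omega
  rw [e2, this]
  ring

lemma wt_revw (h0 : d0 ∈ dirs) (hhalf : ∀ v ∈ Ω, 0 < ip (v - v0) d0) {t : List Bool}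
    (h : IsArr Ω v0 d0 t) {j : ℕ} (hj : 1 ≤ j) (hjl : j ≤ t.length) (hv : vx v0 d0 t j = tip v0 d0 t) :
    wt t + wt (revw t j) = 0 := by
  obtain ⟨h', hv', -⟩ := revw_back h0 h hj hjl hv
  have hl := revw_length t j
  have w1 := wind_back h0 hhalf h hj hjl hv
  have w2 := wind_back h0 hhalf h' hj (by omega) hv'
  have e1 : ∑ i ∈ range (j - 1), sgn (tf (revw t j) i) = ∑ i ∈ range (j - 1), sgn (tf t i) := by
    apply Finset.sum_congr rfl
    intro i hi
    rw [mem_range] at hi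
    rw [tf_revw (by omega), revτ_lt (by omega)]
  have e2 : sgn (tf (revw t j) (j - 1)) = - sgn (tf t (j - 1)) := by
    rw [tf_revw (by omega), revτ_eq hj, sgn_not]
  rw [e1, e2] at w2
  have e3 : wind (revw t j) = wind t + 8 * sgn (tf t (j - 1)) := by
    rw [w1, w2]
    ring
  unfold wt
  rw [hl, e3]
  have e4 : (((((wind t + 8 * sgn (tf t (j - 1)) : ℤ) : ℝ) * (Real.pi / 8) : ℝ)) : ℂ) * I =
      (((wind t : ℝ) * (Real.pi / 8) : ℝ) : ℂ) * I + (sgn (tf t (j - 1)) : ℂ) * (Real.pi * I) := by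
    push_cast
    ring
  rw [e4, Complex.exp_add]
  have e5 : Complex.exp ((sgn (tf t (j - 1)) : ℂ) * (Real.pi * I)) = -1 := by
    cases tf t (j - 1)
    · simp only [sgn, Bool.false_eq_true, if_false]
      push_cast
      rw [neg_one_mul, Complex.exp_neg, Complex.exp_pi_mul_I]
      norm_num
    · simp only [sgn, if_true]
      push_cast
      rw [one_mul, Complex.exp_pi_mul_I]
  rw [e5]
  ring

theorem sum_back (h0 : d0 ∈ dirs) (hhalf : ∀ v ∈ Ω, 0 < ip (v - v0) d0) :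
    ∑ t ∈ back Ω v0 d0, wt t = 0 := by
  refine Finset.sum_involution (fun t _ => revw t (ret v0 d0 t)) ?_ ?_ ?_ ?_
  · intro t ht
    obtain ⟨h1, h2, h3⟩ := back_ret hhalf ht
    exact wt_revw h0 hhalf (mem_back.1 ht).1 h1 h2 h3
  · intro t ht _
    obtain ⟨h1, h2, h3⟩ := back_ret hhalf ht
    exact revw_ne h1 h2
  · intro t ht
    obtain ⟨h1, h2, h3⟩ := back_ret hhalf ht
    obtain ⟨h', hv', ht'⟩ := revw_back h0 (mem_back.1 ht).1 h1 h2 h3
    rw [mem_back]
    refine ⟨h', ?_, ?_⟩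
    · rw [ht']
      exact (mem_back.1 ht).2.1
    · push Not
      exact ⟨ret v0 d0 t, by rw [revw_length]; exact h2, hv'⟩
  · intro t ht
    obtain ⟨h1, h2, h3⟩ := back_ret hhalf ht
    obtain ⟨h', hv', ht'⟩ := revw_back h0 (mem_back.1 ht).1 h1 h2 h3
    show revw (revw t (ret v0 d0 t)) (ret v0 d0 (revw t (ret v0 d0 t))) = t
    rw [ret_unique h' h1 (by rw [revw_length]; exact h2) hv']
    exact revw_revw h1 h2

/-- THE IDENTITY of Duminil-Copin and Smirnov: for walks that start at the boundary of a half plane containing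
the domain, the weights of the walks leaving the domain sum to 1. -/
theorem identity (Ω : Finset Pt) {v0 d0 : Pt} (h0 : d0 ∈ dirs) (hhalf : ∀ v ∈ Ω, 0 < ip (v - v0) d0) :
    ∑ t ∈ exits Ω v0 d0, wt t = 1 := by
  have h1 := sum_arr Ω v0 d0 wt
  rw [sum_arr' Ω v0 d0, sum_back h0 hhalf] at h1
  linear_combination -h1

/-- the real part. -/
theorem identity_re (Ω : Finset Pt) {v0 d0 : Pt} (h0 : d0 ∈ dirs) (hhalf : ∀ v ∈ Ω, 0 < ip (v - v0) d0) :
    ∑ t ∈ exits Ω v0 d0, Real.cos (wind t * (Real.pi / 8)) * xc ^ t.length = 1 := by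
  have h1 := congrArg Complex.re (identity Ω h0 hhalf)
  rw [Complex.re_sum, Complex.one_re] at h1
  rw [← h1]
  apply Finset.sum_congr rfl
  intro t _
  unfold wt
  rw [← Complex.ofReal_pow, Complex.re_mul_ofReal, Complex.exp_ofReal_mul_I_re]

end HexObs
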