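import Pool.Agent.HexObs.Cut

set_option autoImplicit false

namespace HexObs

namespace Planar

open Finset

/-- edges of the honeycomb lattice in the coordinates (horizontal, level); p is the vertex whose level is 0 mod 3. -/
def EE (p q : ℤ × ℤ) : Prop := p.2 % 3 = 0 ∧ (p.1 + p.2) % 2 = 0 ∧
  ((q.1 = p.1 ∧ q.2 = p.2 + 2) ∨ (q.1 = p.1 + 1 ∧ q.2 = p.2 - 1) ∨ (q.1 = p.1 - 1 ∧ q.2 = p.2 - 1))

/-- adjacent vertices. -/
def Adj (p q : ℤ × ℤ) : Prop := EE p q ∨ EE q p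

/-- the edge (p, q) is vertical, has an endpoint on the level of r and does not lie to the right of r. -/
def kap (p q r : ℤ × ℤ) : ZMod 2 :=
  if p.1 = q.1 ∧ (p.2 = r.2 ∨ q.2 = r.2) ∧ p.1 ≤ r.1 then 1 else 0

/-- the left part of the zigzag between the levels r.2 - 1 and r.2. -/
def phi (c : ℤ) (r u : ℤ × ℤ) : ZMod 2 :=
  if (u.2 = r.2 ∧ u.1 ≤ r.1) ∨ (u.2 = r.2 - 1 ∧ u.1 ≤ r.1 + c) then 1 else 0

lemma kap_vert {p q r r' : ℤ × ℤ} (h : Adj p q) (hr : r.2 % 3 = 0) (h1 : r'.1 = r.1) (h2 : r'.2 = r.2 + 2) :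
    kap p q r = kap p q r' := by
  unfold Adj EE at h
  unfold kap
  have key : (p.1 = q.1 ∧ (p.2 = r.2 ∨ q.2 = r.2) ∧ p.1 ≤ r.1) ↔
      (p.1 = q.1 ∧ (p.2 = r'.2 ∨ q.2 = r'.2) ∧ p.1 ≤ r'.1) := by
    constructor <;> intro h3 <;> rcases h with ⟨a1, a2, a3 | a3 | a3⟩ | ⟨a1, a2, a3 | a3 | a3⟩ <;> omega
  simp only [key]

lemma kap_left {p q r r' : ℤ × ℤ} (h : Adj p q) (hr : r.2 % 3 = 0) (hpar : (r.1 + r.2) % 2 = 0)
    (h1 : r'.1 = r.1 - 1) (h2 : r'.2 = r.2 - 1) (hp : p ≠ r) (hq : q ≠ r) :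
    kap p q r + kap p q r' = phi 0 r p + phi 0 r q := by
  have hp' : p.1 ≠ r.1 ∨ p.2 ≠ r.2 := by
    by_contra hcon
    push Not at hcon
    exact hp (Prod.ext hcon.1 hcon.2)
  have hq' : q.1 ≠ r.1 ∨ q.2 ≠ r.2 := by
    by_contra hcon
    push Not at hcon
    exact hq (Prod.ext hcon.1 hcon.2)
  unfold Adj EE at h
  unfold kap phi
  split_ifs <;> first | rfl | (exfalso; rcases h with ⟨a1, a2, a3 | a3 | a3⟩ | ⟨a1, a2, a3 | a3 | a3⟩ <;> omega)

lemma kap_right {p q r r' : ℤ × ℤ} (h : Adj p q) (hr : r.2 % 3 = 0) (hpar : (r.1 + r.2) % 2 = 0)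
    (h1 : r'.1 = r.1 + 1) (h2 : r'.2 = r.2 - 1) (hp : p ≠ r') (hq : q ≠ r') :
    kap p q r + kap p q r' = phi 1 r p + phi 1 r q := by
  have hp' : p.1 ≠ r'.1 ∨ p.2 ≠ r'.2 := by
    by_contra hcon
    push Not at hcon
    exact hp (Prod.ext hcon.1 hcon.2)
  have hq' : q.1 ≠ r'.1 ∨ q.2 ≠ r'.2 := by
    by_contra hcon
    push Not at hcon
    exact hq (Prod.ext hcon.1 hcon.2)
  unfold Adj EE at h
  unfold kap phi
  split_ifs <;> first | rfl | (exfalso; rcases h with ⟨a1, a2, a3 | a3 | a3⟩ | ⟨a1, a2, a3 | a3 | a3⟩ <;> omega)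

/-- the number (mod 2) of the vertical edges of the path a to the left of r. -/
def KK (a : ℕ → ℤ × ℤ) (n : ℕ) (r : ℤ × ℤ) : ZMod 2 := ∑ i ∈ range (n + 1), kap (a i) (a (i + 1)) r

lemma sum_tele (f : ℕ → ZMod 2) (n : ℕ) : ∑ i ∈ range (n + 1), (f i + f (i + 1)) = f 0 + f (n + 1) := by
  induction n with
  | zero => simp
  | succ n ih =>
    rw [sum_range_succ, ih]
    have h2 : ∀ x y z : ZMod 2, x + y + (y + z) = x + z := by decide
    exact h2 _ _ _

lemma KK_adj {a : ℕ → ℤ × ℤ} {n : ℕ} (ha : ∀ i, i ≤ n → Adj (a i) (a (i + 1))) (ha0 : (a 0).2 = 0)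
    (han : (a (n + 1)).2 = 0) {r r' : ℤ × ℤ} (h : EE r r') (hpos : 0 < r'.2)
    (hr : ∀ i, i ≤ n + 1 → a i ≠ r) (hr' : ∀ i, i ≤ n + 1 → a i ≠ r') : KK a n r = KK a n r' := by
  obtain ⟨e1, e2, e3⟩ := h
  have hsum : ∀ x y : ZMod 2, x + y = 0 → x = y := by decide
  rcases e3 with ⟨b1, b2⟩ | ⟨b1, b2⟩ | ⟨b1, b2⟩
  · unfold KK
    apply sum_congr rfl
    intro i hi
    rw [mem_range] at hi
    exact kap_vert (ha i (by omega)) e1 b1 b2
  · apply hsum
    unfold KK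
    rw [← sum_add_distrib]
    have h1 : ∀ i ∈ range (n + 1), kap (a i) (a (i + 1)) r + kap (a i) (a (i + 1)) r' =
        phi 1 r (a i) + phi 1 r (a (i + 1)) := by
      intro i hi
      rw [mem_range] at hi
      exact kap_right (ha i (by omega)) e1 e2 b1 b2 (hr' i (by omega)) (hr' (i + 1) (by omega))
    rw [sum_congr rfl h1, sum_tele (fun i => phi 1 r (a i)) n]
    have h2 : phi 1 r (a 0) = 0 := by
      unfold phi
      rw [if_neg]
      omega
    have h3 : phi 1 r (a (n + 1)) = 0 := by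
      unfold phi
      rw [if_neg]
      omega
    rw [h2, h3, add_zero]
  · apply hsum
    unfold KK
    rw [← sum_add_distrib]
    have h1 : ∀ i ∈ range (n + 1), kap (a i) (a (i + 1)) r + kap (a i) (a (i + 1)) r' =
        phi 0 r (a i) + phi 0 r (a (i + 1)) := by
      intro i hi
      rw [mem_range] at hi
      exact kap_left (ha i (by omega)) e1 e2 b1 b2 (hr i (by omega)) (hr (i + 1) (by omega))
    rw [sum_congr rfl h1, sum_tele (fun i => phi 0 r (a i)) n]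
    have h2 : phi 0 r (a 0) = 0 := by
      unfold phi
      rw [if_neg]
      omega
    have h3 : phi 0 r (a (n + 1)) = 0 := by
      unfold phi
      rw [if_neg]
      omega
    rw [h2, h3, add_zero]

/-- a path disjoint from the arc: the parity is constant. -/
lemma KK_path {a g : ℕ → ℤ × ℤ} {n m : ℕ} (ha : ∀ i, i ≤ n → Adj (a i) (a (i + 1))) (ha0 : (a 0).2 = 0)
    (han : (a (n + 1)).2 = 0) (hg : ∀ j, j < m → Adj (g j) (g (j + 1))) (hg0 : (g 0).2 = 0)
    (hgin : ∀ j, 1 ≤ j → j ≤ m → 0 < (g j).2) (hdis : ∀ i, i ≤ n + 1 → ∀ j, j ≤ m → a i ≠ g j) :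
    ∀ j, j ≤ m → KK a n (g j) = KK a n (g 0) := by
  intro j
  induction j with
  | zero => intro _; rfl
  | succ j ih =>
    intro hj
    rw [← ih (by omega)]
    have hp := hgin (j + 1) (by omega) hj
    rcases Nat.eq_zero_or_pos j with h0 | h0
    · subst h0
      rcases hg 0 (by omega) with h | h
      · exact (KK_adj ha ha0 han h hp (fun i hi => hdis i hi 0 (by omega))
          (fun i hi => hdis i hi (0 + 1) hj)).symm
      · exfalso
        obtain ⟨e1, e2, e3⟩ := h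
        omega
    · have hp2 := hgin j (by omega) (by omega)
      rcases hg j (by omega) with h | h
      · exact (KK_adj ha ha0 han h hp (fun i hi => hdis i hi j (by omega))
          (fun i hi => hdis i hi (j + 1) hj)).symm
      · exact KK_adj ha ha0 han h hp2 (fun i hi => hdis i hi (j + 1) hj)
          (fun i hi => hdis i hi j (by omega))

lemma KK_top {a : ℕ → ℤ × ℤ} {n : ℕ} {r : ℤ × ℤ} (h : ∀ i, i ≤ n + 1 → (a i).2 < r.2) : KK a n r = 0 := by
  unfold KK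
  apply sum_eq_zero
  intro i hi
  rw [mem_range] at hi
  unfold kap
  rw [if_neg]
  have h1 := h i (by omega)
  have h2 := h (i + 1) (by omega)
  omega

lemma KK_bot {a : ℕ → ℤ × ℤ} {n : ℕ} (ha : ∀ i, i ≤ n → Adj (a i) (a (i + 1))) (ha0 : (a 0).2 = 0)
    (han : (a (n + 1)).2 = 0) (hin : ∀ i, 1 ≤ i → i ≤ n → 0 < (a i).2) {r : ℤ × ℤ} (hr : r.2 = 0) :
    KK a n r = (if (a 0).1 ≤ r.1 then 1 else 0) + (if (a (n + 1)).1 ≤ r.1 then 1 else 0) := by
  have hn : 1 ≤ n := by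
    by_contra hcon
    have hz : n = 0 := by omega
    subst hz
    have := ha 0 le_rfl
    unfold Adj EE at this
    omega
  obtain ⟨n, rfl⟩ : ∃ k, n = k + 1 := ⟨n - 1, by omega⟩
  unfold KK
  rw [sum_range_succ, sum_range_succ']
  have h1 : ∑ k ∈ range n, kap (a (k + 1)) (a (k + 1 + 1)) r = 0 := by
    apply sum_eq_zero
    intro i hi
    rw [mem_range] at hi
    unfold kap
    rw [if_neg]
    have h1 := hin (i + 1) (by omega) (by omega)
    have h2 := hin (i + 1 + 1) (by omega) (by omega)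
    omega
  have h2 : kap (a 0) (a (0 + 1)) r = if (a 0).1 ≤ r.1 then 1 else 0 := by
    unfold kap
    have h3 := ha 0 (by omega)
    have h4 := hin 1 le_rfl (by omega)
    unfold Adj EE at h3
    have key : ((a 0).1 = (a (0 + 1)).1 ∧ ((a 0).2 = r.2 ∨ (a (0 + 1)).2 = r.2) ∧ (a 0).1 ≤ r.1) ↔ (a 0).1 ≤ r.1 := by
      simp only [zero_add] at h3 ⊢
      omega
    simp only [key]
  have h3 : kap (a (n + 1)) (a (n + 1 + 1)) r = if (a (n + 1 + 1)).1 ≤ r.1 then 1 else 0 := by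
    unfold kap
    have h3 := ha (n + 1) (by omega)
    have h4 := hin (n + 1) (by omega) (by omega)
    unfold Adj EE at h3
    have key : ((a (n + 1)).1 = (a (n + 1 + 1)).1 ∧ ((a (n + 1)).2 = r.2 ∨ (a (n + 1 + 1)).2 = r.2) ∧
        (a (n + 1)).1 ≤ r.1) ↔ (a (n + 1 + 1)).1 ≤ r.1 := by
      omega
    simp only [key]
  rw [h1, h2, h3, zero_add]

/-- no disjoint path passes from below an arc to a level above it. -/
theorem no_cross_abs {a g : ℕ → ℤ × ℤ} {n m : ℕ} (ha : ∀ i, i ≤ n → Adj (a i) (a (i + 1))) (ha0 : (a 0).2 = 0)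
    (han : (a (n + 1)).2 = 0) (hin : ∀ i, 1 ≤ i → i ≤ n → 0 < (a i).2)
    (hg : ∀ j, j < m → Adj (g j) (g (j + 1))) (hg0 : (g 0).2 = 0) (hgin : ∀ j, 1 ≤ j → j ≤ m → 0 < (g j).2)
    (hdis : ∀ i, i ≤ n + 1 → ∀ j, j ≤ m → a i ≠ g j) (htop : ∀ i, i ≤ n + 1 → (a i).2 < (g m).2) :
    (a 0).1 < (g 0).1 ↔ (a (n + 1)).1 < (g 0).1 := by
  have h1 := KK_path ha ha0 han hg hg0 hgin hdis m le_rfl
  rw [KK_top htop, KK_bot ha ha0 han hin hg0] at h1
  have h2 : (a 0).1 ≠ (g 0).1 := by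
    intro h
    exact hdis 0 (by omega) 0 (by omega) (Prod.ext h (by rw [ha0, hg0]))
  have h3 : (a (n + 1)).1 ≠ (g 0).1 := by
    intro h
    exact hdis (n + 1) le_rfl 0 (by omega) (Prod.ext h (by rw [han, hg0]))
  have h4 : (0 : ZMod 2) ≠ 1 := by decide
  split_ifs at h1 with h5 h6 h6
  · constructor <;> intro _ <;> omega
  · exfalso
    rw [add_zero] at h1
    exact h4 h1
  · exfalso
    rw [zero_add] at h1
    exact h4 h1
  · constructor <;> intro _ <;> omega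

end Planar

/-- the coordinates: horizontal (positive to the right of d0) and level. -/
def xy (v0 d0 p : Pt) : ℤ × ℤ := (-(cross d0 (p - v0)), ip (p - v0) d0)

lemma xy_inj {v0 d0 : Pt} (h0 : d0 ∈ dirs) {p q : Pt} (h : xy v0 d0 p = xy v0 d0 q) : p = q := by
  have h1 := congrArg Prod.fst h
  have h2 := congrArg Prod.snd h
  simp only [xy] at h1 h2
  have k1 : cross d0 (p - q) = 0 := by
    have : cross d0 (p - q) = cross d0 (p - v0) - cross d0 (q - v0) := by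
      simp only [cross, Prod.fst_sub, Prod.snd_sub]
      ring
    rw [this]
    linarith
  have k2 : ip (p - q) d0 = 0 := by
    have : p - q = (p - v0) - (q - v0) := by abel
    rw [this, ip_sub_left (p - v0), h2, sub_self]
  have k4 : 3 * cross d0 (p - q) ^ 2 + ip (p - q) d0 ^ 2 = 4 * nrm (p - q) * nrm d0 := by
    unfold ip cross nrm
    ring
  rw [k1, k2, mem_dirs.1 h0] at k4
  have k5 := abs_le_of_nrm (p := p - q) (k := 0) le_rfl (by linarith)
  have k6 : (p - q).1 = 0 := by nlinarith [k5.1]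
  have k7 : (p - q).2 = 0 := by nlinarith [k5.2]
  exact sub_eq_zero.1 (Prod.ext k6 k7)

lemma cross_check : ∀ d ∈ dirs, cross d (rotL (rotL d)) = 1 ∧ cross d (rotR (rotR d)) = -1 := by decide

lemma xy_add (v0 d0 p e : Pt) : xy v0 d0 (p + e) = ((xy v0 d0 p).1 - cross d0 e, (xy v0 d0 p).2 + ip e d0) := by
  have h1 : p + e - v0 = (p - v0) + e := by abel
  unfold xy
  rw [h1, ip_add_left]
  refine Prod.ext ?_ rfl
  simp only [cross, Prod.fst_add, Prod.snd_add]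
  ring

lemma xy_parity (v0 d0 p : Pt) : ((xy v0 d0 p).1 + (xy v0 d0 p).2) % 2 = 0 := by
  have : (xy v0 d0 p).1 + (xy v0 d0 p).2 = 2 * (((p - v0).1 * d0.1 + (p - v0).2 * d0.2) + (p - v0).1 * d0.2) := by
    simp only [xy, cross, ip]
    ring
  omega

lemma xy_level {v0 d0 p : Pt} (hp : cl p = cl v0) : (xy v0 d0 p).2 % 3 = 0 := by
  have h1 : ((ip (p - v0) d0 : ℤ) : ZMod 3) = 0 := by
    rw [ip_mod, cl_sub, hp, sub_self, zero_mul, neg_zero]
  exact Int.emod_eq_zero_of_dvd ((ZMod.intCast_zmod_eq_zero_iff_dvd _ 3).1 h1)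

lemma xy_edge {v0 d0 p e : Pt} (h0 : d0 ∈ dirs) (he : e ∈ dirs) (hp : cl p = cl v0) (hc : cl e = cl d0) :
    Planar.EE (xy v0 d0 p) (xy v0 d0 (p + e)) := by
  refine ⟨xy_level hp, xy_parity v0 d0 p, ?_⟩
  rw [xy_add]
  obtain ⟨c1, c2⟩ := cross_check d0 h0
  have c3 : cross d0 d0 = 0 := by
    unfold cross
    ring
  rcases step_check d0 h0 e he hc with ⟨h1, h2⟩ | ⟨h1, h2⟩ | ⟨h1, h2⟩
  · left
    rw [h2, h1, c3]
    exact ⟨sub_zero _, rfl⟩
  · right; right
    rw [h2, h1, c1]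
    exact ⟨rfl, rfl⟩
  · right; left
    rw [h2, h1, c2]
    exact ⟨by ring, rfl⟩

lemma xy_adj {v0 v1 d0 : Pt} (h0 : d0 ∈ dirs) (h1 : cl v1 = cl v0) (t : List Bool) (i : ℕ) :
    Planar.Adj (xy v0 d0 (vx v1 d0 t i)) (xy v0 d0 (vx v1 d0 t (i + 1))) := by
  rw [vx_succ]
  by_cases hi : Even i
  · left
    apply xy_edge h0 (dx_mem h0 t i)
    · rw [cl_vx, if_pos hi, h1]
    · rw [cl_dx, if_pos hi]
  · right
    have h2 := xy_edge (v0 := v0) (p := vx v1 d0 t i + dx d0 t i) (e := -(dx d0 t i)) h0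
      (neg_mem_dirs (dx_mem h0 t i)) ?_ ?_
    · rwa [add_neg_cancel_right] at h2
    · rw [cl_add, cl_vx, if_neg hi, cl_dx, if_neg hi, h1]
      ring
    · rw [cl_neg, cl_dx, if_neg hi, neg_neg]

/-- PLANARITY: a path that starts below an arc and is disjoint from it does not reach a level above it. -/
theorem no_cross {v0 v1 v2 d0 : Pt} (h0 : d0 ∈ dirs) (c1 : cl v1 = cl v0) (c2 : cl v2 = cl v0)
    (l1 : ip (v1 - v0) d0 = 0) (l2 : ip (v2 - v0) d0 = 0) {t s : List Bool}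
    (ht : ∀ i, 1 ≤ i → i ≤ t.length → 0 < ip (vx v1 d0 t i - v0) d0) (htip : ip (tip v1 d0 t - v0) d0 = 0)
    (hs : ∀ j, 1 ≤ j → j ≤ s.length + 1 → 0 < ip (vx v2 d0 s j - v0) d0)
    (hdis : ∀ i, i ≤ t.length + 1 → ∀ j, j ≤ s.length + 1 → vx v1 d0 t i ≠ vx v2 d0 s j)
    (htop : ∀ i, i ≤ t.length + 1 → ip (vx v1 d0 t i - v0) d0 < ip (tip v2 d0 s - v0) d0) :
    0 < cross d0 (v1 - v2) ↔ 0 < cross d0 (tip v1 d0 t - v2) := by
  have key := Planar.no_cross_abs (a := fun i => xy v0 d0 (vx v1 d0 t i)) (g := fun j => xy v0 d0 (vx v2 d0 s j))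
    (n := t.length) (m := s.length + 1) (fun i _ => xy_adj h0 c1 t i) l1 htip ht
    (fun j _ => xy_adj h0 c2 s j) l2 hs (fun i hi j hj h => hdis i hi j hj (xy_inj h0 h)) htop
  have e1 : cross d0 (v1 - v2) = cross d0 (v1 - v0) - cross d0 (v2 - v0) := by
    simp only [cross, Prod.fst_sub, Prod.snd_sub]
    ring
  have e2 : cross d0 (tip v1 d0 t - v2) = cross d0 (tip v1 d0 t - v0) - cross d0 (v2 - v0) := by
    simp only [cross, Prod.fst_sub, Prod.snd_sub]
    ring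
  rw [e1, e2]
  have k1 : (xy v0 d0 (vx v1 d0 t 0)).1 = -(cross d0 (v1 - v0)) := rfl
  have k2 : (xy v0 d0 (vx v2 d0 s 0)).1 = -(cross d0 (v2 - v0)) := rfl
  have k3 : (xy v0 d0 (vx v1 d0 t (t.length + 1))).1 = -(cross d0 (tip v1 d0 t - v0)) := rfl
  simp only [k1, k2, k3] at key
  constructor <;> intro h <;> [have := key.1 (by linarith); have := key.2 (by linarith)] <;> linarith

/-- PLANARITY, second form: the walk t from v1 ends on the walk g from v3 (at its vertex number j0); a path from v2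
that is disjoint from t and from the first j0 vertices of g and climbs above them has v1 and v3 on the same side. -/
theorem no_cross_hit {v0 v1 v2 v3 d0 : Pt} (h0 : d0 ∈ dirs) (c1 : cl v1 = cl v0) (c2 : cl v2 = cl v0)
    (c3 : cl v3 = cl v0) (l1 : ip (v1 - v0) d0 = 0) (l2 : ip (v2 - v0) d0 = 0) (l3 : ip (v3 - v0) d0 = 0)
    {t s g : List Bool} {j0 : ℕ} (hj0 : 1 ≤ j0)
    (hhit : tip v1 d0 t = vx v3 d0 g j0)
    (ht : ∀ i, 1 ≤ i → i ≤ t.length → 0 < ip (vx v1 d0 t i - v0) d0)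
    (hg : ∀ i, 1 ≤ i → i ≤ j0 → 0 < ip (vx v3 d0 g i - v0) d0)
    (hs : ∀ j, 1 ≤ j → j ≤ s.length + 1 → 0 < ip (vx v2 d0 s j - v0) d0)
    (hdt : ∀ i, i ≤ t.length → ∀ j, j ≤ s.length + 1 → vx v1 d0 t i ≠ vx v2 d0 s j)
    (hdg : ∀ i, i ≤ j0 → ∀ j, j ≤ s.length + 1 → vx v3 d0 g i ≠ vx v2 d0 s j)
    (htt : ∀ i, i ≤ t.length → ip (vx v1 d0 t i - v0) d0 < ip (tip v2 d0 s - v0) d0)
    (htg : ∀ i, i ≤ j0 → ip (vx v3 d0 g i - v0) d0 < ip (tip v2 d0 s - v0) d0) :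
    0 < cross d0 (v1 - v2) ↔ 0 < cross d0 (v3 - v2) := by
  set a : ℕ → ℤ × ℤ := fun i => if i ≤ t.length then xy v0 d0 (vx v1 d0 t i) else
    xy v0 d0 (vx v3 d0 g (j0 - (i - (t.length + 1)))) with ha
  have a1 : ∀ i, i ≤ t.length → a i = xy v0 d0 (vx v1 d0 t i) := by
    intro i hi
    simp only [ha]
    rw [if_pos hi]
  have a2 : ∀ i, t.length < i → a i = xy v0 d0 (vx v3 d0 g (j0 - (i - (t.length + 1)))) := by
    intro i hi
    simp only [ha]
    rw [if_neg (by omega)]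
  have a3 : a (t.length + 1) = xy v0 d0 (vx v1 d0 t (t.length + 1)) := by
    rw [a2 _ (by omega)]
    have : tip v1 d0 t = vx v1 d0 t (t.length + 1) := rfl
    rw [← this, hhit]
    simp
  have a4 : a (t.length + j0 + 1) = xy v0 d0 v3 := by
    rw [a2 _ (by omega)]
    have : j0 - (t.length + j0 + 1 - (t.length + 1)) = 0 := by omega
    rw [this]
    rfl
  have a5 : a 0 = xy v0 d0 v1 := a1 0 (by omega)
  have hadj : ∀ i, i ≤ t.length + j0 → Planar.Adj (a i) (a (i + 1)) := by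
    intro i hi
    rcases Nat.lt_or_ge i t.length with h | h
    · rw [a1 i (by omega), a1 (i + 1) (by omega)]
      exact xy_adj h0 c1 t i
    · rcases Nat.eq_or_lt_of_le h with h' | h'
      · rw [← h', a3, a1 _ le_rfl]
        exact xy_adj h0 c1 t _
      · rw [a2 i (by omega), a2 (i + 1) (by omega)]
        have e : j0 - (i - (t.length + 1)) = (j0 - (i + 1 - (t.length + 1))) + 1 := by omega
        rw [e]
        exact (xy_adj h0 c3 g _).symm
  have hin : ∀ i, 1 ≤ i → i ≤ t.length + j0 → 0 < (a i).2 := by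
    intro i h1 h2
    rcases Nat.lt_or_ge t.length i with h | h
    · rw [a2 i h]
      exact hg _ (by omega) (by omega)
    · rw [a1 i h]
      exact ht _ h1 h
  have hdis : ∀ i, i ≤ t.length + j0 + 1 → ∀ j, j ≤ s.length + 1 → a i ≠ xy v0 d0 (vx v2 d0 s j) := by
    intro i h1 j h2 he
    rcases Nat.lt_or_ge t.length i with h | h
    · rw [a2 i h] at he
      exact hdg _ (by omega) j h2 (xy_inj h0 he)
    · rw [a1 i h] at he
      exact hdt _ h j h2 (xy_inj h0 he)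
  have htop : ∀ i, i ≤ t.length + j0 + 1 → (a i).2 < (xy v0 d0 (vx v2 d0 s (s.length + 1))).2 := by
    intro i h1
    rcases Nat.lt_or_ge t.length i with h | h
    · rw [a2 i h]
      exact htg _ (by omega)
    · rw [a1 i h]
      exact htt _ h
  have key := Planar.no_cross_abs (a := a) (g := fun j => xy v0 d0 (vx v2 d0 s j))
    (n := t.length + j0) (m := s.length + 1) hadj (by rw [a5]; exact l1) (by rw [a4]; exact l3) hin
    (fun j _ => xy_adj h0 c2 s j) l2 hs hdis htop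
  have e1 : cross d0 (v1 - v2) = cross d0 (v1 - v0) - cross d0 (v2 - v0) := by
    simp only [cross, Prod.fst_sub, Prod.snd_sub]
    ring
  have e2 : cross d0 (v3 - v2) = cross d0 (v3 - v0) - cross d0 (v2 - v0) := by
    simp only [cross, Prod.fst_sub, Prod.snd_sub]
    ring
  rw [e1, e2]
  have k1 : (xy v0 d0 v1).1 = -(cross d0 (v1 - v0)) := rfl
  have k2 : (xy v0 d0 (vx v2 d0 s 0)).1 = -(cross d0 (v2 - v0)) := rfl
  have k3 : (xy v0 d0 v3).1 = -(cross d0 (v3 - v0)) := rfl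
  rw [a4, a5] at key
  simp only [k1, k2, k3] at key
  constructor <;> intro h <;> [have := key.1 (by linarith); have := key.2 (by linarith)] <;> linarith

end HexObs
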