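import Pool.Agent.HexObs.Exit2

set_option autoImplicit false

namespace HexObs

open Complex Finset

/-- The domain is seen from v0 in the open half plane of direction d0, and every walk leaving the domain leaves a
half plane containing the domain. -/
structure GoodDom (Ω : Finset Pt) (v0 d0 : Pt) : Prop where
  dir : d0 ∈ dirs
  half : ∀ v ∈ Ω, 0 < ip (v - v0) d0
  exit : ∀ t ∈ exits Ω v0 d0, ∀ v ∈ Ω, 0 < ip (tip v0 d0 t - v) (dx d0 t t.length)

/-- generating function at the critical point of the walks leaving the domain in the direction e. -/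
noncomputable def Ex (Ω : Finset Pt) (v0 d0 e : Pt) : ℝ :=
  ∑ t ∈ (exits Ω v0 d0).filter (fun t => dx d0 t t.length = e), xc ^ t.length

lemma mem_exits {Ω : Finset Pt} {v0 d0 : Pt} {t : List Bool} :
    t ∈ exits Ω v0 d0 ↔ IsArr Ω v0 d0 t ∧ tip v0 d0 t ∉ Ω := by
  unfold exits
  rw [Finset.mem_filter, mem_arr]

lemma GoodDom.wind {Ω : Finset Pt} {v0 d0 : Pt} (h : GoodDom Ω v0 d0) {t : List Bool} (ht : t ∈ exits Ω v0 d0) :
    (dx d0 t t.length = d0 ∧ wind t = 0) ∨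
    (dx d0 t t.length = rotL d0 ∧ wind t = 1) ∨
    (dx d0 t t.length = rotR d0 ∧ wind t = -1) ∨
    (dx d0 t t.length = rotL (rotL d0) ∧ wind t = 2) ∨
    (dx d0 t t.length = rotR (rotR d0) ∧ wind t = -2) ∨
    (dx d0 t t.length = -d0 ∧ (wind t = 3 ∨ wind t = -3)) := by
  have harr := (mem_exits.1 ht).1
  exact wind_exit h.dir harr.inj (fun i h1 h2 => h.half _ (harr.mem i h1 h2))
    (fun i h1 h2 => h.exit t ht _ (harr.mem i h1 h2))

lemma dirs_distinct : ∀ d ∈ dirs, (rotL d ≠ d ∧ rotR d ≠ d ∧ rotL (rotL d) ≠ d ∧ rotR (rotR d) ≠ d ∧ -d ≠ d) ∧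
    (rotR d ≠ rotL d ∧ rotL (rotL d) ≠ rotL d ∧ rotR (rotR d) ≠ rotL d ∧ -d ≠ rotL d) ∧
    (rotL (rotL d) ≠ rotR d ∧ rotR (rotR d) ≠ rotR d ∧ -d ≠ rotR d) ∧
    (rotR (rotR d) ≠ rotL (rotL d) ∧ -d ≠ rotL (rotL d)) ∧ -d ≠ rotR (rotR d) := by
  decide

/-- The identity for good domains: the six exit directions. -/
theorem GoodDom.identity {Ω : Finset Pt} {v0 d0 : Pt} (h : GoodDom Ω v0 d0) :
    Ex Ω v0 d0 d0 + Real.cos (Real.pi / 8) * (Ex Ω v0 d0 (rotL d0) + Ex Ω v0 d0 (rotR d0)) +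
      Real.cos (Real.pi / 4) * (Ex Ω v0 d0 (rotL (rotL d0)) + Ex Ω v0 d0 (rotR (rotR d0))) +
      Real.cos (3 * Real.pi / 8) * Ex Ω v0 d0 (-d0) = 1 := by
  classical
  rw [← identity_re Ω h.dir h.half]
  unfold Ex
  simp only [Finset.sum_filter]
  rw [← Finset.sum_add_distrib, ← Finset.sum_add_distrib, Finset.mul_sum, Finset.mul_sum, Finset.mul_sum,
    ← Finset.sum_add_distrib, ← Finset.sum_add_distrib, ← Finset.sum_add_distrib]
  apply Finset.sum_congr rfl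
  intro t ht
  obtain ⟨⟨a1, a2, a3, a4, a5⟩, ⟨b1, b2, b3, b4⟩, ⟨c1, c2, c3⟩, ⟨e1, e2⟩, f1⟩ := dirs_distinct d0 h.dir
  rcases h.wind ht with ⟨hd, hw⟩ | ⟨hd, hw⟩ | ⟨hd, hw⟩ | ⟨hd, hw⟩ | ⟨hd, hw⟩ | ⟨hd, hw⟩
  · rw [hd, hw, if_pos rfl, if_neg a1.symm, if_neg a2.symm, if_neg a3.symm, if_neg a4.symm, if_neg a5.symm]
    push_cast
    rw [zero_mul, Real.cos_zero]
    ring
  · rw [hd, hw, if_neg a1, if_pos rfl, if_neg b1.symm, if_neg b2.symm, if_neg b3.symm, if_neg b4.symm]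
    push_cast
    rw [one_mul]
    ring
  · rw [hd, hw, if_neg a2, if_neg b1, if_pos rfl, if_neg c1.symm, if_neg c2.symm, if_neg c3.symm]
    push_cast
    rw [neg_one_mul, Real.cos_neg]
    ring
  · rw [hd, hw, if_neg a3, if_neg b2, if_neg c1, if_pos rfl, if_neg e1.symm, if_neg e2.symm]
    push_cast
    rw [show (2 : ℝ) * (Real.pi / 8) = Real.pi / 4 by ring]
    ring
  · rw [hd, hw, if_neg a4, if_neg b3, if_neg c2, if_neg e1, if_pos rfl, if_neg f1.symm]
    push_cast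
    rw [show (-2 : ℝ) * (Real.pi / 8) = -(Real.pi / 4) by ring, Real.cos_neg]
    ring
  · have hcos : Real.cos ((HexObs.wind t : ℝ) * (Real.pi / 8)) = Real.cos (3 * Real.pi / 8) := by
      rcases hw with hw | hw
      · rw [hw]
        push_cast
        congr 1
        ring
      · rw [hw]
        push_cast
        rw [show (-3 : ℝ) * (Real.pi / 8) = -(3 * Real.pi / 8) by ring, Real.cos_neg]
    rw [hd, hcos, if_neg a5, if_neg b4, if_neg c3, if_neg e2, if_neg f1, if_pos rfl]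
    ring

/-- vertices of the hexagonal lattice that contains the edge v0, v0 + d0. -/
def IsHex (v0 d0 v : Pt) : Prop := cl v = cl v0 ∨ cl v = cl v0 + cl d0

/-- the pair (b, n) is a side with normal n : b - n to b is an edge of the lattice. -/
def IsSide (v0 d0 : Pt) (s : Pt × Pt) : Prop :=
  s.2 ∈ dirs ∧ ((cl s.1 = cl v0 ∧ cl s.2 = - cl d0) ∨ (cl s.1 = cl v0 + cl d0 ∧ cl s.2 = cl d0))

lemma vx_hex (v0 d0 : Pt) (t : List Bool) (i : ℕ) : IsHex v0 d0 (vx v0 d0 t i) := by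
  have h : cl (vx v0 d0 t i) = if Even i then cl v0 else cl v0 + cl d0 := cl_vs _
  unfold IsHex
  rw [h]
  by_cases he : Even i
  · rw [if_pos he]
    exact Or.inl rfl
  · rw [if_neg he]
    exact Or.inr rfl

lemma side_ge {v0 d0 : Pt} {s : Pt × Pt} (hs : IsSide v0 d0 s) {v : Pt} (hv : IsHex v0 d0 v)
    (hpos : 0 < ip (s.1 - v) s.2) : 2 ≤ ip (s.1 - v) s.2 := by
  apply mod3_two hpos
  rw [ip_mod, cl_sub]
  obtain ⟨hd, hs⟩ := hs
  have hsq := cl_dir_sq s.2 hd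
  rcases hs with ⟨h1, h2⟩ | ⟨h1, h2⟩ <;> rcases hv with h3 | h3
  · left
    rw [h1, h3]
    ring
  · right
    rw [h1, h3, show cl d0 = - cl s.2 by rw [h2, neg_neg]]
    linear_combination -hsq
  · right
    rw [h1, h3, ← h2]
    linear_combination -hsq
  · left
    rw [h1, h3]
    ring

lemma ip_two_eq : ∀ d ∈ dirs, ∀ e ∈ dirs, 2 ≤ ip d e → d = e := by
  decide

/-- Convex lattice polygons, all of whose sides cut edges at a right angle, are good domains. -/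
theorem polygon_good {Ω : Finset Pt} {v0 d0 : Pt} (h0 : d0 ∈ dirs) (S : Set (Pt × Pt))
    (hS : ∀ s ∈ S, IsSide v0 d0 s) (h0S : (v0, -d0) ∈ S)
    (hΩ : ∀ v, v ∈ Ω ↔ IsHex v0 d0 v ∧ ∀ s ∈ S, 0 < ip (s.1 - v) s.2) (hv1 : v0 + d0 ∈ Ω) :
    GoodDom Ω v0 d0 := by
  refine ⟨h0, ?_, ?_⟩
  · intro v hv
    have h := ((hΩ v).1 hv).2 (v0, -d0) h0S
    have e : ip (v0 - v) (-d0) = ip (v - v0) d0 := by
      simp only [ip, Prod.fst_sub, Prod.snd_sub, Prod.fst_neg, Prod.snd_neg]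
      ring
    rwa [e] at h
  · intro t ht v hv
    obtain ⟨harr, hout⟩ := mem_exits.1 ht
    have hlen : 1 ≤ t.length := by
      by_contra hcon
      have hz : t.length = 0 := by omega
      have : t = [] := List.length_eq_zero_iff.1 hz
      rw [this] at hout
      exact hout hv1
    have hhex : IsHex v0 d0 (tip v0 d0 t) := vx_hex v0 d0 t _
    have hex : ∃ s ∈ S, ip (s.1 - tip v0 d0 t) s.2 ≤ 0 := by
      by_contra hcon
      push Not at hcon
      exact hout ((hΩ _).2 ⟨hhex, hcon⟩)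
    obtain ⟨s, hs, hsle⟩ := hex
    have hlast : vx v0 d0 t t.length ∈ Ω := harr.mem _ hlen le_rfl
    have h2 := side_ge (hS s hs) (vx_hex v0 d0 t t.length) (((hΩ _).1 hlast).2 s hs)
    have htip : tip v0 d0 t = vx v0 d0 t t.length + dx d0 t t.length := rfl
    have hd1 : dx d0 t t.length ∈ dirs := ds_mem h0 _
    have e1 : s.1 - tip v0 d0 t = (s.1 - vx v0 d0 t t.length) - dx d0 t t.length := by
      rw [htip]
      abel
    rw [e1, ip_sub_left] at hsle
    have h3 := ip_two_eq _ hd1 s.2 (hS s hs).1 (by linarith)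
    have h4 := (ip_dirs_ge _ hd1 s.2 (hS s hs).1).2
    rw [h3]
    have e2 : tip v0 d0 t - v = (s.1 - v) - ((s.1 - vx v0 d0 t t.length) - dx d0 t t.length) := by
      rw [htip]
      abel
    rw [e2, ip_sub_left (s.1 - v), ip_sub_left (s.1 - vx v0 d0 t t.length)]
    have h5 := ((hΩ v).1 hv).2 s hs
    linarith

end HexObs
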