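import Pool.Agent.HexObs.Word

set_option autoImplicit false

namespace HexObs

open Complex Finset

lemma turn_neg (b : Bool) (d : Pt) : turn b (-d) = - turn b d := by
  cases b
  · simp only [turn, Bool.false_eq_true, if_false, rotR, Prod.neg_mk, Prod.fst_neg, Prod.snd_neg]
    congr 1
    ring
  · simp only [turn, if_true, rotL, Prod.neg_mk, Prod.fst_neg, Prod.snd_neg]
    congr 1
    ring

/-- the direction of return to a visited vertex. -/
theorem loop_dir {v0 d0 : Pt} {τ : ℕ → Bool} (h0 : d0 ∈ dirs) {j l : ℕ} (hj : 1 ≤ j) (hjl : j ≤ l)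
    (hclosed : vs v0 d0 τ (l + 1) = vs v0 d0 τ j)
    (hd : ∀ i k, i < k → k ≤ l → vs v0 d0 τ i ≠ vs v0 d0 τ k) :
    j + 1 < l ∧ - (ds d0 τ l) = turn (!(τ (j - 1))) (ds d0 τ (j - 1)) := by
  have hjl1 : j ≠ l := by
    rintro rfl
    rw [vs_succ] at hclosed
    have : ds d0 τ j = 0 := by simpa using hclosed
    have h1 := mem_dirs.1 (ds_mem h0 (τ := τ) j)
    rw [this] at h1
    simp [nrm] at h1
  have hjl2 : j + 1 ≠ l := by
    rintro rfl
    rw [vs_succ, vs_succ, add_assoc, ds_succ] at hclosed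
    have : ds d0 τ j + turn (τ j) (ds d0 τ j) = 0 := by simpa using hclosed
    exact turn_ne_neg _ (ds_mem h0 j) _ this
  refine ⟨by omega, ?_⟩
  obtain ⟨j', rfl⟩ : ∃ j', j = j' + 1 := ⟨j - 1, by omega⟩
  obtain ⟨l', rfl⟩ : ∃ l', l = l' + 1 := ⟨l - 1, by omega⟩
  rw [Nat.add_sub_cancel]
  obtain ⟨b, hb⟩ : ∃ b, b = τ j' := ⟨_, rfl⟩
  rw [← hb]
  set d := ds d0 τ j' with hdd
  have hdm : d ∈ dirs := ds_mem h0 j'
  have hdj : ds d0 τ (j' + 1) = turn b d := by rw [ds_succ, hb]
  obtain ⟨e, he⟩ : ∃ e, e = ds d0 τ (l' + 1) := ⟨_, rfl⟩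
  have hem : e ∈ dirs := by
    rw [he]
    exact ds_mem h0 _
  have hcl : cl e = cl d := by
    have h1 := congrArg cl hclosed
    rw [cl_vs, cl_vs] at h1
    have hne := cl_dir_ne h0
    rw [he, hdd, cl_ds, cl_ds]
    by_cases ha : Even (l' + 1 + 1) <;> by_cases hb' : Even (j' + 1)
    · have e1 : ¬ Even (l' + 1) := by simpa [Nat.even_add_one] using ha
      have e2 : ¬ Even j' := by simpa [Nat.even_add_one] using hb'
      rw [if_neg e1, if_neg e2]
    · rw [if_pos ha, if_neg hb'] at h1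
      exact absurd (by simpa using h1.symm) hne
    · rw [if_neg ha, if_pos hb'] at h1
      exact absurd (by simpa using h1) hne
    · have e1 : Even (l' + 1) := by
        rw [Nat.even_add_one, not_not] at ha
        exact ha
      have e2 : Even j' := by
        rw [Nat.even_add_one, not_not] at hb'
        exact hb'
      rw [if_pos e1, if_pos e2]
  have hvl : vs v0 d0 τ (l' + 1) = vs v0 d0 τ (j' + 1) - e := by
    rw [eq_sub_iff_add_eq, he, ← vs_succ, hclosed]
  have hne1 : e ≠ d := by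
    intro h
    apply hd j' (l' + 1) (by omega) le_rfl
    rw [hvl, h, vs_succ, hdd]
    abel
  have hne2 : -e ≠ turn b d := by
    intro h
    apply hd (j' + 1 + 1) (l' + 1) (by omega) le_rfl
    rw [hvl, vs_succ (j' + 1), hdj, ← h]
    abel
  have hee := check_return d hdm e hem b hcl hne1 hne2
  rw [← he, hee]
  exact neg_turn_turn d hdm b

/-- reversal of the loop: turns. -/
def revτ (τ : ℕ → Bool) (j l : ℕ) (i : ℕ) : Bool :=
  if i + 1 < j then τ i else if i + 1 = j then !(τ i) else !(τ (l - 1 + j - i))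

section
variable {v0 d0 : Pt} {τ : ℕ → Bool} {j l : ℕ}

lemma revτ_lt {i : ℕ} (h : i + 1 < j) : revτ τ j l i = τ i := by
  unfold revτ
  rw [if_pos h]

lemma revτ_eq (hj : 1 ≤ j) : revτ τ j l (j - 1) = !(τ (j - 1)) := by
  unfold revτ
  rw [if_neg (by omega), if_pos (by omega)]

lemma revτ_gt {i : ℕ} : revτ τ j l (j + i) = !(τ (l - 1 - i)) := by
  unfold revτ
  rw [if_neg (by omega), if_neg (by omega)]
  congr 2
  omega

lemma vs_rev_le {i : ℕ} (h : i ≤ j) : vs v0 d0 (revτ τ j l) i = vs v0 d0 τ i :=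
  vs_congr i (fun k hk => revτ_lt (by omega))

lemma ds_rev_lt {i : ℕ} (h : i < j) : ds d0 (revτ τ j l) i = ds d0 τ i :=
  ds_congr i (fun k hk => revτ_lt (by omega))

lemma ds_rev (hj : 1 ≤ j) (hdir : - (ds d0 τ l) = turn (!(τ (j - 1))) (ds d0 τ (j - 1)))
    (i : ℕ) (hi : j + i ≤ l) : ds d0 (revτ τ j l) (j + i) = - ds d0 τ (l - i) := by
  induction i with
  | zero =>
    rw [add_zero, Nat.sub_zero, hdir]
    obtain ⟨j', rfl⟩ : ∃ j', j = j' + 1 := ⟨j - 1, by omega⟩
    rw [ds_succ, Nat.add_sub_cancel, ds_rev_lt (by omega)]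
    congr 1
    have := revτ_eq (τ := τ) (l := l) hj
    rwa [Nat.add_sub_cancel] at this
  | succ i ih =>
    have e : l - i = (l - (i + 1)) + 1 := by omega
    rw [← add_assoc, ds_succ, ih (by omega), e, ds_succ, revτ_gt, turn_neg]
    rw [show l - 1 - i = l - (i + 1) by omega, turn_turn]

lemma vs_rev (hj : 1 ≤ j) (hclosed : vs v0 d0 τ (l + 1) = vs v0 d0 τ j)
    (hdir : - (ds d0 τ l) = turn (!(τ (j - 1))) (ds d0 τ (j - 1)))
    (i : ℕ) (hi : j + i ≤ l + 1) : vs v0 d0 (revτ τ j l) (j + i) = vs v0 d0 τ (l + 1 - i) := by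
  induction i with
  | zero => rw [add_zero, Nat.sub_zero, hclosed, vs_rev_le le_rfl]
  | succ i ih =>
    have e : l + 1 - i = (l + 1 - (i + 1)) + 1 := by omega
    rw [← add_assoc, vs_succ, ih (by omega), ds_rev hj hdir i (by omega), e, vs_succ]
    rw [show l - i = l + 1 - (i + 1) by omega]
    abel

end

/-- reversal of the loop: words. -/
def revw (t : List Bool) (j : ℕ) : List Bool := (List.range t.length).map (revτ (tf t) j t.length)

lemma revw_length (t : List Bool) (j : ℕ) : (revw t j).length = t.length := by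
  simp [revw]

lemma tf_revw {t : List Bool} {j i : ℕ} (h : i < t.length) : tf (revw t j) i = revτ (tf t) j t.length i := by
  show (revw t j).getD i true = _
  rw [List.getD_eq_getElem _ _ (by rw [revw_length]; exact h)]
  simp [revw]

lemma vx_revw {v0 d0 : Pt} {t : List Bool} {j i : ℕ} (h : i ≤ t.length + 1) :
    vx v0 d0 (revw t j) i = vs v0 d0 (revτ (tf t) j t.length) i :=
  vs_congr i (fun k hk => tf_revw (by omega))

lemma tf_ext {t s : List Bool} (hl : t.length = s.length) (h : ∀ i, i < t.length → tf t i = tf s i) : t = s := by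
  apply List.ext_getElem hl
  intro i h1 h2
  have := h i h1
  unfold tf at this
  rwa [List.getD_eq_getElem _ _ h1, List.getD_eq_getElem _ _ h2] at this

lemma revw_revw {t : List Bool} {j : ℕ} (hj : 1 ≤ j) (hjl : j ≤ t.length) : revw (revw t j) j = t := by
  apply tf_ext (by rw [revw_length, revw_length])
  intro i hi
  rw [revw_length, revw_length] at hi
  have h1 : tf (revw (revw t j) j) i = revτ (tf (revw t j)) j (revw t j).length i :=
    tf_revw (by rw [revw_length]; exact hi)
  rw [h1, revw_length]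
  rcases lt_trichotomy (i + 1) j with h2 | h2 | h2
  · rw [revτ_lt h2, tf_revw hi, revτ_lt h2]
  · have e : i = j - 1 := by omega
    rw [e, revτ_eq hj, tf_revw (by omega), revτ_eq hj, Bool.not_not]
  · obtain ⟨k, rfl⟩ : ∃ k, i = j + k := ⟨i - j, by omega⟩
    rw [revτ_gt, tf_revw (by omega)]
    have e : t.length - 1 - k = j + (t.length - 1 - k - j) := by omega
    rw [e, revτ_gt, Bool.not_not]
    congr 1
    omega

lemma revw_ne {t : List Bool} {j : ℕ} (hj : 1 ≤ j) (hjl : j ≤ t.length) : revw t j ≠ t := by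
  intro h
  have h1 := tf_revw (t := t) (j := j) (i := j - 1) (by omega)
  rw [h, revτ_eq hj] at h1
  cases h2 : tf t (j - 1) <;> rw [h2] at h1 <;> simp at h1

end HexObs
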