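import Pool.Agent.HexObs.Hopf

set_option autoImplicit false

namespace HexObs

open Complex Finset

/-- Points of the triangular lattice in the basis 1, zeta = exp(i pi/3). -/
abbrev Pt := ℤ × ℤ

/-- squared length. -/
def nrm (p : Pt) : ℤ := p.1 ^ 2 + p.1 * p.2 + p.2 ^ 2

/-- twice the inner product. -/
def ip (p q : Pt) : ℤ := 2 * (p.1 * q.1 + p.2 * q.2) + p.1 * q.2 + p.2 * q.1

/-- class mod 3: the hexagonal lattice consists of two of the three classes. -/
def cl (p : Pt) : ZMod 3 := ((p.1 - p.2 : ℤ) : ZMod 3)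

/-- rotation by +60 degrees. -/
def rotL (d : Pt) : Pt := (-d.2, d.1 + d.2)

/-- rotation by -60 degrees. -/
def rotR (d : Pt) : Pt := (d.1 + d.2, -d.1)

/-- turn left (true) or right (false) by 60 degrees. -/
def turn (b : Bool) (d : Pt) : Pt := if b then rotL d else rotR d

/-- +1 for a left turn, -1 for a right turn. -/
def sgn (b : Bool) : ℤ := if b then 1 else -1

lemma cl_add (p q : Pt) : cl (p + q) = cl p + cl q := by
  simp only [cl, Prod.fst_add, Prod.snd_add]
  push_cast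
  ring

lemma cl_sub (p q : Pt) : cl (p - q) = cl p - cl q := by
  simp only [cl, Prod.fst_sub, Prod.snd_sub]
  push_cast
  ring

lemma cl_neg (p : Pt) : cl (-p) = - cl p := by
  simp only [cl, Prod.fst_neg, Prod.snd_neg]
  push_cast
  ring

lemma three_eq : (3 : ZMod 3) = 0 := by decide

lemma cl_turn (b : Bool) (d : Pt) : cl (turn b d) = - cl d := by
  have h3 : (3 : ZMod 3) = 0 := three_eq
  cases b
  · simp only [turn, Bool.false_eq_true, if_false, rotR, cl]
    push_cast
    linear_combination (d.1 : ZMod 3) * h3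
  · simp only [turn, if_true, rotL, cl]
    push_cast
    linear_combination -(d.2 : ZMod 3) * h3

lemma nrm_turn (b : Bool) (d : Pt) : nrm (turn b d) = nrm d := by
  cases b <;> simp only [turn, Bool.false_eq_true, if_false, if_true, rotR, rotL, nrm] <;> ring

/-- the finite list of unit directions. -/
def dirs : Finset Pt := {(1, 0), (0, 1), (-1, 1), (-1, 0), (0, -1), (1, -1)}

lemma abs_le_of_nrm {p : Pt} {k : ℤ} (_ : 0 ≤ k) (h : nrm p ≤ k ^ 2) :
    3 * p.1 ^ 2 ≤ 4 * k ^ 2 ∧ 3 * p.2 ^ 2 ≤ 4 * k ^ 2 := by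
  unfold nrm at h
  constructor
  · nlinarith [sq_nonneg (p.1 + 2 * p.2)]
  · nlinarith [sq_nonneg (2 * p.1 + p.2)]

lemma mem_dirs {d : Pt} : d ∈ dirs ↔ nrm d = 1 := by
  constructor
  · intro h
    revert d
    decide
  · intro h
    have h1 := abs_le_of_nrm (p := d) (k := 1) (by norm_num) (by linarith)
    obtain ⟨a, b⟩ := d
    have ha : -1 ≤ a ∧ a ≤ 1 := by constructor <;> nlinarith [h1.1]
    have hb : -1 ≤ b ∧ b ≤ 1 := by constructor <;> nlinarith [h1.2]
    obtain ⟨ha1, ha2⟩ := ha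
    obtain ⟨hb1, hb2⟩ := hb
    interval_cases a <;> interval_cases b <;> revert h <;> decide

/-- the secant square condition, in integers. -/
def Sep (A B C D : Pt) : Prop :=
  nrm ((B - A) - (D - C)) < nrm (C + D - A - B) ∧ nrm ((B - A) + (D - C)) < nrm (C + D - A - B)

lemma sep_rev2 {A B C D : Pt} (h : Sep A B C D) : Sep A B D C := by
  obtain ⟨h1, h2⟩ := h
  constructor
  · rw [show (B - A) - (C - D) = (B - A) + (D - C) by abel, show D + C - A - B = C + D - A - B by abel]
    exact h2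
  · rw [show (B - A) + (C - D) = (B - A) - (D - C) by abel, show D + C - A - B = C + D - A - B by abel]
    exact h1

lemma nrm_neg (p : Pt) : nrm (-p) = nrm p := by
  simp only [nrm, Prod.fst_neg, Prod.snd_neg]
  ring

lemma sep_swap {A B C D : Pt} (h : Sep A B C D) : Sep C D A B := by
  obtain ⟨h1, h2⟩ := h
  constructor
  · rw [show (D - C) - (B - A) = -((B - A) - (D - C)) by abel, show A + B - C - D = -(C + D - A - B) by abel,
      nrm_neg, nrm_neg]
    exact h1
  · rw [show (D - C) + (B - A) = ((B - A) + (D - C)) by abel, show A + B - C - D = -(C + D - A - B) by abel,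
      nrm_neg]
    exact h2

lemma sep_rev1 {A B C D : Pt} (h : Sep A B C D) : Sep B A C D := sep_swap (sep_rev2 (sep_swap h))

/-- finite check for two full edges. -/
lemma ff_check : ∀ u ∈ dirs, ∀ v ∈ dirs, ∀ a ∈ Finset.Icc (-2 : ℤ) 2, ∀ b ∈ Finset.Icc (-2 : ℤ) 2,
    cl u = cl v → cl (a, b) = 0 → (a, b) ≠ (0, 0) → (a, b) ≠ u - v →
    4 < nrm (2 * a + v.1 - u.1, 2 * b + v.2 - u.2) := by
  decide +kernel

lemma fh_check : ∀ u ∈ dirs, ∀ v ∈ dirs, ∀ a ∈ Finset.Icc (-2 : ℤ) 2, ∀ b ∈ Finset.Icc (-2 : ℤ) 2,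
    cl u = cl v → cl (a, b) = 0 → (a, b) ≠ (0, 0) →
    9 < nrm (4 * a + 2 * v.1 - u.1, 4 * b + 2 * v.2 - u.2) := by
  decide +kernel

lemma dir_bound {d : Pt} (h : d ∈ dirs) : -1 ≤ d.1 ∧ d.1 ≤ 1 ∧ -1 ≤ d.2 ∧ d.2 ≤ 1 := by
  revert d
  decide

lemma nrm_two (p : Pt) : nrm (p + p) = 4 * nrm p := by
  simp only [nrm, Prod.fst_add, Prod.snd_add]
  ring

lemma nrm_sub_check : ∀ u ∈ dirs, ∀ v ∈ dirs, nrm (u - v) ≤ 4 ∧ nrm (u + v) ≤ 4 ∧
    nrm (u - (v + v)) ≤ 9 ∧ nrm (u + (v + v)) ≤ 9 := by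
  decide +kernel

lemma nrm_sub_le {u v : Pt} (hu : u ∈ dirs) (hv : v ∈ dirs) : nrm (u - v) ≤ 4 ∧ nrm (u + v) ≤ 4 :=
  ⟨(nrm_sub_check u hu v hv).1, (nrm_sub_check u hu v hv).2.1⟩

lemma nrm_sub_le' {u v : Pt} (hu : u ∈ dirs) (hv : v ∈ dirs) :
    nrm (u - (v + v)) ≤ 9 ∧ nrm (u + (v + v)) ≤ 9 :=
  (nrm_sub_check u hu v hv).2.2

/-- two full edges without a common vertex, same classes. -/
lemma sep_ff {a c u v : Pt} (hu : u ∈ dirs) (hv : v ∈ dirs) (huv : cl u = cl v) (hac : cl a = cl c)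
    (h1 : a ≠ c) (h2 : a + u ≠ c + v) : Sep (a + a) (a + u + (a + u)) (c + c) (c + v + (c + v)) := by
  have key : 4 < nrm ((c - a) + (c - a) + v - u) := by
    by_contra hcon
    push Not at hcon
    have hb := abs_le_of_nrm (p := (c - a) + (c - a) + v - u) (k := 2) (by norm_num) (by linarith)
    obtain ⟨x, hx⟩ : ∃ x, x = c - a := ⟨_, rfl⟩
    rw [← hx] at hb hcon
    simp only [Prod.fst_add, Prod.snd_add, Prod.fst_sub, Prod.snd_sub] at hb
    have bu := dir_bound hu
    have bv := dir_bound hv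
    have e1 : -2 ≤ x.1 + x.1 + v.1 - u.1 ∧ x.1 + x.1 + v.1 - u.1 ≤ 2 := by
      constructor <;> nlinarith [hb.1]
    have e2 : -2 ≤ x.2 + x.2 + v.2 - u.2 ∧ x.2 + x.2 + v.2 - u.2 ≤ 2 := by
      constructor <;> nlinarith [hb.2]
    have hx1 : -2 ≤ x.1 ∧ x.1 ≤ 2 := by omega
    have hx2 : -2 ≤ x.2 ∧ x.2 ≤ 2 := by omega
    have := ff_check u hu v hv x.1 (Finset.mem_Icc.2 hx1) x.2 (Finset.mem_Icc.2 hx2) huv
      (by
        show cl x = 0
        rw [hx, cl_sub, hac, sub_self])
      (by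
        intro h
        apply h1
        have : x = 0 := h
        rw [hx] at this
        exact (sub_eq_zero.1 this).symm)
      (by
        intro h
        apply h2
        have : x = u - v := h
        rw [hx] at this
        have h3 : c + v = a + u := by
          rw [← sub_eq_zero]
          have : c - a - (u - v) = 0 := sub_eq_zero.2 this
          rw [← this]
          abel
        exact h3.symm)
    have e3 : nrm (x + x + v - u) = nrm (2 * x.1 + v.1 - u.1, 2 * x.2 + v.2 - u.2) := by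
      simp only [nrm, Prod.fst_add, Prod.snd_add, Prod.fst_sub, Prod.snd_sub]
      ring
    rw [e3] at hcon
    linarith
  have hb := nrm_sub_le hu hv
  have eS : c + c + (c + v + (c + v)) - (a + a) - (a + u + (a + u)) =
      ((c - a) + (c - a) + v - u) + ((c - a) + (c - a) + v - u) := by abel
  constructor
  · rw [eS, nrm_two, show (a + u + (a + u) - (a + a)) - (c + v + (c + v) - (c + c)) = (u - v) + (u - v) by abel,
      nrm_two]
    linarith [hb.1]
  · rw [eS, nrm_two, show (a + u + (a + u) - (a + a)) + (c + v + (c + v) - (c + c)) = (u + v) + (u + v) by abel,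
      nrm_two]
    linarith [hb.2]

/-- a half edge at p (direction h) and a full edge from c (direction v), p not on the full edge, same classes. -/
lemma sep_fh {p c h v : Pt} (hh : h ∈ dirs) (hv : v ∈ dirs) (huv : cl h = cl v) (hac : cl p = cl c)
    (h1 : p ≠ c) : Sep (c + c) (c + v + (c + v)) (p + p) (p + p + h) := by
  have key : 9 < nrm ((c - p) + (c - p) + (c - p) + (c - p) + v + v - h) := by
    by_contra hcon
    push Not at hcon
    have hb := abs_le_of_nrm (p := (c - p) + (c - p) + (c - p) + (c - p) + v + v - h) (k := 3) (by norm_num)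
      (by linarith)
    obtain ⟨x, hx⟩ : ∃ x, x = c - p := ⟨_, rfl⟩
    rw [← hx] at hb hcon
    simp only [Prod.fst_add, Prod.snd_add, Prod.fst_sub, Prod.snd_sub] at hb
    have bu := dir_bound hh
    have bv := dir_bound hv
    have e1 : -3 ≤ x.1 + x.1 + x.1 + x.1 + v.1 + v.1 - h.1 ∧ x.1 + x.1 + x.1 + x.1 + v.1 + v.1 - h.1 ≤ 3 := by
      constructor <;> nlinarith [hb.1]
    have e2 : -3 ≤ x.2 + x.2 + x.2 + x.2 + v.2 + v.2 - h.2 ∧ x.2 + x.2 + x.2 + x.2 + v.2 + v.2 - h.2 ≤ 3 := by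
      constructor <;> nlinarith [hb.2]
    have hx1 : -2 ≤ x.1 ∧ x.1 ≤ 2 := by omega
    have hx2 : -2 ≤ x.2 ∧ x.2 ≤ 2 := by omega
    have := fh_check h hh v hv x.1 (Finset.mem_Icc.2 hx1) x.2 (Finset.mem_Icc.2 hx2) huv
      (by
        show cl x = 0
        rw [hx, cl_sub, hac, sub_self])
      (by
        intro h0
        apply h1
        have : x = 0 := h0
        rw [hx] at this
        exact (sub_eq_zero.1 this).symm)
    have e3 : nrm (x + x + x + x + v + v - h) = nrm (4 * x.1 + 2 * v.1 - h.1, 4 * x.2 + 2 * v.2 - h.2) := by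
      simp only [nrm, Prod.fst_add, Prod.snd_add, Prod.fst_sub, Prod.snd_sub]
      ring
    rw [e3] at hcon
    linarith
  have hb := nrm_sub_le' hh hv
  have eS : p + p + (p + p + h) - (c + c) - (c + v + (c + v)) =
      -((c - p) + (c - p) + (c - p) + (c - p) + v + v - h) := by abel
  constructor
  · rw [eS, nrm_neg, show (c + v + (c + v) - (c + c)) - (p + p + h - (p + p)) = -(h - (v + v)) by abel, nrm_neg]
    linarith [hb.1]
  · rw [eS, nrm_neg, show (c + v + (c + v) - (c + c)) + (p + p + h - (p + p)) = h + (v + v) by abel]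
    linarith [hb.2]

end HexObs
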