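import Pool.Agent.HexObs.Swap
import Pool.Agent.HexObs.Cut2

set_option autoImplicit false

namespace HexObs

open Complex Finset ENNReal

/-- the domain without the obstacle X. -/
noncomputable def slit (Ω : Finset Pt) (X : Set Pt) : Finset Pt := by
  classical exact Ω.filter (fun p => p ∉ X)

lemma mem_slit {Ω : Finset Pt} {X : Set Pt} {p : Pt} : p ∈ slit Ω X ↔ p ∈ Ω ∧ p ∉ X := by
  classical
  unfold slit
  rw [Finset.mem_filter]

lemma slit_coe (Ω : Finset Pt) (X : Set Pt) : ((slit Ω X : Finset Pt) : Set Pt) = (Ω : Set Pt) \ X := by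
  ext p
  rw [Finset.mem_coe, mem_slit]
  exact Iff.rfl

/-- the words of a family, among the walks of the domain. -/
noncomputable def fam (Ω : Finset Pt) (v d0 : Pt) (D : Set (List Bool)) : Finset (List Bool) := by
  classical exact (arr Ω v d0).filter (fun t => t ∈ D)

lemma mem_fam {Ω : Finset Pt} {v d0 : Pt} {D : Set (List Bool)} {t : List Bool} :
    t ∈ fam Ω v d0 D ↔ IsArr Ω v d0 t ∧ t ∈ D := by
  classical
  unfold fam
  rw [Finset.mem_filter, mem_arr]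

lemma saw_slit {Ω : Finset Pt} {X : Set Pt} {v d0 : Pt} {t : List Bool} :
    Saw ((Ω : Set Pt) \ X) v d0 t ↔ IsArr (slit Ω X) v d0 t := by
  rw [← slit_coe]
  exact saw_coe

lemma saw_arr {Ω : Finset Pt} {X : Set Pt} {v d0 : Pt} {t : List Bool} (h : Saw ((Ω : Set Pt) \ X) v d0 t) :
    IsArr Ω v d0 t := ⟨fun i hi hil => (h.mem i hi hil).1, h.inj⟩

/-- walks that leave the domain neither upwards nor downwards. -/
def Lat (Ω X : Set Pt) (v d0 : Pt) : Set (List Bool) :=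
  {t | Saw (Ω \ X) v d0 t ∧ tip v d0 t ∉ Ω ∧ dx d0 t t.length ≠ d0 ∧ dx d0 t t.length ≠ -d0}

/-- families of walks of the domain. -/
def InArr (Ω : Finset Pt) (v d0 : Pt) (D : Set (List Bool)) : Prop := ∀ t ∈ D, IsArr Ω v d0 t

lemma br_arr (Ω : Finset Pt) (X : Set Pt) (v d0 : Pt) : InArr Ω v d0 (Br (Ω : Set Pt) X v d0) := fun _ h => saw_arr h.1
lemma dn_arr (Ω : Finset Pt) (X : Set Pt) (v d0 : Pt) : InArr Ω v d0 (Dn (Ω : Set Pt) X v d0) := fun _ h => saw_arr h.1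
lemma dnl_arr (Ω : Finset Pt) (X : Set Pt) (v d0 : Pt) : InArr Ω v d0 (DnL (Ω : Set Pt) X v d0) :=
  fun _ h => saw_arr h.1.1
lemma dnr_arr (Ω : Finset Pt) (X : Set Pt) (v d0 : Pt) : InArr Ω v d0 (DnR (Ω : Set Pt) X v d0) :=
  fun _ h => saw_arr h.1.1
lemma lat_arr (Ω : Finset Pt) (X : Set Pt) (v d0 : Pt) : InArr Ω v d0 (Lat (Ω : Set Pt) X v d0) := fun _ h => saw_arr h.1

/-- the weight of a family, as a real number. -/
noncomputable def gr (Ω : Finset Pt) (v d0 : Pt) (D : Set (List Bool)) : ℝ := ∑ t ∈ fam Ω v d0 D, xc ^ t.length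

lemma fam_coe {Ω : Finset Pt} {v d0 : Pt} {D : Set (List Bool)} (hD : InArr Ω v d0 D) :
    ((fam Ω v d0 D : Finset (List Bool)) : Set (List Bool)) = D := by
  ext t
  rw [Finset.mem_coe, mem_fam]
  exact ⟨fun h => h.2, fun h => ⟨hD t h, h⟩⟩

lemma gf_fam {Ω : Finset Pt} {v d0 : Pt} {D : Set (List Bool)} (hD : InArr Ω v d0 D) :
    gf D = ENNReal.ofReal (gr Ω v d0 D) := by
  have := gf_finset (fam Ω v d0 D)
  rwa [fam_coe hD] at this

lemma gr_nonneg (Ω : Finset Pt) (v d0 : Pt) (D : Set (List Bool)) : 0 ≤ gr Ω v d0 D :=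
  Finset.sum_nonneg (fun _ _ => pow_nonneg xc_pos.le _)

lemma gf_toReal {Ω : Finset Pt} {v d0 : Pt} {D : Set (List Bool)} (hD : InArr Ω v d0 D) :
    (gf D).toReal = gr Ω v d0 D := by
  rw [gf_fam hD, ENNReal.toReal_ofReal (gr_nonneg _ _ _ _)]

lemma gf_ne_top {Ω : Finset Pt} {v d0 : Pt} {D : Set (List Bool)} (hD : InArr Ω v d0 D) : gf D ≠ ∞ := by
  rw [gf_fam hD]
  exact ENNReal.ofReal_ne_top

/-- the real form of overBr. -/
noncomputable def ob (Ω : Finset Pt) (v d0 : Pt) (F : Set Pt → ℝ) (X : Set Pt) : ℝ :=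
  ∑ s ∈ fam Ω v d0 (Br (Ω : Set Pt) X v d0), xc ^ s.length * F (X ∪ vis v d0 s)

lemma mem_brF {Ω : Finset Pt} {X : Set Pt} {v d0 : Pt} {t : List Bool} :
    t ∈ fam Ω v d0 (Br (Ω : Set Pt) X v d0) ↔ t ∈ Br (Ω : Set Pt) X v d0 := by
  rw [mem_fam]
  exact ⟨fun h => h.2, fun h => ⟨br_arr _ _ _ _ _ h, h⟩⟩

lemma overBr_sum (Ω : Finset Pt) (v d0 : Pt) (F : Set Pt → ℝ≥0∞) (X : Set Pt) :
    overBr (Ω : Set Pt) v d0 F X = ∑ s ∈ fam Ω v d0 (Br (Ω : Set Pt) X v d0), wE s * F (X ∪ vis v d0 s) := by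
  unfold overBr
  rw [tsum_eq_sum (s := fam Ω v d0 (Br (Ω : Set Pt) X v d0))]
  · apply Finset.sum_congr rfl
    intro s hs
    rw [Set.indicator_of_mem (mem_brF.1 hs)]
  · intro s hs
    rw [Set.indicator_of_notMem (fun h => hs (mem_brF.2 h))]

lemma overBr_ne_top (Ω : Finset Pt) (v d0 : Pt) (F : Set Pt → ℝ≥0∞) (hF : ∀ Y, F Y ≠ ∞) (X : Set Pt) :
    overBr (Ω : Set Pt) v d0 F X ≠ ∞ := by
  rw [overBr_sum]
  apply ENNReal.sum_ne_top.2
  intro s _
  exact ENNReal.mul_ne_top (wE_ne_top s) (hF _)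

lemma wE_toReal (t : List Bool) : (wE t).toReal = xc ^ t.length := by
  unfold wE
  rw [ENNReal.toReal_ofReal (pow_nonneg xc_pos.le _)]

lemma overBr_toReal (Ω : Finset Pt) (v d0 : Pt) (F : Set Pt → ℝ≥0∞) (hF : ∀ Y, F Y ≠ ∞) (X : Set Pt) :
    (overBr (Ω : Set Pt) v d0 F X).toReal = ob Ω v d0 (fun Y => (F Y).toReal) X := by
  rw [overBr_sum, ENNReal.toReal_sum]
  · unfold ob
    apply Finset.sum_congr rfl
    intro s _
    rw [ENNReal.toReal_mul, wE_toReal]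
  · intro s _
    exact ENNReal.mul_ne_top (wE_ne_top s) (hF _)

lemma ob_add (Ω : Finset Pt) (v d0 : Pt) (F G : Set Pt → ℝ) (X : Set Pt) :
    ob Ω v d0 (fun Y => F Y + G Y) X = ob Ω v d0 F X + ob Ω v d0 G X := by
  unfold ob
  rw [← Finset.sum_add_distrib]
  apply Finset.sum_congr rfl
  intro s _
  ring

lemma ob_mul (Ω : Finset Pt) (v d0 : Pt) (c : ℝ) (F : Set Pt → ℝ) (X : Set Pt) :
    ob Ω v d0 (fun Y => c * F Y) X = c * ob Ω v d0 F X := by
  unfold ob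
  rw [Finset.mul_sum]
  apply Finset.sum_congr rfl
  intro s _
  ring

lemma ob_mono (Ω : Finset Pt) (v d0 : Pt) (F G : Set Pt → ℝ) (X : Set Pt) (h : ∀ Y, F Y ≤ G Y) :
    ob Ω v d0 F X ≤ ob Ω v d0 G X := by
  unfold ob
  apply Finset.sum_le_sum
  intro s _
  exact mul_le_mul_of_nonneg_left (h _) (pow_nonneg xc_pos.le _)

/-- two bridges, in any order. -/
lemma mem_br_swap {Ω X : Set Pt} {v w d0 : Pt} {s t : List Bool} :
    (s ∈ Br Ω X v d0 ∧ t ∈ Br Ω (X ∪ vis v d0 s) w d0) ↔ (t ∈ Br Ω X w d0 ∧ s ∈ Br Ω (X ∪ vis w d0 t) v d0) := by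
  rw [mem_br (t := s) (X := X), mem_br (t := t) (X := X ∪ vis v d0 s), mem_br (t := t) (X := X),
    mem_br (t := s) (X := X ∪ vis w d0 t), Set.disjoint_union_left, Set.disjoint_union_left]
  constructor
  · rintro ⟨⟨a1, a2⟩, b1, b2, b3⟩
    exact ⟨⟨b1, b2⟩, a1, a2, b3.symm⟩
  · rintro ⟨⟨a1, a2⟩, b1, b2, b3⟩
    exact ⟨⟨b1, b2⟩, a1, a2, b3.symm⟩

/-- double sums over two bridges. -/
lemma sum_br_comm (Ω : Finset Pt) (X : Set Pt) (v w d0 : Pt) (h : List Bool → List Bool → ℝ) :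
    ∑ s ∈ fam Ω v d0 (Br (Ω : Set Pt) X v d0), ∑ t ∈ fam Ω w d0 (Br (Ω : Set Pt) (X ∪ vis v d0 s) w d0), h s t =
    ∑ t ∈ fam Ω w d0 (Br (Ω : Set Pt) X w d0), ∑ s ∈ fam Ω v d0 (Br (Ω : Set Pt) (X ∪ vis w d0 t) v d0), h s t := by
  apply Finset.sum_comm'
  intro s t
  rw [mem_brF, mem_brF, mem_brF, mem_brF]
  exact mem_br_swap.trans and_comm

/-- the explorer from p with the obstacles X and Y stops on Y. -/
noncomputable def hitF (Ω : Finset Pt) (X Y : Set Pt) (p d0 : Pt) : Finset (List Bool) :=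
  fam (slit Ω (X ∪ Y)) p d0 {u | tip p d0 u ∈ Y}

lemma mem_hitF {Ω : Finset Pt} {X Y : Set Pt} {p d0 : Pt} {u : List Bool} :
    u ∈ hitF Ω X Y p d0 ↔ Saw ((Ω : Set Pt) \ (X ∪ Y)) p d0 u ∧ tip p d0 u ∈ Y := by
  unfold hitF
  rw [mem_fam, saw_slit]
  exact Iff.rfl

/-- the explorer leaves the domain. -/
noncomputable def freeF (Ω : Finset Pt) (X : Set Pt) (p d0 : Pt) : Finset (List Bool) :=
  fam (slit Ω X) p d0 {u | tip p d0 u ∉ Ω}

lemma mem_freeF {Ω : Finset Pt} {X : Set Pt} {p d0 : Pt} {u : List Bool} :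
    u ∈ freeF Ω X p d0 ↔ Saw ((Ω : Set Pt) \ X) p d0 u ∧ tip p d0 u ∉ Ω := by
  unfold freeF
  rw [mem_fam, saw_slit]
  exact Iff.rfl

/-- the exits of the slit domain. -/
lemma slit_exits (Ω : Finset Pt) {X Y : Set Pt} (hXY : Disjoint X Y) (hX : X ⊆ Ω) (hY : Y ⊆ Ω) (p d0 : Pt)
    (g : List Bool → ℝ) :
    ∑ u ∈ exits (slit Ω (X ∪ Y)) p d0, g u =
      ∑ u ∈ freeF Ω (X ∪ Y) p d0, g u + ∑ u ∈ hitF Ω Y X p d0, g u + ∑ u ∈ hitF Ω X Y p d0, g u := by
  classical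
  have e : exits (slit Ω (X ∪ Y)) p d0 = (freeF Ω (X ∪ Y) p d0 ∪ hitF Ω Y X p d0) ∪ hitF Ω X Y p d0 := by
    ext u
    rw [mem_exits, Finset.mem_union, Finset.mem_union, mem_freeF, mem_hitF, mem_hitF, ← saw_slit, mem_slit,
      Set.union_comm Y X]
    constructor
    · rintro ⟨h1, h2⟩
      by_cases h3 : tip p d0 u ∈ Ω
      · have h4 : tip p d0 u ∈ X ∪ Y := by
          by_contra h5
          exact h2 ⟨h3, h5⟩
        rcases h4 with h4 | h4
        · exact Or.inl (Or.inr ⟨h1, h4⟩)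
        · exact Or.inr ⟨h1, h4⟩
      · exact Or.inl (Or.inl ⟨h1, h3⟩)
    · rintro ((⟨h1, h2⟩ | ⟨h1, h2⟩) | ⟨h1, h2⟩)
      · exact ⟨h1, fun h => h2 h.1⟩
      · exact ⟨h1, fun h => h.2 (Or.inl h2)⟩
      · exact ⟨h1, fun h => h.2 (Or.inr h2)⟩
  rw [e, Finset.sum_union, Finset.sum_union]
  · rw [Finset.disjoint_left]
    intro u h1 h2
    rw [mem_freeF] at h1
    rw [mem_hitF] at h2
    exact h1.2 (hX h2.2)
  · rw [Finset.disjoint_left]
    intro u h1 h2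
    rw [mem_hitF] at h2
    rw [Finset.mem_union, mem_freeF, mem_hitF] at h1
    rcases h1 with h1 | h1
    · exact h1.2 (hY h2.2)
    · exact Set.disjoint_left.1 hXY h1.2 h2.2

lemma vis_sub {Ω X : Set Pt} {v d0 : Pt} {s : List Bool} (h : s ∈ Br Ω X v d0) : vis v d0 s ⊆ Ω := by
  rintro p ⟨i, hi, hil, rfl⟩
  exact (h.1.mem i hi hil).1

/-- the identity with a phase. -/
theorem identity_phase (Ω : Finset Pt) {v0 d0 : Pt} (h0 : d0 ∈ dirs) (hhalf : ∀ v ∈ Ω, 0 < ip (v - v0) d0) (m : ℝ) :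
    ∑ t ∈ exits Ω v0 d0, xc ^ t.length * Real.sin ((m + wind t) * (Real.pi / 8)) = Real.sin (m * (Real.pi / 8)) := by
  have h1 := identity_re Ω h0 hhalf
  have h2 := identity_im Ω h0 hhalf
  have e : ∑ t ∈ exits Ω v0 d0, xc ^ t.length * Real.sin ((m + wind t) * (Real.pi / 8)) =
      Real.sin (m * (Real.pi / 8)) * ∑ t ∈ exits Ω v0 d0, Real.cos (wind t * (Real.pi / 8)) * xc ^ t.length +
      Real.cos (m * (Real.pi / 8)) * ∑ t ∈ exits Ω v0 d0, Real.sin (wind t * (Real.pi / 8)) * xc ^ t.length := by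
    rw [Finset.mul_sum, Finset.mul_sum, ← Finset.sum_add_distrib]
    apply Finset.sum_congr rfl
    intro t _
    rw [add_mul, Real.sin_add]
    ring
  rw [e, h1, h2]
  ring

/-- walker from q, explorer from p that stops on the walker; X is a further obstacle. -/
noncomputable def Zh (Ω : Finset Pt) (X : Set Pt) (p q d0 : Pt) (f : ℤ → ℝ) : ℝ :=
  ∑ s ∈ fam Ω q d0 (Br (Ω : Set Pt) X q d0), ∑ u ∈ hitF Ω X (vis q d0 s) p d0,
    xc ^ (s.length + u.length) * f (wind u)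

/-- the position of a vertex on a walk. -/
noncomputable def pos (v d0 : Pt) (s : List Bool) (x : Pt) : ℕ := by
  classical
  exact if h : ∃ i, 1 ≤ i ∧ i ≤ s.length ∧ vx v d0 s i = x then Nat.find h else 0

lemma pos_spec {v d0 : Pt} {s : List Bool} {x : Pt} (h : x ∈ vis v d0 s) :
    1 ≤ pos v d0 s x ∧ pos v d0 s x ≤ s.length ∧ vx v d0 s (pos v d0 s x) = x := by
  classical
  have h' : ∃ i, 1 ≤ i ∧ i ≤ s.length ∧ vx v d0 s i = x := h
  unfold pos
  rw [dif_pos h']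
  exact Nat.find_spec h'

lemma pos_unique {Ω : Set Pt} {v d0 : Pt} {s : List Bool} {x : Pt} (hs : Saw Ω v d0 s) {j : ℕ} (h1 : 1 ≤ j)
    (h2 : j ≤ s.length) (h3 : vx v d0 s j = x) : pos v d0 s x = j := by
  obtain ⟨a1, a2, a3⟩ := pos_spec (v := v) (d0 := d0) (s := s) (x := x) ⟨j, h1, h2, h3⟩
  rcases lt_trichotomy (pos v d0 s x) j with h | h | h
  · exact absurd (a3.trans h3.symm) (hs.inj _ _ h h2)
  · exact h
  · exact absurd (h3.trans a3.symm) (hs.inj _ _ h a2)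

/-- the theta swap of a walker from q (first word) and an explorer from p (second word). -/
noncomputable def swp (q p d0 : Pt) (a : List Bool × List Bool) : List Bool × List Bool :=
  (a.2 ++ ([!(tf a.1 (pos q d0 a.1 (tip p d0 a.2) - 1))] ++ a.1.drop (pos q d0 a.1 (tip p d0 a.2))),
    a.1.take (pos q d0 a.1 (tip p d0 a.2) - 1))

/-- the theta swap in terms of the pieces. -/
lemma swp_eq {Ω X : Set Pt} {p q d0 : Pt} {l r m : List Bool} {c : Bool}
    (hs : r ++ ([c] ++ m) ∈ Br Ω X q d0) (ht : tip p d0 l = tip q d0 r) :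
    swp q p d0 (r ++ ([c] ++ m), l) = (l ++ ([!c] ++ m), r) := by
  have hp : pos q d0 (r ++ ([c] ++ m)) (tip p d0 l) = r.length + 1 := by
    apply pos_unique hs.1 (by omega)
    · simp only [List.length_append, List.length_singleton]
      omega
    · rw [vx_append le_rfl, ht]
      rfl
  unfold swp
  simp only [hp, Nat.add_sub_cancel]
  have e1 : tf (r ++ ([c] ++ m)) r.length = c := by
    have := tf_append_right (t := r) (s := [c] ++ m) 0
    rw [add_zero] at this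
    rw [this]
    rfl
  have e2 : (r ++ ([c] ++ m)).drop (r.length + 1) = m := by
    rw [← List.append_assoc]
    have : r.length + 1 = (r ++ [c]).length := by simp
    rw [this, List.drop_left]
  rw [e1, e2, List.take_left]

/-- every hit comes from pieces. -/
lemma hit_pieces {Ω X : Set Pt} {p q d0 : Pt} {s u : List Bool} (_hs : s ∈ Br Ω X q d0)
    (_hu : Saw (Ω \ (X ∪ vis q d0 s)) p d0 u) (ht : tip p d0 u ∈ vis q d0 s) :
    ∃ r c m, s = r ++ ([c] ++ m) ∧ tip p d0 u = tip q d0 r := by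
  obtain ⟨i, hi, hil, hv⟩ := ht
  have h1 := take_split (t := s) (i := i - 1) (by omega)
  refine ⟨s.take (i - 1), tf s (i - 1), s.drop (i - 1 + 1), h1, ?_⟩
  have h2 : (s.take (i - 1)).length = i - 1 := by
    rw [List.length_take]
    omega
  have h3 : vx q d0 s i = vx q d0 (s.take (i - 1)) i := by
    conv_lhs => rw [h1]
    exact vx_append (by omega)
  rw [← hv, h3]
  show _ = vx q d0 (s.take (i - 1)) ((s.take (i - 1)).length + 1)
  congr 1
  omega

/-- THE SWAP: q is on the right of p. -/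
theorem swap_sum {Ω : Finset Pt} {X : Set Pt} {p q d0 : Pt} (hp : GoodDom Ω p d0) (hq : GoodDom Ω q d0)
    (hpq : ip (q - p) d0 = 0) (hcl : cl p = cl q) (hright : cross d0 (q - p) < 0) (f : ℤ → ℝ) :
    Zh Ω X q p d0 f = Zh Ω X p q d0 (fun w => f (w + 2)) := by
  have hne : p ≠ q := by
    rintro rfl
    rw [sub_self] at hright
    simp [cross] at hright
  have hqp : ip (p - q) d0 = 0 := by
    have e : p - q = -(q - p) := by abel
    rw [e, ip_neg_left, hpq, neg_zero]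
  unfold Zh
  rw [Finset.sum_sigma', Finset.sum_sigma']
  symm
  refine Finset.sum_bij' (fun a _ => ⟨(swp q p d0 (a.1, a.2)).1, (swp q p d0 (a.1, a.2)).2⟩)
    (fun a _ => ⟨(swp p q d0 (a.1, a.2)).1, (swp p q d0 (a.1, a.2)).2⟩) ?_ ?_ ?_ ?_ ?_
  · rintro ⟨s, u⟩ ha
    rw [Finset.mem_sigma] at ha
    simp only at ha
    rw [mem_brF, mem_hitF] at ha
    obtain ⟨hs, hu, ht⟩ := ha
    obtain ⟨r, c, m, rfl, ht'⟩ := hit_pieces hs hu ht
    obtain ⟨_, _, h1, h2⟩ := swap_geo hp.dir (fun v hv => hp.half v hv) hpq hne hcl hs hu ht'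
    rw [Finset.mem_sigma]
    simp only [swp_eq hs ht']
    rw [mem_brF, mem_hitF]
    refine ⟨h1, h2, u.length + 1, by omega, by simp, ?_⟩
    rw [vx_append le_rfl, ← ht']
    rfl
  · rintro ⟨s, u⟩ ha
    rw [Finset.mem_sigma] at ha
    simp only at ha
    rw [mem_brF, mem_hitF] at ha
    obtain ⟨hs, hu, ht⟩ := ha
    obtain ⟨r, c, m, rfl, ht'⟩ := hit_pieces hs hu ht
    obtain ⟨_, _, h1, h2⟩ := swap_geo hq.dir (fun v hv => hq.half v hv) hqp hne.symm hcl.symm hs hu ht'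
    rw [Finset.mem_sigma]
    simp only [swp_eq hs ht']
    rw [mem_brF, mem_hitF]
    refine ⟨h1, h2, u.length + 1, by omega, by simp, ?_⟩
    rw [vx_append le_rfl, ← ht']
    rfl
  · rintro ⟨s, u⟩ ha
    rw [Finset.mem_sigma] at ha
    simp only at ha
    rw [mem_brF, mem_hitF] at ha
    obtain ⟨hs, hu, ht⟩ := ha
    obtain ⟨r, c, m, rfl, ht'⟩ := hit_pieces hs hu ht
    obtain ⟨_, _, h1, h2⟩ := swap_geo hp.dir (fun v hv => hp.half v hv) hpq hne hcl hs hu ht'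
    simp only [swp_eq hs ht', swp_eq h1 ht'.symm, Bool.not_not]
  · rintro ⟨s, u⟩ ha
    rw [Finset.mem_sigma] at ha
    simp only at ha
    rw [mem_brF, mem_hitF] at ha
    obtain ⟨hs, hu, ht⟩ := ha
    obtain ⟨r, c, m, rfl, ht'⟩ := hit_pieces hs hu ht
    obtain ⟨_, _, h1, h2⟩ := swap_geo hq.dir (fun v hv => hq.half v hv) hqp hne.symm hcl.symm hs hu ht'
    simp only [swp_eq hs ht', swp_eq h1 ht'.symm, Bool.not_not]
  · rintro ⟨s, u⟩ ha
    rw [Finset.mem_sigma] at ha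
    simp only at ha
    rw [mem_brF, mem_hitF] at ha
    obtain ⟨hs, hu, ht⟩ := ha
    obtain ⟨r, c, m, rfl, ht'⟩ := hit_pieces hs hu ht
    have hw := swap_wind hp hq hpq hcl hright hs hu ht'
    simp only [swp_eq hs ht']
    rw [hw]
    congr 2
    simp only [List.length_append, List.length_singleton]
    omega

end HexObs
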