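import Pool.Agent.HexObs.Slit
import Pool.Agent.HexObs.Planar

set_option autoImplicit false

namespace HexObs

open Complex Finset ENNReal

/-- sum over the free exits. -/
noncomputable def fr (Ω : Finset Pt) (p d0 : Pt) (f : ℤ → ℝ) (Y : Set Pt) : ℝ :=
  ∑ u ∈ freeF Ω Y p d0, xc ^ u.length * f (wind u)

lemma sum_exits_pair (Ω : Finset Pt) {X Y : Set Pt} (hXY : Disjoint X Y) (hX : X ⊆ Ω) (hY : Y ⊆ Ω) (p d0 : Pt)
    (f : ℤ → ℝ) (c : ℝ) (hc : ∑ u ∈ exits (slit Ω (X ∪ Y)) p d0, xc ^ u.length * f (wind u) = c) :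
    c = fr Ω p d0 f (X ∪ Y) + ∑ u ∈ hitF Ω Y X p d0, xc ^ u.length * f (wind u) +
      ∑ u ∈ hitF Ω X Y p d0, xc ^ u.length * f (wind u) := by
  rw [← hc, slit_exits Ω hXY hX hY]
  rfl

/-- THE SLIT IDENTITY: explorer from p, walkers from q and r. -/
theorem slit3 {Ω : Finset Pt} {p d0 : Pt} (hp : GoodDom Ω p d0) (q r : Pt) (m : ℝ) :
    Real.sin (m * (Real.pi / 8)) * ob Ω q d0 (fun Y => gr Ω r d0 (Br (Ω : Set Pt) Y r d0)) ∅ =
      ob Ω q d0 (ob Ω r d0 (fr Ω p d0 (fun w => Real.sin ((m + w) * (Real.pi / 8))))) ∅ +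
      ∑ t ∈ fam Ω r d0 (Br (Ω : Set Pt) ∅ r d0), xc ^ t.length *
        Zh Ω (vis r d0 t) p q d0 (fun w => Real.sin ((m + w) * (Real.pi / 8))) +
      ∑ s ∈ fam Ω q d0 (Br (Ω : Set Pt) ∅ q d0), xc ^ s.length *
        Zh Ω (vis q d0 s) p r d0 (fun w => Real.sin ((m + w) * (Real.pi / 8))) := by
  set f : ℤ → ℝ := fun w => Real.sin ((m + w) * (Real.pi / 8)) with hf
  have hcomm := sum_br_comm Ω ∅ q r d0 (fun s t => ∑ u ∈ hitF Ω (vis r d0 t) (vis q d0 s) p d0,
    xc ^ (s.length + t.length + u.length) * f (wind u))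
  have e1 : ∑ t ∈ fam Ω r d0 (Br (Ω : Set Pt) ∅ r d0), xc ^ t.length * Zh Ω (vis r d0 t) p q d0 f =
      ∑ t ∈ fam Ω r d0 (Br (Ω : Set Pt) ∅ r d0), ∑ s ∈ fam Ω q d0 (Br (Ω : Set Pt) (∅ ∪ vis r d0 t) q d0),
        ∑ u ∈ hitF Ω (vis r d0 t) (vis q d0 s) p d0, xc ^ (s.length + t.length + u.length) * f (wind u) := by
    apply Finset.sum_congr rfl
    intro t _
    unfold Zh
    rw [Set.empty_union, Finset.mul_sum]
    apply Finset.sum_congr rfl
    intro s _
    rw [Finset.mul_sum]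
    apply Finset.sum_congr rfl
    intro u _
    ring
  rw [e1, ← hcomm]
  unfold ob gr Zh
  simp only [Finset.mul_sum]
  rw [← Finset.sum_add_distrib, ← Finset.sum_add_distrib]
  apply Finset.sum_congr rfl
  intro s hs
  rw [mem_brF] at hs
  simp only [Set.empty_union]
  rw [← Finset.sum_add_distrib, ← Finset.sum_add_distrib]
  apply Finset.sum_congr rfl
  intro t ht
  rw [mem_brF] at ht
  have hdis : Disjoint (vis q d0 s) (vis r d0 t) := (mem_br.1 ht).2
  have hid := identity_phase (slit Ω (vis q d0 s ∪ vis r d0 t)) hp.dir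
    (fun v hv => hp.half v (mem_slit.1 hv).1) m
  have key := sum_exits_pair Ω hdis (vis_sub hs) (vis_sub ht) p d0 f _ hid
  have e2 : ∑ u ∈ hitF Ω (vis r d0 t) (vis q d0 s) p d0, xc ^ (s.length + t.length + u.length) * f (wind u) =
      xc ^ s.length * xc ^ t.length * ∑ u ∈ hitF Ω (vis r d0 t) (vis q d0 s) p d0, xc ^ u.length * f (wind u) := by
    rw [Finset.mul_sum]
    apply Finset.sum_congr rfl
    intro u _
    ring
  have e3 : ∑ u ∈ hitF Ω (vis q d0 s) (vis r d0 t) p d0, xc ^ s.length * (xc ^ (t.length + u.length) * f (wind u)) =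
      xc ^ s.length * xc ^ t.length * ∑ u ∈ hitF Ω (vis q d0 s) (vis r d0 t) p d0, xc ^ u.length * f (wind u) := by
    rw [Finset.mul_sum]
    apply Finset.sum_congr rfl
    intro u _
    ring
  rw [e2, e3, key]
  ring

/-- the free exits by type. -/
lemma fr_eq {Ω : Finset Pt} {p d0 : Pt} (hp : GoodDom Ω p d0) (f : ℤ → ℝ) (Y : Set Pt) :
    fr Ω p d0 f Y = f 0 * gr Ω p d0 (Br (Ω : Set Pt) Y p d0) + f 3 * gr Ω p d0 (DnL (Ω : Set Pt) Y p d0) +
      f (-3) * gr Ω p d0 (DnR (Ω : Set Pt) Y p d0) +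
      ∑ u ∈ fam Ω p d0 (Lat (Ω : Set Pt) Y p d0), xc ^ u.length * f (wind u) := by
  classical
  obtain ⟨⟨a1, a2, a3, a4, a5⟩, ⟨b1, b2, b3, b4⟩, ⟨c1, c2, c3⟩, ⟨e1, e2⟩, f1⟩ := dirs_distinct d0 hp.dir
  have k1 : fam Ω p d0 (Br (Ω : Set Pt) Y p d0) = (freeF Ω Y p d0).filter (fun u => u ∈ Br (Ω : Set Pt) Y p d0) := by
    ext u
    rw [Finset.mem_filter, mem_brF, mem_freeF]
    exact ⟨fun h => ⟨⟨h.1, h.2.1⟩, h⟩, fun h => h.2⟩
  have k2 : ∀ D : Set (List Bool), D ⊆ {u | Saw ((Ω : Set Pt) \ Y) p d0 u ∧ tip p d0 u ∉ (Ω : Set Pt)} →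
      fam Ω p d0 D = (freeF Ω Y p d0).filter (fun u => u ∈ D) := by
    intro D hD
    ext u
    rw [Finset.mem_filter, mem_fam, mem_freeF]
    exact ⟨fun h => ⟨hD h.2, h.2⟩, fun h => ⟨saw_arr h.1.1, h.2⟩⟩
  have k3 := k2 (DnL (Ω : Set Pt) Y p d0) (fun u h => ⟨h.1.1, h.1.2.1⟩)
  have k4 := k2 (DnR (Ω : Set Pt) Y p d0) (fun u h => ⟨h.1.1, h.1.2.1⟩)
  have k5 := k2 (Lat (Ω : Set Pt) Y p d0) (fun u h => ⟨h.1, h.2.1⟩)
  unfold fr gr
  rw [k1, k3, k4, k5, Finset.mul_sum, Finset.mul_sum, Finset.mul_sum]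
  simp only [Finset.sum_filter]
  rw [← Finset.sum_add_distrib, ← Finset.sum_add_distrib, ← Finset.sum_add_distrib]
  apply Finset.sum_congr rfl
  intro u hu
  rw [mem_freeF] at hu
  obtain ⟨h1, h2⟩ := hu
  have hex : u ∈ exits Ω p d0 := mem_exits.2 ⟨saw_arr h1, h2⟩
  have h2' : tip p d0 u ∉ (Ω : Set Pt) := h2
  by_cases hd : dx d0 u u.length = d0
  · have m1 : u ∈ Br (Ω : Set Pt) Y p d0 := ⟨h1, h2, hd⟩
    have m2 : u ∉ DnL (Ω : Set Pt) Y p d0 := fun h => a5 (h.1.2.2.symm.trans hd)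
    have m3 : u ∉ DnR (Ω : Set Pt) Y p d0 := fun h => a5 (h.1.2.2.symm.trans hd)
    have m4 : u ∉ Lat (Ω : Set Pt) Y p d0 := fun h => h.2.2.1 hd
    rw [if_pos m1, if_neg m2, if_neg m3, if_neg m4, br_wind hp m1]
    ring
  · have m1 : u ∉ Br (Ω : Set Pt) Y p d0 := fun h => hd h.2.2
    by_cases hd' : dx d0 u u.length = -d0
    · have m4 : u ∉ Lat (Ω : Set Pt) Y p d0 := fun h => h.2.2.2 hd'
      rcases hp.bottom hex hd' with ⟨hc, hw⟩ | ⟨hc, hw⟩
      · have m2 : u ∈ DnL (Ω : Set Pt) Y p d0 := ⟨⟨h1, h2, hd'⟩, hc⟩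
        have m3 : u ∉ DnR (Ω : Set Pt) Y p d0 := fun h => absurd h.2 (not_lt.2 hc.le)
        rw [if_neg m1, if_pos m2, if_neg m3, if_neg m4, hw]
        ring
      · have m3 : u ∈ DnR (Ω : Set Pt) Y p d0 := ⟨⟨h1, h2, hd'⟩, hc⟩
        have m2 : u ∉ DnL (Ω : Set Pt) Y p d0 := fun h => absurd h.2 (not_lt.2 hc.le)
        rw [if_neg m1, if_neg m2, if_pos m3, if_neg m4, hw]
        ring
    · have m2 : u ∉ DnL (Ω : Set Pt) Y p d0 := fun h => hd' h.1.2.2
      have m3 : u ∉ DnR (Ω : Set Pt) Y p d0 := fun h => hd' h.1.2.2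
      have m4 : u ∈ Lat (Ω : Set Pt) Y p d0 := ⟨h1, h2, hd, hd'⟩
      rw [if_neg m1, if_neg m2, if_neg m3, if_pos m4]
      ring

/-- windings of the lateral exits. -/
lemma lat_wind {Ω : Finset Pt} {p d0 : Pt} (hp : GoodDom Ω p d0) {Y : Set Pt} {u : List Bool}
    (hu : u ∈ Lat (Ω : Set Pt) Y p d0) : wind u = 1 ∨ wind u = -1 ∨ wind u = 2 ∨ wind u = -2 := by
  obtain ⟨h1, h2, h3, h4⟩ := hu
  have hex : u ∈ exits Ω p d0 := mem_exits.2 ⟨saw_arr h1, h2⟩
  rcases hp.wind hex with ⟨hd, hw⟩ | ⟨hd, hw⟩ | ⟨hd, hw⟩ | ⟨hd, hw⟩ | ⟨hd, hw⟩ | ⟨hd, hw⟩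
  · exact absurd hd h3
  · exact Or.inl hw
  · exact Or.inr (Or.inl hw)
  · exact Or.inr (Or.inr (Or.inl hw))
  · exact Or.inr (Or.inr (Or.inr hw))
  · exact absurd hd h4

lemma lat_nonneg {Ω : Finset Pt} {p d0 : Pt} (hp : GoodDom Ω p d0) (f : ℤ → ℝ) (Y : Set Pt)
    (h1 : 0 ≤ f 1) (h2 : 0 ≤ f (-1)) (h3 : 0 ≤ f 2) (h4 : 0 ≤ f (-2)) :
    0 ≤ ∑ u ∈ fam Ω p d0 (Lat (Ω : Set Pt) Y p d0), xc ^ u.length * f (wind u) := by
  apply Finset.sum_nonneg
  intro u hu
  apply mul_nonneg (pow_nonneg xc_pos.le _)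
  rcases lat_wind hp (mem_fam.1 hu).2 with h | h | h | h <;> rw [h] <;> assumption

lemma lat_le {Ω : Finset Pt} {p d0 : Pt} (f : ℤ → ℝ) (Y : Set Pt) (hf : ∀ w, f w ≤ 1) :
    ∑ u ∈ fam Ω p d0 (Lat (Ω : Set Pt) Y p d0), xc ^ u.length * f (wind u) ≤
      gr Ω p d0 (Lat (Ω : Set Pt) Y p d0) := by
  unfold gr
  apply Finset.sum_le_sum
  intro u _
  have := pow_nonneg xc_pos.le u.length
  nlinarith [hf (wind u)]

/-- the bottom exits are on the level of the start. -/
lemma GoodDom.bottom_level {Ω : Finset Pt} {p d0 : Pt} (hp : GoodDom Ω p d0) {t : List Bool}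
    (ht : t ∈ exits Ω p d0) (hd : dx d0 t t.length = -d0) : ip (tip p d0 t - p) d0 = 0 := by
  have harr := (mem_exits.1 ht).1
  have hlen : 1 ≤ t.length := by
    by_contra hcon
    have hz : t.length = 0 := by omega
    rw [hz] at hd
    have hd' : d0 = -d0 := hd
    obtain ⟨⟨_, _, _, _, a5⟩, _⟩ := dirs_distinct d0 hp.dir
    exact a5 hd'.symm
  have h1 : vx p d0 t 1 = p + d0 := rfl
  have hv1 := harr.mem 1 le_rfl hlen
  rw [h1] at hv1
  have h2 := hp.exit t ht _ hv1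
  rw [hd, ip_neg_right] at h2
  have e1 : tip p d0 t - (p + d0) = (tip p d0 t - p) - d0 := by abel
  rw [e1, ip_sub_left, ip_self_dir hp.dir] at h2
  have hlast := hp.half _ (harr.mem t.length hlen le_rfl)
  have htip := tip_eq (v0 := p) (d0 := d0) t
  have e2 : tip p d0 t - p = (vx p d0 t t.length - p) - d0 := by
    rw [htip, hd]
    abel
  have h3 : ip (tip p d0 t - p) d0 = ip (vx p d0 t t.length - p) d0 - 2 := by
    rw [e2, ip_sub_left (vx p d0 t t.length - p), ip_self_dir hp.dir]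
  -- the class of the tip
  have hne := cl_dir_ne hp.dir
  have hclt : cl (tip p d0 t) = cl p := by
    have h5 : cl (dx d0 t t.length) = if Even t.length then cl d0 else - cl d0 := cl_dx _ _ _
    rw [hd, cl_neg] at h5
    have h4 : ¬ Even t.length := by
      intro he
      rw [if_pos he] at h5
      have h3' : (3 : ZMod 3) = 0 := three_eq
      apply hne
      linear_combination (cl d0) * h3' + h5
    have h6 : cl (tip p d0 t) = if Even (t.length + 1) then cl p else cl p + cl d0 := cl_vx p d0 t (t.length + 1)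
    rw [h6, if_pos (Nat.even_add_one.2 h4)]
  have hmod : ((ip (tip p d0 t - p) d0 : ℤ) : ZMod 3) = ((0 : ℤ) : ZMod 3) := by
    rw [ip_mod, cl_sub, hclt]
    push_cast
    ring
  have hdvd : (3 : ℤ) ∣ 0 - ip (tip p d0 t - p) d0 := (ZMod.intCast_eq_intCast_iff_dvd_sub _ _ 3).1 hmod
  omega

lemma br_exits {Ω : Finset Pt} {X : Set Pt} {v d0 : Pt} {s : List Bool} (hs : s ∈ Br (Ω : Set Pt) X v d0) :
    s ∈ exits Ω v d0 := mem_exits.2 ⟨saw_arr hs.1, hs.2.1⟩

/-- the top of a bridge is above the domain and above the start. -/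
lemma br_top {Ω : Finset Pt} {X : Set Pt} {v d0 : Pt} (hv : GoodDom Ω v d0) {s : List Bool}
    (hs : s ∈ Br (Ω : Set Pt) X v d0) :
    0 < ip (tip v d0 s - v) d0 ∧ ∀ x ∈ Ω, ip (x - v) d0 < ip (tip v d0 s - v) d0 := by
  constructor
  · have e2 : tip v d0 s - v = (vx v d0 s s.length - v) + d0 := by
      rw [tip_eq, hs.2.2]
      abel
    rw [e2, ip_add_left, ip_self_dir hv.dir]
    rcases Nat.eq_zero_or_pos s.length with h | h
    · rw [h]
      have : vx v d0 s 0 = v := rfl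
      rw [this, sub_self]
      simp [ip]
    · have := hv.half _ ((saw_arr hs.1).mem s.length h le_rfl)
      linarith
  · intro x hx
    have h := hv.exit s (br_exits hs) x hx
    rw [hs.2.2] at h
    have e : tip v d0 s - x = (tip v d0 s - v) - (x - v) := by abel
    rw [e, ip_sub_left (tip v d0 s - v)] at h
    linarith

/-- the explorer does not reach the far walker. -/
lemma far_hit {Ω : Finset Pt} {v1 v2 v3 d0 : Pt} (h2 : GoodDom Ω v2 d0)
    (c1 : cl v1 = cl v2) (c3 : cl v3 = cl v2) (l1 : ip (v1 - v2) d0 = 0) (l3 : ip (v3 - v2) d0 = 0)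
    (hside : (0 < cross d0 (v1 - v2) ∧ cross d0 (v3 - v2) < 0) ∨ (cross d0 (v1 - v2) < 0 ∧ 0 < cross d0 (v3 - v2)))
    {s g u : List Bool} (hs : s ∈ Br (Ω : Set Pt) ∅ v2 d0) (hg : g ∈ Br (Ω : Set Pt) (vis v2 d0 s) v3 d0)
    (hu : Saw ((Ω : Set Pt) \ (vis v2 d0 s ∪ vis v3 d0 g)) v1 d0 u) : tip v1 d0 u ∉ vis v3 d0 g := by
  rintro ⟨j0, hj0, hj0l, hv⟩
  obtain ⟨t1, t2⟩ := br_top h2 hs
  have hcz : cross d0 (v2 - v2) = 0 := by
    rw [sub_self]
    simp [cross]
  have lz : ip (v2 - v2) d0 = 0 := by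
    rw [sub_self]
    simp [ip]
  have n1 : v1 ≠ v2 := by
    rintro rfl
    rw [hcz] at hside
    rcases hside with h | h
    · exact lt_irrefl _ h.1
    · exact lt_irrefl _ h.1
  have n3 : v3 ≠ v2 := by
    rintro rfl
    rw [hcz] at hside
    rcases hside with h | h
    · exact lt_irrefl _ h.2
    · exact lt_irrefl _ h.2
  have hspos : ∀ j, 1 ≤ j → j ≤ s.length + 1 → 0 < ip (vx v2 d0 s j - v2) d0 := by
    intro j hj hjl
    rcases Nat.lt_or_ge s.length j with h | h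
    · have : j = s.length + 1 := by omega
      rw [this]
      exact t1
    · exact h2.half _ (hs.1.mem j hj h).1
  have hsout : vx v2 d0 s (s.length + 1) ∉ (Ω : Set Pt) := hs.2.1
  have general : ∀ (w : Pt) (a : List Bool) (n : ℕ), ip (w - v2) d0 = 0 → w ≠ v2 →
      (∀ i, 1 ≤ i → i ≤ n → vx w d0 a i ∈ (Ω : Set Pt) ∧ vx w d0 a i ∉ vis v2 d0 s) →
      (∀ i, i ≤ n → ∀ j, j ≤ s.length + 1 → vx w d0 a i ≠ vx v2 d0 s j) ∧
      (∀ i, i ≤ n → ip (vx w d0 a i - v2) d0 < ip (tip v2 d0 s - v2) d0) := by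
    intro w a n lw nw ha
    constructor
    · intro i hi j hj he
      rcases Nat.eq_zero_or_pos i with hi0 | hi0
      · rw [hi0] at he
        have he' : w = vx v2 d0 s j := he
        rcases Nat.eq_zero_or_pos j with hj1 | hj1
        · rw [hj1] at he'
          exact nw he'
        · have := hspos j hj1 hj
          rw [← he', lw] at this
          exact lt_irrefl _ this
      · have hm := ha i hi0 hi
        rcases Nat.eq_zero_or_pos j with hj1 | hj1
        · rw [hj1] at he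
          have he' : vx w d0 a i = v2 := he
          have := h2.half _ hm.1
          rw [he', lz] at this
          exact lt_irrefl _ this
        · rcases Nat.lt_or_ge s.length j with h | h
          · have hjj : j = s.length + 1 := by omega
            rw [hjj] at he
            rw [he] at hm
            exact hsout hm.1
          · exact hm.2 ⟨j, hj1, h, he.symm⟩
    · intro i hi
      rcases Nat.eq_zero_or_pos i with hi0 | hi0
      · rw [hi0]
        show ip (w - v2) d0 < _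
        rw [lw]
        exact t1
      · exact t2 _ (ha i hi0 hi).1
  obtain ⟨A1, A2⟩ := general v1 u u.length l1 n1 (fun i hi hil =>
    ⟨(hu.mem i hi hil).1, fun h => (hu.mem i hi hil).2 (Or.inl h)⟩)
  obtain ⟨B1, B2⟩ := general v3 g j0 l3 n3 (fun i hi hil =>
    ⟨(hg.1.mem i hi (by omega)).1, (hg.1.mem i hi (by omega)).2⟩)
  have key := no_cross_hit (v0 := v2) h2.dir c1 rfl c3 l1 lz l3 hj0 hv.symm
    (fun i hi hil => h2.half _ (hu.mem i hi hil).1)
    (fun i hi hil => h2.half _ (hg.1.mem i hi (by omega)).1) hspos A1 B1 A2 B2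
  rcases hside with ⟨h3, h4⟩ | ⟨h3, h4⟩
  · exact absurd (key.1 h3) (not_lt.2 h4.le)
  · exact absurd (key.2 h4) (not_lt.2 h3.le)

/-- an arc does not jump over a walker. -/
lemma far_land {Ω : Finset Pt} {v1 v2 d0 : Pt} (h1 : GoodDom Ω v1 d0) (h2 : GoodDom Ω v2 d0)
    (c1 : cl v1 = cl v2) (l1 : ip (v1 - v2) d0 = 0) (n1 : v1 ≠ v2) {X : Set Pt}
    {s t : List Bool} (hs : s ∈ Br (Ω : Set Pt) ∅ v2 d0) (hX : vis v2 d0 s ⊆ X)
    (ht : t ∈ Dn (Ω : Set Pt) X v1 d0) :
    0 < cross d0 (v1 - v2) ↔ 0 < cross d0 (tip v1 d0 t - v2) := by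
  obtain ⟨ht1, ht2, ht3⟩ := ht
  have hex : t ∈ exits Ω v1 d0 := mem_exits.2 ⟨saw_arr ht1, ht2⟩
  have hlev := h1.bottom_level hex ht3
  have hlen : 1 ≤ t.length := by
    by_contra hcon
    have hz : t.length = 0 := by omega
    rw [hz] at ht3
    have hd' : d0 = -d0 := ht3
    obtain ⟨⟨_, _, _, _, a5⟩, _⟩ := dirs_distinct d0 h1.dir
    exact a5 hd'.symm
  obtain ⟨t1, t2⟩ := br_top h2 hs
  have lz : ip (v2 - v2) d0 = 0 := by
    rw [sub_self]
    simp [ip]
  have hspos : ∀ j, 1 ≤ j → j ≤ s.length + 1 → 0 < ip (vx v2 d0 s j - v2) d0 := by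
    intro j hj hjl
    rcases Nat.lt_or_ge s.length j with h | h
    · have : j = s.length + 1 := by omega
      rw [this]
      exact t1
    · exact h2.half _ (hs.1.mem j hj h).1
  have hsout : vx v2 d0 s (s.length + 1) ∉ (Ω : Set Pt) := hs.2.1
  have hlev2 : ip (tip v1 d0 t - v2) d0 = 0 := by
    have e : tip v1 d0 t - v2 = (tip v1 d0 t - v1) + (v1 - v2) := by abel
    rw [e, ip_add_left, hlev, l1, add_zero]
  have hlast : vx v1 d0 t t.length = tip v1 d0 t + d0 := by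
    rw [tip_eq, ht3]
    abel
  have htn : tip v1 d0 t ≠ v2 := by
    intro he
    have hl := ht1.mem t.length hlen le_rfl
    rw [hlast, he] at hl
    have e1 : vx v2 d0 s 1 = v2 + d0 := rfl
    rcases Nat.eq_zero_or_pos s.length with h | h
    · rw [h] at hsout
      rw [← e1] at hl
      exact hsout hl.1
    · rw [← e1] at hl
      exact hl.2 (hX ⟨1, le_rfl, h, rfl⟩)
  refine no_cross (v0 := v2) h2.dir c1 rfl l1 lz (fun i hi hil => h2.half _ (ht1.mem i hi hil).1) hlev2 hspos ?_ ?_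
  · intro i hi j hj he
    rcases Nat.lt_or_ge t.length i with h5 | h5
    · have hii : i = t.length + 1 := by omega
      rw [hii] at he
      have he' : tip v1 d0 t = vx v2 d0 s j := he
      rcases Nat.eq_zero_or_pos j with hj1 | hj1
      · rw [hj1] at he'
        exact htn he'
      · have := hspos j hj1 hj
        rw [← he', hlev2] at this
        exact lt_irrefl _ this
    · rcases Nat.eq_zero_or_pos i with hi0 | hi0
      · rw [hi0] at he
        have he' : v1 = vx v2 d0 s j := he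
        rcases Nat.eq_zero_or_pos j with hj1 | hj1
        · rw [hj1] at he'
          exact n1 he'
        · have := hspos j hj1 hj
          rw [← he', l1] at this
          exact lt_irrefl _ this
      · have hm := ht1.mem i hi0 h5
        rcases Nat.eq_zero_or_pos j with hj1 | hj1
        · rw [hj1] at he
          have he' : vx v1 d0 t i = v2 := he
          have := h2.half _ hm.1
          rw [he', lz] at this
          exact lt_irrefl _ this
        · rcases Nat.lt_or_ge s.length j with h | h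
          · have hjj : j = s.length + 1 := by omega
            rw [hjj] at he
            rw [he] at hm
            exact hsout hm.1
          · exact hm.2 (hX ⟨j, hj1, h, he.symm⟩)
  · intro i hi
    rcases Nat.lt_or_ge t.length i with h5 | h5
    · have hii : i = t.length + 1 := by omega
      rw [hii]
      show ip (tip v1 d0 t - v2) d0 < _
      rw [hlev2]
      exact t1
    · rcases Nat.eq_zero_or_pos i with hi0 | hi0
      · rw [hi0]
        show ip (v1 - v2) d0 < _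
        rw [l1]
        exact t1
      · exact t2 _ (ht1.mem i hi0 h5).1

end HexObs
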