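import Pool.Agent.HexObs.Gf

set_option autoImplicit false

namespace HexObs

open Complex Finset ENNReal

/-- a step that crosses a side is parallel to the normal of the side. -/
lemma side_step {v0 d0 : Pt} {s : Pt × Pt} (hs : IsSide v0 d0 s) {v d : Pt} (hv : IsHex v0 d0 v) (hd : d ∈ dirs)
    (hpos : 0 < ip (s.1 - v) s.2) (hle : ip (s.1 - (v + d)) s.2 ≤ 0) :
    d = s.2 ∧ ip (s.1 - v) s.2 = 2 ∧ ip (s.1 - (v + d)) s.2 = 0 := by
  have h2 := side_ge hs hv hpos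
  have e1 : s.1 - (v + d) = (s.1 - v) - d := by abel
  rw [e1, ip_sub_left (s.1 - v)] at hle ⊢
  have h3 := ip_two_eq _ hd s.2 hs.1 (by linarith)
  have h4 := (ip_dirs_ge _ hd s.2 hs.1).2
  refine ⟨h3, by linarith, by linarith⟩

lemma ip_smul_left (n : ℤ) (p q : Pt) : ip (n • p) q = n * ip p q := by
  simp only [ip, Prod.smul_fst, Prod.smul_snd, smul_eq_mul]
  ring

lemma ip_neg_right (p q : Pt) : ip p (-q) = - ip p q := by
  rw [ip_comm, ip_neg_left, ip_comm]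

lemma cl_smul (n : ℤ) (p : Pt) : cl (n • p) = (n : ZMod 3) * cl p := by
  simp only [cl, Prod.smul_fst, Prod.smul_snd, smul_eq_mul]
  push_cast
  ring

lemma cl_rotL (d : Pt) : cl (rotL d) = - cl d := cl_turn true d
lemma cl_rotR (d : Pt) : cl (rotR d) = - cl d := cl_turn false d

lemma rotL_mem {d : Pt} (h : d ∈ dirs) : rotL d ∈ dirs := by
  rw [mem_dirs]
  exact (nrm_turn true d).trans (mem_dirs.1 h)

lemma rotR_mem {d : Pt} (h : d ∈ dirs) : rotR d ∈ dirs := by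
  rw [mem_dirs]
  exact (nrm_turn false d).trans (mem_dirs.1 h)

lemma neg_mem_dirs {d : Pt} (h : d ∈ dirs) : -d ∈ dirs := by
  rw [mem_dirs, nrm_neg]
  exact mem_dirs.1 h

lemma ip_rotL_self {d : Pt} (h : d ∈ dirs) : ip d (rotL d) = 1 := by
  revert d
  decide

lemma ip_rotR_self {d : Pt} (h : d ∈ dirs) : ip d (rotR d) = 1 := by
  revert d
  decide

lemma ip_rotL_rotL {d : Pt} (h : d ∈ dirs) : ip (rotL d) (rotL d) = 2 := ip_self_dir (rotL_mem h)

lemma ip_rotR_rotR {d : Pt} (h : d ∈ dirs) : ip (rotR d) (rotR d) = 2 := ip_self_dir (rotR_mem h)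

lemma ip_rot_sum (p d : Pt) : ip p (rotL d) + ip p (rotR d) = ip p d := by
  unfold ip rotL rotR
  ring

/-- the strip of height T above v0: levels 2, ..., 3T. -/
def strip (v0 d0 : Pt) (T : ℕ) : Set Pt := {v | IsHex v0 d0 v ∧ 0 < ip (v - v0) d0 ∧ ip (v - v0) d0 < 3 * T + 2}

/-- the part of the strip between two sides narrowing upwards. -/
def trap (v0 d0 : Pt) (T L : ℕ) : Set Pt :=
  {v | (IsHex v0 d0 v ∧ 0 < ip (v - v0) d0 ∧ ip (v - v0) d0 < 3 * T + 2) ∧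
    ip (v - v0) (rotL d0) < 3 * L ∧ ip (v - v0) (rotR d0) < 3 * L}

lemma trap_finite {v0 d0 : Pt} (h0 : d0 ∈ dirs) (T L : ℕ) : (trap v0 d0 T L).Finite := by
  have hinj : Function.Injective (fun v : Pt => (ip (v - v0) d0, ip (v - v0) (rotL d0))) := by
    intro v w hvw
    have h1 := congrArg Prod.fst hvw
    have h2 := congrArg Prod.snd hvw
    simp only at h1 h2
    have k1 : ip (v - w) d0 = 0 := by
      have : v - w = (v - v0) - (w - v0) := by abel
      rw [this, ip_sub_left (v - v0), h1, sub_self]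
    have k2 : ip (v - w) (rotL d0) = 0 := by
      have : v - w = (v - v0) - (w - v0) := by abel
      rw [this, ip_sub_left (v - v0), h2, sub_self]
    -- norm
    have k4 : ip (v - w) d0 ^ 2 - ip (v - w) d0 * ip (v - w) (rotL d0) + ip (v - w) (rotL d0) ^ 2 =
        3 * nrm (v - w) * nrm d0 := by
      unfold ip rotL nrm
      ring
    rw [k1, k2, mem_dirs.1 h0] at k4
    have k5 := abs_le_of_nrm (p := v - w) (k := 0) le_rfl (by linarith)
    have k6 : (v - w).1 = 0 := by nlinarith [k5.1]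
    have k7 : (v - w).2 = 0 := by nlinarith [k5.2]
    have k8 : v - w = 0 := Prod.ext k6 k7
    exact sub_eq_zero.1 k8
  apply Set.Finite.subset (Set.Finite.preimage hinj.injOn
    ((Set.finite_Icc (0 : ℤ) (3 * T + 2)).prod (Set.finite_Icc (-(3 * L : ℤ)) (3 * L + (3 * T + 2)))))
  rintro v ⟨⟨_, h1, h2⟩, h3, h4⟩
  have h5 := ip_rot_sum (v - v0) d0
  rw [Set.mem_preimage, Set.mem_prod]
  refine ⟨⟨h1.le, h2.le⟩, ?_, ?_⟩
  · show -(3 * L : ℤ) ≤ ip (v - v0) (rotL d0)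
    linarith
  · show ip (v - v0) (rotL d0) ≤ 3 * L + (3 * T + 2)
    linarith

/-- the same as a finite set. -/
noncomputable def trapF {v0 d0 : Pt} (h0 : d0 ∈ dirs) (T L : ℕ) : Finset Pt := (trap_finite (v0 := v0) h0 T L).toFinset

lemma trapF_coe {v0 d0 : Pt} (h0 : d0 ∈ dirs) (T L : ℕ) :
    ((trapF (v0 := v0) h0 T L : Finset Pt) : Set Pt) = trap v0 d0 T L := by
  unfold trapF
  rw [Set.Finite.coe_toFinset]

/-- the sides of the trapezoid. -/
def trapS (v0 d0 : Pt) (T L : ℕ) : Set (Pt × Pt) :=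
  {(v0, -d0), (v0 + d0 + (T : ℤ) • (d0 + rotL d0), d0), (v0 + (L : ℤ) • (d0 + rotL d0), rotL d0),
    (v0 + (L : ℤ) • (d0 + rotR d0), rotR d0)}

lemma trapS_side {v0 d0 : Pt} (h0 : d0 ∈ dirs) (T L : ℕ) : ∀ s ∈ trapS v0 d0 T L, IsSide v0 d0 s := by
  intro s hs
  rcases hs with rfl | rfl | rfl | rfl
  · exact ⟨neg_mem_dirs h0, Or.inl ⟨rfl, cl_neg d0⟩⟩
  · refine ⟨h0, Or.inr ⟨?_, rfl⟩⟩
    simp only [cl_add, cl_smul, cl_rotL]
    ring
  · refine ⟨rotL_mem h0, Or.inl ⟨?_, cl_rotL d0⟩⟩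
    simp only [cl_add, cl_smul, cl_rotL]
    ring
  · refine ⟨rotR_mem h0, Or.inl ⟨?_, cl_rotR d0⟩⟩
    simp only [cl_add, cl_smul, cl_rotR]
    ring

lemma trapS_iff {v0 d0 : Pt} (h0 : d0 ∈ dirs) (T L : ℕ) (v : Pt) :
    v ∈ trap v0 d0 T L ↔ IsHex v0 d0 v ∧ ∀ s ∈ trapS v0 d0 T L, 0 < ip (s.1 - v) s.2 := by
  have e1 : ip (v0 - v) (-d0) = ip (v - v0) d0 := by
    rw [ip_neg_right, ← ip_neg_left]
    congr 1
    abel
  have e2 : ip (v0 + d0 + (T : ℤ) • (d0 + rotL d0) - v) d0 = 3 * T + 2 - ip (v - v0) d0 := by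
    have : v0 + d0 + (T : ℤ) • (d0 + rotL d0) - v = d0 + (T : ℤ) • (d0 + rotL d0) - (v - v0) := by abel
    rw [this, ip_sub_left, ip_add_left, ip_smul_left, ip_add_left, ip_self_dir h0, ip_comm (rotL d0), ip_rotL_self h0]
    ring
  have e3 : ip (v0 + (L : ℤ) • (d0 + rotL d0) - v) (rotL d0) = 3 * L - ip (v - v0) (rotL d0) := by
    have : v0 + (L : ℤ) • (d0 + rotL d0) - v = (L : ℤ) • (d0 + rotL d0) - (v - v0) := by abel
    rw [this, ip_sub_left, ip_smul_left, ip_add_left, ip_rotL_self h0, ip_rotL_rotL h0]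
    ring
  have e4 : ip (v0 + (L : ℤ) • (d0 + rotR d0) - v) (rotR d0) = 3 * L - ip (v - v0) (rotR d0) := by
    have : v0 + (L : ℤ) • (d0 + rotR d0) - v = (L : ℤ) • (d0 + rotR d0) - (v - v0) := by abel
    rw [this, ip_sub_left, ip_smul_left, ip_add_left, ip_rotR_self h0, ip_rotR_rotR h0]
    ring
  constructor
  · rintro ⟨⟨h1, h2, h3⟩, h4, h5⟩
    refine ⟨h1, ?_⟩
    intro s hs
    rcases hs with rfl | rfl | rfl | rfl
    · show 0 < ip (v0 - v) (-d0)
      rw [e1]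
      exact h2
    · show 0 < ip (v0 + d0 + (T : ℤ) • (d0 + rotL d0) - v) d0
      rw [e2]
      linarith
    · show 0 < ip (v0 + (L : ℤ) • (d0 + rotL d0) - v) (rotL d0)
      rw [e3]
      linarith
    · show 0 < ip (v0 + (L : ℤ) • (d0 + rotR d0) - v) (rotR d0)
      rw [e4]
      linarith
  · rintro ⟨h1, h2⟩
    have a1 := h2 (v0, -d0) (by simp [trapS])
    have a2 := h2 (v0 + d0 + (T : ℤ) • (d0 + rotL d0), d0) (by simp [trapS])
    have a3 := h2 (v0 + (L : ℤ) • (d0 + rotL d0), rotL d0) (by simp [trapS])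
    have a4 := h2 (v0 + (L : ℤ) • (d0 + rotR d0), rotR d0) (by simp [trapS])
    simp only [] at a1 a2 a3 a4
    rw [e1] at a1
    rw [e2] at a2
    rw [e3] at a3
    rw [e4] at a4
    exact ⟨⟨h1, a1, by linarith⟩, by linarith, by linarith⟩

lemma trap_good {v0 d0 : Pt} (h0 : d0 ∈ dirs) {T L : ℕ} (hT : 1 ≤ T) (hL : 1 ≤ L) :
    GoodDom (trapF (v0 := v0) h0 T L) v0 d0 := by
  have hmem : ∀ v, v ∈ trapF (v0 := v0) h0 T L ↔ v ∈ trap v0 d0 T L := by
    intro v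
    rw [← Finset.mem_coe, trapF_coe]
  apply polygon_good h0 (trapS v0 d0 T L) (trapS_side h0 T L) (by simp [trapS])
  · intro v
    rw [hmem, trapS_iff h0]
  · rw [hmem]
    have e : v0 + d0 - v0 = d0 := by abel
    refine ⟨⟨Or.inr (cl_add v0 d0), ?_, ?_⟩, ?_, ?_⟩
    · rw [e, ip_self_dir h0]
      norm_num
    · rw [e, ip_self_dir h0]
      have : (1 : ℤ) ≤ T := by exact_mod_cast hT
      linarith
    · rw [e, ip_rotL_self h0]
      have : (1 : ℤ) ≤ L := by exact_mod_cast hL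
      linarith
    · rw [e, ip_rotR_self h0]
      have : (1 : ℤ) ≤ L := by exact_mod_cast hL
      linarith

end HexObs
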