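import Pool.Agent.HexObs.Strip

set_option autoImplicit false

namespace HexObs

open Complex Finset ENNReal

lemma saw_nil (Ω : Set Pt) (v0 d0 : Pt) : Saw Ω v0 d0 [] := by
  constructor
  · intro i h1 h2
    simp at h2
    omega
  · intro i k h1 h2
    simp at h2
    omega

lemma saw_append_one {Ω : Set Pt} {v0 d0 : Pt} {t : List Bool} {b : Bool} :
    Saw Ω v0 d0 (t ++ [b]) ↔
      Saw Ω v0 d0 t ∧ tip v0 d0 t ∈ Ω ∧ ∀ i, i ≤ t.length → vx v0 d0 t i ≠ tip v0 d0 t := by
  have hl : (t ++ [b]).length = t.length + 1 := by simp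
  constructor
  · intro h
    refine ⟨⟨?_, ?_⟩, ?_, ?_⟩
    · intro i h1 h2
      have := h.mem i h1 (by omega)
      rwa [vx_append (by omega)] at this
    · intro i k h1 h2
      have := h.inj i k h1 (by omega)
      rwa [vx_append (by omega), vx_append (by omega)] at this
    · have := h.mem (t.length + 1) (by omega) (by omega)
      rwa [vx_append (by omega)] at this
    · intro i h1
      have := h.inj i (t.length + 1) (by omega) (by omega)
      rwa [vx_append (by omega), vx_append (by omega)] at this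
  · rintro ⟨h, h1, h2⟩
    constructor
    · intro i h3 h4
      rw [hl] at h4
      rw [vx_append (by omega)]
      rcases Nat.lt_or_ge t.length i with h5 | h5
      · have : i = t.length + 1 := by omega
        rw [this]
        exact h1
      · exact h.mem i h3 h5
    · intro i k h3 h4
      rw [hl] at h4
      rw [vx_append (by omega), vx_append (by omega)]
      rcases Nat.lt_or_ge t.length k with h5 | h5
      · have : k = t.length + 1 := by omega
        rw [this]
        exact h2 i (by omega)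
      · exact h.inj i k h3 h5

lemma Saw.mono {Ω Ω' : Set Pt} (hΩ : Ω ⊆ Ω') {v0 d0 : Pt} {t : List Bool} (h : Saw Ω v0 d0 t) : Saw Ω' v0 d0 t :=
  ⟨fun i h1 h2 => hΩ (h.mem i h1 h2), h.inj⟩

lemma dx_append_one {d0 : Pt} (t : List Bool) (b : Bool) :
    dx d0 (t ++ [b]) (t ++ [b]).length = turn b (dx d0 t t.length) := by
  have hl : (t ++ [b]).length = t.length + 1 := by simp
  rw [hl]
  show turn (tf (t ++ [b]) t.length) (dx d0 (t ++ [b]) t.length) = _
  rw [dx_append le_rfl]
  have := tf_append_right (t := t) (s := [b]) 0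
  rw [add_zero] at this
  rw [this]
  rfl

lemma tip_eq {v0 d0 : Pt} (t : List Bool) : tip v0 d0 t = vx v0 d0 t t.length + dx d0 t t.length := rfl

lemma tip_append_one {v0 d0 : Pt} (t : List Bool) (b : Bool) :
    tip v0 d0 (t ++ [b]) = tip v0 d0 t + turn b (dx d0 t t.length) := by
  rw [tip_eq (t ++ [b]), dx_append_one]
  congr 1
  have hl : (t ++ [b]).length = t.length + 1 := by simp
  rw [hl, vx_append le_rfl]
  rfl

/-- the zigzag that leads to the top. -/
def zig (b : Bool) : ℕ → List Bool
  | 0 => [!b]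
  | k + 1 => [!b, b] ++ zig b k

lemma zig_length (b : Bool) (k : ℕ) : (zig b k).length = 2 * k + 1 := by
  induction k with
  | zero => rfl
  | succ k ih =>
    show ([!b, b] ++ zig b k).length = _
    rw [List.length_append, ih]
    simp
    ring

lemma ip_turn_self {d : Pt} (h : d ∈ dirs) (b : Bool) : ip d (turn b d) = 1 := by
  cases b
  · exact ip_rotR_self h
  · exact ip_rotL_self h

lemma turn_mem {d : Pt} (h : d ∈ dirs) (b : Bool) : turn b d ∈ dirs := by
  rw [mem_dirs, nrm_turn]
  exact mem_dirs.1 h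

lemma ip_turn_turn {d : Pt} (h : d ∈ dirs) (b : Bool) : ip (turn b d) (turn b d) = 2 := ip_self_dir (turn_mem h b)

lemma tip_hex (v0 d0 : Pt) (t : List Bool) : IsHex v0 d0 (tip v0 d0 t) := vx_hex v0 d0 t _

lemma zig_out {v0 d0 : Pt} (h0 : d0 ∈ dirs) (b : Bool) (T : ℕ) (k : ℕ) : ∀ (t : List Bool),
    Saw (strip v0 d0 T) v0 d0 t → dx d0 t t.length = turn b d0 →
    (∀ i, i ≤ t.length → ip (vx v0 d0 t i - v0) (turn b d0) < ip (tip v0 d0 t - v0) (turn b d0)) →
    ip (tip v0 d0 t - v0) d0 + 3 * k = 3 * T → 0 < ip (tip v0 d0 t - v0) d0 →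
    t ++ zig b k ∈ out (strip v0 d0 T) v0 d0 d0 := by
  induction k with
  | zero =>
    intro t hs hd hlt hlev hpos
    have htip : tip v0 d0 t ∈ strip v0 d0 T := ⟨tip_hex v0 d0 t, hpos, by push_cast at hlev; linarith⟩
    refine ⟨?_, ?_, ?_⟩
    · show Saw (strip v0 d0 T) v0 d0 (t ++ [!b])
      refine saw_append_one.2 ⟨hs, htip, ?_⟩
      intro i hi heq
      have := hlt i hi
      rw [heq] at this
      exact lt_irrefl _ this
    · show tip v0 d0 (t ++ [!b]) ∉ _
      rw [tip_append_one, hd, turn_turn]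
      rintro ⟨_, _, h3⟩
      have e : tip v0 d0 t + d0 - v0 = (tip v0 d0 t - v0) + d0 := by abel
      rw [e, ip_add_left, ip_self_dir h0] at h3
      push_cast at hlev
      linarith
    · show dx d0 (t ++ [!b]) (t ++ [!b]).length = d0
      rw [dx_append_one, hd, turn_turn]
  | succ k ih =>
    intro t hs hd hlt hlev hpos
    have htip : tip v0 d0 t ∈ strip v0 d0 T := ⟨tip_hex v0 d0 t, hpos, by push_cast at hlev; linarith⟩
    have h1 : Saw (strip v0 d0 T) v0 d0 (t ++ [!b]) := by
      refine saw_append_one.2 ⟨hs, htip, ?_⟩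
      intro i hi heq
      have := hlt i hi
      rw [heq] at this
      exact lt_irrefl _ this
    have hl : (t ++ [!b]).length = t.length + 1 := by simp
    have ht1 : tip v0 d0 (t ++ [!b]) = tip v0 d0 t + d0 := by
      rw [tip_append_one, hd, turn_turn]
    have hd1 : dx d0 (t ++ [!b]) (t ++ [!b]).length = d0 := by
      rw [dx_append_one, hd, turn_turn]
    have hc1 : ip (tip v0 d0 (t ++ [!b]) - v0) (turn b d0) = ip (tip v0 d0 t - v0) (turn b d0) + 1 := by
      have e : tip v0 d0 t + d0 - v0 = (tip v0 d0 t - v0) + d0 := by abel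
      rw [ht1, e, ip_add_left, ip_turn_self h0]
    have hlv1 : ip (tip v0 d0 (t ++ [!b]) - v0) d0 = ip (tip v0 d0 t - v0) d0 + 2 := by
      have e : tip v0 d0 t + d0 - v0 = (tip v0 d0 t - v0) + d0 := by abel
      rw [ht1, e, ip_add_left, ip_self_dir h0]
    have hlt1 : ∀ i, i ≤ (t ++ [!b]).length → ip (vx v0 d0 (t ++ [!b]) i - v0) (turn b d0) <
        ip (tip v0 d0 (t ++ [!b]) - v0) (turn b d0) := by
      intro i hi
      rw [hl] at hi
      rw [hc1, vx_append hi]
      rcases Nat.lt_or_ge t.length i with h5 | h5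
      · have : i = t.length + 1 := by omega
        rw [this]
        show ip (tip v0 d0 t - v0) (turn b d0) < _
        linarith
      · have := hlt i h5
        linarith
    have htip1 : tip v0 d0 (t ++ [!b]) ∈ strip v0 d0 T := by
      refine ⟨tip_hex v0 d0 _, ?_, ?_⟩
      · rw [hlv1]
        linarith
      · rw [hlv1]
        push_cast at hlev
        linarith
    have h2 : Saw (strip v0 d0 T) v0 d0 (t ++ [!b] ++ [b]) := by
      refine saw_append_one.2 ⟨h1, htip1, ?_⟩
      intro i hi heq
      have := hlt1 i hi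
      rw [heq] at this
      exact lt_irrefl _ this
    have hl2 : (t ++ [!b] ++ [b]).length = t.length + 2 := by simp
    have ht2 : tip v0 d0 (t ++ [!b] ++ [b]) = tip v0 d0 (t ++ [!b]) + turn b d0 := by
      rw [tip_append_one, hd1]
    have hd2 : dx d0 (t ++ [!b] ++ [b]) (t ++ [!b] ++ [b]).length = turn b d0 := by
      rw [dx_append_one, hd1]
    have hc2 : ip (tip v0 d0 (t ++ [!b] ++ [b]) - v0) (turn b d0) =
        ip (tip v0 d0 (t ++ [!b]) - v0) (turn b d0) + 2 := by
      have e : tip v0 d0 (t ++ [!b]) + turn b d0 - v0 = (tip v0 d0 (t ++ [!b]) - v0) + turn b d0 := by abel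
      rw [ht2, e, ip_add_left, ip_turn_turn h0]
    have hlv2 : ip (tip v0 d0 (t ++ [!b] ++ [b]) - v0) d0 = ip (tip v0 d0 (t ++ [!b]) - v0) d0 + 1 := by
      have e : tip v0 d0 (t ++ [!b]) + turn b d0 - v0 = (tip v0 d0 (t ++ [!b]) - v0) + turn b d0 := by abel
      rw [ht2, e, ip_add_left, ip_comm (turn b d0), ip_turn_self h0]
    have hlt2 : ∀ i, i ≤ (t ++ [!b] ++ [b]).length → ip (vx v0 d0 (t ++ [!b] ++ [b]) i - v0) (turn b d0) <
        ip (tip v0 d0 (t ++ [!b] ++ [b]) - v0) (turn b d0) := by
      intro i hi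
      rw [hc2]
      rcases Nat.lt_or_ge (t ++ [!b]).length i with h5 | h5
      · have : i = (t ++ [!b]).length + 1 := by omega
        rw [this, vx_append le_rfl]
        show ip (tip v0 d0 (t ++ [!b]) - v0) (turn b d0) < _
        linarith
      · rw [vx_append (by omega)]
        have := hlt1 i h5
        linarith
    have := ih (t ++ [!b] ++ [b]) h2 hd2 hlt2 (by rw [hlv2, hlv1]; push_cast at hlev ⊢; linarith)
      (by rw [hlv2, hlv1]; linarith)
    have e : t ++ zig b (k + 1) = t ++ [!b] ++ [b] ++ zig b k := by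
      show t ++ ([!b, b] ++ zig b k) = _
      simp
    rw [e]
    exact this

end HexObs
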