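import Pool.Agent.HexObs.Strip2

set_option autoImplicit false

namespace HexObs

open Complex Finset ENNReal Filter Topology

lemma trap_sub (v0 d0 : Pt) (T L : ℕ) : trap v0 d0 T L ⊆ strip v0 d0 T := fun _ h => h.1

lemma trap_mono (v0 d0 : Pt) (T : ℕ) {L L' : ℕ} (h : L ≤ L') : trap v0 d0 T L ⊆ trap v0 d0 T L' := by
  rintro v ⟨h1, h2, h3⟩
  have : (L : ℤ) ≤ L' := by exact_mod_cast h
  exact ⟨h1, by linarith, by linarith⟩

lemma trap_lt {v0 d0 : Pt} {T L : ℕ} {v : Pt} (h : v ∈ trap v0 d0 T L) (b : Bool) :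
    ip (v - v0) (turn b d0) < 3 * L := by
  cases b
  · exact h.2.2
  · exact h.2.1

/-- the last step of a walk leaving the trapezoid. -/
lemma trap_exit {v0 d0 : Pt} (h0 : d0 ∈ dirs) {T L : ℕ} (hT : 1 ≤ T) (hL : 1 ≤ L) {t : List Bool}
    (hs : Saw (trap v0 d0 T L) v0 d0 t) (hout : tip v0 d0 t ∉ trap v0 d0 T L) :
    (dx d0 t t.length = -d0 ∧ ip (tip v0 d0 t - v0) d0 = 0) ∨
    (dx d0 t t.length = d0 ∧ ip (tip v0 d0 t - v0) d0 = 3 * T + 2) ∨
    ∃ b : Bool, dx d0 t t.length = turn b d0 ∧ ip (tip v0 d0 t - v0) (turn b d0) = 3 * L ∧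
      (tip v0 d0 t) ∈ strip v0 d0 T ∧ ∃ j : ℕ, 1 ≤ j ∧ j ≤ T ∧ ip (tip v0 d0 t - v0) d0 = 3 * j := by
  have hv1 : v0 + d0 ∈ trap v0 d0 T L := by
    have e : v0 + d0 - v0 = d0 := by abel
    refine ⟨⟨Or.inr (cl_add v0 d0), ?_, ?_⟩, ?_, ?_⟩
    · rw [e, ip_self_dir h0]
      norm_num
    · rw [e, ip_self_dir h0]
      have : (1 : ℤ) ≤ T := by exact_mod_cast hT
      linarith
    · rw [e, ip_rotL_self h0]
      have : (1 : ℤ) ≤ L := by exact_mod_cast hL
      linarith
    · rw [e, ip_rotR_self h0]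
      have : (1 : ℤ) ≤ L := by exact_mod_cast hL
      linarith
  have hlen : 1 ≤ t.length := by
    by_contra hcon
    have hz : t.length = 0 := by omega
    have : t = [] := List.length_eq_zero_iff.1 hz
    rw [this] at hout
    exact hout hv1
  have hlast : vx v0 d0 t t.length ∈ trap v0 d0 T L := hs.mem _ hlen le_rfl
  obtain ⟨⟨_, l1, l2⟩, l3, l4⟩ := hlast
  have hhex := tip_hex v0 d0 t
  have hdm : dx d0 t t.length ∈ dirs := ds_mem h0 _
  have hte := tip_eq (v0 := v0) (d0 := d0) t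
  have e0 : tip v0 d0 t - v0 = (vx v0 d0 t t.length - v0) + dx d0 t t.length := by
    rw [hte]
    abel
  set v := vx v0 d0 t t.length with hv
  have hvhex : IsHex v0 d0 v := vx_hex v0 d0 t _
  set d := dx d0 t t.length with hd
  -- the two lateral cases
  have lateral : ∀ b : Bool, ¬ ip (tip v0 d0 t - v0) (turn b d0) < 3 * L →
      ip (v - v0) (turn b d0) < 3 * L →
      d = turn b d0 ∧ ip (tip v0 d0 t - v0) (turn b d0) = 3 * L ∧
      (tip v0 d0 t) ∈ strip v0 d0 T ∧ ∃ j : ℕ, 1 ≤ j ∧ j ≤ T ∧ ip (tip v0 d0 t - v0) d0 = 3 * j := by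
    intro b hb hb'
    have hside : IsSide v0 d0 (v0 + (L : ℤ) • (d0 + turn b d0), turn b d0) := by
      refine ⟨turn_mem h0 b, Or.inl ⟨?_, cl_turn b d0⟩⟩
      simp only [cl_add, cl_smul, cl_turn]
      ring
    have e3 : ∀ w : Pt, ip (v0 + (L : ℤ) • (d0 + turn b d0) - w) (turn b d0) = 3 * L - ip (w - v0) (turn b d0) := by
      intro w
      have : v0 + (L : ℤ) • (d0 + turn b d0) - w = (L : ℤ) • (d0 + turn b d0) - (w - v0) := by abel
      rw [this, ip_sub_left, ip_smul_left, ip_add_left, ip_turn_self h0, ip_turn_turn h0]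
      ring
    obtain ⟨s1, s2, s3⟩ := side_step hside hvhex hdm (by rw [e3]; linarith) (by
      rw [e3, ← hte]
      push Not at hb
      linarith)
    simp only [] at s1 s2 s3
    rw [e3] at s2 s3
    rw [← hte] at s3
    have k1 : ip (tip v0 d0 t - v0) d0 = ip (v - v0) d0 + 1 := by
      rw [e0, ip_add_left, s1, ip_comm (turn b d0), ip_turn_self h0]
    -- class of v
    have hclv : cl v = cl v0 + cl d0 := by
      have hc : cl (tip v0 d0 t) = cl v - cl d0 := by
        rw [hte, cl_add, s1, cl_turn]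
        ring
      have h3 : (3 : ZMod 3) = 0 := three_eq
      rcases hhex with hh | hh
      · rw [hh] at hc
        linear_combination -hc
      · -- cl v = cl v0 + 2 cl d0, impossible
        exfalso
        rw [hh] at hc
        have hne := cl_dir_ne h0
        rcases hvhex with hv' | hv'
        · rw [hv'] at hc
          apply hne
          linear_combination -hc + (cl d0) * h3
        · rw [hv'] at hc
          apply hne
          linear_combination hc
    have hclt : cl (tip v0 d0 t) = cl v0 := by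
      rw [hte, cl_add, s1, cl_turn, hclv]
      ring
    have hmod : ((ip (tip v0 d0 t - v0) d0 : ℤ) : ZMod 3) = ((0 : ℤ) : ZMod 3) := by
      rw [ip_mod, cl_sub, hclt]
      push_cast
      ring
    have hdvd : (3 : ℤ) ∣ 0 - ip (tip v0 d0 t - v0) d0 := (ZMod.intCast_eq_intCast_iff_dvd_sub _ _ 3).1 hmod
    have hmem : tip v0 d0 t ∈ strip v0 d0 T := by
      refine ⟨hhex, by linarith, ?_⟩
      rw [k1]
      by_contra hcon
      have : ip (v - v0) d0 = 3 * T + 1 := by omega
      rw [k1, this] at hdvd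
      omega
    refine ⟨s1, by linarith, hmem, ?_⟩
    obtain ⟨q, hq⟩ := hdvd
    refine ⟨(-q).toNat, ?_, ?_, ?_⟩
    · have h1 := hmem.2.1
      omega
    · have h1 := hmem.2.2
      omega
    · have h1 := hmem.2.1
      omega
  by_cases c1 : 0 < ip (tip v0 d0 t - v0) d0
  · by_cases c2 : ip (tip v0 d0 t - v0) d0 < 3 * T + 2
    · right
      right
      by_cases c3 : ip (tip v0 d0 t - v0) (turn true d0) < 3 * L
      · by_cases c4 : ip (tip v0 d0 t - v0) (turn false d0) < 3 * L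
        · exact absurd ⟨⟨hhex, c1, c2⟩, c3, c4⟩ hout
        · exact ⟨false, lateral false c4 l4⟩
      · exact ⟨true, lateral true c3 l3⟩
    · right
      left
      have hside : IsSide v0 d0 (v0 + d0 + (T : ℤ) • (d0 + rotL d0), d0) :=
        trapS_side h0 T L _ (by simp [trapS])
      have e2 : ∀ w : Pt, ip (v0 + d0 + (T : ℤ) • (d0 + rotL d0) - w) d0 = 3 * T + 2 - ip (w - v0) d0 := by
        intro w
        have : v0 + d0 + (T : ℤ) • (d0 + rotL d0) - w = d0 + (T : ℤ) • (d0 + rotL d0) - (w - v0) := by abel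
        rw [this, ip_sub_left, ip_add_left, ip_smul_left, ip_add_left, ip_self_dir h0, ip_comm (rotL d0),
          ip_rotL_self h0]
        ring
      obtain ⟨s1, s2, s3⟩ := side_step hside hvhex hdm (by rw [e2]; linarith) (by
        rw [e2, ← hte]
        push Not at c2
        linarith)
      simp only [] at s1 s2 s3
      rw [e2, ← hte] at s3
      exact ⟨s1, by linarith⟩
  · left
    have hside : IsSide v0 d0 (v0, -d0) := trapS_side h0 T L _ (by simp [trapS])
    have e1 : ∀ w : Pt, ip (v0 - w) (-d0) = ip (w - v0) d0 := by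
      intro w
      rw [ip_neg_right, ← ip_neg_left]
      congr 1
      abel
    obtain ⟨s1, s2, s3⟩ := side_step hside hvhex hdm (by rw [e1]; exact l1) (by
      rw [e1, ← hte]
      push Not at c1
      exact c1)
    simp only [] at s1 s2 s3
    rw [e1, ← hte] at s3
    exact ⟨s1, s3⟩

/-- the walk leaves the strip at the top or at the bottom exactly when it leaves the trapezoid there. -/
lemma out_trap_top {v0 d0 : Pt} (h0 : d0 ∈ dirs) {T L : ℕ} (hT : 1 ≤ T) (hL : 1 ≤ L) {e : Pt}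
    (he : e = d0 ∨ e = -d0) :
    out (trap v0 d0 T L) v0 d0 e = {t | t ∈ out (strip v0 d0 T) v0 d0 e ∧ Saw (trap v0 d0 T L) v0 d0 t} := by
  ext t
  constructor
  · rintro ⟨h1, h2, h3⟩
    refine ⟨⟨h1.mono (trap_sub v0 d0 T L), ?_, h3⟩, h1⟩
    rintro ⟨_, hb, hc⟩
    obtain ⟨⟨a1, a2, a3, a4, a5⟩, ⟨b1, b2, b3, b4⟩, ⟨c1, c2, c3⟩, ⟨e1, e2⟩, f1⟩ := dirs_distinct d0 h0
    rcases trap_exit h0 hT hL h1 h2 with ⟨hd, hi⟩ | ⟨hd, hi⟩ | ⟨b, hd, _⟩
    · rw [hi] at hb
      exact lt_irrefl _ hb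
    · rw [hi] at hc
      exact lt_irrefl _ hc
    · rw [h3] at hd
      rcases he with he | he
      · rw [he] at hd
        cases b
        · exact a2 hd.symm
        · exact a1 hd.symm
      · rw [he] at hd
        cases b
        · exact c3 hd
        · exact b4 hd
  · rintro ⟨⟨h1, h2, h3⟩, h4⟩
    exact ⟨h4, fun h => h2 (trap_sub v0 d0 T L h), h3⟩

/-- every word lives in a trapezoid. -/
lemma saw_trap {v0 d0 : Pt} {T : ℕ} {t : List Bool} (h : Saw (strip v0 d0 T) v0 d0 t) :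
    ∃ L, Saw (trap v0 d0 T (L + 1)) v0 d0 t := by
  have key : ∀ n, n ≤ t.length → ∃ L : ℕ, ∀ i, 1 ≤ i → i ≤ n → ip (vx v0 d0 t i - v0) (rotL d0) < 3 * L ∧
      ip (vx v0 d0 t i - v0) (rotR d0) < 3 * L := by
    intro n
    induction n with
    | zero => exact fun _ => ⟨0, fun i h1 h2 => by omega⟩
    | succ n ih =>
      intro hn
      obtain ⟨L, hL⟩ := ih (by omega)
      refine ⟨max L (max (ip (vx v0 d0 t (n + 1) - v0) (rotL d0)).toNat
        (ip (vx v0 d0 t (n + 1) - v0) (rotR d0)).toNat + 1), ?_⟩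
      intro i h1 h2
      rcases Nat.lt_or_ge n i with h3 | h3
      · have : i = n + 1 := by omega
        rw [this]
        push_cast
        constructor <;> omega
      · have := hL i h1 h3
        push_cast
        constructor <;> omega
  obtain ⟨L, hL⟩ := key t.length le_rfl
  refine ⟨L, ⟨fun i h1 h2 => ⟨h.mem i h1 h2, ?_, ?_⟩, h.inj⟩⟩
  · have := (hL i h1 h2).1
    push_cast
    linarith
  · have := (hL i h1 h2).2
    push_cast
    linarith

lemma gf_out_strip {v0 d0 : Pt} (h0 : d0 ∈ dirs) {T : ℕ} (hT : 1 ≤ T) {e : Pt} (he : e = d0 ∨ e = -d0) :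
    Tendsto (fun L => gf (out (trap v0 d0 T (L + 1)) v0 d0 e)) atTop (𝓝 (gf (out (strip v0 d0 T) v0 d0 e))) := by
  have hmono : Monotone (fun L => out (trap v0 d0 T (L + 1)) v0 d0 e) := by
    intro L L' hLL t ht
    simp only at ht ⊢
    rw [out_trap_top h0 hT (by omega) he] at ht ⊢
    exact ⟨ht.1, ht.2.mono (trap_mono v0 d0 T (by omega))⟩
  have hm : Monotone (fun L => gf (out (trap v0 d0 T (L + 1)) v0 d0 e)) := fun L L' h => gf_mono (hmono h)
  have hsup : ⨆ L, gf (out (trap v0 d0 T (L + 1)) v0 d0 e) = gf (out (strip v0 d0 T) v0 d0 e) := by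
    apply le_antisymm
    · apply iSup_le
      intro L
      apply gf_mono
      intro t ht
      rw [out_trap_top h0 hT (by omega) he] at ht
      exact ht.1
    · apply gf_le_of_mono_union _ hmono
      · intro t ht
        rw [Set.mem_iUnion]
        obtain ⟨L, hL⟩ := saw_trap ht.1
        refine ⟨L, ?_⟩
        rw [out_trap_top h0 hT (by omega) he]
        exact ⟨ht, hL⟩
      · intro L
        exact le_iSup (fun L => gf (out (trap v0 d0 T (L + 1)) v0 d0 e)) L
  rw [← hsup]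
  exact tendsto_atTop_iSup hm

/-- identity in the trapezoid, in extended nonnegative reals. -/
lemma trap_identity {v0 d0 : Pt} (h0 : d0 ∈ dirs) {T L : ℕ} (hT : 1 ≤ T) (hL : 1 ≤ L) :
    gf (out (trap v0 d0 T L) v0 d0 d0) +
      ENNReal.ofReal (Real.cos (Real.pi / 8)) * (gf (out (trap v0 d0 T L) v0 d0 (rotL d0)) +
        gf (out (trap v0 d0 T L) v0 d0 (rotR d0))) +
      ENNReal.ofReal (Real.cos (3 * Real.pi / 8)) * gf (out (trap v0 d0 T L) v0 d0 (-d0)) = 1 := by
  have hg := (trap_good (v0 := v0) h0 hT hL).identity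
  have hz : ∀ e, e = rotL (rotL d0) ∨ e = rotR (rotR d0) → Ex (trapF (v0 := v0) h0 T L) v0 d0 e = 0 := by
    intro e he
    unfold Ex
    apply Finset.sum_eq_zero
    intro t ht
    exfalso
    rw [Finset.mem_filter, mem_exits] at ht
    obtain ⟨⟨h1, h2⟩, h3⟩ := ht
    have h1' : Saw (trap v0 d0 T L) v0 d0 t := by
      rw [← trapF_coe (v0 := v0) h0]
      exact saw_coe.2 h1
    have h2' : tip v0 d0 t ∉ trap v0 d0 T L := by
      rw [← trapF_coe (v0 := v0) h0, Finset.mem_coe]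
      exact h2
    obtain ⟨⟨a1, a2, a3, a4, a5⟩, ⟨b1, b2, b3, b4⟩, ⟨c1, c2, c3⟩, ⟨e1, e2⟩, f1⟩ := dirs_distinct d0 h0
    rcases trap_exit h0 hT hL h1' h2' with ⟨hd, _⟩ | ⟨hd, _⟩ | ⟨b, hd, _⟩
    · rw [h3] at hd
      rcases he with rfl | rfl
      · exact e2 hd.symm
      · exact f1 hd.symm
    · rw [h3] at hd
      rcases he with rfl | rfl
      · exact a3 hd
      · exact a4 hd
    · rw [h3] at hd
      cases b
      · rcases he with rfl | rfl
        · exact c1 hd
        · exact c2 hd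
      · rcases he with rfl | rfl
        · exact b2 hd
        · exact b3 hd
  rw [hz _ (Or.inl rfl), hz _ (Or.inr rfl), add_zero, mul_zero, add_zero] at hg
  have hc1 : 0 ≤ Real.cos (Real.pi / 8) := cos_pos.le
  have hc3 : 0 ≤ Real.cos (3 * Real.pi / 8) := by
    apply Real.cos_nonneg_of_mem_Icc
    constructor <;> linarith [Real.pi_pos]
  rw [← trapF_coe (v0 := v0) h0]
  rw [gf_out_coe, gf_out_coe, gf_out_coe, gf_out_coe, ← ENNReal.ofReal_add (Ex_nonneg _ _ _ _) (Ex_nonneg _ _ _ _),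
    ← ENNReal.ofReal_mul hc1, ← ENNReal.ofReal_mul hc3, ← ENNReal.ofReal_add (Ex_nonneg _ _ _ _)
      (mul_nonneg hc1 (add_nonneg (Ex_nonneg _ _ _ _) (Ex_nonneg _ _ _ _))),
    ← ENNReal.ofReal_add (add_nonneg (Ex_nonneg _ _ _ _)
      (mul_nonneg hc1 (add_nonneg (Ex_nonneg _ _ _ _) (Ex_nonneg _ _ _ _)))) (mul_nonneg hc3 (Ex_nonneg _ _ _ _)),
    hg, ENNReal.ofReal_one]

lemma gf_top_le_one {v0 d0 : Pt} (h0 : d0 ∈ dirs) {T : ℕ} (hT : 1 ≤ T) :
    gf (out (strip v0 d0 T) v0 d0 d0) ≤ 1 := by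
  apply le_of_tendsto (gf_out_strip h0 hT (Or.inl rfl))
  filter_upwards with L
  rw [← trap_identity (v0 := v0) h0 hT (L := L + 1) (by omega), add_assoc]
  exact le_self_add

/-- the lateral exits disappear. -/
lemma lateral_zero {v0 d0 : Pt} (h0 : d0 ∈ dirs) {T : ℕ} (hT : 1 ≤ T) (b : Bool) :
    Tendsto (fun L => gf (out (trap v0 d0 T (L + 1)) v0 d0 (turn b d0))) atTop (𝓝 0) := by
  classical
  apply ENNReal.tendsto_atTop_zero_of_tsum_ne_top
  -- facts about a lateral exit
  have fact : ∀ L t, t ∈ out (trap v0 d0 T (L + 1)) v0 d0 (turn b d0) →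
      ip (tip v0 d0 t - v0) (turn b d0) = 3 * (L + 1) ∧
      ∃ j : ℕ, 1 ≤ j ∧ j ≤ T ∧ ip (tip v0 d0 t - v0) d0 = 3 * j := by
    rintro L t ⟨h1, h2, h3⟩
    obtain ⟨⟨a1, a2, a3, a4, a5⟩, ⟨b1, b2, b3, b4⟩, ⟨c1, c2, c3⟩, ⟨e1, e2⟩, f1⟩ := dirs_distinct d0 h0
    rcases trap_exit h0 hT (by omega) h1 h2 with ⟨hd, _⟩ | ⟨hd, _⟩ | ⟨b', hd, hi, _, hj⟩
    · exfalso
      rw [h3] at hd
      cases b
      · exact c3 hd.symm
      · exact b4 hd.symm
    · exfalso
      rw [h3] at hd
      cases b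
      · exact a2 hd
      · exact a1 hd
    · rw [h3] at hd
      have hb : b' = b := by
        cases b <;> cases b'
        · rfl
        · exact absurd hd b1
        · exact absurd hd.symm b1
        · rfl
      rw [hb] at hi
      push_cast at hi
      exact ⟨hi, hj⟩
  have hdisj : Set.univ.PairwiseDisjoint (fun L => out (trap v0 d0 T (L + 1)) v0 d0 (turn b d0)) := by
    intro L _ L' _ hne
    show Disjoint _ _
    rw [Set.disjoint_left]
    intro t ht ht'
    have h1 := (fact L t ht).1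
    have h2 := (fact L' t ht').1
    rw [h1] at h2
    apply hne
    omega
  have hsum : ∑' L, gf (out (trap v0 d0 T (L + 1)) v0 d0 (turn b d0)) =
      gf (⋃ L, out (trap v0 d0 T (L + 1)) v0 d0 (turn b d0)) := by
    unfold gf
    exact (ENNReal.tsum_biUnion hdisj).symm
  rw [hsum]
  -- split by the level
  set U := ⋃ L, out (trap v0 d0 T (L + 1)) v0 d0 (turn b d0) with hU
  have hcover : U ⊆ ⋃ j ∈ Finset.range (T + 1), {t | t ∈ U ∧ ip (tip v0 d0 t - v0) d0 = 3 * (j : ℤ)} := by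
    intro t ht
    have ht' := ht
    rw [hU, Set.mem_iUnion] at ht'
    obtain ⟨L, hL⟩ := ht'
    obtain ⟨_, j, hj1, hj2, hj3⟩ := fact L t hL
    simp only [Set.mem_iUnion]
    exact ⟨j, Finset.mem_range.2 (by omega), ht, hj3⟩
  have hle : gf U ≤ ∑ j ∈ Finset.range (T + 1), gf {t | t ∈ U ∧ ip (tip v0 d0 t - v0) d0 = 3 * (j : ℤ)} :=
    (gf_mono hcover).trans (ENNReal.tsum_biUnion_le wE _ _)
  refine ne_top_of_le_ne_top ?_ hle
  apply ENNReal.sum_ne_top.2
  intro j _
  have hbound : gf {t | t ∈ U ∧ ip (tip v0 d0 t - v0) d0 = 3 * (j : ℤ)} ≤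
      ENNReal.ofReal ((xc ^ (2 * (T - j) + 1))⁻¹) * gf (out (strip v0 d0 T) v0 d0 d0) := by
    apply gf_le_of_inj (fun t => t ++ zig b (T - j))
    · rintro t ⟨ht, hj⟩
      rw [hU, Set.mem_iUnion] at ht
      obtain ⟨L, hL⟩ := ht
      obtain ⟨hi, j', hj1, hj2, hj3⟩ := fact L t hL
      have hjj : j' = j := by
        rw [hj3] at hj
        omega
      rw [hjj] at hj1 hj2
      apply zig_out h0 b T (T - j) t (hL.1.mono (trap_sub _ _ _ _)) hL.2.2
      · intro i hi'
        rw [hi]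
        rcases Nat.eq_zero_or_pos i with hz | hp
        · rw [hz]
          show ip (v0 - v0) (turn b d0) < _
          rw [sub_self]
          have : ip (0 : Pt) (turn b d0) = 0 := by
            simp [ip]
          rw [this]
          positivity
        · have := trap_lt (hL.1.mem i hp hi') b
          push_cast at this
          linarith
      · rw [hj, Nat.cast_sub hj2]
        ring
      · rw [hj]
        have : (1 : ℤ) ≤ j := by exact_mod_cast hj1
        linarith
    · intro t _ s _ hts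
      exact List.append_cancel_right hts
    · intro t _
      rw [wE_append]
      have e1 : wE (zig b (T - j)) = ENNReal.ofReal (xc ^ (2 * (T - j) + 1)) := by
        unfold wE
        rw [zig_length]
      rw [e1, mul_comm (wE t), ← mul_assoc, ← ENNReal.ofReal_mul (by
        have := xc_pos
        positivity), inv_mul_cancel₀ (pow_ne_zero _ xc_pos.ne'), ENNReal.ofReal_one, one_mul]
  refine ne_top_of_le_ne_top ?_ hbound
  apply ENNReal.mul_ne_top ENNReal.ofReal_ne_top
  exact ne_top_of_le_ne_top ENNReal.one_ne_top (gf_top_le_one h0 hT)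

/-- THE STRIP IDENTITY: B_T + cos (3 pi / 8) A_T = 1. -/
theorem strip_identity {v0 d0 : Pt} (h0 : d0 ∈ dirs) {T : ℕ} (hT : 1 ≤ T) :
    gf (out (strip v0 d0 T) v0 d0 d0) +
      ENNReal.ofReal (Real.cos (3 * Real.pi / 8)) * gf (out (strip v0 d0 T) v0 d0 (-d0)) = 1 := by
  have h1 := gf_out_strip (v0 := v0) h0 hT (Or.inl rfl)
  have h2 := gf_out_strip (v0 := v0) h0 hT (Or.inr rfl)
  have h3 := lateral_zero (v0 := v0) h0 hT true
  have h4 := lateral_zero (v0 := v0) h0 hT false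
  have h5 : Tendsto (fun L => gf (out (trap v0 d0 T (L + 1)) v0 d0 d0) +
      ENNReal.ofReal (Real.cos (Real.pi / 8)) * (gf (out (trap v0 d0 T (L + 1)) v0 d0 (rotL d0)) +
        gf (out (trap v0 d0 T (L + 1)) v0 d0 (rotR d0))) +
      ENNReal.ofReal (Real.cos (3 * Real.pi / 8)) * gf (out (trap v0 d0 T (L + 1)) v0 d0 (-d0))) atTop
      (𝓝 (gf (out (strip v0 d0 T) v0 d0 d0) + ENNReal.ofReal (Real.cos (Real.pi / 8)) * (0 + 0) +
      ENNReal.ofReal (Real.cos (3 * Real.pi / 8)) * gf (out (strip v0 d0 T) v0 d0 (-d0)))) := by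
    refine (h1.add (ENNReal.Tendsto.const_mul (h3.add h4) (Or.inr ENNReal.ofReal_ne_top))).add
      (ENNReal.Tendsto.const_mul h2 (Or.inr ENNReal.ofReal_ne_top))
  have h6 : Tendsto (fun L => gf (out (trap v0 d0 T (L + 1)) v0 d0 d0) +
      ENNReal.ofReal (Real.cos (Real.pi / 8)) * (gf (out (trap v0 d0 T (L + 1)) v0 d0 (rotL d0)) +
        gf (out (trap v0 d0 T (L + 1)) v0 d0 (rotR d0))) +
      ENNReal.ofReal (Real.cos (3 * Real.pi / 8)) * gf (out (trap v0 d0 T (L + 1)) v0 d0 (-d0))) atTop (𝓝 1) := by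
    apply tendsto_const_nhds.congr
    intro L
    exact (trap_identity (v0 := v0) h0 hT (L := L + 1) (by omega)).symm
  have h7 := tendsto_nhds_unique h5 h6
  rw [add_zero, mul_zero, add_zero] at h7
  exact h7

end HexObs
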