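import Pool.Agent.HexObs.WDefs

set_option autoImplicit false

namespace HexObs

open Complex Finset

lemma swap_dirs : ∀ e ∈ dirs, ∀ e' ∈ dirs, ∀ c : Bool, cl e' = cl e → e' ≠ e → e' ≠ -turn c e →
    turn (!c) e' = turn c e ∧ turn c e' = -e := by
  decide

/-- two walks from feet on one line that meet: parity of the lengths. -/
lemma meet_parity {p q d0 : Pt} (h0 : d0 ∈ dirs) (hcl : cl p = cl q) {l r : List Bool}
    (ht : tip p d0 l = tip q d0 r) : Even l.length ↔ Even r.length := by
  have h1 := cl_vx p d0 l (l.length + 1)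
  have h2 := cl_vx q d0 r (r.length + 1)
  have h3 : vx p d0 l (l.length + 1) = vx q d0 r (r.length + 1) := ht
  rw [h3, h2] at h1
  have hc := cl_dir_ne h0
  by_cases a : Even (r.length + 1) <;> by_cases b : Even (l.length + 1)
  · rw [Nat.even_add_one] at a b
    exact ⟨fun h => absurd h b, fun h => absurd h a⟩
  · rw [if_pos a, if_neg b, hcl] at h1
    exact absurd (by linear_combination -h1 : cl d0 = 0) hc
  · rw [if_neg a, if_pos b, hcl] at h1
    exact absurd (by linear_combination h1 : cl d0 = 0) hc
  · rw [Nat.even_add_one, not_not] at a b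
    exact ⟨fun _ => a, fun _ => b⟩

/-- the vertices of a word after a cut, in terms of another word. -/
lemma vx_stem {p q d0 : Pt} {l r m : List Bool} {c c' : Bool} (ht : tip p d0 l = tip q d0 r)
    (hd : turn c' (dx d0 l l.length) = turn c (dx d0 r r.length)) (k : ℕ) :
    vx p d0 (l ++ ([c'] ++ m)) (l.length + 1 + k) = vx q d0 (r ++ ([c] ++ m)) (r.length + 1 + k) ∧
    dx d0 (l ++ ([c'] ++ m)) (l.length + 1 + k) = dx d0 (r ++ ([c] ++ m)) (r.length + 1 + k) := by
  obtain ⟨a1, a2⟩ := vx_split p d0 l c' m k
  obtain ⟨b1, b2⟩ := vx_split q d0 r c m k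
  rw [a1, a2, b1, b2, ht, hd]
  exact ⟨rfl, rfl⟩

/-- theta swap, geometric part: the walk l from p hits the bridge r c m from q at the end of r. -/
theorem swap_geo {Ω X : Set Pt} {p q d0 : Pt} (h0 : d0 ∈ dirs) (hhp : ∀ v ∈ Ω, 0 < ip (v - p) d0)
    (hpq : ip (q - p) d0 = 0) (hne : p ≠ q) (hcl : cl p = cl q) {l r m : List Bool} {c : Bool}
    (hs : r ++ ([c] ++ m) ∈ Br Ω X q d0) (hl : Saw (Ω \ (X ∪ vis q d0 (r ++ ([c] ++ m)))) p d0 l)
    (ht : tip p d0 l = tip q d0 r) :
    turn (!c) (dx d0 l l.length) = turn c (dx d0 r r.length) ∧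
    turn c (dx d0 l l.length) = -(dx d0 r r.length) ∧
    l ++ ([!c] ++ m) ∈ Br Ω X p d0 ∧ Saw (Ω \ (X ∪ vis p d0 (l ++ ([!c] ++ m)))) q d0 r := by
  obtain ⟨hs1, hs2, hs3⟩ := hs
  set s := r ++ ([c] ++ m) with hsdef
  have hslen : s.length = r.length + 1 + m.length := by
    rw [hsdef]
    simp only [List.length_append, List.length_singleton]
    omega
  have hqp : ∀ v ∈ Ω, v ≠ p := by
    intro v hv hvp
    have := hhp v hv
    rw [hvp, sub_self] at this
    simp [ip] at this
  have hqq : ∀ v ∈ Ω, v ≠ q := by
    intro v hv hvp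
    have := hhp v hv
    rw [hvp, hpq] at this
    exact lt_irrefl _ this
  have er : ∀ i, i ≤ r.length + 1 → vx q d0 s i = vx q d0 r i := fun i hi => vx_append hi
  have hv : tip q d0 r = vx q d0 s (r.length + 1) := (er _ le_rfl).symm
  have hvΩ : vx q d0 s (r.length + 1) ∈ Ω := (hs1.mem _ (by omega) (by omega)).1
  have hU := dx_mem h0 l l.length
  have hS := dx_mem h0 r r.length
  have eS : vx q d0 r (r.length + 1) = vx q d0 r r.length + dx d0 r r.length := vx_succ _ _ _ _
  have eU : vx p d0 l (l.length + 1) = vx p d0 l l.length + dx d0 l l.length := vx_succ _ _ _ _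
  have ht' : vx p d0 l (l.length + 1) = vx q d0 r (r.length + 1) := ht
  have hvis : ∀ i, 1 ≤ i → i ≤ l.length → ∀ k, 1 ≤ k → k ≤ s.length → vx p d0 l i ≠ vx q d0 s k := by
    intro i hi hil k hk hkl he
    exact (hl.mem i hi hil).2 (Or.inr ⟨k, hk, hkl, he.symm⟩)
  have hcd : cl (dx d0 l l.length) = cl (dx d0 r r.length) := by
    rw [cl_dx, cl_dx]
    have hpar := meet_parity h0 hcl ht
    by_cases he : Even l.length
    · rw [if_pos he, if_pos (hpar.1 he)]
    · rw [if_neg he, if_neg (fun h => he (hpar.2 h))]
  -- the two arrival directions are different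
  have h1 : dx d0 l l.length ≠ dx d0 r r.length := by
    intro he
    have h2 : vx p d0 l l.length = vx q d0 r r.length := by
      rw [eU, eS, he] at ht'
      exact add_right_cancel ht'
    rcases Nat.eq_zero_or_pos l.length with hl0 | hl0
    · have hp : vx p d0 l l.length = p := by
        rw [hl0]
        rfl
      rcases Nat.eq_zero_or_pos r.length with hr0 | hr0
      · have hq : vx q d0 r r.length = q := by
          rw [hr0]
          rfl
        exact hne (by rw [← hp, h2, hq])
      · have h3 := (hs1.mem r.length hr0 (by omega)).1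
        rw [er _ (by omega), ← h2, hp] at h3
        exact hqp p h3 rfl
    · have h4 := (hl.mem l.length hl0 le_rfl).1
      rcases Nat.eq_zero_or_pos r.length with hr0 | hr0
      · have hq : vx q d0 r r.length = q := by
          rw [hr0]
          rfl
        rw [h2, hq] at h4
        exact hqq q h4 rfl
      · exact hvis l.length hl0 le_rfl r.length hr0 (by omega) (by rw [er _ (by omega), h2])
  -- the explorer does not come along the stem
  have edst : dx d0 s (r.length + 1) = turn c (dx d0 r r.length) := by
    have := (vx_split q d0 r c m 0).2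
    rw [add_zero] at this
    rw [hsdef, this]
    rfl
  have h2 : dx d0 l l.length ≠ -turn c (dx d0 r r.length) := by
    intro he
    have h3 : vx p d0 l l.length = vx q d0 s (r.length + 2) := by
      have h4 : vx q d0 s (r.length + 2) = vx q d0 s (r.length + 1) + dx d0 s (r.length + 1) := vx_succ _ _ _ _
      rw [h4, edst, er _ le_rfl, ← ht', eU, he]
      abel
    rcases Nat.eq_zero_or_pos l.length with hl0 | hl0
    · have hp : vx p d0 l l.length = p := by
        rw [hl0]
        rfl
      rcases Nat.lt_or_ge s.length (r.length + 2) with h5 | h5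
      · have h6 : s.length = r.length + 1 := by omega
        have h7 : vx q d0 s (r.length + 2) = vx q d0 s (r.length + 1) + dx d0 s (r.length + 1) := vx_succ _ _ _ _
        have h8 : dx d0 s (r.length + 1) = d0 := by
          rw [← h6]
          exact hs3
        have h9 := hhp _ hvΩ
        have h10 : p = vx q d0 s (r.length + 1) + d0 := by rw [← hp, h3, h7, h8]
        have h11 : vx q d0 s (r.length + 1) - p = -d0 := by
          rw [h10]
          abel
        rw [h11] at h9
        have h12 := ip_self_dir h0
        have h13 : ip (-d0) d0 = - ip d0 d0 := by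
          simp only [ip, Prod.fst_neg, Prod.snd_neg]
          ring
        omega
      · have h6 := (hs1.mem (r.length + 2) (by omega) h5).1
        rw [← h3, hp] at h6
        exact hqp p h6 rfl
    · have h4 := (hl.mem l.length hl0 le_rfl).1
      rcases Nat.lt_or_ge s.length (r.length + 2) with h5 | h5
      · have h6 : r.length + 2 = s.length + 1 := by omega
        rw [h3, h6] at h4
        exact hs2 h4
      · exact hvis l.length hl0 le_rfl (r.length + 2) (by omega) h5 h3
  obtain ⟨hd1, hd2⟩ := swap_dirs _ hS _ hU c hcd h1 h2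
  refine ⟨hd1, hd2, ?_, ?_⟩
  -- the new bridge
  · have est := fun k => vx_stem (m := m) ht hd1 k
    have hlen' : (l ++ ([!c] ++ m)).length = l.length + 1 + m.length := by
      simp only [List.length_append, List.length_singleton]
      omega
    refine ⟨⟨?_, ?_⟩, ?_, ?_⟩
    · intro i hi hil
      rcases Nat.lt_or_ge l.length i with h3 | h3
      · obtain ⟨k, rfl⟩ := Nat.exists_eq_add_of_le (show l.length + 1 ≤ i by omega)
        rw [(est k).1]
        exact hs1.mem _ (by omega) (by omega)
      · rw [vx_append (by omega)]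
        have := hl.mem i hi h3
        exact ⟨this.1, fun h => this.2 (Or.inl h)⟩
    · intro i k hik hkl
      rcases Nat.lt_or_ge l.length k with h3 | h3
      · obtain ⟨k', rfl⟩ := Nat.exists_eq_add_of_le (show l.length + 1 ≤ k by omega)
        rw [(est k').1]
        rcases Nat.lt_or_ge l.length i with h4 | h4
        · obtain ⟨i', rfl⟩ := Nat.exists_eq_add_of_le (show l.length + 1 ≤ i by omega)
          rw [(est i').1]
          exact hs1.inj _ _ (by omega) (by omega)
        · rw [vx_append (by omega)]
          rcases Nat.eq_zero_or_pos i with hi0 | hi0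
          · rw [hi0]
            exact fun he => hqp _ (hs1.mem (r.length + 1 + k') (by omega) (by omega)).1 he.symm
          · exact hvis i hi0 h4 _ (by omega) (by omega)
      · rw [vx_append (by omega), vx_append (by omega)]
        exact hl.inj i k hik h3
    · show vx p d0 (l ++ ([!c] ++ m)) ((l ++ ([!c] ++ m)).length + 1) ∉ Ω
      have e1 : (l ++ ([!c] ++ m)).length + 1 = l.length + 1 + (m.length + 1) := by omega
      rw [e1, (est (m.length + 1)).1]
      have e2 : r.length + 1 + (m.length + 1) = s.length + 1 := by omega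
      rw [e2]
      exact hs2
    · rw [hlen', (est m.length).2, ← hslen]
      exact hs3
  · have est := fun k => vx_stem (m := m) ht hd1 k
    have hlen' : (l ++ ([!c] ++ m)).length = l.length + 1 + m.length := by
      simp only [List.length_append, List.length_singleton]
      omega
    refine ⟨?_, ?_⟩
    · intro i hi hil
      have h3 := hs1.mem i hi (by omega)
      rw [er i (by omega)] at h3
      refine ⟨h3.1, ?_⟩
      rintro (h4 | ⟨k, hk, hkl, he⟩)
      · exact h3.2 h4
      · rcases Nat.lt_or_ge l.length k with h5 | h5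
        · obtain ⟨k', rfl⟩ := Nat.exists_eq_add_of_le (show l.length + 1 ≤ k by omega)
          rw [(est k').1, ← er i (by omega)] at he
          exact hs1.inj i (r.length + 1 + k') (by omega) (by omega) he.symm
        · rw [vx_append (by omega), ← er i (by omega)] at he
          exact hvis k hk h5 i hi (by omega) he
    · intro i k hik hkl
      have := hs1.inj i k hik (by omega)
      rwa [er i (by omega), er k (by omega)] at this

lemma wind_rev (t : List Bool) : wind (rev t) = - wind t := by
  unfold rev wind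
  rw [List.map_reverse, List.sum_reverse, List.map_map]
  induction t with
  | nil => rfl
  | cons b t ih =>
    simp only [List.map_cons, List.sum_cons, ih, Function.comp]
    cases b <;> simp [sgn] <;> ring

lemma wind_cons (c : Bool) (m : List Bool) : wind ([c] ++ m) = sgn c + wind m := by
  rw [wind_append]
  simp [wind]

/-- a bridge has winding zero. -/
lemma br_wind {Ω : Finset Pt} {q d0 : Pt} (hq : GoodDom Ω q d0) {X : Set Pt} {s : List Bool}
    (hs : s ∈ Br (Ω : Set Pt) X q d0) : wind s = 0 := by
  obtain ⟨h1, h2, h3⟩ := hs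
  have harr : IsArr Ω q d0 s := ⟨fun i hi hil => (h1.mem i hi hil).1, h1.inj⟩
  have hex : s ∈ exits Ω q d0 := mem_exits.2 ⟨harr, h2⟩
  obtain ⟨⟨a1, a2, a3, a4, a5⟩, _⟩ := dirs_distinct d0 hq.dir
  rcases hq.wind hex with ⟨hd, hw⟩ | ⟨hd, hw⟩ | ⟨hd, hw⟩ | ⟨hd, hw⟩ | ⟨hd, hw⟩ | ⟨hd, hw⟩
  · exact hw
  · exact absurd (hd.symm.trans h3) a1
  · exact absurd (hd.symm.trans h3) a2
  · exact absurd (hd.symm.trans h3) a3
  · exact absurd (hd.symm.trans h3) a4
  · exact absurd (hd.symm.trans h3) a5

/-- the arc made of l and the reversed r. -/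
lemma arc_exit {Ω : Finset Pt} {p q d0 : Pt} (hhp : ∀ v ∈ Ω, 0 < ip (v - p) d0)
    (hpq : ip (q - p) d0 = 0) {l r : List Bool} {c : Bool}
    (hl : IsArr Ω p d0 l) (hr : IsArr Ω q d0 r) (hv : tip p d0 l ∈ Ω)
    (hlv : ∀ i, i ≤ l.length → vx p d0 l i ≠ tip p d0 l) (hrv : ∀ i, i ≤ r.length → vx q d0 r i ≠ tip p d0 l)
    (hlr : ∀ i k, 1 ≤ i → i ≤ l.length → 1 ≤ k → k ≤ r.length → vx p d0 l i ≠ vx q d0 r k)
    (ht : tip p d0 l = tip q d0 r) (hc : turn c (dx d0 l l.length) = -(dx d0 r r.length)) :
    l ++ ([c] ++ rev r) ∈ exits Ω p d0 ∧ dx d0 (l ++ ([c] ++ rev r)) (l ++ ([c] ++ rev r)).length = -d0 ∧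
      tip p d0 (l ++ ([c] ++ rev r)) = q := by
  have hlen : (l ++ ([c] ++ rev r)).length = l.length + 1 + r.length := by
    simp only [List.length_append, List.length_singleton, rev_length]
    omega
  have est : ∀ k, k ≤ r.length + 1 → vx p d0 (l ++ ([c] ++ rev r)) (l.length + 1 + k) =
      vx q d0 r (r.length + 1 - k) := by
    intro k hk
    rw [(vx_split p d0 l c (rev r) k).1, hc, ht]
    exact vx_rev q d0 r k hk
  have hpp : ∀ v ∈ Ω, v ≠ p := by
    intro v hv hvp
    have := hhp v hv
    rw [hvp, sub_self] at this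
    simp [ip] at this
  have hqq : ∀ v ∈ Ω, v ≠ q := by
    intro v hv hvp
    have := hhp v hv
    rw [hvp, hpq] at this
    exact lt_irrefl _ this
  have htip : tip p d0 (l ++ ([c] ++ rev r)) = q := by
    show vx p d0 (l ++ ([c] ++ rev r)) ((l ++ ([c] ++ rev r)).length + 1) = q
    have e1 : (l ++ ([c] ++ rev r)).length + 1 = l.length + 1 + (r.length + 1) := by omega
    rw [e1, est _ le_rfl, Nat.sub_self]
    rfl
  refine ⟨mem_exits.2 ⟨⟨?_, ?_⟩, ?_⟩, ?_, htip⟩
  · intro i hi hil
    rcases Nat.lt_or_ge l.length i with h3 | h3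
    · obtain ⟨k, rfl⟩ := Nat.exists_eq_add_of_le (show l.length + 1 ≤ i by omega)
      rw [est k (by omega)]
      rcases Nat.eq_zero_or_pos k with hk0 | hk0
      · rw [hk0, Nat.sub_zero]
        have : vx q d0 r (r.length + 1) = tip p d0 l := ht.symm
        rw [this]
        exact hv
      · exact hr.mem _ (by omega) (by omega)
    · rw [vx_append (by omega)]
      exact hl.mem i hi h3
  · intro i k hik hkl
    rcases Nat.lt_or_ge l.length k with h3 | h3
    · obtain ⟨k', rfl⟩ := Nat.exists_eq_add_of_le (show l.length + 1 ≤ k by omega)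
      rw [est k' (by omega)]
      rcases Nat.lt_or_ge l.length i with h4 | h4
      · obtain ⟨i', rfl⟩ := Nat.exists_eq_add_of_le (show l.length + 1 ≤ i by omega)
        rw [est i' (by omega)]
        rcases Nat.eq_zero_or_pos i' with hi0 | hi0
        · rw [hi0, Nat.sub_zero]
          have : vx q d0 r (r.length + 1) = tip p d0 l := ht.symm
          rw [this]
          exact (hrv _ (by omega)).symm
        · exact (hr.inj (r.length + 1 - k') (r.length + 1 - i') (by omega) (by omega)).symm
      · rw [vx_append (by omega)]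
        rcases Nat.eq_zero_or_pos k' with hk0 | hk0
        · rw [hk0, Nat.sub_zero]
          have : vx q d0 r (r.length + 1) = tip p d0 l := ht.symm
          rw [this]
          exact hlv i h4
        · rcases Nat.eq_zero_or_pos i with hi0 | hi0
          · rw [hi0]
            exact fun he => hpp _ (hr.mem (r.length + 1 - k') (by omega) (by omega)) he.symm
          · exact hlr i _ hi0 h4 (by omega) (by omega)
    · rw [vx_append (by omega), vx_append (by omega)]
      exact hl.inj i k hik h3
  · rw [htip]
    exact fun h => hqq q h rfl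
  · rw [hlen, (vx_split p d0 l c (rev r) r.length).2, hc]
    have := dx_rev d0 r r.length le_rfl
    rw [Nat.sub_self] at this
    exact this

/-- theta swap, windings: q is on the right of p. -/
theorem swap_wind {Ω : Finset Pt} {X : Set Pt} {p q d0 : Pt} (hp : GoodDom Ω p d0) (hq : GoodDom Ω q d0)
    (hpq : ip (q - p) d0 = 0) (hcl : cl p = cl q) (hright : cross d0 (q - p) < 0) {l r m : List Bool} {c : Bool}
    (hs : r ++ ([c] ++ m) ∈ Br (Ω : Set Pt) X q d0)
    (hl : Saw ((Ω : Set Pt) \ (X ∪ vis q d0 (r ++ ([c] ++ m)))) p d0 l)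
    (ht : tip p d0 l = tip q d0 r) : wind r = wind l + 2 := by
  have hne : p ≠ q := by
    rintro rfl
    rw [sub_self] at hright
    simp [cross] at hright
  obtain ⟨_, hd2, hbr, _⟩ := swap_geo hp.dir (fun v hv => hp.half v hv) hpq hne hcl hs hl ht
  have w1 := br_wind hq hs
  have w2 := br_wind hp hbr
  have hs' := hs
  obtain ⟨hs1, hs2, hs3⟩ := hs'
  have hslen : (r ++ ([c] ++ m)).length = r.length + 1 + m.length := by
    simp only [List.length_append, List.length_singleton]
    omega
  have er : ∀ i, i ≤ r.length + 1 → vx q d0 (r ++ ([c] ++ m)) i = vx q d0 r i := fun i hi => vx_append hi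
  have hv : vx q d0 (r ++ ([c] ++ m)) (r.length + 1) = tip p d0 l := by
    rw [er _ le_rfl, ht]
    rfl
  have hvΩ : tip p d0 l ∈ Ω := by
    rw [← hv]
    exact (hs1.mem _ (by omega) (by omega)).1
  have hpo : ∀ v ∈ Ω, v ≠ p := by
    intro v hv hvp
    have := hp.half v hv
    rw [hvp, sub_self] at this
    simp [ip] at this
  obtain ⟨hex, hdir, htip⟩ := arc_exit (c := c) (fun v hv => hp.half v hv) hpq (l := l) (r := r)
    ⟨fun i hi hil => (hl.mem i hi hil).1, hl.inj⟩
    ⟨fun i hi hil => by
        have := (hs1.mem i hi (by omega)).1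
        rwa [er i (by omega)] at this,
      fun i k hik hkl => by
        have := hs1.inj i k hik (by omega)
        rwa [er i (by omega), er k (by omega)] at this⟩
    hvΩ
    (fun i hil => by
      rcases Nat.eq_zero_or_pos i with hi0 | hi0
      · rw [hi0]
        exact fun h => hpo _ hvΩ h.symm
      · intro h
        exact (hl.mem i hi0 hil).2 (Or.inr ⟨r.length + 1, by omega, by omega, hv.trans h.symm⟩))
    (fun i hir => by
      have := hs1.inj i (r.length + 1) (by omega) (by omega)
      rw [hv] at this
      rwa [er i (by omega)] at this)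
    (fun i k hi hil hk hkr h => (hl.mem i hi hil).2 (Or.inr ⟨k, hk, by omega, by rw [er k (by omega), h]⟩))
    ht hd2
  have w3 : wind (l ++ ([c] ++ rev r)) = -3 := by
    rcases hp.bottom hex hdir with ⟨h1, h2⟩ | ⟨h1, h2⟩
    · rw [htip] at h1
      exact absurd h1 (not_lt.2 hright.le)
    · exact h2
  rw [wind_append, wind_cons, wind_rev] at w3
  rw [wind_append, wind_cons] at w1 w2
  cases c
  · simp only [sgn, Bool.not_false, if_true, Bool.false_eq_true, if_false] at w1 w2 w3
    omega
  · simp only [sgn, Bool.not_true, if_true, Bool.false_eq_true, if_false] at w1 w2 w3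
    omega

end HexObs
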