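import Pool.Agent.HexObs.Slit2

set_option autoImplicit false

namespace HexObs

open Complex Finset ENNReal

lemma ob_mono' (Ω : Finset Pt) (v d0 : Pt) (F G : Set Pt → ℝ) (X : Set Pt)
    (h : ∀ s ∈ Br (Ω : Set Pt) X v d0, F (X ∪ vis v d0 s) ≤ G (X ∪ vis v d0 s)) : ob Ω v d0 F X ≤ ob Ω v d0 G X := by
  unfold ob
  apply Finset.sum_le_sum
  intro s hs
  exact mul_le_mul_of_nonneg_left (h s (mem_brF.1 hs)) (pow_nonneg xc_pos.le _)

lemma ob_nonneg (Ω : Finset Pt) (v d0 : Pt) (F : Set Pt → ℝ) (X : Set Pt) (h : ∀ Y, 0 ≤ F Y) : 0 ≤ ob Ω v d0 F X :=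
  Finset.sum_nonneg (fun _ _ => mul_nonneg (pow_nonneg xc_pos.le _) (h _))

/-- pairs of walkers from q, r and a family of words disjoint from them, as a real number. -/
noncomputable def obob (Ω : Finset Pt) (q r p d0 : Pt) (D : Set Pt → Set (List Bool)) : ℝ :=
  ob Ω q d0 (ob Ω r d0 (fun Z => gr Ω p d0 (D Z))) ∅

lemma overBr_overBr_toReal {Ω : Finset Pt} {q r p d0 : Pt} {D : Set Pt → Set (List Bool)}
    (hD : ∀ Z, InArr Ω p d0 (D Z)) :
    (overBr (Ω : Set Pt) q d0 (fun Y => overBr (Ω : Set Pt) r d0 (fun Z => gf (D Z)) Y) ∅).toReal =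
      obob Ω q r p d0 D := by
  have h1 : ∀ Z, gf (D Z) ≠ ∞ := fun Z => gf_ne_top (hD Z)
  rw [overBr_toReal _ _ _ _ (fun Y => overBr_ne_top _ _ _ _ h1 Y)]
  unfold obob
  congr 1
  funext Y
  rw [overBr_toReal _ _ _ _ h1]
  congr 1
  funext Z
  exact gf_toReal (hD Z)

lemma P2_toReal (Ω : Finset Pt) (v0 d0 : Pt) (a b : ℤ) :
    (P2 (Ω : Set Pt) v0 d0 a b ∅).toReal =
      ob Ω (foot v0 d0 a) d0 (fun Y => gr Ω (foot v0 d0 b) d0 (Br (Ω : Set Pt) Y (foot v0 d0 b) d0)) ∅ := by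
  unfold P2
  rw [overBr_toReal _ _ _ _ (fun Y => gf_ne_top (br_arr Ω Y _ _))]
  congr 1
  funext Y
  exact gf_toReal (br_arr Ω Y _ _)

lemma P3_toReal (Ω : Finset Pt) (v0 d0 : Pt) (a b c : ℤ) :
    (P3 (Ω : Set Pt) v0 d0 a b c ∅).toReal =
      obob Ω (foot v0 d0 a) (foot v0 d0 b) (foot v0 d0 c) d0 (fun Z => Br (Ω : Set Pt) Z (foot v0 d0 c) d0) :=
  overBr_overBr_toReal (fun Z => br_arr Ω Z _ _)

lemma Q2_toReal {Ω : Finset Pt} {v0 d0 p : Pt} {a b : ℤ} {D : Set Pt → Set (List Bool)}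
    (hD : ∀ Z, InArr Ω p d0 (D Z)) :
    (Q2 (Ω : Set Pt) v0 d0 a b D ∅).toReal = obob Ω (foot v0 d0 a) (foot v0 d0 b) p d0 D :=
  overBr_overBr_toReal hD

lemma obob_comm (Ω : Finset Pt) (q r p d0 : Pt) (D : Set Pt → Set (List Bool)) (hD : ∀ Z, InArr Ω p d0 (D Z)) :
    obob Ω q r p d0 D = obob Ω r q p d0 D := by
  rw [← overBr_overBr_toReal hD, ← overBr_overBr_toReal hD]
  congr 1
  exact overBr_comm (Ω : Set Pt) q r d0 (fun Z => gf (D Z)) ∅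

lemma obob_br_last (Ω : Finset Pt) (q r p d0 : Pt) :
    obob Ω q r p d0 (fun Z => Br (Ω : Set Pt) Z p d0) = obob Ω q p r d0 (fun Z => Br (Ω : Set Pt) Z r d0) := by
  rw [← overBr_overBr_toReal (fun Z => br_arr Ω Z _ _), ← overBr_overBr_toReal (fun Z => br_arr Ω Z _ _)]
  congr 2
  funext Y
  have h := overBr_comm (Ω : Set Pt) r p d0 (fun _ => 1) Y
  have e : ∀ k : Pt, (fun Z => overBr (Ω : Set Pt) k d0 (fun _ => 1) Z) = fun Z => gf (Br (Ω : Set Pt) Z k d0) :=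
    fun k => funext (fun Z => overBr_one _ k d0 Z)
  rw [← e p, ← e r]
  exact h

lemma obob_nonneg (Ω : Finset Pt) (q r p d0 : Pt) (D : Set Pt → Set (List Bool)) : 0 ≤ obob Ω q r p d0 D :=
  ob_nonneg _ _ _ _ _ (fun _ => ob_nonneg _ _ _ _ _ (fun _ => gr_nonneg _ _ _ _))

lemma obob_lin (Ω : Finset Pt) (q r d0 : Pt) (F G : Set Pt → ℝ) (a b : ℝ) :
    ob Ω q d0 (ob Ω r d0 (fun Z => a * F Z + b * G Z)) ∅ =
      a * ob Ω q d0 (ob Ω r d0 F) ∅ + b * ob Ω q d0 (ob Ω r d0 G) ∅ := by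
  have e1 : ob Ω r d0 (fun Z => a * F Z + b * G Z) = fun Y => a * ob Ω r d0 F Y + b * ob Ω r d0 G Y := by
    funext Y
    rw [ob_add Ω r d0 (fun Z => a * F Z) (fun Z => b * G Z), ob_mul, ob_mul]
  rw [e1, ob_add Ω q d0 (fun Y => a * ob Ω r d0 F Y) (fun Y => b * ob Ω r d0 G Y), ob_mul, ob_mul]

/-- a hit sum over an unreachable walker. -/
lemma zh_far {Ω : Finset Pt} {v1 v2 v3 d0 : Pt} (h2 : GoodDom Ω v2 d0)
    (c1 : cl v1 = cl v2) (c3 : cl v3 = cl v2) (l1 : ip (v1 - v2) d0 = 0) (l3 : ip (v3 - v2) d0 = 0)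
    (hside : (0 < cross d0 (v1 - v2) ∧ cross d0 (v3 - v2) < 0) ∨ (cross d0 (v1 - v2) < 0 ∧ 0 < cross d0 (v3 - v2)))
    (f : ℤ → ℝ) :
    ∑ s ∈ fam Ω v2 d0 (Br (Ω : Set Pt) ∅ v2 d0), xc ^ s.length * Zh Ω (vis v2 d0 s) v1 v3 d0 f = 0 := by
  apply Finset.sum_eq_zero
  intro s hs
  rw [mem_brF] at hs
  have : Zh Ω (vis v2 d0 s) v1 v3 d0 f = 0 := by
    unfold Zh
    apply Finset.sum_eq_zero
    intro g hg
    rw [mem_brF] at hg
    apply Finset.sum_eq_zero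
    intro u hu
    rw [mem_hitF] at hu
    exact absurd hu.2 (far_hit h2 c1 c3 l1 l3 hside hs hg hu.1)
  rw [this, mul_zero]

lemma t3_cl_hz (d0 : Pt) : cl (hz d0) = 0 := by
  unfold hz
  rw [cl_add, cl_rotR (rotR d0), cl_rotR]
  ring

lemma t3_ip_hz (d0 : Pt) : ip (hz d0) d0 = 0 := by
  simp only [hz, ip, rotR, Prod.fst_add, Prod.snd_add]
  ring

lemma t3_cross_hz {d0 : Pt} (h0 : d0 ∈ dirs) : cross d0 (hz d0) = -2 := by
  revert d0
  decide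

lemma t3_foot_sub (v0 d0 : Pt) (a b : ℤ) : foot v0 d0 a - foot v0 d0 b = (a - b) • hz d0 := by
  unfold foot
  rw [sub_smul]
  abel

lemma t3_cl_foot (v0 d0 : Pt) (a : ℤ) : cl (foot v0 d0 a) = cl v0 := by
  unfold foot
  rw [cl_add, cl_smul, t3_cl_hz, mul_zero, add_zero]

lemma t3_ip_foot (v0 d0 : Pt) (a b : ℤ) : ip (foot v0 d0 a - foot v0 d0 b) d0 = 0 := by
  rw [t3_foot_sub, ip_smul_left, t3_ip_hz, mul_zero]

lemma t3_cross_smul (d0 p : Pt) (n : ℤ) : cross d0 (n • p) = n * cross d0 p := by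
  simp only [cross, Prod.smul_fst, Prod.smul_snd, smul_eq_mul]
  ring

lemma t3_cross_foot {d0 : Pt} (h0 : d0 ∈ dirs) (v0 : Pt) (a b : ℤ) :
    cross d0 (foot v0 d0 a - foot v0 d0 b) = -2 * (a - b) := by
  rw [t3_foot_sub, t3_cross_smul, t3_cross_hz h0]
  ring

/-- explorer 0 does not land on the right if there is a walker from foot 1. -/
lemma dnr_empty {Ω : Finset Pt} {v0 d0 : Pt} (h0 : GoodDom Ω (foot v0 d0 0) d0) (h1 : GoodDom Ω (foot v0 d0 1) d0)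
    {X : Set Pt} {s : List Bool} (hs : s ∈ Br (Ω : Set Pt) ∅ (foot v0 d0 1) d0) (hX : vis (foot v0 d0 1) d0 s ⊆ X) :
    gr Ω (foot v0 d0 0) d0 (DnR (Ω : Set Pt) X (foot v0 d0 0) d0) = 0 := by
  unfold gr
  apply Finset.sum_eq_zero
  intro t ht
  exfalso
  rw [mem_fam] at ht
  obtain ⟨_, htd, htc⟩ := ht
  have hc : cross d0 (foot v0 d0 0 - foot v0 d0 1) = 2 := by
    rw [t3_cross_foot h0.dir]
    ring
  have key := far_land h0 h1 (by rw [t3_cl_foot, t3_cl_foot]) (t3_ip_foot _ _ _ _) (by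
    intro he
    rw [he, sub_self] at hc
    simp [cross] at hc) hs hX htd
  rw [hc] at key
  have k1 := key.1 (by norm_num)
  have hex : t ∈ exits Ω (foot v0 d0 0) d0 := mem_exits.2 ⟨saw_arr htd.1, htd.2.1⟩
  have hlev := h0.bottom_level hex htd.2.2
  have hpar := xy_parity (foot v0 d0 0) d0 (tip (foot v0 d0 0) d0 t)
  unfold xy at hpar
  simp only [] at hpar
  rw [hlev] at hpar
  have e : cross d0 (tip (foot v0 d0 0) d0 t - foot v0 d0 1) =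
      cross d0 (tip (foot v0 d0 0) d0 t - foot v0 d0 0) + cross d0 (foot v0 d0 0 - foot v0 d0 1) := by
    simp only [cross, Prod.fst_sub, Prod.snd_sub]
    ring
  rw [e, hc] at k1
  omega

lemma sin_vals : Real.sin (4 * (Real.pi / 8)) = 1 ∧ Real.sin (2 * (Real.pi / 8)) = 1 / Real.sqrt 2 ∧
    Real.sin (8 * (Real.pi / 8)) = 0 ∧ Real.sin (5 * (Real.pi / 8)) = Real.sin (3 * Real.pi / 8) := by
  refine ⟨?_, ?_, ?_, ?_⟩
  · rw [show (4 : ℝ) * (Real.pi / 8) = Real.pi / 2 by ring, Real.sin_pi_div_two]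
  · rw [show (2 : ℝ) * (Real.pi / 8) = Real.pi / 4 by ring, Real.sin_pi_div_four]
    have h2 : Real.sqrt 2 * Real.sqrt 2 = 2 := Real.mul_self_sqrt (by norm_num)
    have h3 : 0 < Real.sqrt 2 := Real.sqrt_pos.2 (by norm_num)
    field_simp
    linarith
  · rw [show (8 : ℝ) * (Real.pi / 8) = Real.pi by ring, Real.sin_pi]
  · rw [show (5 : ℝ) * (Real.pi / 8) = Real.pi - 3 * Real.pi / 8 by ring, Real.sin_pi_sub]

/-- T3 in a finite domain. -/
theorem T3_fin {Ω : Finset Pt} {v0 d0 : Pt} {d : ℕ} (hd : 1 ≤ d)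
    (hg : ∀ k : ℤ, k = 0 ∨ k = 1 ∨ k = 1 + d → GoodDom Ω (foot v0 d0 k) d0) :
    Real.sin (Real.pi / 8) * ((P2 (Ω : Set Pt) v0 d0 0 1 ∅).toReal - (P3 (Ω : Set Pt) v0 d0 0 1 (1 + d) ∅).toReal) -
        (Q2 (Ω : Set Pt) v0 d0 0 1 (fun Z => DnL (Ω : Set Pt) Z (foot v0 d0 (1 + d)) d0) ∅).toReal +
        (Q2 (Ω : Set Pt) v0 d0 0 1 (fun Z => DnR (Ω : Set Pt) Z (foot v0 d0 (1 + d)) d0) ∅).toReal / Real.sqrt 2 ≤
      Real.sin (3 * Real.pi / 8) *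
        ((P2 (Ω : Set Pt) v0 d0 0 (1 + d) ∅).toReal - (P2 (Ω : Set Pt) v0 d0 1 (1 + d) ∅).toReal) +
        (Q2 (Ω : Set Pt) v0 d0 1 (1 + d) (fun Z => Lat (Ω : Set Pt) Z (foot v0 d0 0) d0) ∅).toReal +
        (Q2 (Ω : Set Pt) v0 d0 0 1 (fun Z => Lat (Ω : Set Pt) Z (foot v0 d0 (1 + d)) d0) ∅).toReal := by
  have g0 := hg 0 (Or.inl rfl)
  have g1 := hg 1 (Or.inr (Or.inl rfl))
  have gd := hg (1 + d) (Or.inr (Or.inr rfl))
  have hdz : (1 : ℤ) ≤ d := by exact_mod_cast hd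
  rw [P2_toReal, P2_toReal, P2_toReal, P3_toReal, Q2_toReal (fun Z => dnl_arr Ω Z _ _),
    Q2_toReal (fun Z => dnr_arr Ω Z _ _), Q2_toReal (fun Z => lat_arr Ω Z _ _), Q2_toReal (fun Z => lat_arr Ω Z _ _)]
  obtain ⟨p0, hp0⟩ : ∃ p, p = foot v0 d0 0 := ⟨_, rfl⟩
  obtain ⟨p1, hp1⟩ : ∃ p, p = foot v0 d0 1 := ⟨_, rfl⟩
  obtain ⟨pd, hpd⟩ : ∃ p, p = foot v0 d0 (1 + d) := ⟨_, rfl⟩
  have M := slit3 g1 p0 pd 3
  have L := slit3 g0 p1 pd 5
  have R := slit3 gd p0 p1 1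
  -- unreachable walkers
  have far1 := zh_far (v1 := p0) (v2 := p1) (v3 := pd) (by rw [hp1]; exact g1) (by rw [hp0, hp1, t3_cl_foot, t3_cl_foot])
    (by rw [hpd, hp1, t3_cl_foot, t3_cl_foot]) (by rw [hp0, hp1]; exact t3_ip_foot _ _ _ _)
    (by rw [hpd, hp1]; exact t3_ip_foot _ _ _ _)
    (Or.inl ⟨by rw [hp0, hp1, t3_cross_foot g0.dir]; norm_num, by rw [hpd, hp1, t3_cross_foot g0.dir]; linarith⟩)
    (fun w => Real.sin ((5 + w) * (Real.pi / 8)))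
  have far2 := zh_far (v1 := pd) (v2 := p1) (v3 := p0) (by rw [hp1]; exact g1) (by rw [hpd, hp1, t3_cl_foot, t3_cl_foot])
    (by rw [hp0, hp1, t3_cl_foot, t3_cl_foot]) (by rw [hpd, hp1]; exact t3_ip_foot _ _ _ _)
    (by rw [hp0, hp1]; exact t3_ip_foot _ _ _ _)
    (Or.inr ⟨by rw [hpd, hp1, t3_cross_foot g0.dir]; linarith, by rw [hp0, hp1, t3_cross_foot g0.dir]; norm_num⟩)
    (fun w => Real.sin ((1 + w) * (Real.pi / 8)))
  -- swaps
  have swap1 : ∀ X, Zh Ω X p1 p0 d0 (fun w => Real.sin ((3 + w) * (Real.pi / 8))) =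
      Zh Ω X p0 p1 d0 (fun w => Real.sin ((5 + w) * (Real.pi / 8))) := by
    intro X
    have := swap_sum (X := X) (p := p0) (q := p1) (by rw [hp0]; exact g0) (by rw [hp1]; exact g1)
      (by rw [hp0, hp1]; exact t3_ip_foot _ _ _ _) (by rw [hp0, hp1, t3_cl_foot, t3_cl_foot])
      (by rw [hp0, hp1, t3_cross_foot g0.dir]; norm_num) (fun w => Real.sin ((3 + w) * (Real.pi / 8)))
    rw [this]
    congr 1
    funext w
    congr 1
    push_cast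
    ring
  have swap2 : ∀ X, Zh Ω X pd p1 d0 (fun w => Real.sin ((1 + w) * (Real.pi / 8))) =
      Zh Ω X p1 pd d0 (fun w => Real.sin ((3 + w) * (Real.pi / 8))) := by
    intro X
    have := swap_sum (X := X) (p := p1) (q := pd) (by rw [hp1]; exact g1) (by rw [hpd]; exact gd)
      (by rw [hpd, hp1]; exact t3_ip_foot _ _ _ _) (by rw [hpd, hp1, t3_cl_foot, t3_cl_foot])
      (by rw [hpd, hp1, t3_cross_foot g0.dir]; linarith) (fun w => Real.sin ((1 + w) * (Real.pi / 8)))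
    rw [this]
    congr 1
    funext w
    congr 1
    push_cast
    ring
  obtain ⟨s4, s2, s8, s5⟩ := sin_vals
  have hpi := Real.pi_pos
  -- free parts
  have FM : Real.sin (3 * Real.pi / 8) * obob Ω p0 p1 pd d0 (fun Z => Br (Ω : Set Pt) Z pd d0) ≤
      ob Ω p0 d0 (ob Ω pd d0 (fr Ω p1 d0 (fun w => Real.sin ((3 + w) * (Real.pi / 8))))) ∅ := by
    rw [← obob_br_last Ω p0 pd p1 d0]
    unfold obob
    rw [← ob_mul]
    apply ob_mono'
    intro s _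
    rw [← ob_mul]
    apply ob_mono'
    intro t _
    rw [fr_eq (by rw [hp1]; exact g1)]
    have h1 := lat_nonneg (by rw [hp1]; exact g1 : GoodDom Ω p1 d0) (fun w => Real.sin ((3 + w) * (Real.pi / 8)))
      (∅ ∪ vis p0 d0 s ∪ vis pd d0 t)
      (by push_cast; exact Real.sin_nonneg_of_nonneg_of_le_pi (by linarith) (by linarith))
      (by push_cast; exact Real.sin_nonneg_of_nonneg_of_le_pi (by linarith) (by linarith))
      (by push_cast; exact Real.sin_nonneg_of_nonneg_of_le_pi (by linarith) (by linarith))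
      (by push_cast; exact Real.sin_nonneg_of_nonneg_of_le_pi (by linarith) (by linarith))
    have h2 : 0 ≤ Real.sin ((3 + ((3 : ℤ) : ℝ)) * (Real.pi / 8)) := by
      push_cast
      exact Real.sin_nonneg_of_nonneg_of_le_pi (by linarith) (by linarith)
    have h3 : Real.sin ((3 + ((-3 : ℤ) : ℝ)) * (Real.pi / 8)) = 0 := by
      push_cast
      rw [show (3 + (-3 : ℝ)) * (Real.pi / 8) = 0 by ring, Real.sin_zero]
    have h4 : Real.sin ((3 + ((0 : ℤ) : ℝ)) * (Real.pi / 8)) = Real.sin (3 * Real.pi / 8) := by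
      congr 1
      push_cast
      ring
    have h5 := mul_nonneg h2 (gr_nonneg Ω p1 d0 (DnL (Ω : Set Pt) (∅ ∪ vis p0 d0 s ∪ vis pd d0 t) p1 d0))
    simp only [h3, h4, zero_mul, add_zero]
    linarith
  have FL : ob Ω p1 d0 (ob Ω pd d0 (fr Ω p0 d0 (fun w => Real.sin ((5 + w) * (Real.pi / 8))))) ∅ ≤
      Real.sin (3 * Real.pi / 8) * obob Ω p0 p1 pd d0 (fun Z => Br (Ω : Set Pt) Z pd d0) +
        obob Ω p1 pd p0 d0 (fun Z => Lat (Ω : Set Pt) Z p0 d0) := by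
    have e1 : obob Ω p0 p1 pd d0 (fun Z => Br (Ω : Set Pt) Z pd d0) =
        obob Ω p1 pd p0 d0 (fun Z => Br (Ω : Set Pt) Z p0 d0) := by
      rw [obob_comm Ω p0 p1 pd d0 _ (fun Z => br_arr Ω Z _ _), obob_br_last]
    rw [e1]
    have e2 := obob_lin Ω p1 pd d0 (fun Z => gr Ω p0 d0 (Br (Ω : Set Pt) Z p0 d0))
      (fun Z => gr Ω p0 d0 (Lat (Ω : Set Pt) Z p0 d0)) (Real.sin (3 * Real.pi / 8)) 1
    rw [one_mul] at e2
    unfold obob
    rw [← e2]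
    apply ob_mono'
    intro s hs
    apply ob_mono'
    intro t _
    rw [fr_eq (by rw [hp0]; exact g0)]
    have h1 := lat_le (Ω := Ω) (p := p0) (d0 := d0) (fun w => Real.sin ((5 + w) * (Real.pi / 8)))
      (∅ ∪ vis p1 d0 s ∪ vis pd d0 t) (fun w => Real.sin_le_one _)
    have h2 : Real.sin ((5 + ((3 : ℤ) : ℝ)) * (Real.pi / 8)) = 0 := by
      push_cast
      rw [← s8]
      congr 1
      ring
    have h3 : gr Ω p0 d0 (DnR (Ω : Set Pt) (∅ ∪ vis p1 d0 s ∪ vis pd d0 t) p0 d0) = 0 := by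
      rw [hp0]
      apply dnr_empty g0 g1 (s := s)
      · rw [← hp1]
        exact hs
      · rw [← hp1]
        intro x hx
        exact Or.inl (Or.inr hx)
    have h4 : Real.sin ((5 + ((0 : ℤ) : ℝ)) * (Real.pi / 8)) = Real.sin (3 * Real.pi / 8) := by
      rw [← s5]
      congr 1
      push_cast
      ring
    simp only [h2, h3, h4, zero_mul, mul_zero, add_zero]
    linarith
  have FR : ob Ω p0 d0 (ob Ω p1 d0 (fr Ω pd d0 (fun w => Real.sin ((1 + w) * (Real.pi / 8))))) ∅ ≤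
      Real.sin (Real.pi / 8) * obob Ω p0 p1 pd d0 (fun Z => Br (Ω : Set Pt) Z pd d0) +
        obob Ω p0 p1 pd d0 (fun Z => DnL (Ω : Set Pt) Z pd d0) -
        obob Ω p0 p1 pd d0 (fun Z => DnR (Ω : Set Pt) Z pd d0) / Real.sqrt 2 +
        obob Ω p0 p1 pd d0 (fun Z => Lat (Ω : Set Pt) Z pd d0) := by
    have e2 := obob_lin Ω p0 p1 d0 (fun Z => gr Ω pd d0 (Br (Ω : Set Pt) Z pd d0))
      (fun Z => gr Ω pd d0 (DnL (Ω : Set Pt) Z pd d0)) (Real.sin (Real.pi / 8)) 1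
    have e3 := obob_lin Ω p0 p1 d0 (fun Z => gr Ω pd d0 (DnR (Ω : Set Pt) Z pd d0))
      (fun Z => gr Ω pd d0 (Lat (Ω : Set Pt) Z pd d0)) (-(1 / Real.sqrt 2)) 1
    have e4 := obob_lin Ω p0 p1 d0 (fun Z => Real.sin (Real.pi / 8) * gr Ω pd d0 (Br (Ω : Set Pt) Z pd d0) +
      1 * gr Ω pd d0 (DnL (Ω : Set Pt) Z pd d0)) (fun Z => -(1 / Real.sqrt 2) * gr Ω pd d0 (DnR (Ω : Set Pt) Z pd d0) +
      1 * gr Ω pd d0 (Lat (Ω : Set Pt) Z pd d0)) 1 1
    rw [e2, e3] at e4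
    have e5 : Real.sin (Real.pi / 8) * obob Ω p0 p1 pd d0 (fun Z => Br (Ω : Set Pt) Z pd d0) +
        obob Ω p0 p1 pd d0 (fun Z => DnL (Ω : Set Pt) Z pd d0) -
        obob Ω p0 p1 pd d0 (fun Z => DnR (Ω : Set Pt) Z pd d0) / Real.sqrt 2 +
        obob Ω p0 p1 pd d0 (fun Z => Lat (Ω : Set Pt) Z pd d0) =
        ob Ω p0 d0 (ob Ω p1 d0 (fun Z => 1 * (Real.sin (Real.pi / 8) * gr Ω pd d0 (Br (Ω : Set Pt) Z pd d0) +
      1 * gr Ω pd d0 (DnL (Ω : Set Pt) Z pd d0)) + 1 * (-(1 / Real.sqrt 2) * gr Ω pd d0 (DnR (Ω : Set Pt) Z pd d0) +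
      1 * gr Ω pd d0 (Lat (Ω : Set Pt) Z pd d0)))) ∅ := by
      rw [e4]
      unfold obob
      ring
    rw [e5]
    apply ob_mono'
    intro s _
    apply ob_mono'
    intro t _
    rw [fr_eq (by rw [hpd]; exact gd)]
    have h1 := lat_le (Ω := Ω) (p := pd) (d0 := d0) (fun w => Real.sin ((1 + w) * (Real.pi / 8)))
      (∅ ∪ vis p0 d0 s ∪ vis p1 d0 t) (fun w => Real.sin_le_one _)
    have h2 : Real.sin ((1 + ((3 : ℤ) : ℝ)) * (Real.pi / 8)) = 1 := by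
      rw [show (1 + ((3 : ℤ) : ℝ)) * (Real.pi / 8) = 4 * (Real.pi / 8) by push_cast; ring]
      exact s4
    have h3 : Real.sin ((1 + ((-3 : ℤ) : ℝ)) * (Real.pi / 8)) = -(1 / Real.sqrt 2) := by
      rw [← s2, ← Real.sin_neg]
      congr 1
      push_cast
      ring
    have h4 : Real.sin ((1 + ((0 : ℤ) : ℝ)) * (Real.pi / 8)) = Real.sin (Real.pi / 8) := by
      congr 1
      push_cast
      ring
    simp only [h2, h3, h4]
    linarith
  -- assembly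
  have m1 : Real.sin (3 * (Real.pi / 8)) = Real.sin (3 * Real.pi / 8) := by
    congr 1
    ring
  have m2 : Real.sin (1 * (Real.pi / 8)) = Real.sin (Real.pi / 8) := by
    rw [one_mul]
  rw [← hp1] at M
  rw [← hp0] at L
  rw [← hpd] at R
  rw [m1] at M
  rw [s5, far1, add_zero] at L
  rw [m2, far2, add_zero] at R
  simp only [swap1] at M
  simp only [swap2] at R
  rw [← hp0, ← hp1, ← hpd]
  linarith

end HexObs
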