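import Pool.Agent.HexObs.Loop3
import Mathlib.Data.Set.Finite.List

set_option autoImplicit false

namespace HexObs

open Complex Finset

lemma ds_congr {d0 : Pt} {τ τ' : ℕ → Bool} (i : ℕ) (h : ∀ k, k < i → τ k = τ' k) :
    ds d0 τ i = ds d0 τ' i := by
  induction i with
  | zero => rfl
  | succ i ih => rw [ds_succ, ds_succ, ih (fun k hk => h k (by omega)), h i (by omega)]

lemma vs_congr {v0 d0 : Pt} {τ τ' : ℕ → Bool} (i : ℕ) (h : ∀ k, k + 1 < i → τ k = τ' k) :
    vs v0 d0 τ i = vs v0 d0 τ' i := by
  induction i with
  | zero => rfl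
  | succ i ih =>
    rw [vs_succ, vs_succ, ih (fun k hk => h k (by omega)), ds_congr i (fun k hk => h k (by omega))]

lemma ds_shift (d0 : Pt) (τ : ℕ → Bool) (a i : ℕ) :
    ds d0 τ (a + i) = ds (ds d0 τ a) (fun k => τ (a + k)) i := by
  induction i with
  | zero => rfl
  | succ i ih => rw [← add_assoc, ds_succ, ds_succ, ih]

lemma vs_shift (v0 d0 : Pt) (τ : ℕ → Bool) (a i : ℕ) :
    vs v0 d0 τ (a + i) = vs (vs v0 d0 τ a) (ds d0 τ a) (fun k => τ (a + k)) i := by
  induction i with
  | zero => rfl
  | succ i ih => rw [← add_assoc, vs_succ, vs_succ, ih, ds_shift]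

/-- the turns of a word as a sequence. -/
def tf (t : List Bool) (i : ℕ) : Bool := t.getD i true

lemma tf_append_left {t s : List Bool} {i : ℕ} (h : i < t.length) : tf (t ++ s) i = tf t i := by
  unfold tf
  rw [List.getD_append _ _ _ _ h]

lemma tf_append_right {t s : List Bool} (i : ℕ) : tf (t ++ s) (t.length + i) = tf s i := by
  unfold tf
  rw [List.getD_append_right _ _ _ _ (by omega)]
  congr 1
  omega

/-- the vertex number i of the walk with the turns t: the first step goes from v0 to v0 + d0, and the walk
turns at the vertices number 1, ..., t.length. -/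
def vx (v0 d0 : Pt) (t : List Bool) (i : ℕ) : Pt := vs v0 d0 (tf t) i

/-- the direction of the step number i. -/
def dx (d0 : Pt) (t : List Bool) (i : ℕ) : Pt := ds d0 (tf t) i

lemma vx_append {v0 d0 : Pt} {t s : List Bool} {i : ℕ} (h : i ≤ t.length + 1) :
    vx v0 d0 (t ++ s) i = vx v0 d0 t i :=
  vs_congr i (fun _ hk => tf_append_left (by omega))

lemma dx_append {d0 : Pt} {t s : List Bool} {i : ℕ} (h : i ≤ t.length) :
    dx d0 (t ++ s) i = dx d0 t i :=
  ds_congr i (fun _ hk => tf_append_left (by omega))

/-- The walk with turns t is self-avoiding and has its inner vertices in the domain. The last vertex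
(number t.length + 1) is free. -/
structure IsArr (Ω : Finset Pt) (v0 d0 : Pt) (t : List Bool) : Prop where
  mem : ∀ i, 1 ≤ i → i ≤ t.length → vx v0 d0 t i ∈ Ω
  inj : ∀ i k, i < k → k ≤ t.length → vx v0 d0 t i ≠ vx v0 d0 t k

lemma IsArr.length_le {Ω : Finset Pt} {v0 d0 : Pt} {t : List Bool} (h : IsArr Ω v0 d0 t) :
    t.length ≤ Ω.card := by
  have h1 : ((Finset.range t.length).image (fun i => vx v0 d0 t (i + 1))).card = t.length := by
    rw [Finset.card_image_of_injOn, Finset.card_range]
    intro i hi k hk hik
    rw [Finset.mem_coe, Finset.mem_range] at hi hk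
    rcases lt_trichotomy i k with h2 | h2 | h2
    · exact absurd hik (h.inj (i + 1) (k + 1) (by omega) (by omega))
    · exact h2
    · exact absurd hik.symm (h.inj (k + 1) (i + 1) (by omega) (by omega))
  rw [← h1]
  apply Finset.card_le_card
  intro v hv
  rw [Finset.mem_image] at hv
  obtain ⟨i, hi, rfl⟩ := hv
  rw [Finset.mem_range] at hi
  exact h.mem (i + 1) (by omega) (by omega)

lemma arr_finite (Ω : Finset Pt) (v0 d0 : Pt) : {t : List Bool | IsArr Ω v0 d0 t}.Finite :=
  (List.finite_length_le Bool Ω.card).subset (fun _ ht => IsArr.length_le ht)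

/-- all self-avoiding walks in the domain. -/
noncomputable def arr (Ω : Finset Pt) (v0 d0 : Pt) : Finset (List Bool) := (arr_finite Ω v0 d0).toFinset

lemma mem_arr {Ω : Finset Pt} {v0 d0 : Pt} {t : List Bool} : t ∈ arr Ω v0 d0 ↔ IsArr Ω v0 d0 t := by
  unfold arr
  rw [Set.Finite.mem_toFinset]
  exact Iff.rfl

/-- the last vertex of the walk. -/
def tip (v0 d0 : Pt) (t : List Bool) : Pt := vx v0 d0 t (t.length + 1)

/-- the walks that leave the domain with their last step. -/
noncomputable def exits (Ω : Finset Pt) (v0 d0 : Pt) : Finset (List Bool) :=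
  (arr Ω v0 d0).filter (fun t => tip v0 d0 t ∉ Ω)

lemma isArr_nil (Ω : Finset Pt) (v0 d0 : Pt) : IsArr Ω v0 d0 [] := by
  constructor
  · intro i h1 h2
    simp at h2
    omega
  · intro i k h1 h2
    simp at h2
    omega

lemma isArr_append_one {Ω : Finset Pt} {v0 d0 : Pt} {t : List Bool} {b : Bool} :
    IsArr Ω v0 d0 (t ++ [b]) ↔
      IsArr Ω v0 d0 t ∧ tip v0 d0 t ∈ Ω ∧ ∀ i, i ≤ t.length → vx v0 d0 t i ≠ tip v0 d0 t := by
  have hl : (t ++ [b]).length = t.length + 1 := by simp
  constructor
  · intro h
    refine ⟨⟨?_, ?_⟩, ?_, ?_⟩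
    · intro i h1 h2
      have := h.mem i h1 (by omega)
      rwa [vx_append (by omega)] at this
    · intro i k h1 h2
      have := h.inj i k h1 (by omega)
      rwa [vx_append (by omega), vx_append (by omega)] at this
    · have := h.mem (t.length + 1) (by omega) (by omega)
      rwa [vx_append (by omega)] at this
    · intro i h1
      have := h.inj i (t.length + 1) (by omega) (by omega)
      rwa [vx_append (by omega), vx_append (by omega)] at this
  · rintro ⟨h, h1, h2⟩
    constructor
    · intro i h3 h4
      rw [hl] at h4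
      rw [vx_append (by omega)]
      rcases Nat.lt_or_ge t.length i with h5 | h5
      · have : i = t.length + 1 := by omega
        rw [this]
        exact h1
      · exact h.mem i h3 h5
    · intro i k h3 h4
      rw [hl] at h4
      rw [vx_append (by omega), vx_append (by omega)]
      rcases Nat.lt_or_ge t.length k with h5 | h5
      · have : k = t.length + 1 := by omega
        rw [this]
        exact h2 i (by omega)
      · exact h.inj i k h3 h5

/-- the winding of a word, in units of 60 degrees. -/
def wind (t : List Bool) : ℤ := (t.map sgn).sum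

lemma wind_append (t s : List Bool) : wind (t ++ s) = wind t + wind s := by
  unfold wind
  rw [List.map_append, List.sum_append]

lemma wind_sum (t : List Bool) : wind t = ∑ i ∈ range t.length, sgn (tf t i) := by
  induction t with
  | nil => rfl
  | cons b t ih =>
    have h1 : wind (b :: t) = sgn b + wind t := by
      unfold wind
      simp
    rw [h1, ih, List.length_cons, Finset.sum_range_succ']
    have h2 : ∀ i, tf (b :: t) (i + 1) = tf t i := by
      intro i
      unfold tf
      rfl
    have h3 : tf (b :: t) 0 = b := rfl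
    simp only [h2, h3]
    ring

end HexObs
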